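import Pool.Agent.MP_93f6c7_pr.K.Flip

/-! The improvement step among colourings that only use the labels of level zero. -/

set_option autoImplicit false
set_option linter.unusedSectionVars false
open MeasureTheory Function
open scoped Classical

namespace Pool.Agent.MP_93f6c7_pr.K

variable {V : Type} [MeasurableSpace V] [DiscreteMeasurableSpace V] [Countable V]
  {G : SimpleGraph V} [G.LocallyFinite] {Δ : ℕ} [E : Env G]

namespace BaseImpX

lemma hol_nonneg (c : FC G Δ) (o : V) : 0 ≤ c.hol o := Finset.sum_nonneg fun _ _ => Pr_nonneg _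

lemma chg_nonneg (c c' : FC G Δ) (o : V) : 0 ≤ c.chg c' o := Pr_nonneg _

lemma chg_self (c : FC G Δ) (o : V) : c.chg c o = 0 := Pr_false fun _ h => h.choose_spec rfl

lemma hol_le (c c' : FC G Δ) (o : V) : c'.hol o ≤ c.hol o + Δ * c.chg c' o := by
  have : ∀ p : Fin Δ, Pr (muE G) (fun y => c'.σ y p o = o) ≤
      Pr (muE G) (fun y => c.σ y p o = o) + c.chg c' o := fun p =>
    Pr_or_le fun y h => by
      by_cases e : c'.σ y p o = c.σ y p o
      · exact Or.inl (e.symm.trans h)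
      · exact Or.inr ⟨p, e⟩
  refine (Finset.sum_le_sum fun p _ => this p).trans (le_of_eq ?_)
  rw [Finset.sum_add_distrib, Finset.sum_const, Finset.card_univ, Fintype.card_fin, nsmul_eq_mul]
  rfl

lemma chg_tri (c c' c'' : FC G Δ) (o : V) : c.chg c'' o ≤ c.chg c' o + c'.chg c'' o :=
  Pr_or_le fun y h => by
    obtain ⟨p, hp⟩ := h
    by_cases e : c''.σ y p o = c'.σ y p o
    · exact Or.inl ⟨p, by rwa [← e]⟩
    · exact Or.inr ⟨p, e⟩

lemma chg_of_near {c c' : FC G Δ} {o : V} {η : ℝ} (hc : c.Base) (h : c.Near c' o η) :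
    c.chg c' o ≤ η := by
  obtain ⟨j, -, h0, h⟩ := h
  refine le_trans (le_of_eq (Pr_congr fun y => ?_)) h
  rw [hc (reix j y) y (base_reix h0 y)]

lemma toBase {o : V} (hL : LocalStmt G Δ o) (hS : SubstStmt G Δ o) {c : FC G Δ} (hc : c.Base)
    (c' : FC G Δ) {t ε : ℝ} (ht : 0 ≤ t) (hε : 0 < ε) :
    ∃ c'' : FC G Δ, c''.Base ∧ c''.hol o + t * c.chg c'' o ≤ c'.hol o + t * c.chg c' o + ε := by
  have hD : (0 : ℝ) ≤ Δ := Nat.cast_nonneg _
  have hp : 0 < 2 * ((Δ : ℝ) + t + 1) := by positivity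
  obtain ⟨R, c1, h1, h2⟩ := hL c' (ε / (2 * (Δ + t + 1))) (div_pos hε hp)
  obtain ⟨c'', h3, h4⟩ := hS c c1 R hc h1 t (ε / 2) ht (by positivity)
  refine ⟨c'', h3, h4.trans ?_⟩
  have a1 := hol_le c' c1 o
  have a2 := mul_le_mul_of_nonneg_left (chg_tri c c' c1 o) ht
  have a3 := chg_nonneg c' c1 o
  rw [le_div_iff₀ hp] at h2
  nlinarith

end BaseImpX

open BaseImpX in
theorem baseImprove (o : V) (hI : ImproveStmt G Δ o) (hL : LocalStmt G Δ o)
    (hS : SubstStmt G Δ o) : BaseImproveStmt G Δ o := by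
  obtain ⟨κ, hκ, h1, C, N₀, h2⟩ := hI
  refine ⟨κ / 2, by positivity, fun c hc => ?_, 4 * max C 1 / κ, max N₀ 1, fun N hN c hc hh => ?_⟩
  · rcases (hol_nonneg c o).eq_or_lt with h | h
    · exact ⟨c, hc, by rw [← h, mul_zero]⟩
    · obtain ⟨c', -, a⟩ := h1 c
      obtain ⟨c'', b1, b2⟩ := toBase hL hS hc c' (t := 0) (ε := κ * c.hol o / 2) le_rfl
        (by positivity)
      exact ⟨c'', b1, by linarith⟩
  · have hN0 : (0 : ℝ) < N := by exact_mod_cast (le_max_right _ _).trans hN
    have hC : (0 : ℝ) < max C 1 := lt_max_of_lt_right one_pos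
    rcases (hol_nonneg c o).eq_or_lt with h | h
    · exact ⟨c, hc, by rw [chg_self]; positivity, by rw [← h, mul_zero]⟩
    · obtain ⟨c', a1, a2⟩ := h2 N ((le_max_left _ _).trans hN) c hh
      have a3 : c.chg c' o ≤ max C 1 / N :=
        (chg_of_near hc a1).trans (div_le_div_of_nonneg_right (le_max_left _ _) hN0.le)
      have ht : 0 < κ * c.hol o * N / (4 * max C 1) := by positivity
      obtain ⟨c'', b1, b2⟩ := toBase hL hS hc c' (ε := κ * c.hol o / 4) ht.le (by positivity)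
      have a4 := mul_le_mul_of_nonneg_left a3 ht.le
      have e : κ * c.hol o * N / (4 * max C 1) * (max C 1 / N) = κ * c.hol o / 4 := by
        field_simp
      have a5 := mul_nonneg ht.le (chg_nonneg c c'' o)
      have a6 := hol_nonneg c'' o
      have a7 := mul_pos hκ h
      refine ⟨c'', b1, le_of_mul_le_mul_left ?_ ht, by linarith⟩
      have e' : κ * c.hol o * N / (4 * max C 1) * (4 * max C 1 / κ / N) = c.hol o := by
        field_simp
      linarith

end Pool.Agent.MP_93f6c7_pr.K
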