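import Pool.Agent.MP_93f6c7_pr.K.ChainProbS

/-! Global estimates: holes, cost, success and conflicts. -/

set_option autoImplicit false
set_option linter.unusedSectionVars false
set_option linter.unusedVariables false
open MeasureTheory Function
open scoped Classical

namespace Pool.Agent.MP_93f6c7_pr.K

variable {V : Type} [MeasurableSpace V] [DiscreteMeasurableSpace V] [Countable V]
  {G : SimpleGraph V} [G.LocallyFinite] {Δ : ℕ}

namespace Setup

variable [Env G] [Sides G] {S : Setup G Δ} {o : V}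

/-- Density of sources. -/
noncomputable def s0 (S : Setup G Δ) (o : V) : ℝ := Pr (muE G) (fun x => S.Sr x o)

lemma s0_le (S : Setup G Δ) (o : V) : S.s0 o ≤ S.c.hol o :=
  (Pr_mono fun x hx => hx.2.1).trans (Finset.single_le_sum
    (f := fun p => Pr (muE G) (fun y => S.c.σ y p o = o)) (fun _ _ => Pr_nonneg _)
    (Finset.mem_univ S.b))

lemma pr_sr_back (hs : HasSwaps G) (S : Setup G Δ) (o : V) (j : ℕ) :
    Pr (muE G) (fun x => S.Sr x (back (S.c.σ x S.a) (S.c.σ x S.b) j o)) = S.s0 o :=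
  Pr_mtp_back hs actE_mp S.ip_Sr (S.c.ec.ei _) (S.c.ec.ei _) j o

lemma pr_Lv_le (S : Setup G Δ) (o : V) :
    Pr ((muE G).prod (nu V)) (fun z => S.Lv z o) ≤ S.s0 o :=
  (Pr_mono fun z hz => hz.1).trans (Pr_fst (S.ip_Sr.at o)).le

lemma pr_out (hs : HasSwaps G) (S : Setup G Δ) (o : V) :
    Pr ((muE G).prod (nu V)) (fun z => Out (S.c.σ z.1 S.a) (S.c.σ z.1 S.b) S.L (S.Lv z) (S.k' z)
      (S.c.σ z.1 S.a) o) +
    Pr ((muE G).prod (nu V)) (fun z => Out (S.c.σ z.1 S.a) (S.c.σ z.1 S.b) S.L (S.Lv z) (S.k' z)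
      (S.c.σ z.1 S.b) o) ≤ Pr ((muE G).prod (nu V)) (fun z => S.Lv z o) := by
  have hip : ∀ j, IP (G := G) act2 (fun z v => S.Lv z v ∧ S.k' z v = j + 1) := fun j =>
    S.ip_Lv.and (S.in_k' (fun n => n = j + 1))
  have key : ∀ p, p = S.a ∨ p = S.b →
      Pr ((muE G).prod (nu V)) (fun z => Out (S.c.σ z.1 S.a) (S.c.σ z.1 S.b) S.L (S.Lv z) (S.k' z)
        (S.c.σ z.1 p) o) ≤ ∑ j ∈ Finset.range (S.L + 1), ind (alt S.a S.b j = p) *
          Pr ((muE G).prod (nu V)) (fun z => S.Lv z o ∧ S.k' z o = j + 1) := by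
    intro p hp
    refine (Pr_le_sum (s := Finset.range (S.L + 1)) (F := fun j z => alt S.a S.b j = p ∧
      (S.Lv z (back (S.c.σ z.1 S.a) (S.c.σ z.1 S.b) j o) ∧
        S.k' z (back (S.c.σ z.1 S.a) (S.c.σ z.1 S.b) j o) = j + 1)) fun z hz => ?_).trans
      (Finset.sum_le_sum fun j _ => ?_)
    · obtain ⟨j, h1, h2, h3, h4⟩ := (S.ok z).out_elim (fun v hv => (S.k'_range z v hv).2) hp hz
      exact ⟨j, by simpa [Nat.lt_succ_iff] using h1, h4, h2, h3⟩
    · by_cases hj : alt S.a S.b j = p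
      · rw [ind_pos hj, one_mul,
          ← Pr_mtp_back hs act2E_mp (hip j) (S.ec_σ.ei S.a) (S.ec_σ.ei S.b) j o]
        exact Pr_mono fun z hz => hz.2
      · rw [ind_neg hj, zero_mul, Pr_false fun z hz => hj hz.1]
  refine (add_le_add (key _ (Or.inl rfl)) (key _ (Or.inr rfl))).trans ?_
  rw [← Finset.sum_add_distrib]
  refine le_trans (Finset.sum_le_sum fun j _ => ?_) (sum_Pr_le (s := Finset.range (S.L + 1))
    (F := fun j z => S.Lv z o ∧ S.k' z o = j + 1) (S.ip_Lv.at o) (fun j _ => (hip j).at o)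
    (fun z j _ h => h.1) fun z i _ j _ h1 h2 => by have := h1.2; have := h2.2; omega)
  rw [← add_mul]
  refine mul_le_of_le_one_left (Pr_nonneg _) ?_
  by_cases hj : alt S.a S.b j = S.a
  · rw [ind_pos hj, ind_neg (by rw [hj]; exact S.ab)]; norm_num
  · rw [ind_neg hj, zero_add]; exact ind_le_one _

lemma hol_fin (hs : HasSwaps G) (hF : FlipStmt G Δ o) (h : S.Num) {e : ℝ} (he : S.c.hol o ≤ e)
    (hθ : S.θ ≤ S.q * e) :
    (FC.ofEC (S.ec_fin hF)).hol o ≤ S.c.hol o + (16 * Δ + 8) * S.q * e := by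
  rw [FC.ofEC_hol]
  have hq := h.q1
  have hq0 := h.q0
  have hθq := h.θq
  have hlen : (S.l.length : ℝ) ≤ Δ := by exact_mod_cast S.len
  have he0 : 0 ≤ e := (S.c.hol_nonneg o).trans he
  have ia := S.ec_σ.ei S.a
  have ib := S.ec_σ.ei S.b
  have oa := IP.out ia.toEM ib.toEM S.L S.ip_Lv S.in_k' ia.toEM
  have ob := IP.out ia.toEM ib.toEM S.L S.ip_Lv S.in_k' ib.toEM
  have m1 := (IF.holes S.ec_τ).bm o
  have m2 := (IP.bd (S.ip_FR S.R) ia.toEM).at o
  have m3 := (IP.bd (S.ip_FR S.R) ib.toEM).at o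
  have m4 := oa.at o
  have m5 := (oa.comp ia.toEM).at o
  have m6 := ob.at o
  have m7 := (ob.comp ib.toEM).at o
  have m8 := S.ip_Lv.at o
  have m9 := (S.ip_Lv.comp S.hmu.toEM.fst).at o
  have key := int_mono (μ := (muE G).prod (nu V)) ((IF.holes (S.ec_fin hF)).bm o)
    (((((m1.add (BM.ind m2)).add (BM.ind m3)).add ((BM.ind m4).add (BM.ind m5))).add
      ((BM.ind m6).add (BM.ind m7))).sub ((BM.ind m8).add (BM.ind m9)))
    fun z => (S.ok z).holes_shift (S.compat hF z)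
      (fun v hv => by have := S.k'_range z v hv; omega) o
  rw [int_sub ((((m1.add (BM.ind m2)).add (BM.ind m3)).add ((BM.ind m4).add (BM.ind m5))).add
      ((BM.ind m6).add (BM.ind m7))) ((BM.ind m8).add (BM.ind m9)),
    int_add (((m1.add (BM.ind m2)).add (BM.ind m3)).add ((BM.ind m4).add (BM.ind m5)))
      ((BM.ind m6).add (BM.ind m7)),
    int_add ((m1.add (BM.ind m2)).add (BM.ind m3)) ((BM.ind m4).add (BM.ind m5)),
    int_add (m1.add (BM.ind m2)) (BM.ind m3), int_add m1 (BM.ind m2),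
    int_add (BM.ind m4) (BM.ind m5), int_add (BM.ind m6) (BM.ind m7),
    int_add (BM.ind m8) (BM.ind m9), ← Pr_eq m2, ← Pr_eq m3, ← Pr_eq m4, ← Pr_eq m5, ← Pr_eq m6,
    ← Pr_eq m7, ← Pr_eq m8, ← Pr_eq m9, Pr_mtp hs act2E_mp oa ia o, Pr_mtp hs act2E_mp ob ib o,
    Pr_mtp hs act2E_mp S.ip_Lv S.hmu.fst o] at key
  have b1 := hF.seq_holes S.c S.γ S.θ S.q e h.θ0 hq0.le (by linarith) hθ (by linarith) he S.R S.l
    S.hγl S.nodup (by have := h.qlen; linarith)
  have b2 := hF.rf_bd S.c S.a S.b S.ab S.θ S.q h.θ0 (by linarith) hq0.le (by linarith) S.R 0 S.a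
    (Or.inl rfl)
  have b3 := hF.rf_bd S.c S.a S.b S.ab S.θ S.q h.θ0 (by linarith) hq0.le (by linarith) S.R 0 S.b
    (Or.inr rfl)
  have b4 := pr_out hs S o
  have b5 : S.q * S.c.hol o ≤ S.q * e := mul_le_mul_of_nonneg_left he hq0.le
  have b6 : S.q * S.l.length * e ≤ S.q * Δ * e := by gcongr
  refine key.trans ?_
  simp only [τ, FR] at *
  nlinarith

lemma cost_fin (hs : HasSwaps G) (hF : FlipStmt G Δ o) (h : S.Num) :
    Pr ((muE G).prod (nu V)) (fun z => ∃ p, S.fin z p o ≠ S.c.σ z.1 p o) ≤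
      21 * S.q * Δ + 21 * S.q + (3 * S.L + 5) * S.s0 o := by
  have ia := S.ec_σ.ei S.a
  have ib := S.ec_σ.ei S.b
  have ipp := IP.pp ia.toEM ib.toEM S.L S.ip_Lv S.in_k'
  have iP := (S.ip_FR S.R).or ipp
  set P : Y V × Y V → V → Prop := fun z v => S.FR S.R z v ∨
    PP (S.c.σ z.1 S.a) (S.c.σ z.1 S.b) S.L (S.Lv z) (S.k' z) v with hP
  have b0 : Pr ((muE G).prod (nu V)) (fun z => P z o) ≤ 7 * S.q + (S.L + 1) * S.s0 o := by
    refine (Pr_or_le fun z hz => hz).trans (add_le_add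
      (Pr_prod_le_const ((S.ip_FR S.R).at o) fun x => pr_FR hF h x o) ?_)
    refine (Pr_le_sum (s := Finset.range (S.L + 1))
      (F := fun j z => S.Sr z.1 (back (S.c.σ z.1 S.a) (S.c.σ z.1 S.b) j o))
      fun z ⟨j, h1, h2, _⟩ => ⟨j, by simpa [Nat.lt_succ_iff] using h1, h2.1⟩).trans ?_
    rw [Finset.sum_congr rfl fun j _ => (Pr_fst (ν := nu V)
      ((S.ip_Sr.comp ((S.c.ec.em S.a).back (S.c.ec.em S.b) j)).at o)).trans (pr_sr_back hs S o j)]
    simp
  have b1 := Pr_or_le (μ := (muE G).prod (nu V))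
    (E := fun z => ∃ p, S.fin z p o ≠ S.c.σ z.1 p o)
    (E₁ := fun z => (∃ p, S.τ z p o ≠ S.c.σ z.1 p o) ∨ P z o)
    (E₂ := fun z => (P z (S.c.σ z.1 S.a o) ∨ P z (S.c.σ z.1 S.b o)) ∨
      (S.Lv z o ∨ S.Lv z (S.mu z.1 o))) fun z hz => by
      by_contra hn
      simp only [not_or, not_exists, not_not] at hn
      obtain ⟨p, hp⟩ := hz
      exact hp (((S.ok z).shift_same (S.compat hF z) hn.1.2 hn.2.1.1 hn.2.1.2 hn.2.2.1
        hn.2.2.2 p).trans (hn.1.1 p))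
  have b2 := Pr_or_le (μ := (muE G).prod (nu V))
    (E := fun z => (∃ p, S.τ z p o ≠ S.c.σ z.1 p o) ∨ P z o) fun z hz => hz
  have b3 := Pr_or_le (μ := (muE G).prod (nu V))
    (E := fun z => (P z (S.c.σ z.1 S.a o) ∨ P z (S.c.σ z.1 S.b o)) ∨
      (S.Lv z o ∨ S.Lv z (S.mu z.1 o))) fun z hz => hz
  have b4 := Pr_or_le (μ := (muE G).prod (nu V))
    (E := fun z => P z (S.c.σ z.1 S.a o) ∨ P z (S.c.σ z.1 S.b o)) fun z hz => hz
  have b5 := Pr_or_le (μ := (muE G).prod (nu V))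
    (E := fun z => S.Lv z o ∨ S.Lv z (S.mu z.1 o)) fun z hz => hz
  rw [Pr_mtp hs act2E_mp iP ia o, Pr_mtp hs act2E_mp iP ib o] at b4
  rw [Pr_mtp hs act2E_mp S.ip_Lv S.hmu.fst o] at b5
  have b6 := pr_Lv_le S o
  have b7 : Pr ((muE G).prod (nu V)) (fun z => ∃ p, S.τ z p o ≠ S.c.σ z.1 p o) ≤ 21 * S.q * Δ :=
    Pr_prod_le_const ((IP.changed S.ec_σ S.ec_τ).at o) fun x => pr_change hF h x o
  linarith

lemma sh_fin (hs : HasSwaps G) (hF : FlipStmt G Δ o) (h : S.Num) :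
    S.ps / 2 * S.c.DnS o S.r S.α S.β ≤ (FC.ofEC (S.ec_fin hF)).ShS o S.r S.α S.γ S.β (2 * S.m + 1) +
      Pr ((muE G).prod (nu V)) (fun z => S.Ar S.m z o) +
      ∑ t ∈ Finset.range S.m, Pr ((muE G).prod (nu V)) (fun z => S.Ar t z o ∧ S.Bd' z o) := by
  refine (pr_intact hF h).trans ?_
  rw [FC.ofEC_shS, ← Pr_mtp_walk hs act2E_mp (S.ip_Ar S.m) S.ei_C S.ei_A (2 * S.m + 1) o,
    Finset.sum_congr rfl fun t _ => (Pr_mtp_walk hs act2E_mp ((S.ip_Ar t).and S.ip_Bd') S.ei_C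
      S.ei_A (2 * t + 1) o).symm]
  refine (Pr_or_le (E₂ := fun z => ∃ t ∈ Finset.range S.m,
    S.Ar t z (walk (S.C z) (S.A z) (2 * t + 1) o) ∧
      S.Bd' z (walk (S.C z) (S.A z) (2 * t + 1) o)) fun z hz => ?_).trans
    (add_le_add (Pr_or_le fun z hz => hz) (Pr_le_sum fun z hz => hz))
  by_contra hn
  simp only [not_or] at hn
  refine hn.1.2 ((S.ok z).survive (S.compat hF z) (S.k_range z) S.hα S.γa S.γb rfl
    (fun _ => Iff.rfl) hz.1 (fun t ht h1 h2 => hn.2 ⟨t, Finset.mem_range.2 ht, h1, h2⟩) le_rfl ?_)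
  by_contra hf
  exact hn.1.1 ⟨hz.1.1.1, hz.2.1, hf, hz.2.2⟩

/-- The occupation density. -/
noncomputable def H (S : Setup G Δ) : Y V → V → ℝ := occ S.A S.C S.Wn S.Act S.m

lemma if_H (S : Setup G Δ) : IF (G := G) act S.H :=
  IF.sum (s := Finset.range S.m) fun t _ => IF.Pr (S.ip_Ar t)

lemma pr_three (hG : G.IsAcyclic) (hF : FlipStmt G Δ o) (h : S.Num) (hW : S.W + 2 ≤ S.L)
    (x : Y V) (v : V) (hv : S.Sr x v) {j j' : ℕ} (hj : j ≤ S.L) (hj' : j' ≤ S.L) (hne : j' ≠ j)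
    (t t' : ℕ) :
    Pr (nu V) (fun y => S.Ar t (x, y) (walk (S.c.σ x S.a) (S.c.σ x S.b) j v) ∧
      (S.Ar t' (x, y) (walk (S.c.σ x S.a) (S.c.σ x S.b) j' v) ∧
        (j - S.W ≤ pos S.L y v ∧ pos S.L y v < j - S.W + (S.W + 2)))) =
      Pr (nu V) (fun y => S.Ar t (x, y) (walk (S.c.σ x S.a) (S.c.σ x S.b) j v)) *
      (Pr (nu V) (fun y => S.Ar t' (x, y) (walk (S.c.σ x S.a) (S.c.σ x S.b) j' v)) *
        ((S.W + 2 : ℕ) / (16 * S.L))) := by
  have M := S.markov hG hF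
  have inva := (S.c.proper x).inv S.a
  have invb := (S.c.proper x).inv S.b
  have hmem : ∀ i, v ∈ {w | S.SA x (walk (S.c.σ x S.a) (S.c.σ x S.b) i v) w ∨
      w = walk (S.c.σ x S.a) (S.c.σ x S.b) i v} := fun i => by
    have := (closedA_DA (S := S) x (walk (S.c.σ x S.a) (S.c.σ x S.b) i v)).back i (Or.inr rfl)
    rwa [back_walk inva invb] at this
  have hsa : ∀ i i', i ≤ S.L → i' ≤ S.L → i' ≠ i →
      S.SA x (walk (S.c.σ x S.a) (S.c.σ x S.b) i v) (walk (S.c.σ x S.a) (S.c.σ x S.b) i' v) :=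
    fun i i' hi hi' hii => ((closedA_DA (S := S) x _).walk i' (hmem i)).resolve_right
      fun e => hii (src_unique (S.c.proper x) hv hv hi' hi e).2
  have hΩ : ∀ i, (v, 1) ∈ S.ΩA x (walk (S.c.σ x S.a) (S.c.σ x S.b) i v) := fun i =>
    (hmem i).imp id fun e => ⟨e, by norm_num⟩
  have hm : ∀ t w, Measurable fun y => S.Ar t (x, y) w := fun t w =>
    ((S.ip_Ar t).at w).comp measurable_prodMk_left
  have hp := (in_pos (G := G) S.L (fun n => j - S.W ≤ n ∧ n < j - S.W + (S.W + 2))).at v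
  have dp : ∀ i, DependsOn (fun y => j - S.W ≤ pos S.L y v ∧ pos S.L y v < j - S.W + (S.W + 2))
      (S.ΩA x (walk (S.c.σ x S.a) (S.c.σ x S.b) i v)) := fun i y y' hh => by
    simp only [pos, hh _ (hΩ i)]
  rw [Pr_indep (hm _ _) ((hm _ _).and hp) (M.arr_dep x t _) (D' := S.ΩA x _) ?_
      (M.disj x _).symm,
    Pr_indep (hm _ _) hp (M.arr_dep x t' _) (dp j') (M.disj x _).symm,
    pr_pos h.L1 v _ _ (by omega)]
  intro y y' hh
  have e1 := M.arr_dep x t' _ fun i hi =>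
    hh i (ΩB_subset hG (hsa j j' hj hj' hne) (hsa j' j hj' hj hne.symm) hi)
  have e2 := dp j hh
  exact congrArg₂ And e1 e2

lemma pr_conf_pt (hG : G.IsAcyclic) (hF : FlipStmt G Δ o) (h : S.Num) (hW : S.W + 2 ≤ S.L)
    (x : Y V) (z : V) :
    ∑ t ∈ Finset.range S.m, Pr (nu V) (fun y => S.Ar t (x, y) z ∧ S.Bd' (x, y) z) ≤
      ∑ j ∈ Finset.range (S.L + 1), ∑ j' ∈ Finset.range (S.L + 1),
        ind (j ≤ j' + S.W + 1 ∧ j' ≤ j + S.W + 1) * ((S.W + 2 : ℕ) / (16 * S.L)) *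
          (ind (S.Sr x (back (S.c.σ x S.a) (S.c.σ x S.b) j z)) * (S.H x z *
            S.H x (walk (S.c.σ x S.a) (S.c.σ x S.b) j' (back (S.c.σ x S.a) (S.c.σ x S.b) j z)))) := by
  have inva := (S.c.proper x).inv S.a
  have invb := (S.c.proper x).inv S.b
  set f := S.c.σ x S.a with hf
  set g := S.c.σ x S.b with hg
  have step : ∀ t, Pr (nu V) (fun y => S.Ar t (x, y) z ∧ S.Bd' (x, y) z) ≤
      ∑ j ∈ Finset.range (S.L + 1), ∑ j' ∈ Finset.range (S.L + 1), ∑ t' ∈ Finset.range S.m,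
        ind (j ≤ j' + S.W + 1 ∧ j' ≤ j + S.W + 1) * ((S.W + 2 : ℕ) / (16 * S.L)) *
          (ind (S.Sr x (back f g j z)) * (Pr (nu V) (fun y => S.Ar t (x, y) z) *
            Pr (nu V) (fun y => S.Ar t' (x, y) (walk f g j' (back f g j z))))) := by
    intro t
    let E : ℕ → ℕ → ℕ → Y V → Prop := fun j j' t' y =>
      (j' ≠ j ∧ (j ≤ j' + S.W + 1 ∧ j' ≤ j + S.W + 1) ∧ S.Sr x (back f g j z)) ∧
      (S.Ar t (x, y) z ∧ (S.Ar t' (x, y) (walk f g j' (back f g j z)) ∧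
        (j - S.W ≤ pos S.L y (back f g j z) ∧ pos S.L y (back f g j z) < j - S.W + (S.W + 2))))
    refine (Pr_le_sum (s := Finset.range (S.L + 1)) (F := fun j y =>
      ∃ j' ∈ Finset.range (S.L + 1), ∃ t' ∈ Finset.range S.m, E j j' t' y) ?_).trans
      (Finset.sum_le_sum fun j hj => (Pr_le_sum fun y hy => hy).trans
        (Finset.sum_le_sum fun j' hj' => (Pr_le_sum fun y hy => hy).trans
          (Finset.sum_le_sum fun t' _ => ?_)))
    · rintro y ⟨h1, j, ⟨z1, z2, z3, z4⟩, j', n1, n2, n3, t', n4, n5⟩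
      have hk := S.k_range _ _ z2
      have e : S.k (x, y) (back f g j z) = pos S.L y (back f g j z) := rfl
      simp only [← hf, ← hg, e] at z3 z4 n2 n3 hk
      refine ⟨j, Finset.mem_range.2 (by omega), j', Finset.mem_range.2 (by omega), t',
        Finset.mem_range.2 n4, ⟨n1, by omega, z2.1⟩, h1, n5, by omega, by omega⟩
    · by_cases hc : j' ≠ j ∧ (j ≤ j' + S.W + 1 ∧ j' ≤ j + S.W + 1) ∧ S.Sr x (back f g j z)
      · have := pr_three hG hF h hW x _ hc.2.2 (j := j) (j' := j')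
          (by simpa [Nat.lt_succ_iff] using hj) (by simpa [Nat.lt_succ_iff] using hj') hc.1 t t'
        rw [← hf, ← hg, walk_back inva invb] at this
        rw [ind_pos hc.2.1, ind_pos hc.2.2]
        refine (Pr_mono fun y hy => hy.2).trans (this.trans_le (le_of_eq ?_))
        ring
      · rw [Pr_false fun y hy => hc hy.1]
        have := ind_nonneg (j ≤ j' + S.W + 1 ∧ j' ≤ j + S.W + 1)
        have := ind_nonneg (S.Sr x (back f g j z))
        have := Pr_nonneg (μ := nu V) (fun y => S.Ar t (x, y) z)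
        have := Pr_nonneg (μ := nu V) (fun y => S.Ar t' (x, y) (walk f g j' (back f g j z)))
        positivity
  refine (Finset.sum_le_sum fun t _ => step t).trans (le_of_eq ?_)
  rw [Finset.sum_comm]
  refine Finset.sum_congr rfl fun j _ => ?_
  rw [Finset.sum_comm]
  refine Finset.sum_congr rfl fun j' _ => ?_
  simp only [← Finset.mul_sum, ← Finset.sum_mul]
  rfl

lemma card_near (L W j : ℕ) :
    ∑ j' ∈ Finset.range (L + 1), ind (j ≤ j' + W + 1 ∧ j' ≤ j + W + 1) ≤ 2 * W + 3 := by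
  have e : ∀ j', ind (j ≤ j' + W + 1 ∧ j' ≤ j + W + 1) =
      if j ≤ j' + W + 1 ∧ j' ≤ j + W + 1 then (1 : ℝ) else 0 := fun j' => by
    unfold ind; congr
  simp only [e]
  rw [Finset.sum_boole]
  have : ((Finset.range (L + 1)).filter fun j' => j ≤ j' + W + 1 ∧ j' ≤ j + W + 1).card ≤
      2 * W + 3 := by
    refine (Finset.card_le_card (t := Finset.Icc (j - (W + 1)) (j + W + 1)) fun i hi => ?_).trans ?_
    · simp only [Finset.mem_filter, Finset.mem_Icc] at hi ⊢; omega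
    · rw [Nat.card_Icc]; omega
  exact_mod_cast this

lemma conf_le (hG : G.IsAcyclic) (hs : HasSwaps G) (hF : FlipStmt G Δ o) (h : S.Num)
    (hW : S.W + 2 ≤ S.L) (hb : ℝ) (hsup : ∀ x v, ¬ Sd G (!S.r) x v → S.H x v = 0) :
    ∑ t ∈ Finset.range S.m, Pr ((muE G).prod (nu V)) (fun z => S.Ar t z o ∧ S.Bd' z o) ≤
      (2 * S.W + 3) * ((S.W + 2 : ℕ) / (16 * S.L)) *
        (2 * hb ^ 2 * ((S.L + 1) * S.s0 o) + 2 * ∫ x, ind (Sd G (!S.r) x o) * (S.H x o - hb) ^ 2 ∂(muE G)) := by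
  have ia := S.c.ec.ei S.a
  have ib := S.c.ec.ei S.b
  set ζ : ℝ := (S.W + 2 : ℕ) / (16 * S.L) with hζ
  have hζ0 : 0 ≤ ζ := by positivity
  have iS : ∀ j, IF (G := G) act (fun x v => ind (S.Sr x (back (S.c.σ x S.a) (S.c.σ x S.b) j v))) :=
    fun j => (S.ip_Sr.comp (ia.toEM.back ib.toEM j)).ind
  let u : ℕ → ℝ := fun j =>
    ∫ x, ind (S.Sr x (back (S.c.σ x S.a) (S.c.σ x S.b) j o)) * S.H x o ^ 2 ∂(muE G)
  have iΦ : ∀ j', IF (G := G) act (fun x v => ind (S.Sr x v) *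
      S.H x (walk (S.c.σ x S.a) (S.c.σ x S.b) j' v) ^ 2) := fun j' =>
    S.ip_Sr.ind.mul (S.if_H.comp (ia.toEM.walk ib.toEM j')).sq
  have hu : ∀ j j', ∫ x, ind (S.Sr x (back (S.c.σ x S.a) (S.c.σ x S.b) j o)) *
      S.H x (walk (S.c.σ x S.a) (S.c.σ x S.b) j' (back (S.c.σ x S.a) (S.c.σ x S.b) j o)) ^ 2
        ∂(muE G) = u j' := by
    intro j j'
    rw [int_mtp_back hs actE_mp (iΦ j') ia ib j o, ← int_mtp_back hs actE_mp (iΦ j') ia ib j' o]
    simp only [walk_back ((S.c.proper _).inv _) ((S.c.proper _).inv _)]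
    rfl
  have bH := S.if_H.bm o
  have bW : ∀ j j', BM fun x => S.H x (walk (S.c.σ x S.a) (S.c.σ x S.b) j'
      (back (S.c.σ x S.a) (S.c.σ x S.b) j o)) := fun j j' =>
    (S.if_H.comp ((ia.toEM.walk ib.toEM j').comp (ia.toEM.back ib.toEM j))).bm o
  have hpair : ∀ j j', ∫ x, ind (S.Sr x (back (S.c.σ x S.a) (S.c.σ x S.b) j o)) * (S.H x o *
      S.H x (walk (S.c.σ x S.a) (S.c.σ x S.b) j' (back (S.c.σ x S.a) (S.c.σ x S.b) j o)))
        ∂(muE G) ≤ (u j + u j') / 2 := by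
    intro j j'
    rw [← hu j j', ← int_add (((iS j).bm o).mul bH.sq) (((iS j).bm o).mul (bW j j').sq),
      ← integral_div]
    refine int_mono (((iS j).bm o).mul (bH.mul (bW j j'))) ?_ fun x => ?_
    · simpa only [div_eq_mul_inv] using
        ((((iS j).bm o).mul bH.sq).add (((iS j).bm o).mul (bW j j').sq)).mul (BM.const _)
    · have := ind_nonneg (S.Sr x (back (S.c.σ x S.a) (S.c.σ x S.b) j o))
      nlinarith [mul_nonneg this (sq_nonneg (S.H x o - S.H x (walk (S.c.σ x S.a) (S.c.σ x S.b) j'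
        (back (S.c.σ x S.a) (S.c.σ x S.b) j o))))]
  have hu0 : ∀ j, 0 ≤ u j := fun j => integral_nonneg fun x => mul_nonneg (ind_nonneg _) (sq_nonneg _)
  have hsum : ∑ j ∈ Finset.range (S.L + 1), u j ≤
      2 * hb ^ 2 * ((S.L + 1) * S.s0 o) + 2 * ∫ x, ind (Sd G (!S.r) x o) * (S.H x o - hb) ^ 2 ∂(muE G) := by
    have e1 : ((S.L : ℝ) + 1) * S.s0 o = ∫ x, ∑ j ∈ Finset.range (S.L + 1),
        ind (S.Sr x (back (S.c.σ x S.a) (S.c.σ x S.b) j o)) ∂(muE G) := by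
      rw [int_sum fun j _ => (iS j).bm o, Finset.sum_congr rfl fun j _ =>
        (Pr_eq ((S.ip_Sr.comp (ia.toEM.back ib.toEM j)).at o)).symm.trans (pr_sr_back hs S o j)]
      simp
    have bS := BM.sum (s := Finset.range (S.L + 1)) fun j _ => (iS j).bm o
    have bV := (BM.ind ((ip_Sd (G := G) (!S.r)).at o)).mul (bH.sub (BM.const hb)).sq
    rw [← int_sum fun j _ => ((iS j).bm o).mul bH.sq, e1, ← integral_const_mul,
      ← integral_const_mul, ← int_add ((BM.const _).mul bS) ((BM.const _).mul bV)]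
    refine int_mono (BM.sum fun j _ => ((iS j).bm o).mul bH.sq)
      (((BM.const _).mul bS).add ((BM.const _).mul bV)) fun x => ?_
    rw [← Finset.sum_mul]
    have h1 := S.sum_sr' x o
    have h0 : 0 ≤ ∑ j ∈ Finset.range (S.L + 1),
        ind (S.Sr x (back (S.c.σ x S.a) (S.c.σ x S.b) j o)) :=
      Finset.sum_nonneg fun _ _ => ind_nonneg _
    by_cases hx : Sd G (!S.r) x o
    · rw [ind_pos hx]
      nlinarith [mul_nonneg h0 (sq_nonneg (S.H x o - 2 * hb)),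
        mul_nonneg (sub_nonneg.2 h1) (sq_nonneg (S.H x o - hb))]
    · rw [ind_neg hx, hsup x o hx]
      nlinarith [mul_nonneg h0 (sq_nonneg hb)]
  have bT : ∀ j j', BM fun x => ind (j ≤ j' + S.W + 1 ∧ j' ≤ j + S.W + 1) * ζ *
      (ind (S.Sr x (back (S.c.σ x S.a) (S.c.σ x S.b) j o)) * (S.H x o *
        S.H x (walk (S.c.σ x S.a) (S.c.σ x S.b) j' (back (S.c.σ x S.a) (S.c.σ x S.b) j o)))) :=
    fun j j' => (BM.const _).mul (((iS j).bm o).mul (bH.mul (bW j j')))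
  have bP : ∀ t, BM fun x => Pr (nu V) (fun y => S.Ar t (x, y) o ∧ S.Bd' (x, y) o) := fun t =>
    BM.Pr (((S.ip_Ar t).and S.ip_Bd').at o) _
  rw [Finset.sum_congr rfl fun t _ => Pr_prod (((S.ip_Ar t).and S.ip_Bd').at o),
    ← int_sum fun t _ => bP t]
  refine (int_mono (BM.sum fun t _ => bP t) (BM.sum fun j _ => BM.sum fun j' _ => bT j j')
    fun x => pr_conf_pt hG hF h hW x o).trans ?_
  rw [int_sum fun j _ => BM.sum fun j' _ => bT j j',
    Finset.sum_congr rfl fun j _ => int_sum fun j' _ => bT j j']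
  simp only [integral_const_mul]
  refine (Finset.sum_le_sum fun j _ => Finset.sum_le_sum fun j' _ =>
    mul_le_mul_of_nonneg_left (hpair j j') (mul_nonneg (ind_nonneg _) hζ0)).trans ?_
  have hA : ∑ j ∈ Finset.range (S.L + 1), ∑ j' ∈ Finset.range (S.L + 1),
      ind (j ≤ j' + S.W + 1 ∧ j' ≤ j + S.W + 1) * u j ≤
      (2 * S.W + 3) * ∑ j ∈ Finset.range (S.L + 1), u j := by
    rw [Finset.mul_sum]
    refine Finset.sum_le_sum fun j _ => ?_
    rw [← Finset.sum_mul]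
    exact mul_le_mul_of_nonneg_right (card_near _ _ _) (hu0 j)
  have hB : ∑ j ∈ Finset.range (S.L + 1), ∑ j' ∈ Finset.range (S.L + 1),
      ind (j ≤ j' + S.W + 1 ∧ j' ≤ j + S.W + 1) * u j' ≤
      (2 * S.W + 3) * ∑ j ∈ Finset.range (S.L + 1), u j := by
    rw [Finset.sum_comm]
    simpa only [and_comm] using hA
  have e : ∑ j ∈ Finset.range (S.L + 1), ∑ j' ∈ Finset.range (S.L + 1),
      ind (j ≤ j' + S.W + 1 ∧ j' ≤ j + S.W + 1) * ζ * ((u j + u j') / 2) =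
      ζ / 2 * (∑ j ∈ Finset.range (S.L + 1), ∑ j' ∈ Finset.range (S.L + 1),
        ind (j ≤ j' + S.W + 1 ∧ j' ≤ j + S.W + 1) * u j +
      ∑ j ∈ Finset.range (S.L + 1), ∑ j' ∈ Finset.range (S.L + 1),
        ind (j ≤ j' + S.W + 1 ∧ j' ≤ j + S.W + 1) * u j') := by
    simp only [← Finset.sum_add_distrib, Finset.mul_sum]
    exact Finset.sum_congr rfl fun j _ => Finset.sum_congr rfl fun j' _ => by ring
  rw [e]
  have hW0 : (0 : ℝ) ≤ 2 * S.W + 3 := by positivity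
  calc _ ≤ ζ / 2 * (2 * ((2 * S.W + 3) * ∑ j ∈ Finset.range (S.L + 1), u j)) :=
        mul_le_mul_of_nonneg_left (by linarith) (by positivity)
    _ = (2 * S.W + 3) * ζ * ∑ j ∈ Finset.range (S.L + 1), u j := by ring
    _ ≤ _ := mul_le_mul_of_nonneg_left hsum (mul_nonneg hW0 hζ0)

/-- Sides along the track of a source. -/
lemma side_walk (S : Setup G Δ) (x : Y V) (v : V) (hv : S.Sr x v) (i : ℕ) :
    (2 * i ≤ S.L → Sd G S.s x (walk (S.c.σ x S.a) (S.c.σ x S.b) (2 * i) v)) ∧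
    (2 * i + 1 ≤ S.L → Sd G (!S.s) x (walk (S.c.σ x S.a) (S.c.σ x S.b) (2 * i + 1) v)) := by
  have key : ∀ (n : ℕ) (p q : Fin Δ) (t : Bool) (w : V), Sd G t x w →
      Free (S.c.σ x p) (S.c.σ x q) n w →
      Sd G (if n % 2 = 0 then t else !t) x (walk (S.c.σ x p) (S.c.σ x q) n w) := by
    intro n
    induction n with
    | zero => exact fun p q t w h _ => h
    | succ n ih =>
      intro p q t w h hf
      have := ih q p (!t) _ (h.adj ((S.c.proper x).adj p w hf.1)) hf.2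
      rcases Nat.mod_two_eq_zero_or_one n with e | e
      · rw [if_pos e] at this
        rw [if_neg (by omega)]; exact this
      · rw [if_neg (by omega), Bool.not_not] at this
        rw [if_pos (by omega)]; exact this
  constructor
  · intro hi
    have := key (2 * i) S.a S.b S.s v (S.hsrc x v hv) (hv.2.2.2.mono (by omega))
    rwa [if_pos (by omega)] at this
  · intro hi
    have := key (2 * i + 1) S.a S.b S.s v (S.hsrc x v hv) (hv.2.2.2.mono (by omega))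
    rwa [if_neg (by omega)] at this

/-- The window estimate: a lower bound for the killing rate on a large set. -/
lemma window_le (hs : HasSwaps G) (hF : FlipStmt G Δ o) (h : S.Num) (n : ℕ)
    (hn : 3 * S.W + 3 + 2 * n ≤ S.L) {hb : ℝ} (hb0 : 0 ≤ hb) :
    S.W / (32 * S.L) * (hb ^ 2 * (n * S.s0 o)) ≤
      2 * hb * ∫ x, S.H x o * Pr (nu V) (fun y => S.Wn (x, y) o) ∂(muE G) +
        S.W / (32 * S.L) * ∫ x, ind (Sd G (!S.r) x o) * (S.H x o - hb) ^ 2 ∂(muE G) := by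
  have ia := S.c.ec.ei S.a
  have ib := S.c.ec.ei S.b
  obtain ⟨ε, hε, hα, hside⟩ : ∃ ε, ε ≤ 1 ∧ (∀ i, alt S.b S.a (2 * i + ε) = S.α) ∧
      ∀ x i, 2 * i + ε ≤ S.L → S.Sr x (back (S.c.σ x S.a) (S.c.σ x S.b) (2 * i + ε) o) →
        Sd G (!S.r) x o := by
    rcases S.hrs with ⟨e, e'⟩ | ⟨e, e'⟩
    · refine ⟨1, le_rfl, fun i => by rw [alt_odd, e], fun x i hi hx => ?_⟩
      have := (S.side_walk x _ hx i).2 hi
      rwa [walk_back ((S.c.proper _).inv _) ((S.c.proper _).inv _), ← e'] at this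
    · refine ⟨0, Nat.zero_le _, fun i => by rw [add_zero, alt_even, e], fun x i hi hx => ?_⟩
      have := (S.side_walk x _ hx i).1 hi
      rw [add_zero] at this
      rw [walk_back ((S.c.proper _).inv _) ((S.c.proper _).inv _)] at this
      rwa [e', Bool.not_not]
  set κ : ℝ := S.W / (32 * S.L) with hκ
  have hκ0 : 0 ≤ κ := by positivity
  let j : ℕ → ℕ := fun i => 2 * (S.W + 1 + i) + ε
  have iS : ∀ j, IF (G := G) act (fun x v => ind (S.Sr x (back (S.c.σ x S.a) (S.c.σ x S.b) j v))) :=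
    fun j => (S.ip_Sr.comp (ia.toEM.back ib.toEM j)).ind
  have e1 : (n : ℝ) * S.s0 o = ∫ x, ∑ i ∈ Finset.range n,
      ind (S.Sr x (back (S.c.σ x S.a) (S.c.σ x S.b) (j i) o)) ∂(muE G) := by
    rw [int_sum fun i _ => (iS (j i)).bm o, Finset.sum_congr rfl fun i _ =>
      (Pr_eq ((S.ip_Sr.comp (ia.toEM.back ib.toEM (j i))).at o)).symm.trans
        (pr_sr_back hs S o (j i))]
    simp
  have bH := S.if_H.bm o
  have bS := BM.sum (s := Finset.range n) fun i _ => (iS (j i)).bm o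
  have bV := (BM.ind ((ip_Sd (G := G) (!S.r)).at o)).mul (bH.sub (BM.const hb)).sq
  have bK := bH.mul (BM.Pr (S.ip_Wn.at o) (nu V))
  rw [e1, ← integral_const_mul, ← integral_const_mul, ← integral_const_mul, ← integral_const_mul,
    ← int_add ((BM.const _).mul bK) ((BM.const _).mul bV)]
  refine int_mono ((BM.const _).mul ((BM.const _).mul bS))
    (((BM.const _).mul bK).add ((BM.const _).mul bV)) fun x => ?_
  set vg := ∑ i ∈ Finset.range n, ind (S.Sr x (back (S.c.σ x S.a) (S.c.σ x S.b) (j i) o)) with hvg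
  have h1 : vg ≤ 1 := S.sum_sr x o _ j
    (fun i hi => by have := Finset.mem_range.1 hi; simp only [j]; omega)
    fun i _ i' _ e => by simp only [j] at e; omega
  have h0 : 0 ≤ vg := Finset.sum_nonneg fun _ _ => ind_nonneg _
  have h2 : κ * vg ≤ Pr (nu V) (fun y => S.Wn (x, y) o) := by
    by_cases hex : ∃ i ∈ Finset.range n, S.Sr x (back (S.c.σ x S.a) (S.c.σ x S.b) (j i) o)
    · obtain ⟨i, hi, hsr⟩ := hex
      have := Finset.mem_range.1 hi
      exact (mul_le_of_le_one_right hκ0 h1).trans (pr_Wn hF h x o (j i)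
        (by simp only [j]; omega) (by simp only [j]; omega) (hα _) hsr)
    · rw [hvg, Finset.sum_eq_zero fun i hi => ind_neg fun hh => hex ⟨i, hi, hh⟩, mul_zero]
      exact Pr_nonneg _
  have hH : 0 ≤ S.H x o := occ_nonneg _ _ _
  have h3 := mul_le_mul_of_nonneg_left h2 (mul_nonneg hb0 hH)
  by_cases hx : Sd G (!S.r) x o
  · rw [ind_pos hx]
    nlinarith [mul_nonneg hκ0 (mul_nonneg h0 (sq_nonneg (S.H x o))),
      mul_nonneg hκ0 (mul_nonneg (sub_nonneg.2 h1) (sq_nonneg (S.H x o - hb)))]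
  · have hz : vg = 0 := Finset.sum_eq_zero fun i hi => ind_neg fun hh => hx
      (hside x (S.W + 1 + i) (by have := Finset.mem_range.1 hi; omega) hh)
    rw [ind_neg hx, hz]
    have := mul_nonneg (mul_nonneg hb0 hH) (Pr_nonneg (μ := nu V) fun y => S.Wn (x, y) o)
    nlinarith

end Setup

end Pool.Agent.MP_93f6c7_pr.K
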