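import Pool.Agent.MP_93f6c7_pr.K.ChainS

/-! Conditional probability estimates for the random objects of the main lemma. -/

set_option autoImplicit false
set_option linter.unusedSectionVars false
set_option linter.unusedVariables false
open MeasureTheory Function
open scoped Classical

namespace Pool.Agent.MP_93f6c7_pr.K

variable {V : Type} [MeasurableSpace V] [DiscreteMeasurableSpace V] [Countable V]
  {G : SimpleGraph V} [G.LocallyFinite] {Δ : ℕ}

lemma pr_pos {L : ℕ} (hL : 1 ≤ L) (v : V) (i n : ℕ) (h : i + n ≤ 16 * L) :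
    Pr (nu V) (fun y => i ≤ pos L y v ∧ pos L y v < i + n) = n / (16 * L) := by
  have hL' : (0 : ℝ) < 16 * L := by positivity
  have h' : (i : ℝ) + n ≤ 16 * L := by exact_mod_cast h
  have := Pr_lab_Ico (V := V) (v, 1) (s := i / (16 * L)) (t := (i + n) / (16 * L))
    (by positivity) (by gcongr; linarith [(Nat.cast_nonneg n : (0 : ℝ) ≤ n)])
    ((div_le_one hL').2 h')
  rw [show ((i : ℝ) + n) / (16 * L) - i / (16 * L) = n / (16 * L) by ring] at this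
  rw [← this]
  refine Pr_congr fun y => ?_
  have h0 : (0 : ℝ) ≤ 16 * L * (y (v, 1) : ℝ) := mul_nonneg hL'.le (y (v, 1)).2.1
  unfold pos
  rw [Nat.le_floor_iff h0, Nat.floor_lt h0, div_le_iff₀ hL', lt_div_iff₀ hL', mul_comm (16 * (L : ℝ))]
  push_cast
  rfl

namespace Setup

variable [Sides G] (S : Setup G Δ)

/-- Numerical hypotheses. -/
structure Num : Prop where
  θ0 : 0 ≤ S.θ
  q0 : 0 < S.q
  θR : S.θ * S.R = S.q
  R1 : 1 ≤ S.R
  LR : S.L ≤ S.R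
  L1 : 1 ≤ S.L
  qΔ : 400 * S.q * Δ ≤ 1
  three : 3 ≤ Δ
  ps0 : 0 ≤ S.ps
  ps1 : S.ps ≤ 1

variable {S} {o : V}

lemma Num.q1 (h : S.Num) : S.q ≤ 1 / 1200 := by
  have h3 : (3 : ℝ) ≤ Δ := by exact_mod_cast h.three
  have := h.qΔ
  have := h.q0
  nlinarith

lemma Num.θq (h : S.Num) : S.θ ≤ S.q := by
  have h1 : (1 : ℝ) ≤ S.R := by exact_mod_cast h.R1
  have := h.θR
  have := h.θ0
  nlinarith

lemma Num.qlen (h : S.Num) : S.q * S.l.length ≤ 1 / 400 := by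
  have h1 : (S.l.length : ℝ) ≤ Δ := by exact_mod_cast S.len
  have := h.qΔ
  have := h.q0
  nlinarith

lemma pair (S : Setup G Δ) (x : Y V) : Pair G (S.c.σ x S.a) (S.c.σ x S.b) :=
  (S.c.proper x).pair S.ab

variable [Env G]

lemma pr_FR (hF : FlipStmt G Δ o) (h : S.Num) (x : Y V) (v : V) :
    Pr (nu V) (fun y => S.FR S.R (x, y) v) ≤ 7 * S.q := by
  have h1 := h.q1
  have h2 := h.θq
  have := hF.rf_le _ _ (S.pair x) S.θ S.q h.θ0 (by linarith) h.q0.le (by linarith) S.R 0 v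
  have h3 := h.θR
  refine this.trans ?_
  nlinarith

lemma pr_FR' (hF : FlipStmt G Δ o) (h : S.Num) (x : Y V) (v : V) :
    Pr (nu V) (fun y => S.FR (S.R + S.L) (x, y) v) ≤ 9 * S.q := by
  have h1 := h.q1
  have h2 := h.θq
  have := hF.rf_le _ _ (S.pair x) S.θ S.q h.θ0 (by linarith) h.q0.le (by linarith)
    (S.R + S.L) 0 v
  have h3 := h.θR
  have h4 : (S.L : ℝ) ≤ S.R := by exact_mod_cast h.LR
  have h5 := mul_le_mul_of_nonneg_left h4 h.θ0
  refine this.trans ?_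
  push_cast
  nlinarith

lemma pr_Lv (h : S.Num) (x : Y V) (v : V) :
    Pr (nu V) (fun y => S.Lv (x, y) v) ≤ ind (S.Sr x v) / 16 := by
  by_cases hs : S.Sr x v
  · have hL : (0 : ℝ) < S.L := by exact_mod_cast h.L1
    have := pr_pos h.L1 v 1 S.L (by have := h.L1; omega)
    rw [ind_pos hs, show (1 : ℝ) / 16 = S.L / (16 * S.L) by field_simp, ← this]
    refine Pr_mono fun y hy => ?_
    have := S.k_range _ _ hy
    simp only [k] at this
    omega
  · rw [Pr_false fun y hy => hs hy.1, ind_neg hs]; norm_num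

lemma pr_Lv' (h : S.Num) (x : Y V) (v : V) : Pr (nu V) (fun y => S.Lv (x, y) v) ≤ 1 / 16 :=
  (pr_Lv h x v).trans (by linarith [ind_le_one (S.Sr x v)])

lemma sum_sr (S : Setup G Δ) (x : Y V) (v : V) {ι : Type} (s : Finset ι) (j : ι → ℕ)
    (hj : ∀ i ∈ s, j i ≤ S.L) (hinj : ∀ i ∈ s, ∀ i' ∈ s, j i = j i' → i = i') :
    ∑ i ∈ s, ind (S.Sr x (back (S.c.σ x S.a) (S.c.σ x S.b) (j i) v)) ≤ 1 := by
  rw [← ind_pos trivial]
  exact sum_ind_le (fun _ _ _ => trivial) fun i hi i' hi' h1 h2 =>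
    hinj i hi i' hi' (src_back_unique (S.c.proper x) h1 h2 (hj i hi) (hj i' hi'))

lemma sum_sr' (S : Setup G Δ) (x : Y V) (v : V) :
    ∑ j ∈ Finset.range (S.L + 1), ind (S.Sr x (back (S.c.σ x S.a) (S.c.σ x S.b) j v)) ≤ 1 :=
  S.sum_sr x v _ id (fun i hi => by simpa [Nat.lt_succ_iff] using hi) fun _ _ _ _ h => h

/-- The vertex lies on a live track. -/
def OnT (S : Setup G Δ) (z : Y V × Y V) (v : V) : Prop :=
  ∃ j, j ≤ S.L ∧ S.Lv z (back (S.c.σ z.1 S.a) (S.c.σ z.1 S.b) j v)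

lemma pr_OnT (h : S.Num) (x : Y V) (v : V) : Pr (nu V) (fun y => S.OnT (x, y) v) ≤ 1 / 16 := by
  refine (Pr_le_sum (s := Finset.range (S.L + 1))
    (F := fun j y => S.Lv (x, y) (back (S.c.σ x S.a) (S.c.σ x S.b) j v))
    fun y ⟨j, h1, h2⟩ => ⟨j, by simpa [Nat.lt_succ_iff] using h1, h2⟩).trans ?_
  refine (Finset.sum_le_sum fun j _ => pr_Lv h x _).trans ?_
  rw [← Finset.sum_div]
  have := S.sum_sr' x v
  linarith

lemma OnT.not_F {z : Y V × Y V} {v : V} (h : S.OnT z v) : ¬ S.FR S.R z v := by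
  obtain ⟨j, h1, h2⟩ := h
  have := (S.ok z).nF _ h2 j h1
  rwa [walk_back ((S.c.proper _).inv _) ((S.c.proper _).inv _)] at this

lemma onT_of_Wn {z : Y V × Y V} {v : V} (h : S.Wn z v) : S.OnT z v := by
  obtain ⟨j, h1, h2, _⟩ := h
  exact ⟨j, h1, h2⟩

lemma onT_of_PP {z : Y V × Y V} {v : V} {κ : V → ℕ}
    (h : PP (S.c.σ z.1 S.a) (S.c.σ z.1 S.b) S.L (S.Lv z) κ v) : S.OnT z v := by
  obtain ⟨j, h1, h2, _⟩ := h
  exact ⟨j, h1, h2⟩

lemma pr_A (hF : FlipStmt G Δ o) (h : S.Num) (x : Y V) (v : V) (p : Fin Δ)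
    (hp : p = S.a ∨ p = S.b) :
    S.q / 4 ≤ Pr (nu V) (fun y => S.A (x, y) v = S.c.σ x p v ∧
      (S.c.σ x p v ≠ v → ¬ S.Wn (x, y) (S.c.σ x p v))) := by
  have h1 := h.q1
  have h0 := h.q0
  by_cases hpα : p = S.α
  · subst hpα
    have key := one_sub_Pr_le (μ := nu V)
      (E := fun y => (S.FR S.R (x, y) v ∨ S.FR S.R (x, y) (S.c.σ x S.α v)) ∨
        (S.OnT (x, y) v ∨ S.OnT (x, y) (S.c.σ x S.α v)) ∨ S.Lv (x, y) (S.mu x v))
      (E' := fun y => S.A (x, y) v = S.c.σ x S.α v ∧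
        (S.c.σ x S.α v ≠ v → ¬ S.Wn (x, y) (S.c.σ x S.α v))) (fun y hy => by
        simp only [not_or] at hy
        refine ⟨(S.ok (x, y)).shift_stay S.hα ?_ ?_ (fun hl => hy.2.1.1 ⟨0, Nat.zero_le _, hl⟩)
          hy.2.2, fun _ hw => hy.2.1.2 (onT_of_Wn hw)⟩
        · rintro (hh | hh)
          · exact hy.1.1 hh
          · exact hy.2.1.1 (onT_of_PP hh)
        · rintro (hh | hh)
          · exact hy.1.2 hh
          · exact hy.2.1.2 (onT_of_PP hh))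
    have b1 := Pr_or_le (μ := nu V) (E := fun y => (S.FR S.R (x, y) v ∨
        S.FR S.R (x, y) (S.c.σ x S.α v)) ∨
        (S.OnT (x, y) v ∨ S.OnT (x, y) (S.c.σ x S.α v)) ∨ S.Lv (x, y) (S.mu x v)) fun y hy => hy
    have b2 := Pr_or_le (μ := nu V) (E := fun y => S.FR S.R (x, y) v ∨
        S.FR S.R (x, y) (S.c.σ x S.α v)) fun y hy => hy
    have b3 := Pr_or_le (μ := nu V) (E := fun y =>
        (S.OnT (x, y) v ∨ S.OnT (x, y) (S.c.σ x S.α v)) ∨ S.Lv (x, y) (S.mu x v)) fun y hy => hy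
    have b4 := Pr_or_le (μ := nu V) (E := fun y =>
        S.OnT (x, y) v ∨ S.OnT (x, y) (S.c.σ x S.α v)) fun y hy => hy
    have := pr_FR hF h x v
    have := pr_FR hF h x (S.c.σ x S.α v)
    have := pr_OnT h x v
    have := pr_OnT h x (S.c.σ x S.α v)
    have := pr_Lv' h x (S.mu x v)
    linarith
  · have key : S.q / 2 ≤ Pr (nu V)
        (fun y => S.FR S.R (x, y) v ∧ S.FR S.R (x, y) (S.c.σ x p v)) := by
      have := hF.rf_ge _ _ (S.pair x) S.θ S.q h.θ0 (by linarith) S.R h.R1 h.θR 0 v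
      rcases hp with rfl | rfl
      · exact this.1
      · exact this.2
    refine le_trans (by linarith) (key.trans (Pr_mono fun y hy => ⟨?_, fun _ hw => ?_⟩))
    · exact (S.ok (x, y)).shift_flip S.hα hp hpα hy.1 hy.2
    · exact (onT_of_Wn hw).not_F hy.2

lemma pr_C (hF : FlipStmt G Δ o) (h : S.Num) (x : Y V) (v : V) (p : Fin Δ) (ha : p ≠ S.a)
    (hb : p ≠ S.b) : S.q / 4 ≤ Pr (nu V) (fun y => S.C (x, y) v = S.c.σ x p v) := by
  have h1 := h.q1
  have h2 := h.qlen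
  exact hF.seq_ge S.γ S.θ S.q h.θ0 (by linarith) S.R h.R1 h.θR S.l S.hγl S.nodup (by linarith)
    _ (S.c.proper x) v p ((S.hl p).2 ⟨ha, hb⟩)

lemma pr_Act (h : S.Num) (x : Y V) (v : V) :
    Pr (nu V) (fun y => S.Act (x, y) v) = S.ps * ind (S.Rn x v) := by
  by_cases hr : S.Rn x v
  · rw [ind_pos hr, mul_one, ← Pr_lab_lt (v, 2) h.ps0 h.ps1]
    exact Pr_congr fun y => by simp [Act, hr]
  · rw [ind_neg hr, mul_zero]
    exact Pr_false fun y hy => hr hy.1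

lemma closedA_univ (S : Setup G Δ) (x : Y V) : S.ClosedA x Set.univ :=
  ⟨fun _ _ => trivial, fun _ _ => trivial, fun _ _ => trivial⟩

lemma pr_Wn (hF : FlipStmt G Δ o) (h : S.Num) (x : Y V) (v : V) (j : ℕ) (h1 : S.W + 2 ≤ j)
    (h2 : j + S.W ≤ S.L) (h3 : alt S.b S.a j = S.α)
    (hs : S.Sr x (back (S.c.σ x S.a) (S.c.σ x S.b) j v)) :
    S.W / (32 * S.L) ≤ Pr (nu V) (fun y => S.Wn (x, y) v) := by
  set u := back (S.c.σ x S.a) (S.c.σ x S.b) j v with hu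
  have hm : ∀ R w, Measurable fun y => S.FR R (x, y) w := fun R w =>
    ((S.ip_FR R).at w).comp measurable_prodMk_left
  have hi := Pr_indep (V := V)
    (E := fun y => ¬ (S.FR (S.R + S.L) (x, y) u ∨ S.FR S.R (x, y) (S.mu x u)))
    (F := fun y => j - S.W ≤ pos S.L y u ∧ pos S.L y u < j - S.W + S.W)
    ((hm _ _).or (hm _ _)).not
    ((in_pos (G := G) S.L (fun n => j - S.W ≤ n ∧ n < j - S.W + S.W)).at u)
    (D := {i | i.2 = 0}) (D' := {i | i.2 = 1})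
    (fun y y' hh => by
      have h0 : ∀ v ∈ Set.univ, y (v, 0) = y' (v, 0) := fun v _ => hh (v, 0) rfl
      simp only [(S.closedA_univ x).FR h0 _ (Set.mem_univ _)])
    (fun y y' hh => by simp only [pos, hh (u, 1) rfl])
    (by rw [Set.disjoint_left]; intro i (e1 : i.2 = 0) (e2 : i.2 = 1); omega)
  rw [pr_pos h.L1 u _ _ (by omega), Pr_not ((hm _ _).or (hm _ _))] at hi
  have b1 := Pr_or_le (μ := nu V)
    (E := fun y => S.FR (S.R + S.L) (x, y) u ∨ S.FR S.R (x, y) (S.mu x u)) fun y hy => hy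
  have b2 := pr_FR' hF h x u
  have b3 := pr_FR hF h x (S.mu x u)
  have hq := h.q1
  have hL : (0 : ℝ) < S.L := by exact_mod_cast h.L1
  have hW : (0 : ℝ) ≤ S.W / (16 * S.L) := by positivity
  calc (S.W : ℝ) / (32 * S.L) = 1 / 2 * (S.W / (16 * S.L)) := by field_simp; ring
    _ ≤ _ := mul_le_mul_of_nonneg_right (by linarith) hW
    _ = _ := hi.symm
    _ ≤ _ := Pr_mono fun y hy => ?_
  simp only [not_or] at hy
  have e : S.k (x, y) u = pos S.L y u := rfl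
  exact ⟨j, by omega, ⟨hs, hy.1.1, hy.1.2, by rw [e]; omega, by rw [e]; omega⟩,
    by rw [← hu, e]; omega, by rw [← hu, e]; omega, h3⟩

/-- The vertex is untouched by the random changes. -/
def Good (S : Setup G Δ) (z : Y V × Y V) (v : V) : Prop :=
  ¬ S.FR S.R z v ∧ ¬ S.Lv z v ∧ ¬ S.Lv z (S.mu z.1 v) ∧ ∀ p, S.τ z p v = S.c.σ z.1 p v

lemma ip_Good (S : Setup G Δ) : IP (G := G) act2 S.Good :=
  (S.ip_FR _).not.and (S.ip_Lv.not.and ((S.ip_Lv.comp S.hmu.toEM.fst).not.and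
    (IP.forall fun p => IP.eq (S.ec_τ.em p) (S.ec_σ.em p))))

lemma pr_change (hF : FlipStmt G Δ o) (h : S.Num) (x : Y V) (v : V) :
    Pr (nu V) (fun y => ∃ p, S.τ (x, y) p v ≠ S.c.σ x p v) ≤ 21 * S.q * Δ := by
  have h1 := h.q1
  have h2 : (S.l.length : ℝ) ≤ Δ := by exact_mod_cast S.len
  have := hF.seq_change S.γ S.θ S.q h.θ0 (by linarith) S.R h.R1 h.θR S.l S.hγl S.nodup _
    (S.c.proper x) v
  refine this.trans ?_
  have := h.q0
  nlinarith

lemma pr_not_Good (hF : FlipStmt G Δ o) (h : S.Num) (x : Y V) (v : V) :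
    Pr (nu V) (fun y => ¬ S.Good (x, y) v) ≤ 1 / 4 := by
  have b1 := Pr_or_le (μ := nu V) (E := fun y => ¬ S.Good (x, y) v)
    (E₁ := fun y => S.FR S.R (x, y) v ∨ S.Lv (x, y) v)
    (E₂ := fun y => S.Lv (x, y) (S.mu x v) ∨ ∃ p, S.τ (x, y) p v ≠ S.c.σ x p v) fun y hy => by
      by_contra hn
      simp only [not_or, not_exists, not_not] at hn
      exact hy ⟨hn.1.1, hn.1.2, hn.2.1, hn.2.2⟩
  have b2 := Pr_or_le (μ := nu V) (E := fun y => S.FR S.R (x, y) v ∨ S.Lv (x, y) v)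
    fun y hy => hy
  have b3 := Pr_or_le (μ := nu V)
    (E := fun y => S.Lv (x, y) (S.mu x v) ∨ ∃ p, S.τ (x, y) p v ≠ S.c.σ x p v) fun y hy => hy
  have := pr_FR hF h x v
  have := pr_Lv' h x v
  have := pr_Lv' h x (S.mu x v)
  have := pr_change hF h x v
  have := h.q1
  have := h.qΔ
  linarith

lemma pr_Good2 (hF : FlipStmt G Δ o) (h : S.Num) (x : Y V) (v w : V) :
    1 / 2 ≤ Pr (nu V) (fun y => S.Good (x, y) v ∧ S.Good (x, y) w) := by
  have key := one_sub_Pr_le (μ := nu V)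
    (E := fun y => ¬ S.Good (x, y) v ∨ ¬ S.Good (x, y) w)
    (E' := fun y => S.Good (x, y) v ∧ S.Good (x, y) w) fun y hy => by tauto
  have b1 := Pr_or_le (μ := nu V) (E := fun y => ¬ S.Good (x, y) v ∨ ¬ S.Good (x, y) w)
    fun y hy => hy
  have := pr_not_Good hF h x v
  have := pr_not_Good hF h x w
  linarith

lemma good_dep (hF : FlipStmt G Δ o) (x : Y V) (v : V) :
    DependsOn (fun y => S.Good (x, y) v) {i | i.2 ≠ 2} := by
  intro y y' hh
  have h0 : ∀ v ∈ Set.univ, y (v, 0) = y' (v, 0) := fun v _ => hh (v, 0) (by simp)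
  have h1 : ∀ v ∈ Set.univ, y (v, 1) = y' (v, 1) := fun v _ => hh (v, 1) (by simp)
  have h3 : ∀ p, S.τ (x, y) p v = S.τ (x, y') p v := by
    intro p
    by_cases hp : p ∈ S.γ :: S.l
    · exact (hF.seq_loc S.γ S.θ S.q S.R y' y S.l (S.c.σ x) (S.c.σ x) Set.univ S.hγl
        (fun p _ => ⟨fun _ _ => trivial, fun _ _ => rfl⟩)
        (fun w _ n hn => hh (w, n) (by simp; omega)) p hp).eq v trivial
    · simp only [List.mem_cons, not_or] at hp
      simp only [τ, hF.seq_other _ _ _ _ _ _ _ _ hp.1 hp.2]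
  simp only [Good, (S.closedA_univ x).FR h0 _ (Set.mem_univ _),
    (S.closedA_univ x).Lv h0 h1 (Set.mem_univ _), h3]

lemma Good.hole (hF : FlipStmt G Δ o) {z : Y V × Y V} {v : V} (h : S.Good z v) {p : Fin Δ}
    (hp : S.c.σ z.1 p v = v) : S.fin z p v = v :=
  (S.ok z).shift_keep (S.compat hF z) h.1 h.2.1 h.2.2.1 ((h.2.2.2 p).trans hp)

lemma Good.unc (hF : FlipStmt G Δ o) {z : Y V × Y V} {v w : V} (h : S.Good z v)
    (hu : Unc G (S.c.σ z.1) v w) : Unc G (S.fin z) v w :=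
  (S.ok z).shift_unc (S.compat hF z) h.2.1 h.2.2.1 hu

lemma dn_fin (hF : FlipStmt G Δ o) (h : S.Num) (s : Bool) (p p' : Fin Δ) :
    S.c.DnS o s p p' / 2 ≤ (FC.ofEC (S.ec_fin hF)).DnS o s p p' := by
  rw [FC.ofEC_dnS, div_eq_inv_mul, ← one_div]
  refine Pr_prod_ge (((ip_Sd s).fst.and (IP.dn (S.ec_fin hF) p p')).at o)
    (((ip_Sd s).and (IP.dn S.c.ec p p')).at o) ?_
  rintro x ⟨h0, h1, u, h2, h3⟩
  exact (pr_Good2 hF h x o u).trans (Pr_mono fun y hy =>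
    ⟨h0, hy.1.hole hF h1, u, hy.1.unc hF h2, hy.2.hole hF h3⟩)

/-- An active runner whose uncoloured edge survives. -/
def Intact (S : Setup G Δ) (hF : FlipStmt G Δ o) (z : Y V × Y V) (v : V) : Prop :=
  S.Act z v ∧ S.fin z S.α v = v ∧ ∃ u, Unc G (S.fin z) v u ∧ S.fin z S.β u = u

lemma pr_intact (hF : FlipStmt G Δ o) (h : S.Num) :
    S.ps / 2 * S.c.DnS o S.r S.α S.β ≤ Pr ((muE G).prod (nu V)) (fun z => S.Intact hF z o) := by
  refine Pr_prod_ge ((S.ip_Act.and (IP.dn (S.ec_fin hF) S.α S.β)).at o) (S.ip_Rn.at o) ?_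
  rintro x ⟨h00, h1, u, h2, h3⟩
  have hm : ∀ w, Measurable fun y => S.Good (x, y) w := fun w =>
    (S.ip_Good.at w).comp measurable_prodMk_left
  have hi := Pr_indep (V := V) (E := fun y => S.Good (x, y) o ∧ S.Good (x, y) u)
    (F := fun y => (y (o, 2) : ℝ) < S.ps) ((hm o).and (hm u)) (meas_lab_lt _ _)
    (D := {i | i.2 ≠ 2}) (D' := {i | i.2 = 2})
    (fun y y' hh => by
      have e1 := good_dep (S := S) hF x o hh
      have e2 := good_dep (S := S) hF x u hh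
      simp only at e1 e2
      simp only [e1, e2])
    (fun y y' hh => by simp only [hh (o, 2) rfl])
    (by rw [Set.disjoint_left]; intro i e1 e2; exact e1 e2)
  rw [Pr_lab_lt _ h.ps0 h.ps1] at hi
  have := pr_Good2 hF h x o u
  have h0 := h.ps0
  calc S.ps / 2 = 1 / 2 * S.ps := by ring
    _ ≤ _ := mul_le_mul_of_nonneg_right this h0
    _ = _ := hi.symm
    _ ≤ _ := Pr_mono fun y hy => ⟨⟨⟨h00, h1, u, h2, h3⟩, hy.2⟩, hy.1.1.hole hF h1, u,
      hy.1.1.unc hF h2, hy.1.2.hole hF h3⟩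

lemma pr_act_eq (h : S.Num) :
    Pr ((muE G).prod (nu V)) (fun z => S.Act z o) = S.ps * S.c.DnS o S.r S.α S.β := by
  rw [Pr_prod (S.ip_Act.at o)]
  simp only [pr_Act h]
  rw [integral_const_mul, ← Pr_eq (S.ip_Rn.at o)]
  rfl

end Setup

end Pool.Agent.MP_93f6c7_pr.K
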