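import Pool.Agent.MP_93f6c7_pr.K.RunDefs

/-! Side systems: a common frame for bipartite and non-bipartite environments. -/

set_option autoImplicit false
set_option linter.unusedSectionVars false
set_option linter.unusedVariables false
open MeasureTheory Function
open scoped Classical

namespace Pool.Agent.MP_93f6c7_pr.K

variable {V : Type}

/-- The action on the labels of level zero. -/
def actB {G : SimpleGraph V} (φ : G ≃g G) (x : V → unitInterval) : V → unitInterval :=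
  fun i => x (φ i)

/-- Two invariant sets of vertices that cover everything and are exchanged by adjacency. -/
class Sides (G : SimpleGraph V) where
  sd : Bool → (V → unitInterval) → V → Prop
  meas : ∀ s v, Measurable fun x => sd s x v
  inv : ∀ s (φ : G ≃g G) x v, sd s (actB φ x) v ↔ sd s x (φ v)
  cover : ∀ x v, sd true x v ∨ sd false x v
  adj : ∀ s x v w, G.Adj v w → sd s x v → sd (!s) x w

/-- The side predicate on the full label space. -/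
def Sd (G : SimpleGraph V) [S : Sides G] (s : Bool) (y : Y V) (v : V) : Prop := S.sd s (base y) v

variable [MeasurableSpace V] [DiscreteMeasurableSpace V] [Countable V]
  {G : SimpleGraph V} [G.LocallyFinite] {Δ : ℕ}

/-- One-sided spectral gap of the environment. -/
def OneGap (G : SimpleGraph V) [G.LocallyFinite] [E : Env G] (o : V) (ρ : ℝ) : Prop :=
  ∀ f : (V → unitInterval) → V → ℝ, IF (G := G) actB f → ∫ x, f x o ∂E.ν = 0 →
    ∫ x, f x o * ∑ w ∈ G.neighborFinset o, f x w ∂E.ν ≤ ρ * ∫ x, f x o ^ 2 ∂E.ν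

/-- The bottom of the spectrum is separated from minus the degree. -/
def LowGap (G : SimpleGraph V) [G.LocallyFinite] [E : Env G] (o : V) : Prop :=
  ∃ η : ℝ, 0 < η ∧ ∀ f : (V → unitInterval) → V → ℝ, IF (G := G) actB f →
    η * ∫ x, f x o ^ 2 ∂E.ν ≤ ∑ w ∈ G.neighborFinset o, ∫ x, (f x o + f x w) ^ 2 ∂E.ν

/-- Approximate invariant two-colourings exist. -/
def ApproxBip (G : SimpleGraph V) [G.LocallyFinite] [E : Env G] (o : V) : Prop :=
  ∀ ε : ℝ, 0 < ε → ∃ χ : (V → unitInterval) → V → Prop, IP (G := G) actB χ ∧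
    ∑ w ∈ G.neighborFinset o, Pr E.ν (fun x => χ x o ↔ χ x w) ≤ ε

/-- An invariant two-colouring exists. -/
def ExactBip (G : SimpleGraph V) [E : Env G] : Prop :=
  ∃ χ : (V → unitInterval) → V → Prop, IP (G := G) actB χ ∧
    ∀ᵐ x ∂E.ν, ∀ v w, G.Adj v w → (χ x v ↔ ¬ χ x w)

/-- Norm bound for the adjacency operator on functions of mean zero supported on one side. -/
def BaseGapS (G : SimpleGraph V) [G.LocallyFinite] [E : Env G] [S : Sides G] (o : V) (ρ : ℝ) :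
    Prop :=
  ∀ (s : Bool) (f : (V → unitInterval) → V → ℝ), IF (G := G) actB f →
    (∀ x v, ¬ S.sd s x v → f x v = 0) → ∫ x, f x o ∂E.ν = 0 →
    ∫ x, (∑ w ∈ G.neighborFinset o, f x w) ^ 2 ∂E.ν ≤ ρ ^ 2 * ∫ x, f x o ^ 2 ∂E.ν

/-- Spectral gap for nonnegative functions supported on one side. -/
def HasGapS (G : SimpleGraph V) [G.LocallyFinite] [Env G] [Sides G] (o : V) (Γ : ℝ) : Prop :=
  ∀ (s : Bool) (H : Y V → V → ℝ), IF (G := G) act H → (∀ y v, 0 ≤ H y v) →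
    (∀ y v, ¬ Sd G s y v → H y v = 0) → ∃ m : ℝ, ∫ y, H y o ∂(muE G) ≤ m ∧
      ∀ g : Y V → ℝ, BM g → ∫ y, ind (Sd G s y o) * (H y o - m) ^ 2 ∂(muE G) ≤
        Γ * ∑ w ∈ G.neighborFinset o, ∫ y, (H y w - g y) ^ 2 ∂(muE G)

variable [Env G] [Sides G]

/-- As `Dn`, with the root on side `s`. -/
noncomputable def FC.DnS (c : FC G Δ) (o : V) (s : Bool) (α β : Fin Δ) : ℝ :=
  Pr (muE G) (fun y => Sd G s y o ∧ c.σ y α o = o ∧ ∃ u, Unc G (c.σ y) o u ∧ c.σ y β u = u)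

/-- As `Sh`, with the root on side `s`. -/
noncomputable def FC.ShS (c : FC G Δ) (o : V) (s : Bool) (α γ β : Fin Δ) (l : ℕ) : ℝ :=
  Pr (muE G) (fun y => Sd G s y o ∧ c.σ y α o = o ∧ ¬ Free (c.σ y γ) (c.σ y α) l o ∧
    ∃ u, Unc G (c.σ y) o u ∧ c.σ y β u = u)

/-- As `Lg`, with the root on side `s`. -/
noncomputable def FC.LgS (c : FC G Δ) (o : V) (s : Bool) (a b : Fin Δ) (l : ℕ) : ℝ :=
  Pr (muE G) (fun y => Sd G s y o ∧ c.σ y b o = o ∧ Free (c.σ y a) (c.σ y b) l o ∧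
    ∃ u, Unc G (c.σ y) o u ∧ c.σ y a u = u)

/-- The main probabilistic lemma with sides. -/
def RunStmtS (G : SimpleGraph V) [Env G] [Sides G] (Δ : ℕ) (o : V) : Prop :=
  ∀ δ : ℝ, 0 < δ → ∃ κ : ℝ, 0 < κ ∧ ∃ (C : ℝ) (N₀ : ℕ), ∀ N : ℕ, N₀ ≤ N → ∀ e : ℝ, 0 < e →
    e ≤ 1 / (N : ℝ) ^ 8 → ∃ L l : ℕ, (L : ℝ) * e ≤ C / N ∧ (l : ℝ) * e ≤ C / N ∧
      ∀ (c : FC G Δ) (a b γ α β : Fin Δ) (s r : Bool), a ≠ b → γ ≠ a → γ ≠ b →
        ((α = a ∧ r = s) ∨ (α = b ∧ r = !s)) →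
        c.hol o ≤ e → δ * e ≤ c.LgS o s a b L → δ * e ≤ c.DnS o r α β →
        ∃ c' : FC G Δ, c.Near c' o (C / N) ∧ c'.hol o ≤ c.hol o + C / N * e ∧
          κ * e ≤ c'.ShS o r α γ β l ∧ c.DnS o s b a / 2 ≤ c'.DnS o s b a

/-- The square estimates with sides. -/
def L2StmtS (G : SimpleGraph V) [G.LocallyFinite] [Env G] [Sides G] (Δ : ℕ) (o : V) (Γ : ℝ) :
    Prop :=
  ∀ (σ : Y V → Fin Δ → V → V) (A C : Y V × Y V → V → V) (Wn Act : Y V × Y V → V → Prop)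
    (ΩA ΩB : Y V → V → Set (V × ℕ)), EC (G := G) act σ → Markov G A C Wn Act ΩA ΩB →
    ∀ (a b γ : Fin Δ), γ ≠ a → γ ≠ b → ∀ q : ℝ, 0 < q →
    (∀ x p, p = a ∨ p = b → q ≤ Pr (nu V) (fun y => A (x, y) o = σ x p o ∧
      (σ x p o ≠ o → ¬ Wn (x, y) (σ x p o)))) →
    (∀ x p, p ≠ a → p ≠ b → q ≤ Pr (nu V) (fun y => C (x, y) o = σ x p o)) →
    ∀ ps : ℝ, (∀ x v, Pr (nu V) (fun y => Act (x, y) v) ≤ ps) →
    ∀ r : Bool, (∀ z v, Act z v → Sd G r z.1 v) → ∀ (m : ℕ) (f g0 : ℝ),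
    f = Pr ((muE G).prod (nu V)) (fun z => Act z o) → g0 = q ^ 2 / (200 * Γ ^ 2) →
    (∀ x v, ¬ Sd G (!r) x v → occ A C Wn Act m x v = 0) ∧
    ∃ hb : ℝ, 0 ≤ hb ∧
      g0 * ∫ x, ind (Sd G (!r) x o) * (occ A C Wn Act m x o - hb) ^ 2 ∂(muE G) ≤
        2 * hb * f + ps * f / g0 ∧
      ∫ x, occ A C Wn Act m x o * Pr (nu V) (fun y => Wn (x, y) o) ∂(muE G) ≤ f ∧
      (m : ℝ) * Pr ((muE G).prod (nu V)) (fun z => Arr (A z) (C z) (Wn z) (Act z) m o) ≤ hb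

omit [Env G] in
lemma ip_sd (s : Bool) : IP (G := G) actB (Sides.sd G s) :=
  ⟨measurable_pi_lambda _ fun v => Sides.meas s v, fun φ x v => Sides.inv s φ x v⟩

omit [Env G] in
lemma ip_Sd (s : Bool) : IP (G := G) act (Sd G s) :=
  (ip_sd s).pull meas_base fun _ _ => rfl

omit [Env G] in
lemma Sd.adj {s : Bool} {y : Y V} {v w : V} (h : Sd G s y v) (hw : G.Adj v w) : Sd G (!s) y w :=
  Sides.adj s _ v w hw h

omit [Env G] in
lemma Sd.adj' {s : Bool} {y : Y V} {v w : V} (h : Sd G (!s) y v) (hw : G.Adj v w) :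
    Sd G s y w := by
  simpa using h.adj hw

omit [Env G] in
lemma Sd_cover (y : Y V) (v : V) : Sd G true y v ∨ Sd G false y v := Sides.cover _ v

omit [Env G] in
lemma Sd_split (s : Bool) (y : Y V) : Sd G s (split y).1 = Sd G s y := by
  unfold Sd split
  rw [base_reix (j := fun k => 2 * k) rfl]

section
variable {Z : Type} [MeasurableSpace Z] {T : (G ≃g G) → Z → Z}
variable {s2 : Y V × Y V → Fin Δ → V → V}

lemma FC.ofEC_dnS (h : EC (G := G) act2 s2) (o : V) (s : Bool) (α β : Fin Δ) :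
    (FC.ofEC h).DnS o s α β = Pr ((muE G).prod (nu V))
      (fun z => Sd G s z.1 o ∧ s2 z α o = o ∧ ∃ u, Unc G (s2 z) o u ∧ s2 z β u = u) := by
  rw [← Pr_map splitE_mp (((ip_Sd s).fst.and (IP.dn h α β)).at o)]
  simp only [Sd_split]
  rfl

lemma FC.ofEC_shS (h : EC (G := G) act2 s2) (o : V) (s : Bool) (α γ β : Fin Δ) (l : ℕ) :
    (FC.ofEC h).ShS o s α γ β l = Pr ((muE G).prod (nu V))
      (fun z => Sd G s z.1 o ∧ s2 z α o = o ∧ ¬ Free (s2 z γ) (s2 z α) l o ∧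
        ∃ u, Unc G (s2 z) o u ∧ s2 z β u = u) := by
  rw [← Pr_map splitE_mp (((ip_Sd s).fst.and (IP.sh h α γ β l)).at o)]
  simp only [Sd_split]
  rfl

end

lemma FC.dnS_le (c : FC G Δ) (o : V) (s : Bool) (α β : Fin Δ) : c.DnS o s α β ≤ c.Dn o α β :=
  Pr_mono fun _ h => h.2

lemma FC.shS_le (c : FC G Δ) (o : V) (s : Bool) (α γ β : Fin Δ) (l : ℕ) :
    c.ShS o s α γ β l ≤ c.Sh o α γ β l := Pr_mono fun _ h => h.2

end Pool.Agent.MP_93f6c7_pr.K
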