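import Pool.Agent.MP_93f6c7_pr.K.EnvMP

/-! Conditional probabilities given more and more labels converge to the indicator. -/

set_option autoImplicit false
set_option linter.unusedSectionVars false
open MeasureTheory Function Filter Topology
open scoped Classical

namespace Pool.Agent.MP_93f6c7_pr.K

namespace ConvX

lemma bm_abs {Z : Type} [MeasurableSpace Z] {f : Z → ℝ} (hf : BM f) : BM (fun z => |f z|) := by
  obtain ⟨A, hA⟩ := hf.bdd
  exact ⟨hf.meas.abs, A, fun z => by rw [abs_abs]; exact hA z⟩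

variable {V : Type} [MeasurableSpace V] [DiscreteMeasurableSpace V] [Countable V]
  {G : SimpleGraph V} [E : Env G]

/-- The discrepancy of `f` between a label and the label resampled outside a set. -/
noncomputable def disc (G : SimpleGraph V) [Env G] (f : Y V → ℝ) (D : Set (V × ℕ)) : ℝ :=
  ∫ p : Y V × Y V, |f p.1 - f (D.piecewise p.1 p.2)| ∂((muE G).prod (nu V))

omit E in
lemma bm_disc {f : Y V → ℝ} (hf : BM f) (D : Set (V × ℕ)) :
    BM (fun p : Y V × Y V => |f p.1 - f (D.piecewise p.1 p.2)|) :=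
  bm_abs ((hf.comp measurable_fst).sub (hf.comp (meas_pw D)))

lemma disc_nonneg (f : Y V → ℝ) (D : Set (V × ℕ)) : 0 ≤ disc G f D :=
  integral_nonneg fun _ => abs_nonneg _

lemma pr_le_disc {A : Y V → Prop} (hA : Measurable A) (D : Set (V × ℕ)) :
    Pr (muE G) (fun y => A y ∧ Pr (nu V) (fun y' => A (D.piecewise y y')) ≤ 1 / 2) ≤
      2 * disc G (fun y => ind (A y)) D := by
  have hA2 : Measurable fun p : Y V × Y V => A (D.piecewise p.1 p.2) := hA.comp (meas_pw D)
  have hP : BM (fun y => Pr (nu V) (fun y' => A (D.piecewise y y'))) := BM.Pr hA2 (nu V)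
  have hm : Measurable fun y => A y ∧ Pr (nu V) (fun y' => A (D.piecewise y y')) ≤ 1 / 2 :=
    hA.and (meas_le hP.meas measurable_const)
  have hb := bm_disc (BM.ind hA) D
  rw [Pr_eq hm, disc, int_prod hb, ← integral_const_mul]
  refine int_mono (BM.ind hm) ((BM.const 2).mul (hb.integral (nu V))) fun y => ?_
  by_cases h : A y ∧ Pr (nu V) (fun y' => A (D.piecewise y y')) ≤ 1 / 2
  · rw [ind_pos h]
    have hy : Measurable fun y' => A (D.piecewise y y') := hA2.comp measurable_prodMk_left
    have e : ∫ y', |ind (A y) - ind (A (D.piecewise y y'))| ∂(nu V) =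
        1 - Pr (nu V) (fun y' => A (D.piecewise y y')) := by
      rw [Pr_eq hy, ← int_const (μ := nu V) 1, ← int_sub (BM.const 1) (BM.ind hy)]
      congr 1
      funext y'
      rw [ind_pos h.1, abs_of_nonneg (sub_nonneg.2 (ind_le_one _))]
    simp only
    rw [e]
    linarith [h.2]
  · rw [ind_neg h]
    exact mul_nonneg (by norm_num) (integral_nonneg fun _ => abs_nonneg _)

lemma disc_le {f c : Y V → ℝ} (hf : BM f) (hc : BM c) {D : Set (V × ℕ)} (hD : ∀ v, (v, 0) ∈ D) :
    disc G f D ≤ 2 * ∫ y, |f y - c y| ∂(muE G) + disc G c D := by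
  have hfc : BM (fun y => |f y - c y|) := bm_abs (hf.sub hc)
  have h1 : ∫ p : Y V × Y V, |f p.1 - c p.1| ∂((muE G).prod (nu V)) =
      ∫ y, |f y - c y| ∂(muE G) := int_map measurePreserving_fst hfc.meas
  have h2 : ∫ p : Y V × Y V, |f (D.piecewise p.1 p.2) - c (D.piecewise p.1 p.2)|
      ∂((muE G).prod (nu V)) = ∫ y, |f y - c y| ∂(muE G) := int_map (pwE_mp D hD) hfc.meas
  have b1 : BM (fun p : Y V × Y V => |f p.1 - c p.1|) := hfc.comp measurable_fst
  have b2 : BM (fun p : Y V × Y V =>
      |f (D.piecewise p.1 p.2) - c (D.piecewise p.1 p.2)|) := hfc.comp (meas_pw D)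
  have h3 := int_mono (μ := (muE G).prod (nu V)) (bm_disc hf D) ((b1.add b2).add (bm_disc hc D))
    (fun p => by
      have t1 := abs_sub_le (f p.1) (c p.1) (f (D.piecewise p.1 p.2))
      have t2 := abs_sub_le (c p.1) (c (D.piecewise p.1 p.2)) (f (D.piecewise p.1 p.2))
      rw [abs_sub_comm (c (D.piecewise p.1 p.2))] at t2
      linarith)
  rw [int_add (b1.add b2) (bm_disc hc D), int_add b1 b2, h1, h2] at h3
  unfold disc
  linarith

lemma disc_tendsto (c : BoundedContinuousFunction (Y V) ℝ) {T : ℕ → Set (V × ℕ)}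
    (hT : ∀ i, ∀ᶠ k in atTop, i ∈ T k) : Tendsto (fun k => disc G c (T k)) atTop (nhds 0) := by
  have hc : BM (c : Y V → ℝ) :=
    ⟨c.continuous.measurable, ‖c‖, fun z => c.norm_coe_le_norm z⟩
  have h := tendsto_integral_of_dominated_convergence (μ := (muE G).prod (nu V))
    (F := fun k (p : Y V × Y V) => |c p.1 - c ((T k).piecewise p.1 p.2)|) (f := fun _ => (0 : ℝ))
    (fun _ => ‖c‖ + ‖c‖) (fun k => (bm_disc hc (T k)).meas.aestronglyMeasurable)
    (integrable_const _)
    (fun k => Eventually.of_forall fun p => by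
      rw [Real.norm_eq_abs, abs_abs]
      exact (abs_sub _ _).trans (add_le_add (c.norm_coe_le_norm _) (c.norm_coe_le_norm _)))
    (Eventually.of_forall fun p => by
      have h1 : Tendsto (fun k => ((T k).piecewise p.1 p.2 : Y V)) atTop (nhds p.1) := by
        refine tendsto_pi_nhds.2 fun i => ?_
        refine tendsto_const_nhds.congr' ?_
        filter_upwards [hT i] with k hk
        rw [Set.piecewise_eq_of_mem _ _ _ hk]
      have h2 := (c.continuous.tendsto p.1).comp h1
      have h3 := ((tendsto_const_nhds (x := c p.1)).sub h2).abs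
      simpa using h3)
  simpa [disc] using h

lemma disc_tendsto' {f : Y V → ℝ} (hf : BM f) {T : ℕ → Set (V × ℕ)} (h0 : ∀ k v, (v, 0) ∈ T k)
    (hT : ∀ i, ∀ᶠ k in atTop, i ∈ T k) : Tendsto (fun k => disc G f (T k)) atTop (nhds 0) := by
  refine tendsto_order.2 ⟨fun a ha => Eventually.of_forall fun k =>
    ha.trans_le (disc_nonneg _ _), fun a ha => ?_⟩
  obtain ⟨c, hc, -⟩ := (hf.integrable (μ := muE G)).exists_boundedContinuous_integral_sub_le
    (ε := a / 4) (by linarith)
  have hcb : BM (c : Y V → ℝ) :=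
    ⟨c.continuous.measurable, ‖c‖, fun z => c.norm_coe_le_norm z⟩
  have h1 := (tendsto_order.1 (disc_tendsto (G := G) c hT)).2 (a / 2) (by linarith)
  filter_upwards [h1] with k hk
  have h2 := disc_le (G := G) hf hcb (h0 k)
  simp only [Real.norm_eq_abs] at hc
  linarith

end ConvX

variable {V : Type} [MeasurableSpace V] [DiscreteMeasurableSpace V] [Countable V]
  {G : SimpleGraph V} [G.LocallyFinite] {Δ : ℕ} [E : Env G]

theorem convStmt : ConvStmt G := by
  intro A hA T h0 hT
  have h := (ConvX.disc_tendsto' (G := G) (BM.ind hA) h0 hT).const_mul 2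
  rw [mul_zero] at h
  exact squeeze_zero (fun k => Pr_nonneg _) (fun k => ConvX.pr_le_disc hA (T k)) h

end Pool.Agent.MP_93f6c7_pr.K
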