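import Mathlib

/-!
# Factor of iid edge colourings of the regular tree: definitions

A (not necessarily complete) proper edge colouring is stored as a family of involutions
`σ p : V → V`, one for each colour `p`: `σ p v` is the other end of the edge of colour `p` at `v`,
and `σ p v = v` when colour `p` is missing at `v` (a hole).
-/

set_option autoImplicit false
open MeasureTheory
open scoped Classical

namespace Pool.Agent.MP_93f6c7_pr.K

/-- The label space: countably many uniform labels at each vertex. -/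
abbrev Y (V : Type) : Type := V × ℕ → unitInterval

/-- The product measure on the label space. -/
noncomputable def nu (V : Type) : Measure (Y V) :=
  Measure.infinitePi (fun _ : V × ℕ => (volume : Measure unitInterval))

instance nu_prob (V : Type) : IsProbabilityMeasure (nu V) := by
  unfold nu; infer_instance

variable {V : Type}

/-- The action of a graph automorphism on labels. -/
def act {G : SimpleGraph V} (φ : G ≃g G) (y : Y V) : Y V := fun i => y (φ i.1, i.2)

/-- Reindexing of the labels at each vertex. -/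
def reix (j : ℕ → ℕ) (y : Y V) : Y V := fun i => y (i.1, j i.2)

/-- The probability of an event, as a real number. -/
noncomputable def Pr {Z : Type} [MeasurableSpace Z] (μ : Measure Z) (E : Z → Prop) : ℝ :=
  μ.real {z | E z}

/-- Regular tree of degree at least three. -/
structure RT (G : SimpleGraph V) [G.LocallyFinite] (Δ : ℕ) : Prop where
  tree : G.IsTree
  reg : ∀ v, G.degree v = Δ
  three : 3 ≤ Δ

/-- Every edge can be reversed by an automorphism. -/
def HasSwaps (G : SimpleGraph V) : Prop :=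
  ∀ u w, G.Adj u w → ∃ φ : G ≃g G, φ u = w ∧ φ w = u

/-- An invariant law of the labels of level zero. -/
class Env (G : SimpleGraph V) where
  ν : Measure (V → unitInterval)
  prob : IsProbabilityMeasure ν
  inv : ∀ φ : G ≃g G, MeasurePreserving (fun (x : V → unitInterval) (i : V) => x (φ i)) ν ν

instance Env.prob' (G : SimpleGraph V) [E : Env G] : IsProbabilityMeasure E.ν := E.prob

/-- Labels of level zero from `x`, all other labels from `y`. -/
def comb (x : V → unitInterval) (y : Y V) : Y V := fun i => if i.2 = 0 then x i.1 else y i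

theorem meas_comb : Measurable fun p : (V → unitInterval) × Y V => comb p.1 p.2 := by
  refine measurable_pi_lambda _ fun i => ?_
  by_cases h : i.2 = 0 <;> simp only [comb, h, if_true, if_false] <;> fun_prop

/-- The labels of level zero. -/
def base (y : Y V) : V → unitInterval := fun v => y (v, 0)

/-- Level zero has the law of the environment, the other labels are independent uniform. -/
noncomputable def muE (G : SimpleGraph V) [E : Env G] : Measure (Y V) :=
  (E.ν.prod (nu V)).map fun p => comb p.1 p.2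

instance muE_prob (G : SimpleGraph V) [Env G] : IsProbabilityMeasure (muE G) :=
  Measure.isProbabilityMeasure_map meas_comb.aemeasurable

/-- Spectral gap for bounded equivariant functions of the labels. -/
def HasGap (G : SimpleGraph V) [G.LocallyFinite] [Env G] (o : V) (Γ : ℝ) : Prop :=
  ∀ (H : Y V → V → ℝ) (g : Y V → ℝ) (B : ℝ), (∀ v, Measurable (fun y => H y v)) →
    Measurable g → (∀ y v, |H y v| ≤ B) → (∀ y, |g y| ≤ B) →
    (∀ (φ : G ≃g G) y v, H (act φ y) v = H y (φ v)) →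
    ∫ y, (H y o - ∫ x, H x o ∂(muE G)) ^ 2 ∂(muE G) ≤
      Γ * ∑ w ∈ G.neighborFinset o, ∫ y, (H y w - g y) ^ 2 ∂(muE G)

/-- The adjacency operator of the environment has norm at most `ρ` on functions of mean zero. -/
def BaseGap (G : SimpleGraph V) [G.LocallyFinite] [E : Env G] (o : V) (ρ : ℝ) : Prop :=
  ∀ (H : (V → unitInterval) → V → ℝ) (B : ℝ), (∀ v, Measurable (fun x => H x v)) →
    (∀ x v, |H x v| ≤ B) → (∀ (φ : G ≃g G) x v, H (fun i => x (φ i)) v = H x (φ v)) →
    ∫ x, H x o ∂E.ν = 0 →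
    ∫ x, (∑ w ∈ G.neighborFinset o, H x w) ^ 2 ∂E.ν ≤ ρ ^ 2 * ∫ x, H x o ^ 2 ∂E.ν

/-- The alternating walk `v, f v, g (f v), ...`. -/
def walk (f g : V → V) : ℕ → V → V
  | 0, v => v
  | n + 1, v => walk g f n (f v)

/-- The first `n` steps of the alternating walk all move. -/
def Free (f g : V → V) : ℕ → V → Prop
  | 0, _ => True
  | n + 1, v => f v ≠ v ∧ Free g f n (f v)

/-- Proper edge colouring of a subset of the edges. -/
structure Proper (G : SimpleGraph V) {Δ : ℕ} (σ : Fin Δ → V → V) : Prop where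
  inv : ∀ p, Function.Involutive (σ p)
  adj : ∀ p v, σ p v ≠ v → G.Adj v (σ p v)
  disj : ∀ p q v, p ≠ q → σ p v ≠ v → σ p v ≠ σ q v

/-- The edge `v w` is uncoloured. -/
def Unc (G : SimpleGraph V) {Δ : ℕ} (σ : Fin Δ → V → V) (v w : V) : Prop :=
  G.Adj v w ∧ ∀ p, σ p v ≠ w

/-- A factor of iid proper colouring of a subset of the edges. -/
structure FC [MeasurableSpace V] (G : SimpleGraph V) (Δ : ℕ) where
  σ : Y V → Fin Δ → V → V
  meas : Measurable σ
  proper : ∀ y, Proper G (σ y)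
  eqv : ∀ (φ : G ≃g G) y p v, φ (σ (act φ y) p v) = σ y p (φ v)

variable [MeasurableSpace V] {G : SimpleGraph V} {Δ : ℕ} [Env G]

/-- Expected number of holes at the root. -/
noncomputable def FC.hol (c : FC G Δ) (o : V) : ℝ :=
  ∑ p : Fin Δ, Pr (muE G) (fun y => c.σ y p o = o)

/-- `c'` differs from (a reindexed copy of) `c` at the root with probability at most `ε`. -/
def FC.Near (c c' : FC G Δ) (o : V) (ε : ℝ) : Prop :=
  ∃ j : ℕ → ℕ, Function.Injective j ∧ j 0 = 0 ∧
    Pr (muE G) (fun y => ∃ p, c'.σ y p o ≠ c.σ (reix j y) p o) ≤ ε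

/-- The root misses `α` and has an uncoloured edge to a vertex missing `β`. -/
noncomputable def FC.Dn (c : FC G Δ) (o : V) (α β : Fin Δ) : ℝ :=
  Pr (muE G) (fun y => c.σ y α o = o ∧ ∃ u, Unc G (c.σ y) o u ∧ c.σ y β u = u)

/-- As `Dn`, and the `γ α` alternating path from the root has fewer than `l` edges. -/
noncomputable def FC.Sh (c : FC G Δ) (o : V) (α γ β : Fin Δ) (l : ℕ) : ℝ :=
  Pr (muE G) (fun y => c.σ y α o = o ∧ ¬ Free (c.σ y γ) (c.σ y α) l o ∧
    ∃ u, Unc G (c.σ y) o u ∧ c.σ y β u = u)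

/-- As `Dn b a`, and the `a b` alternating path from the root has at least `l` edges. -/
noncomputable def FC.Lg (c : FC G Δ) (o : V) (a b : Fin Δ) (l : ℕ) : ℝ :=
  Pr (muE G) (fun y => c.σ y b o = o ∧ Free (c.σ y a) (c.σ y b) l o ∧
    ∃ u, Unc G (c.σ y) o u ∧ c.σ y a u = u)

/-- The main probabilistic lemma. -/
def RunStmt (G : SimpleGraph V) [Env G] (Δ : ℕ) (o : V) : Prop :=
  ∀ δ : ℝ, 0 < δ → ∃ κ : ℝ, 0 < κ ∧ ∃ (C : ℝ) (N₀ : ℕ), ∀ N : ℕ, N₀ ≤ N → ∀ e : ℝ, 0 < e →
    e ≤ 1 / (N : ℝ) ^ 8 → ∃ L l : ℕ, (L : ℝ) * e ≤ C / N ∧ (l : ℝ) * e ≤ C / N ∧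
      ∀ (c : FC G Δ) (a b γ α β : Fin Δ), a ≠ b → γ ≠ a → γ ≠ b → (α = a ∨ α = b) →
        c.hol o ≤ e → δ * e ≤ c.Lg o a b L → δ * e ≤ c.Dn o α β →
        ∃ c' : FC G Δ, c.Near c' o (C / N) ∧ c'.hol o ≤ c.hol o + C / N * e ∧
          κ * e ≤ c'.Sh o α γ β l ∧ c.Dn o b a / 2 ≤ c'.Dn o b a

/-- One improvement step. -/
def ImproveStmt (G : SimpleGraph V) [Env G] (Δ : ℕ) (o : V) : Prop :=
  ∃ κ : ℝ, 0 < κ ∧
    (∀ c : FC G Δ, ∃ c' : FC G Δ, c.Near c' o 1 ∧ c'.hol o ≤ (1 - κ) * c.hol o) ∧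
    ∃ (C : ℝ) (N₀ : ℕ), ∀ N : ℕ, N₀ ≤ N → ∀ c : FC G Δ, c.hol o ≤ 1 / (N : ℝ) ^ 9 →
      ∃ c' : FC G Δ, c.Near c' o (C / N) ∧ c'.hol o ≤ (1 - κ) * c.hol o

/-- The colouring only uses the labels of level zero. -/
def FC.Base (c : FC G Δ) : Prop := ∀ y y' : Y V, base y = base y' → c.σ y = c.σ y'

/-- The colouring at a vertex only uses the labels of level zero and the labels within distance
`R` of the vertex. -/
def FC.Local (c : FC G Δ) (R : ℕ) : Prop :=
  ∀ (y y' : Y V) (v : V), base y = base y' → (∀ u n, G.dist v u ≤ R → y (u, n) = y' (u, n)) →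
    ∀ p, c.σ y p v = c.σ y' p v

/-- Probability that two colourings differ at the root. -/
noncomputable def FC.chg (c c' : FC G Δ) (o : V) : ℝ :=
  Pr (muE G) (fun y => ∃ p, c'.σ y p o ≠ c.σ y p o)

/-- Conditional probabilities given more and more labels converge to the indicator. -/
def ConvStmt (G : SimpleGraph V) [Env G] : Prop :=
  ∀ (E : Y V → Prop), Measurable E → ∀ T : ℕ → Set (V × ℕ), (∀ k v, (v, 0) ∈ T k) →
    (∀ i, ∀ᶠ k in Filter.atTop, i ∈ T k) →
    Filter.Tendsto (fun k => Pr (muE G) (fun y => E y ∧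
      Pr (nu V) (fun y' => E ((T k).piecewise y y')) ≤ 1 / 2)) Filter.atTop (nhds 0)

/-- Every colouring is close to a local one. -/
def LocalStmt (G : SimpleGraph V) [Env G] (Δ : ℕ) (o : V) : Prop :=
  ∀ (c : FC G Δ) (ε : ℝ), 0 < ε → ∃ (R : ℕ) (c' : FC G Δ), c'.Local R ∧ c.chg c' o ≤ ε

/-- A local colouring can be replaced by one that only uses level zero. -/
def SubstStmt (G : SimpleGraph V) [Env G] (Δ : ℕ) (o : V) : Prop :=
  ∀ (c c' : FC G Δ) (R : ℕ), c.Base → c'.Local R → ∀ t ε : ℝ, 0 ≤ t → 0 < ε →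
    ∃ c'' : FC G Δ, c''.Base ∧ c''.hol o + t * c.chg c'' o ≤ c'.hol o + t * c.chg c' o + ε

/-- One improvement step among colourings that only use level zero. -/
def BaseImproveStmt (G : SimpleGraph V) [Env G] (Δ : ℕ) (o : V) : Prop :=
  ∃ κ : ℝ, 0 < κ ∧
    (∀ c : FC G Δ, c.Base → ∃ c' : FC G Δ, c'.Base ∧ c'.hol o ≤ (1 - κ) * c.hol o) ∧
    ∃ (C : ℝ) (N₀ : ℕ), ∀ N : ℕ, N₀ ≤ N → ∀ c : FC G Δ, c.Base → c.hol o ≤ 1 / (N : ℝ) ^ 9 →
      ∃ c' : FC G Δ, c'.Base ∧ c.chg c' o ≤ C / N ∧ c'.hol o ≤ (1 - κ) * c.hol o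

end Pool.Agent.MP_93f6c7_pr.K
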