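import Pool.Agent.MP_93f6c7_pr.K.DefsS

/-! Without a gap at the bottom of the spectrum there are approximate two-colourings. -/

set_option autoImplicit false
set_option linter.unusedSectionVars false
set_option linter.unusedVariables false
open MeasureTheory Function
open scoped Classical

namespace Pool.Agent.MP_93f6c7_pr.K

variable {V : Type} [MeasurableSpace V] [DiscreteMeasurableSpace V] [Countable V]
  {G : SimpleGraph V} [G.LocallyFinite] {Δ : ℕ} [E : Env G]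

namespace Dich1X

lemma point (a b c : ℝ) : c ^ 2 / 2 * ind (0 ≤ a ↔ 0 ≤ b) ≤ (|a| - c) ^ 2 + (a + b) ^ 2 := by
  by_cases h : (0 ≤ a ↔ 0 ≤ b)
  · have h1 : 0 ≤ a * b := by
      by_cases ha : 0 ≤ a
      · exact mul_nonneg ha (h.1 ha)
      · exact mul_nonneg_of_nonpos_of_nonpos (not_le.1 ha).le (not_le.1 (mt h.2 ha)).le
    have h2 : ind (0 ≤ a ↔ 0 ≤ b) = 1 := by simp [ind, h]
    rw [h2]
    nlinarith [sq_abs a, sq_nonneg b, sq_nonneg (2 * |a| - c)]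
  · have h2 : ind (0 ≤ a ↔ 0 ≤ b) = 0 := by simp [ind, h]
    rw [h2, mul_zero]
    positivity

lemma point2 (a b c : ℝ) :
    (|a| - c) ^ 2 + (|b| - c) ^ 2 - 2 * ((|a| - c) * (|b| - c)) ≤ (a + b) ^ 2 := by
  nlinarith [sq_abs a, sq_abs b, neg_abs_le (a * b), abs_mul a b]

end Dich1X

theorem approxBip (h : RT G Δ) (hs : HasSwaps G) (o : V) {ρ : ℝ} (hρ : ρ < Δ)
    (h1 : OneGap G o ρ) (h2 : ¬ LowGap G o) : ApproxBip G o := by
  intro ε hε
  have ha : ∀ φ : G ≃g G, MeasurePreserving (actB φ) E.ν E.ν := E.inv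
  have hg : 0 < Δ - ρ := sub_pos.2 hρ
  have hD : (0 : ℝ) ≤ Δ := Nat.cast_nonneg _
  have hc : (G.neighborFinset o).card = Δ := h.reg o
  obtain ⟨η, η0, η1, η2⟩ : ∃ η : ℝ, 0 < η ∧ η ≤ Δ - ρ ∧
      4 * η * (Δ + 2 * (Δ - ρ)) ≤ ε * (2 * (Δ - ρ)) := by
    refine ⟨min (Δ - ρ) (ε * (2 * (Δ - ρ)) / (4 * (Δ + 2 * (Δ - ρ)))), by positivity,
      min_le_left _ _, ?_⟩
    have := min_le_right (Δ - ρ) (ε * (2 * (Δ - ρ)) / (4 * (Δ + 2 * (Δ - ρ))))
    rw [le_div_iff₀ (by positivity)] at this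
    linarith
  unfold LowGap at h2
  push Not at h2
  obtain ⟨f, hf, hQ⟩ := h2 η η0
  have hab : IF (G := G) actB fun x v => |f x v| := by
    obtain ⟨B, hB⟩ := hf.bdd
    exact ⟨measurable_pi_lambda _ fun v => (meas_at hf.meas v).abs,
      ⟨B, fun x v => by rw [abs_abs]; exact hB x v⟩, fun φ x v => by rw [hf.inv]⟩
  obtain ⟨c, hc0⟩ : ∃ c, c = ∫ x, |f x o| ∂E.ν := ⟨_, rfl⟩
  have hu : IF (G := G) actB fun x v => |f x v| - c := hab.sub (IF.const c)
  have m0 : ∫ x, |f x o| - c ∂E.ν = 0 := by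
    rw [int_sub (hab.bm o) (BM.const c), int_const, hc0, sub_self]
  have g1 := h1 _ hu m0
  have e1 : ∫ x, (|f x o| - c) ^ 2 ∂E.ν = ∫ x, f x o ^ 2 ∂E.ν - c ^ 2 := by
    have : ∀ x, (|f x o| - c) ^ 2 = f x o ^ 2 - 2 * c * |f x o| + c ^ 2 := fun x => by
      rw [← sq_abs (f x o)]
      ring
    simp only [this]
    rw [int_add ((hf.bm o).sq.sub ((BM.const _).mul (hab.bm o))) (BM.const _),
      int_sub (hf.bm o).sq ((BM.const _).mul (hab.bm o)), integral_const_mul, int_const, ← hc0]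
    ring
  have bq : ∀ w, BM fun x => (f x o + f x w) ^ 2 := fun w => ((hf.bm o).add (hf.bm w)).sq
  have e2 : ∑ w ∈ G.neighborFinset o, (2 * ∫ x, (|f x o| - c) ^ 2 ∂E.ν -
      2 * ∫ x, (|f x o| - c) * (|f x w| - c) ∂E.ν) ≤
      ∑ w ∈ G.neighborFinset o, ∫ x, (f x o + f x w) ^ 2 ∂E.ν := by
    refine Finset.sum_le_sum fun w hw => ?_
    have k := int_mono (μ := E.ν) (((hu.bm o).sq.add (hu.bm w).sq).sub
      ((BM.const 2).mul ((hu.bm o).mul (hu.bm w)))) (bq w) fun x => Dich1X.point2 _ _ c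
    rw [int_sub ((hu.bm o).sq.add (hu.bm w).sq) ((BM.const 2).mul ((hu.bm o).mul (hu.bm w))),
      int_add (hu.bm o).sq (hu.bm w).sq, integral_const_mul,
      int_nbr hs ha hu.sq ((G.mem_neighborFinset o w).1 hw)] at k
    linarith
  simp only [Finset.mul_sum] at g1
  rw [int_sum fun w _ => (hu.bm o).mul (hu.bm w)] at g1
  rw [Finset.sum_sub_distrib, Finset.sum_const, hc, nsmul_eq_mul, ← Finset.mul_sum] at e2
  have hχ : IP (G := G) actB fun x v => 0 ≤ f x v :=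
    ⟨measurable_pi_lambda _ fun v => measurableSet_setOfPred.1
      (measurableSet_le measurable_const (meas_at hf.meas v)), fun φ x v => by rw [hf.inv]⟩
  refine ⟨_, hχ, ?_⟩
  have e3 : ∑ w ∈ G.neighborFinset o, c ^ 2 / 2 * Pr E.ν (fun x => 0 ≤ f x o ↔ 0 ≤ f x w) ≤
      ∑ w ∈ G.neighborFinset o, (∫ x, (|f x o| - c) ^ 2 ∂E.ν +
        ∫ x, (f x o + f x w) ^ 2 ∂E.ν) := by
    refine Finset.sum_le_sum fun w hw => ?_
    have mm : Measurable fun x => (0 ≤ f x o ↔ 0 ≤ f x w) := (hχ.at o).iff (hχ.at w)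
    rw [Pr_eq mm, ← integral_const_mul, ← int_add (hu.bm o).sq (bq w)]
    exact int_mono ((BM.const _).mul (BM.ind mm)) ((hu.bm o).sq.add (bq w))
      fun x => Dich1X.point _ _ c
  rw [Finset.sum_add_distrib, Finset.sum_const, hc, nsmul_eq_mul, ← Finset.mul_sum] at e3
  have q0 : 0 ≤ ∑ w ∈ G.neighborFinset o, ∫ x, (f x o + f x w) ^ 2 ∂E.ν :=
    Finset.sum_nonneg fun w _ => integral_nonneg fun x => sq_nonneg _
  have p0 : 0 ≤ ∑ w ∈ G.neighborFinset o, Pr E.ν (fun x => 0 ≤ f x o ↔ 0 ≤ f x w) :=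
    Finset.sum_nonneg fun w _ => Pr_nonneg _
  generalize ∑ w ∈ G.neighborFinset o, Pr E.ν (fun x => 0 ≤ f x o ↔ 0 ≤ f x w) = P at *
  generalize ∑ w ∈ G.neighborFinset o, ∫ x, (f x o + f x w) ^ 2 ∂E.ν = Q at *
  generalize ∑ w ∈ G.neighborFinset o, ∫ x, (|f x o| - c) * (|f x w| - c) ∂E.ν = R at *
  generalize ∫ x, (|f x o| - c) ^ 2 ∂E.ν = v at *
  generalize ∫ x, f x o ^ 2 ∂E.ν = n at *
  have n0 : 0 < n := (mul_pos_iff_of_pos_left η0).1 (q0.trans_lt hQ)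
  generalize hg' : Δ - ρ = g at *
  have v1 : 2 * g * v ≤ η * n := by
    rw [← hg']
    linarith
  have v2 : 2 * v ≤ n := le_of_mul_le_mul_left (by nlinarith) hg
  have k1 : n / 4 * P ≤ Δ * v + η * n := by nlinarith
  have k2 : n * (2 * g * P) ≤ n * (4 * η * (Δ + 2 * g)) := by
    nlinarith [mul_le_mul_of_nonneg_left v1 hD, mul_le_mul_of_nonneg_left k1 hg.le]
  have k3 := (le_of_mul_le_mul_left k2 n0).trans η2
  exact le_of_mul_le_mul_left (a := 2 * g) (by linarith) (by positivity)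

end Pool.Agent.MP_93f6c7_pr.K
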