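import Pool.Agent.MP_93f6c7_pr.K.Flip

/-! The limit of a sequence of improving colourings that only use the labels of level zero. -/

set_option autoImplicit false
set_option linter.unusedSectionVars false
open MeasureTheory Filter Topology
open scoped Classical

namespace Pool.Agent.MP_93f6c7_pr.K

namespace FinalEX

theorem exists_seq {A : Type} (R : A → A → ℝ → Prop) (h : A → ℝ) (h0 : ∀ c, 0 ≤ h c) (c0 : A)
    {κ : ℝ} (hκ : 0 < κ) (H1 : ∀ c, ∃ c', R c c' 1 ∧ h c' ≤ (1 - κ) * h c) (C : ℝ) (N₀ : ℕ)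
    (H2 : ∀ N : ℕ, N₀ ≤ N → ∀ c, h c ≤ 1 / (N : ℝ) ^ 9 →
      ∃ c', R c c' (C / N) ∧ h c' ≤ (1 - κ) * h c) :
    ∃ (c : ℕ → A) (ε : ℕ → ℝ), Summable ε ∧ Summable (fun n => h (c n)) ∧
      ∀ n, R (c n) (c (n + 1)) (ε n) := by
  set θ : ℝ := 1 - min κ (1 / 2) with hθ
  have hθ0 : 0 < θ := by have := min_le_right κ (1 / 2); linarith
  have hθ1 : θ < 1 := by have := lt_min hκ (by norm_num : (0 : ℝ) < 1 / 2); linarith
  have hθκ : 1 - κ ≤ θ := by have := min_le_left κ (1 / 2); linarith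
  have ht : Tendsto (fun n : ℕ => h c0 / θ * (((n + 1 : ℕ) : ℝ) ^ 18 * θ ^ (n + 1))) atTop
      (𝓝 (h c0 / θ * 0)) :=
    ((tendsto_pow_const_mul_const_pow_of_abs_lt_one 18 (r := θ)
      (abs_lt.2 ⟨by linarith, hθ1⟩)).comp (tendsto_add_atTop_nat 1)).const_mul _
  rw [mul_zero] at ht
  obtain ⟨n0, hn0⟩ := eventually_atTop.1
    ((ht.eventually (gt_mem_nhds one_pos)).and (eventually_ge_atTop N₀))
  set ε : ℕ → ℝ := fun n => if n < n0 then 1 else C / (((n + 1) ^ 2 : ℕ) : ℝ) with hε
  have step : ∀ (n : ℕ) (c : A), h c ≤ h c0 * θ ^ n →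
      ∃ c', R c c' (ε n) ∧ h c' ≤ h c0 * θ ^ (n + 1) := by
    intro n c hc
    have key : ∀ c', h c' ≤ (1 - κ) * h c → h c' ≤ h c0 * θ ^ (n + 1) := fun c' hc' => by
      have e1 : (1 - κ) * h c ≤ θ * h c := mul_le_mul_of_nonneg_right hθκ (h0 c)
      have e2 : θ * h c ≤ θ * (h c0 * θ ^ n) := mul_le_mul_of_nonneg_left hc hθ0.le
      rw [pow_succ]; linarith
    by_cases hn : n < n0
    · obtain ⟨c', h1, h2⟩ := H1 c
      exact ⟨c', by simpa [hε, hn] using h1, key c' h2⟩
    · obtain ⟨h3, h4⟩ := hn0 n (not_lt.1 hn)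
      obtain ⟨c', h1, h2⟩ := H2 ((n + 1) ^ 2) (by nlinarith) c (by
        refine hc.trans ?_
        rw [le_div_iff₀ (by positivity)]
        refine le_trans (le_of_eq ?_) h3.le
        push_cast
        field_simp
        ring)
      exact ⟨c', by simpa only [hε, hn, if_false] using h1, key c' h2⟩
  choose f hf1 hf2 using step
  let u : (n : ℕ) → {c : A // h c ≤ h c0 * θ ^ n} := fun n =>
    Nat.rec ⟨c0, by simp⟩ (fun n c => ⟨f n c.1 c.2, hf2 n c.1 c.2⟩) n
  refine ⟨fun n => (u n).1, ε, ?_, ?_, fun n => hf1 n (u n).1 (u n).2⟩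
  · rw [← summable_nat_add_iff n0]
    have : Summable fun n : ℕ => C * (1 / ((n + (n0 + 1) : ℕ) : ℝ) ^ 2) :=
      ((summable_nat_add_iff (n0 + 1)).2 (Real.summable_one_div_nat_pow.2 one_lt_two)).mul_left C
    refine this.congr fun n => ?_
    simp only [hε, not_lt.2 (Nat.le_add_left n0 n), if_false]
    push_cast
    ring
  · exact Summable.of_nonneg_of_le (fun n => h0 _) (fun n => (u n).2)
      ((summable_geometric_of_lt_one hθ0.le hθ1).mul_left _)

theorem ae_eventually_not {Z W : Type} [MeasurableSpace Z] [MeasurableSpace W] {μ : Measure Z}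
    {ν : Measure W} [IsFiniteMeasure ν] {r : ℕ → Z → W} (hr : ∀ n, MeasurePreserving (r n) μ ν)
    (E : ℕ → W → Prop) {ε : ℕ → ℝ} (hε : Summable ε) (hE : ∀ n, Pr ν (E n) ≤ ε n) :
    ∀ᵐ x ∂μ, ∀ᶠ n in atTop, ¬ E n (r n x) := by
  refine ae_eventually_notMem (s := fun n => r n ⁻¹' {y | E n y}) (ne_top_of_le_ne_top
    (b := ∑' n, ENNReal.ofReal (ε n)) ?_ (ENNReal.tsum_le_tsum fun n => ?_))
  · rw [← ENNReal.ofReal_tsum_of_nonneg (fun n => le_trans measureReal_nonneg (hE n)) hε]
    exact ENNReal.ofReal_ne_top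
  · refine ((hr n).measure_preimage_le _).trans ?_
    rw [← ofReal_measureReal (measure_ne_top ν _)]
    exact ENNReal.ofReal_le_ofReal (hE n)

theorem exists_iso {V : Type} {G : SimpleGraph V} (hs : HasSwaps G) {u v : V} (w : G.Walk u v) :
    ∃ φ : G ≃g G, φ u = v := by
  induction w with
  | nil => exact ⟨SimpleGraph.Iso.refl, rfl⟩
  | cons h p ih =>
    obtain ⟨φ, hφ⟩ := ih
    obtain ⟨ψ, hψ, -⟩ := hs _ _ h
    exact ⟨ψ.trans φ, by simp [hψ, hφ]⟩

theorem countable_of_connected {V : Type} {G : SimpleGraph V} [G.LocallyFinite]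
    (hc : G.Connected) : Countable V := by
  obtain ⟨o⟩ := hc.nonempty
  have hB : ∀ (n : ℕ) (u : V), {v | ∃ w : G.Walk u v, w.length = n}.Countable := by
    intro n
    induction n with
    | zero =>
      intro u
      refine (Set.countable_singleton u).mono ?_
      rintro v ⟨w, hw⟩
      exact (SimpleGraph.Walk.eq_of_length_eq_zero hw).symm
    | succ n ih =>
      intro u
      refine ((G.neighborSet u).toFinite.countable.biUnion fun v _ => ih v).mono ?_
      rintro v ⟨w, hw⟩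
      cases w with
      | nil => simp at hw
      | cons h p => exact Set.mem_biUnion h ⟨p, by simpa using hw⟩
  rw [← Set.countable_univ_iff]
  refine (Set.countable_iUnion fun n => hB n o).mono fun v _ => ?_
  obtain ⟨w⟩ := hc o v
  exact Set.mem_iUnion.2 ⟨_, w, rfl⟩

/-- A chosen element satisfying a predicate, if there is one. -/
noncomputable def pick {B : Type} (b : B) (P : B → Prop) : B := if h : ∃ p, P p then h.choose else b

theorem pick_spec {B : Type} (b : B) {P : B → Prop} (h : ∃ p, P p) : P (pick b P) := by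
  rw [pick, dif_pos h]; exact h.choose_spec

section Limit

variable {V : Type} {G : SimpleGraph V} {Δ : ℕ}

/-- Colour `p` is eventually on the pair `e`. -/
def Q (t : ℕ → Fin Δ → V → V) (e : Sym2 V) (p : Fin Δ) : Prop :=
  ∃ u v, e = s(u, v) ∧ ∃ N, ∀ n, N ≤ n → t n p u = v

/-- The table at `v` stabilises and has no hole. -/
def GoodAt (t : ℕ → Fin Δ → V → V) (v : V) : Prop :=
  (∀ᶠ n in atTop, ¬ ∃ p, t (n + 1) p v ≠ t n p v) ∧ ∀ᶠ n in atTop, ¬ ∃ p, t n p v = v

theorem Q_map (φ : G ≃g G) {t t' : ℕ → Fin Δ → V → V} (h : ∀ n p v, φ (t' n p v) = t n p (φ v))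
    (e : Sym2 V) : Q t' e = Q t (Sym2.map φ e) := by
  funext p
  apply propext
  constructor
  · rintro ⟨u, v, rfl, N, hN⟩
    exact ⟨φ u, φ v, by simp, N, fun n hn => by rw [← h, hN n hn]⟩
  · rintro ⟨u, v, he, N, hN⟩
    refine ⟨φ.symm u, φ.symm v, ?_, N, fun n hn => ?_⟩
    · have : Sym2.map φ.symm (Sym2.map φ e) = e := by
        rw [Sym2.map_map]; simp
      rw [← this, he]; simp
    · apply φ.injective
      rw [h]; simpa using hN n hn

theorem GoodAt.map (φ : G ≃g G) {t t' : ℕ → Fin Δ → V → V}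
    (h : ∀ n p v, φ (t' n p v) = t n p (φ v)) {v : V} (hv : GoodAt t' v) : GoodAt t (φ v) := by
  constructor
  · filter_upwards [hv.1] with n hn
    rintro ⟨p, hp⟩
    exact hn ⟨p, fun e => hp (by rw [← h, ← h, e])⟩
  · filter_upwards [hv.2] with n hn
    rintro ⟨p, hp⟩
    exact hn ⟨p, φ.injective (by rw [h]; exact hp)⟩

theorem Q.ev {t : ℕ → Fin Δ → V → V} (ht : ∀ n, Proper G (t n)) {u v : V} {p : Fin Δ}
    (h : Q t s(u, v) p) : ∀ᶠ n in atTop, t n p u = v := by
  obtain ⟨a, b, he, N, hN⟩ := h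
  filter_upwards [eventually_ge_atTop N] with n hn
  rcases Sym2.eq_iff.1 he with ⟨rfl, rfl⟩ | ⟨rfl, rfl⟩
  · exact hN n hn
  · rw [← hN n hn]; exact (ht n).inv p _

theorem GoodAt.exists_Q [G.LocallyFinite] {t : ℕ → Fin Δ → V → V} (ht : ∀ n, Proper G (t n))
    {u v : V} (hd : G.degree u = Δ) (hu : GoodAt t u) (huv : G.Adj u v) : ∃ p, Q t s(u, v) p := by
  obtain ⟨N, hN⟩ := eventually_atTop.1 (hu.1.and hu.2)
  have h1 : ∀ n, N ≤ n → ∀ p, t n p u = t N p u := by
    intro n hn
    induction n, hn using Nat.le_induction with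
    | base => exact fun _ => rfl
    | succ n hn ih =>
      intro p
      rw [← ih p]
      by_contra hc
      exact (hN n hn).1 ⟨p, hc⟩
  have h2 : ∀ p, t N p u ≠ u := fun p hp => (hN N le_rfl).2 ⟨p, hp⟩
  let f : Fin Δ → G.neighborSet u := fun p => ⟨t N p u, (ht N).adj p u (h2 p)⟩
  have hf : Function.Injective f := fun p q hpq => by
    by_contra hc
    exact (ht N).disj p q u hc (h2 p) (congrArg Subtype.val hpq)
  have hb : Function.Bijective f := (Fintype.bijective_iff_injective_and_card f).2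
    ⟨hf, by rw [Fintype.card_fin, SimpleGraph.card_neighborSet_eq_degree, hd]⟩
  obtain ⟨p, hp⟩ := hb.2 ⟨v, huv⟩
  exact ⟨p, u, v, rfl, N, fun n hn => (h1 n hn p).trans (congrArg Subtype.val hp)⟩

end Limit

theorem hol_nonneg {V : Type} [MeasurableSpace V] {G : SimpleGraph V} {Δ : ℕ} [Env G]
    (c : FC G Δ) (o : V) : 0 ≤ c.hol o := Finset.sum_nonneg fun _ _ => measureReal_nonneg

theorem Pr_hole_le {V : Type} [MeasurableSpace V] {G : SimpleGraph V} {Δ : ℕ} [Env G]
    (c : FC G Δ) (o : V) : Pr (muE G) (fun y => ∃ p, c.σ y p o = o) ≤ c.hol o := by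
  have : {y | ∃ p, c.σ y p o = o} = ⋃ p, {y | c.σ y p o = o} := by ext y; simp
  rw [Pr, this]
  exact measureReal_iUnion_fintype_le _

/-- The empty colouring. -/
def empty {V : Type} [MeasurableSpace V] (G : SimpleGraph V) (Δ : ℕ) : FC G Δ where
  σ := fun _ _ v => v
  meas := measurable_const
  proper := fun _ => ⟨fun _ _ => rfl, fun _ _ h => (h rfl).elim, fun _ _ _ _ h => (h rfl).elim⟩
  eqv := fun _ _ _ _ => rfl

/-- Labels of level zero from `x`, all other labels zero. -/
def lift {V : Type} (x : V → unitInterval) : Y V := comb x fun _ => 0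

theorem meas_lift {V : Type} : Measurable (lift : (V → unitInterval) → Y V) :=
  meas_comb.comp (measurable_id.prodMk measurable_const)

theorem base_lift {V : Type} (x : V → unitInterval) : base (lift x) = x := base_comb x _

theorem act_lift {V : Type} {G : SimpleGraph V} (φ : G ≃g G) (x : V → unitInterval) :
    act φ (lift x) = lift fun i => x (φ i) := rfl

end FinalEX

open FinalEX

variable {V : Type} [MeasurableSpace V] [DiscreteMeasurableSpace V] [Countable V]
  {G : SimpleGraph V} [G.LocallyFinite] {Δ : ℕ} [E : Env G]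

theorem finalE (hG : RT G Δ) (hs : HasSwaps G) (o : V) (hI : BaseImproveStmt G Δ o) :
    ∃ F : (V → unitInterval) → (Sym2 V → Fin Δ), Measurable F ∧
      (∀ (φ : G ≃g G) (x : V → unitInterval) (e : Sym2 V),
        F (fun i : V => x (φ i)) e = F x (Sym2.map φ e)) ∧
      ∀ᵐ x ∂E.ν, ∀ u v w : V, G.Adj u v → G.Adj u w → v ≠ w → F x s(u, v) ≠ F x s(u, w) := by
  obtain ⟨κ, hκ, H1, C, N₀, H2⟩ := hI
  obtain ⟨c, ε, hε, hh, hc⟩ := exists_seq (A := {c : FC G Δ // c.Base})
    (fun c c' ε => c.1.chg c'.1 o ≤ ε) (fun c => c.1.hol o) (fun c => hol_nonneg c.1 o)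
    ⟨empty G Δ, fun _ _ _ => rfl⟩ hκ
    (fun c => by
      obtain ⟨c', hb, h⟩ := H1 c.1 c.2
      exact ⟨⟨c', hb⟩, Pr_le_one _, h⟩) C N₀
    (fun N hN c hc => by
      obtain ⟨c', hb, h1, h2⟩ := H2 N hN c.1 c.2 hc
      exact ⟨⟨c', hb⟩, h1, h2⟩)
  let t : (V → unitInterval) → ℕ → Fin Δ → V → V := fun x n => (c n).1.σ (lift x)
  have hte : ∀ (φ : G ≃g G) (x : V → unitInterval) n p v,
      φ (t (fun i => x (φ i)) n p v) = t x n p (φ v) := fun φ x n p v =>
    (c n).1.eqv φ (lift x) p v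
  have htp : ∀ x n, Proper G (t x n) := fun x n => (c n).1.proper _
  have htm : ∀ n p u, Measurable fun x => t x n p u := fun n p u =>
    meas_at (meas_at ((c n).1.meas.comp meas_lift) p) u
  have htb : ∀ y n, t (base y) n = (c n).1.σ y := fun y n => (c n).2 _ _ (base_lift _)
  have go : ∀ᵐ x ∂E.ν, GoodAt (t x) o := by
    have h1 := ae_eventually_not (μ := E.ν) (r := fun _ => id)
      (fun _ => MeasurePreserving.id E.ν) (fun n x => ∃ p, t x (n + 1) p o ≠ t x n p o) hε
      fun n => by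
        rw [← Pr_map (base_mp (G := G))
          (Measurable.exists fun p => meas_ne (htm (n + 1) p o) (htm n p o))]
        simp only [htb]
        exact hc n
    have h2 := ae_eventually_not (μ := E.ν) (r := fun _ => id)
      (fun _ => MeasurePreserving.id E.ν) (fun n x => ∃ p, t x n p o = o) hh
      fun n => by
        rw [← Pr_map (base_mp (G := G))
          (Measurable.exists fun p => meas_eq (htm n p o) measurable_const)]
        simp only [htb]
        exact Pr_hole_le (c n).1 o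
    filter_upwards [h1, h2] with x hx1 hx2
    exact ⟨hx1, hx2⟩
  have ga : ∀ᵐ x ∂E.ν, ∀ v, GoodAt (t x) v := by
    rw [ae_all_iff]
    intro v
    obtain ⟨w⟩ := hG.tree.connected o v
    obtain ⟨φ, rfl⟩ := exists_iso hs w
    filter_upwards [(E.inv φ).quasiMeasurePreserving.ae go] with x hx
    exact hx.map φ (hte φ x)
  let b : Fin Δ := ⟨0, by have := hG.three; omega⟩
  refine ⟨fun x e => pick b (Q (t x) e), ?_, fun φ x e => ?_, ?_⟩
  · refine measurable_pi_lambda _ fun e => ?_
    refine (Measurable.of_discrete (f := pick b)).comp (measurable_pi_lambda _ fun p => ?_)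
    exact Measurable.exists fun u => Measurable.exists fun v => measurable_const.and
      (Measurable.exists fun N => Measurable.forall fun n => measurable_const.imp
        ((htm n p u).eq_const v))
  · exact congrArg (pick b) (Q_map φ (hte φ x) e)
  · filter_upwards [ga] with x hx u v w huv huw hvw he
    have h1 := pick_spec b ((hx u).exists_Q (htp x) (hG.reg u) huv)
    have h2 := pick_spec b ((hx u).exists_Q (htp x) (hG.reg u) huw)
    rw [← he] at h2
    obtain ⟨n, hn1, hn2⟩ := ((h1.ev (htp x)).and (h2.ev (htp x))).exists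
    exact hvw (hn1.symm.trans hn2)

end Pool.Agent.MP_93f6c7_pr.K
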