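import Pool.Agent.MP_93f6c7_pr.K.DefsS
import Pool.Agent.MP_93f6c7_pr.K.FinalE

/-! From approximate invariant two-colourings to an exact one, using the one-sided gap. -/

set_option autoImplicit false
set_option linter.unusedSectionVars false
set_option linter.unusedVariables false
open MeasureTheory Filter Topology
open scoped Classical

namespace Pool.Agent.MP_93f6c7_pr.K

variable {V : Type} [MeasurableSpace V] [DiscreteMeasurableSpace V] [Countable V]
  {G : SimpleGraph V} [G.LocallyFinite] {Δ : ℕ} [E : Env G]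

namespace Dich2X

omit E in
lemma ip_iff {χ χ' : (V → unitInterval) → V → Prop} (h : IP (G := G) actB χ)
    (h' : IP (G := G) actB χ') : IP (G := G) actB (fun x v => χ x v ↔ χ' x v) :=
  ⟨measurable_pi_lambda _ fun v => (h.at v).iff (h'.at v),
    fun φ x v => iff_congr (h.inv φ x v) (h'.inv φ x v)⟩

lemma sq_ind (p q : Prop) (c : ℝ) : ((ind p - c) - (ind q - c)) ^ 2 = ind (¬ (p ↔ q)) := by
  rw [sub_sub_sub_cancel_right]
  unfold ind
  by_cases hp : p <;> by_cases hq : q <;> simp [hp, hq]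

lemma sq_ind' (p : Prop) (c : ℝ) : (ind p - c) ^ 2 = (1 - 2 * c) * ind p + c ^ 2 := by
  unfold ind
  by_cases hp : p
  · simp [hp]; ring
  · simp [hp]

/-- Expansion of invariant events. -/
lemma step1 (h : RT G Δ) (hs : HasSwaps G) (o : V) {ρ : ℝ} (hρ : ρ < Δ) (h1 : OneGap G o ρ)
    {D : (V → unitInterval) → V → Prop} (hD : IP (G := G) actB D) :
    (Δ - ρ) * min (Pr E.ν (fun x => D x o)) (1 - Pr E.ν (fun x => D x o)) ≤
      ∑ w ∈ G.neighborFinset o, Pr E.ν (fun x => ¬ (D x o ↔ D x w)) := by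
  set P := Pr E.ν (fun x => D x o) with hP
  have ha : ∀ φ : G ≃g G, MeasurePreserving (actB φ) E.ν E.ν := E.inv
  have hu : IF (G := G) actB (fun x v => ind (D x v) - P) := hD.ind.sub (IF.const P)
  have hPe : ∫ x, ind (D x o) ∂E.ν = P := (Pr_eq (hD.at o)).symm
  have hm : ∫ x, (ind (D x o) - P) ∂E.ν = 0 := by
    rw [int_sub (BM.ind (hD.at o)) (BM.const P), hPe, int_const, sub_self]
  have hsq : ∫ x, (ind (D x o) - P) ^ 2 ∂E.ν = P * (1 - P) := by
    simp only [sq_ind']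
    rw [int_add ((BM.const _).mul (BM.ind (hD.at o))) (BM.const _), integral_const_mul, hPe,
      int_const]
    ring
  have hg := h1 _ hu hm
  rw [hsq] at hg
  have hw : ∀ w ∈ G.neighborFinset o, Pr E.ν (fun x => ¬ (D x o ↔ D x w)) =
      2 * (P * (1 - P)) - 2 * ∫ x, (ind (D x o) - P) * (ind (D x w) - P) ∂E.ν := by
    intro w hw
    have hadj : G.Adj o w := by simpa using hw
    rw [Pr_eq ((hD.at o).iff (hD.at w)).not]
    simp only [← sq_ind _ _ P]
    have e : ∀ x, ((ind (D x o) - P) - (ind (D x w) - P)) ^ 2 =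
        ((ind (D x o) - P) ^ 2 + (ind (D x w) - P) ^ 2) -
          2 * ((ind (D x o) - P) * (ind (D x w) - P)) := fun x => by ring
    simp only [e]
    rw [int_sub (((hu.bm o).sq).add ((hu.bm w).sq)) ((BM.const 2).mul ((hu.bm o).mul (hu.bm w))),
      int_add ((hu.bm o).sq) ((hu.bm w).sq), integral_const_mul, int_nbr hs ha hu.sq hadj, hsq]
    ring
  rw [Finset.sum_congr rfl hw, Finset.sum_sub_distrib, Finset.sum_const,
    SimpleGraph.card_neighborFinset_eq_degree, h.reg, nsmul_eq_mul, ← Finset.mul_sum,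
    ← int_sum fun w _ => (hu.bm o).mul (hu.bm w)]
  simp only [← Finset.mul_sum]
  have hP0 : 0 ≤ P := Pr_nonneg _
  have hP1 : P ≤ 1 := Pr_le_one _
  have hmin : min P (1 - P) ≤ 2 * (P * (1 - P)) := by
    rcases le_total P (1 - P) with hc | hc
    · rw [min_eq_left hc]; nlinarith
    · rw [min_eq_right hc]; nlinarith
  have := mul_le_mul_of_nonneg_left hmin (sub_nonneg.2 hρ.le)
  nlinarith

/-- Expected number of monochromatic edges at the root. -/
noncomputable def pp (G : SimpleGraph V) [G.LocallyFinite] [E : Env G] (o : V)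
    (χ : (V → unitInterval) → V → Prop) : ℝ :=
  ∑ w ∈ G.neighborFinset o, Pr E.ν (fun x => χ x o ↔ χ x w)

lemma step2 (h : RT G Δ) (hs : HasSwaps G) (o : V) {ρ : ℝ} (hρ : ρ < Δ) (h1 : OneGap G o ρ)
    (h2 : ApproxBip G o) {χ : (V → unitInterval) → V → Prop} (hχ : IP (G := G) actB χ)
    {ε : ℝ} (hε : 0 < ε) :
    ∃ χ' : (V → unitInterval) → V → Prop, IP (G := G) actB χ' ∧ pp G o χ' ≤ ε ∧
      Pr E.ν (fun x => ¬ (χ x o ↔ χ' x o)) ≤ (pp G o χ + ε) / (Δ - ρ) := by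
  obtain ⟨ψ, hψ, hp⟩ := h2 ε hε
  have hD := ip_iff hχ hψ
  have k1 := step1 h hs o hρ h1 hD
  have k2 : ∑ w ∈ G.neighborFinset o,
      Pr E.ν (fun x => ¬ ((χ x o ↔ ψ x o) ↔ (χ x w ↔ ψ x w))) ≤ pp G o χ + ε := by
    refine le_trans (Finset.sum_le_sum fun w _ =>
      Pr_or_le (E₁ := fun x => χ x o ↔ χ x w) (E₂ := fun x => ψ x o ↔ ψ x w) fun x hx => ?_) ?_
    · by_cases a : χ x o <;> by_cases b : χ x w <;> by_cases c : ψ x o <;> by_cases d : ψ x w <;>
        simp_all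
    · rw [Finset.sum_add_distrib]
      exact add_le_add le_rfl hp
  have hpos : 0 < (Δ : ℝ) - ρ := sub_pos.2 hρ
  have k3 : min (Pr E.ν (fun x => χ x o ↔ ψ x o)) (1 - Pr E.ν (fun x => χ x o ↔ ψ x o)) ≤
      (pp G o χ + ε) / (Δ - ρ) := by
    rw [le_div_iff₀ hpos, mul_comm]
    exact k1.trans k2
  rcases min_le_iff.1 k3 with k | k
  · refine ⟨fun x v => ¬ ψ x v, hψ.not, ?_, ?_⟩
    · refine le_trans (le_of_eq ?_) hp
      exact Finset.sum_congr rfl fun w _ => Pr_congr fun x => not_iff_not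
    · refine le_trans (le_of_eq (Pr_congr fun x => ?_)) k
      by_cases a : χ x o <;> by_cases c : ψ x o <;> simp [a, c]
  · refine ⟨ψ, hψ, hp, ?_⟩
    rw [Pr_not (hD.at o)]
    exact k

lemma step3 (h : RT G Δ) (hs : HasSwaps G) (o : V) {ρ : ℝ} (hρ : ρ < Δ) (h1 : OneGap G o ρ)
    (h2 : ApproxBip G o) :
    ∃ χ : ℕ → (V → unitInterval) → V → Prop, (∀ n, IP (G := G) actB (χ n)) ∧
      (∀ n, pp G o (χ n) ≤ (1 / 2 : ℝ) ^ n) ∧
      ∀ n, Pr E.ν (fun x => ¬ (χ n x o ↔ χ (n + 1) x o)) ≤ 2 / (Δ - ρ) * (1 / 2 : ℝ) ^ n := by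
  have hpos : 0 < (Δ : ℝ) - ρ := sub_pos.2 hρ
  have step : ∀ (n : ℕ) (χ : (V → unitInterval) → V → Prop),
      (IP (G := G) actB χ ∧ pp G o χ ≤ (1 / 2 : ℝ) ^ n) →
      ∃ χ' : (V → unitInterval) → V → Prop,
        (IP (G := G) actB χ' ∧ pp G o χ' ≤ (1 / 2 : ℝ) ^ (n + 1)) ∧
        Pr E.ν (fun x => ¬ (χ x o ↔ χ' x o)) ≤ 2 / (Δ - ρ) * (1 / 2 : ℝ) ^ n := by
    intro n χ hχ
    obtain ⟨χ', a, b, c⟩ := step2 h hs o hρ h1 h2 hχ.1 (ε := (1 / 2 : ℝ) ^ (n + 1))
      (by positivity)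
    refine ⟨χ', ⟨a, b⟩, c.trans ?_⟩
    rw [div_mul_eq_mul_div]
    refine div_le_div_of_nonneg_right ?_ hpos.le
    have : (0 : ℝ) < (1 / 2 : ℝ) ^ n := by positivity
    have := hχ.2
    rw [pow_succ]
    linarith
  choose f hf1 hf2 using step
  obtain ⟨χ0, a0, b0⟩ := h2 1 one_pos
  let u : (n : ℕ) → {χ : (V → unitInterval) → V → Prop //
      IP (G := G) actB χ ∧ pp G o χ ≤ (1 / 2 : ℝ) ^ n} := fun n =>
    Nat.rec ⟨χ0, a0, by simpa [pp] using b0⟩ (fun n c => ⟨f n c.1 c.2, hf1 n c.1 c.2⟩) n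
  exact ⟨fun n => (u n).1, fun n => (u n).2.1, fun n => (u n).2.2, fun n => hf2 n (u n).1 (u n).2⟩

/-- The colours at `v` stabilise and differ from the colours of the neighbours. -/
def Good (G : SimpleGraph V) (t : ℕ → V → Prop) (v : V) : Prop :=
  (∀ᶠ n in atTop, (t n v ↔ t (n + 1) v)) ∧ ∀ᶠ n in atTop, ∀ w, G.Adj v w → ¬ (t n v ↔ t n w)

omit E in
lemma Good.map (φ : G ≃g G) {t t' : ℕ → V → Prop} (h : ∀ n v, t' n v ↔ t n (φ v)) {v : V}
    (hv : Good G t' v) : Good G t (φ v) := by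
  constructor
  · filter_upwards [hv.1] with n hn
    rwa [← h, ← h]
  · filter_upwards [hv.2] with n hn w hw
    have hw' : G.Adj v (φ.symm w) := by
      rw [← φ.map_adj_iff]; simpa using hw
    have := hn _ hw'
    rw [h, h] at this
    simpa using this

omit E in
lemma Good.lim {t : ℕ → V → Prop} {v : V} (hv : Good G t v) :
    ∀ᶠ n in atTop, ((∃ N, ∀ m, N ≤ m → t m v) ↔ t n v) := by
  obtain ⟨N, hN⟩ := eventually_atTop.1 hv.1
  have h1 : ∀ n, N ≤ n → (t n v ↔ t N v) := by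
    intro n hn
    induction n, hn using Nat.le_induction with
    | base => exact Iff.rfl
    | succ n hn ih => exact (hN n hn).symm.trans ih
  filter_upwards [eventually_ge_atTop N] with n hn
  constructor
  · rintro ⟨M, hM⟩
    exact (h1 n hn).2 ((h1 (max M N) (le_max_right _ _)).1 (hM _ (le_max_left _ _)))
  · intro ht
    exact ⟨N, fun m hm => (h1 m hm).2 ((h1 n hn).1 ht)⟩

end Dich2X

open Dich2X FinalEX in
theorem exactBip (h : RT G Δ) (hs : HasSwaps G) (o : V) {ρ : ℝ} (hρ : ρ < Δ) (h1 : OneGap G o ρ)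
    (h2 : ApproxBip G o) : ExactBip G := by
  obtain ⟨χ, hχ, hp, hc⟩ := step3 h hs o hρ h1 h2
  have hsum : Summable fun n : ℕ => (1 / 2 : ℝ) ^ n := summable_geometric_two
  have go : ∀ᵐ x ∂E.ν, Good G (fun n => χ n x) o := by
    have a1 := ae_eventually_not (μ := E.ν) (r := fun _ => id)
      (fun _ => MeasurePreserving.id E.ν) (fun n x => ¬ (χ n x o ↔ χ (n + 1) x o))
      (hsum.mul_left _) hc
    have a2 := ae_eventually_not (μ := E.ν) (r := fun _ => id)
      (fun _ => MeasurePreserving.id E.ν)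
      (fun n x => ∃ w ∈ G.neighborFinset o, (χ n x o ↔ χ n x w)) hsum
      fun n => (Pr_le_sum (F := fun w x => (χ n x o ↔ χ n x w)) fun x hx => hx).trans (hp n)
    filter_upwards [a1, a2] with x hx1 hx2
    refine ⟨hx1.mono fun n hn => not_not.1 hn, hx2.mono fun n hn w hw hi => hn ⟨w, ?_, hi⟩⟩
    simpa using hw
  have ga : ∀ᵐ x ∂E.ν, ∀ v, Good G (fun n => χ n x) v := by
    rw [ae_all_iff]
    intro v
    obtain ⟨w⟩ := h.tree.connected o v
    obtain ⟨φ, rfl⟩ := exists_iso hs w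
    filter_upwards [(E.inv φ).quasiMeasurePreserving.ae go] with x hx
    exact hx.map φ fun n v => (hχ n).inv φ x v
  refine ⟨fun x v => ∃ N, ∀ m, N ≤ m → χ m x v, ?_, ?_⟩
  · refine IP.exists fun N => IP.forall fun m => ?_
    exact ⟨measurable_pi_lambda _ fun v => measurable_const.imp ((hχ m).at v),
      fun φ x v => imp_congr_right fun _ => (hχ m).inv φ x v⟩
  · filter_upwards [ga] with x hx v w hvw
    obtain ⟨n, ⟨a, b⟩, c⟩ := (((hx v).lim.and (hx w).lim).and (hx v).2).exists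
    rw [a, b]
    have := c w hvw
    tauto

end Pool.Agent.MP_93f6c7_pr.K
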