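import Pool.Agent.MP_93f6c7_pr.K.DefsS

/-! A two-sided spectral gap gives the norm bound for the trivial side system. -/

set_option autoImplicit false
set_option linter.unusedSectionVars false
open MeasureTheory Function
open scoped Classical

namespace Pool.Agent.MP_93f6c7_pr.K

variable {V : Type} [MeasurableSpace V] [DiscreteMeasurableSpace V] [Countable V]
  {G : SimpleGraph V} [G.LocallyFinite] {Δ : ℕ} [E : Env G]

namespace Dich3X

variable {f g : (V → unitInterval) → V → ℝ} {o : V}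

lemma if_adj (h : RT G Δ) (hf : IF (G := G) actB f) :
    IF (G := G) actB fun x v => ∑ w ∈ G.neighborFinset v, f x w := by
  obtain ⟨B, hB⟩ := hf.bdd
  refine ⟨measurable_pi_lambda _ fun v => Finset.measurable_sum _ fun w _ => meas_at hf.meas w,
    ⟨Δ * B, fun x v => ?_⟩, fun φ x v => ?_⟩
  · refine (Finset.abs_sum_le_sum_abs _ _).trans
      ((Finset.sum_le_card_nsmul _ _ B fun w _ => hB x w).trans_eq ?_)
    rw [SimpleGraph.card_neighborFinset_eq_degree, h.reg, nsmul_eq_mul]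
  · exact Finset.sum_equiv φ.toEquiv (fun w => by simp [φ.map_adj_iff]) fun w _ => hf.inv φ x w

lemma sym (hs : HasSwaps G) (hf : IF (G := G) actB f) (hg : IF (G := G) actB g) :
    ∫ x, f x o * ∑ w ∈ G.neighborFinset o, g x w ∂E.ν =
      ∫ x, (∑ w ∈ G.neighborFinset o, f x w) * g x o ∂E.ν := by
  simp only [Finset.mul_sum, Finset.sum_mul]
  rw [int_sum fun w _ => (hf.bm o).mul (hg.bm w), int_sum fun w _ => (hf.bm w).mul (hg.bm o)]
  refine Finset.sum_congr rfl fun w hw => ?_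
  obtain ⟨φ, h1, h2⟩ := hs o w (by simpa using hw)
  rw [← int_map (E.inv φ) ((hf.bm o).mul (hg.bm w)).meas]
  congr 1
  funext x
  show f (actB φ x) o * g (actB φ x) w = _
  rw [hf.inv, hg.inv, h1, h2]

lemma low (h : RT G Δ) (hs : HasSwaps G) {η : ℝ} (hf : IF (G := G) actB f)
    (h2 : η * ∫ x, f x o ^ 2 ∂E.ν ≤ ∑ w ∈ G.neighborFinset o, ∫ x, (f x o + f x w) ^ 2 ∂E.ν) :
    -((Δ - η / 2) * ∫ x, f x o ^ 2 ∂E.ν) ≤
      ∫ x, f x o * ∑ w ∈ G.neighborFinset o, f x w ∂E.ν := by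
  have e : ∀ w ∈ G.neighborFinset o, ∫ x, (f x o + f x w) ^ 2 ∂E.ν =
      2 * ∫ x, f x o ^ 2 ∂E.ν + 2 * ∫ x, f x o * f x w ∂E.ν := fun w hw => by
    have e1 : ∀ x, (f x o + f x w) ^ 2 = f x o ^ 2 + f x w ^ 2 + 2 * (f x o * f x w) :=
      fun x => by ring
    simp only [e1]
    rw [int_add ((hf.bm o).sq.add (hf.bm w).sq) ((BM.const 2).mul ((hf.bm o).mul (hf.bm w))),
      int_add (hf.bm o).sq (hf.bm w).sq, integral_const_mul,
      int_nbr hs E.inv hf.sq (by simpa using hw : G.Adj o w), two_mul (∫ x, f x o ^ 2 ∂E.ν)]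
  rw [Finset.sum_congr rfl e, Finset.sum_add_distrib, Finset.sum_const, ← Finset.mul_sum,
    SimpleGraph.card_neighborFinset_eq_degree, h.reg, nsmul_eq_mul] at h2
  simp only [Finset.mul_sum]
  rw [int_sum fun w _ => (hf.bm o).mul (hf.bm w)]
  linarith

end Dich3X

open Dich3X

theorem sides_of_low (h : RT G Δ) (hs : HasSwaps G) (o : V) {ρ : ℝ} (hρ : ρ < Δ)
    (h1 : OneGap G o ρ) (h2 : LowGap G o) :
    ∃ (S : Sides G) (ρ' : ℝ), 0 ≤ ρ' ∧ ρ' < Δ ∧ BaseGapS G (S := S) o ρ' := by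
  obtain ⟨η, hη, h2⟩ := h2
  obtain ⟨r, r0, r1, r2, r3⟩ : ∃ r : ℝ, 0 < r ∧ r < Δ ∧ ρ ≤ r ∧ Δ - η / 2 ≤ r := by
    have : (3 : ℝ) ≤ Δ := by exact_mod_cast h.three
    exact ⟨max (max ρ (Δ - η / 2)) 1, one_pos.trans_le (le_max_right _ _),
      max_lt (max_lt hρ (by linarith)) (by linarith), (le_max_left _ _).trans (le_max_left _ _),
      (le_max_right _ _).trans (le_max_left _ _)⟩
  refine ⟨⟨fun _ _ _ => True, fun _ _ => measurable_const, fun _ _ _ _ => Iff.rfl,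
    fun _ _ => Or.inl trivial, fun _ _ _ _ _ _ => trivial⟩, r, r0.le, r1, fun _ f hf _ h0 => ?_⟩
  have hg := if_adj h hf
  have hk := if_adj h hg
  have e := sym (o := o) hs hf hg
  have g0 : ∫ x, ∑ w ∈ G.neighborFinset o, f x w ∂E.ν = 0 := by
    rw [int_sum fun w _ => hf.bm w]
    exact Finset.sum_eq_zero fun w hw => (int_nbr hs E.inv hf (by simpa using hw)).trans h0
  obtain ⟨g, hgd⟩ : ∃ g : (V → unitInterval) → V → ℝ,
    ∀ x v, ∑ w ∈ G.neighborFinset v, f x w = g x v := ⟨_, fun _ _ => rfl⟩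
  simp only [hgd] at hg hk e g0 ⊢
  obtain ⟨k, hkd⟩ : ∃ k : (V → unitInterval) → V → ℝ,
    ∀ x v, ∑ w ∈ G.neighborFinset v, g x w = k x v := ⟨_, fun _ _ => rfl⟩
  simp only [hkd] at hk e
  have hrf := (IF.const r).mul hf
  have hrg := (IF.const r).mul hg
  have a1 := h1 _ (hrf.add hg) (by
    rw [int_add (hrf.bm o) (hg.bm o), integral_const_mul, h0, g0, mul_zero, add_zero])
  have a2 := low h hs (hrf.sub hg) (h2 _ (hrf.sub hg))
  simp only [Finset.sum_add_distrib, Finset.sum_sub_distrib, ← Finset.mul_sum, hgd, hkd] at a1 a2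
  have n1 : 0 ≤ ∫ x, (r * f x o + g x o) ^ 2 ∂E.ν := integral_nonneg fun _ => sq_nonneg _
  have n2 : 0 ≤ ∫ x, (r * f x o - g x o) ^ 2 ∂E.ν := integral_nonneg fun _ => sq_nonneg _
  have b1 : ∫ x, (r * f x o + g x o) * (r * g x o + k x o) ∂E.ν -
      ∫ x, (r * f x o - g x o) * (r * g x o - k x o) ∂E.ν = 4 * r * ∫ x, g x o ^ 2 ∂E.ν := by
    rw [← int_sub (((hrf.add hg).mul (hrg.add hk)).bm o) (((hrf.sub hg).mul (hrg.sub hk)).bm o)]
    have : ∀ x, (r * f x o + g x o) * (r * g x o + k x o) - (r * f x o - g x o) *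
        (r * g x o - k x o) = 2 * r * (f x o * k x o) + 2 * r * (g x o * g x o) :=
      fun x => by ring
    simp only [this, pow_two]
    rw [int_add ((BM.const _).mul ((hf.mul hk).bm o)) ((BM.const _).mul ((hg.mul hg).bm o)),
      integral_const_mul, integral_const_mul, e]
    ring
  have b2 : ∫ x, (r * f x o + g x o) ^ 2 ∂E.ν + ∫ x, (r * f x o - g x o) ^ 2 ∂E.ν =
      2 * r ^ 2 * ∫ x, f x o ^ 2 ∂E.ν + 2 * ∫ x, g x o ^ 2 ∂E.ν := by
    rw [← int_add ((hrf.add hg).sq.bm o) ((hrf.sub hg).sq.bm o)]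
    have : ∀ x, (r * f x o + g x o) ^ 2 + (r * f x o - g x o) ^ 2 =
        2 * r ^ 2 * f x o ^ 2 + 2 * g x o ^ 2 := fun x => by ring
    simp only [this]
    rw [int_add ((BM.const _).mul (hf.sq.bm o)) ((BM.const _).mul (hg.sq.bm o)),
      integral_const_mul, integral_const_mul]
  have c1 := mul_le_mul_of_nonneg_right r2 n1
  have c2 := mul_le_mul_of_nonneg_right r3 n2
  refine le_of_mul_le_mul_left ?_ (mul_pos two_pos r0)
  have c3 := congrArg (r * ·) b2
  simp only [mul_add] at c3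
  linarith

end Pool.Agent.MP_93f6c7_pr.K
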