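import Pool.Agent.MP_93f6c7_pr.K.DefsS

/-! An exact invariant two-colouring gives a side system with a spectral gap on each side. -/

set_option autoImplicit false
set_option linter.unusedSectionVars false
open MeasureTheory Function
open scoped Classical

namespace Pool.Agent.MP_93f6c7_pr.K

variable {V : Type} [MeasurableSpace V] [DiscreteMeasurableSpace V] [Countable V]
  {G : SimpleGraph V} [G.LocallyFinite] {Δ : ℕ} [E : Env G]

namespace Dich4X

omit E in
lemma if_adj (h : RT G Δ) {f : (V → unitInterval) → V → ℝ} (hf : IF (G := G) actB f) :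
    IF (G := G) actB fun x v => ∑ w ∈ G.neighborFinset v, f x w := by
  obtain ⟨B, hB⟩ := hf.bdd
  refine ⟨measurable_pi_lambda _ fun v => Finset.measurable_sum _ fun w _ => meas_at hf.meas w,
    ⟨Δ * B, fun x v => ?_⟩, fun φ x v => ?_⟩
  · refine (Finset.abs_sum_le_sum_abs _ _).trans ?_
    have := Finset.sum_le_card_nsmul (G.neighborFinset v) (fun w => |f x w|) B fun w _ => hB x w
    rwa [SimpleGraph.card_neighborFinset_eq_degree, h.reg, nsmul_eq_mul] at this
  · refine Finset.sum_equiv φ.toEquiv (fun w => ?_) fun w _ => hf.inv φ x w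
    simp only [SimpleGraph.mem_neighborFinset]
    exact φ.map_adj_iff.symm

lemma swap (hs : HasSwaps G) {f g : (V → unitInterval) → V → ℝ} (hf : IF (G := G) actB f)
    (hg : IF (G := G) actB g) {o w : V} (h : G.Adj o w) :
    ∫ x, f x w * g x o ∂E.ν = ∫ x, f x o * g x w ∂E.ν := by
  obtain ⟨φ, h1, h2⟩ := hs o w h
  have := int_map (T := actB φ) (E.inv φ) ((hf.bm o).mul (hg.bm w)).meas
  simp only [hf.inv, hg.inv, h1, h2] at this
  exact this

lemma symm (hs : HasSwaps G) {f g : (V → unitInterval) → V → ℝ} (hf : IF (G := G) actB f)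
    (hg : IF (G := G) actB g) (o : V) :
    ∫ x, f x o * ∑ w ∈ G.neighborFinset o, g x w ∂E.ν =
      ∫ x, (∑ w ∈ G.neighborFinset o, f x w) * g x o ∂E.ν := by
  simp only [Finset.mul_sum, Finset.sum_mul]
  rw [int_sum fun w _ => (hf.bm o).mul (hg.bm w), int_sum fun w _ => (hf.bm w).mul (hg.bm o)]
  exact Finset.sum_congr rfl fun w hw =>
    (swap hs hf hg ((G.mem_neighborFinset o w).1 hw)).symm

lemma mean (hs : HasSwaps G) {f : (V → unitInterval) → V → ℝ} (hf : IF (G := G) actB f) {o : V}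
    (h0 : ∫ x, f x o ∂E.ν = 0) : ∫ x, ∑ w ∈ G.neighborFinset o, f x w ∂E.ν = 0 := by
  rw [int_sum fun w _ => hf.bm w]
  refine Finset.sum_eq_zero fun w hw => ?_
  rw [int_nbr (a := actB) hs E.inv hf ((G.mem_neighborFinset o w).1 hw), h0]

omit E in
lemma supp {c : V → Prop} (hc : ∀ v w, G.Adj v w → (c v ↔ ¬ c w)) {p : Prop} {f : V → ℝ}
    (hf : ∀ v, f v ≠ 0 → (c v ↔ p)) :
    (∀ v, ∑ w ∈ G.neighborFinset v, f w ≠ 0 → (c v ↔ ¬ p)) ∧
      ∀ v, f v * ∑ w ∈ G.neighborFinset v, f w = 0 := by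
  have h1 : ∀ v, ∑ w ∈ G.neighborFinset v, f w ≠ 0 → (c v ↔ ¬ p) := fun v hv => by
    obtain ⟨w, hw, h⟩ := Finset.exists_ne_zero_of_sum_ne_zero hv
    rw [hc v w ((G.mem_neighborFinset v w).1 hw), hf w h]
  refine ⟨h1, fun v => ?_⟩
  by_contra h
  have a := hf v (left_ne_zero_of_mul h)
  have b := h1 v (right_ne_zero_of_mul h)
  tauto

end Dich4X

open Dich4X in
theorem sides_of_bip (h : RT G Δ) (hs : HasSwaps G) (o : V) {ρ : ℝ} (hρ : ρ < Δ)
    (h1 : OneGap G o ρ) (h2 : ExactBip G) :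
    ∃ (S : Sides G) (ρ' : ℝ), 0 ≤ ρ' ∧ ρ' < Δ ∧ BaseGapS G (S := S) o ρ' := by
  obtain ⟨χ, hχ, hae⟩ := h2
  let Ω : (V → unitInterval) → Prop := fun x => ∀ v w, G.Adj v w → (χ x v ↔ ¬ χ x w)
  have mΩ : Measurable Ω := Measurable.forall fun v => Measurable.forall fun w =>
    measurable_const.imp ((hχ.at v).iff (hχ.at w).not)
  have iΩ : ∀ (φ : G ≃g G) x, Ω (actB φ x) ↔ Ω x := fun φ x => by
    simp only [Ω, hχ.inv]
    refine ⟨fun H v w a => ?_, fun H v w a => H _ _ (φ.map_adj_iff.2 a)⟩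
    simpa only [RelIso.apply_symm_apply] using H (φ.symm v) (φ.symm w) (φ.symm.map_adj_iff.2 a)
  let S : Sides G :=
    { sd := fun s x v => ¬ Ω x ∨ (χ x v ↔ s = true)
      meas := fun s v => mΩ.not.or ((hχ.at v).iff measurable_const)
      inv := fun s φ x v => by rw [iΩ, hχ.inv]
      cover := fun x v => by by_cases hv : χ x v <;> simp [hv]
      adj := fun s x v w a hv => by
        by_cases hx : Ω x
        · have := hx v w a
          have hv := hv.resolve_left (not_not.2 hx)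
          right
          cases s <;> simp_all
        · exact Or.inl hx }
  have h3 : (3 : ℝ) ≤ Δ := by exact_mod_cast h.three
  refine ⟨S, max ρ 1, le_max_of_le_right zero_le_one, max_lt hρ (by linarith), ?_⟩
  intro s f hf hsup h0
  have r1 : ρ ≤ max ρ 1 := le_max_left _ _
  have r2 : (0 : ℝ) < max ρ 1 := lt_max_of_lt_right one_pos
  generalize max ρ 1 = r at r1 r2
  have hg := if_adj h hf
  have hg2 := if_adj h hg
  have m0 := mean hs hf h0
  have sy := symm hs hf hg o
  have z : ∀ᵐ x ∂E.ν, f x o * ∑ w ∈ G.neighborFinset o, f x w = 0 ∧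
      (∑ w ∈ G.neighborFinset o, f x w) *
        ∑ v ∈ G.neighborFinset o, ∑ w ∈ G.neighborFinset v, f x w = 0 := by
    filter_upwards [hae] with x hx
    have a := supp hx (p := s = true) (f := f x) fun v hv =>
      (not_not.1 fun hn => hv (hsup x v hn) : S.sd s x v).resolve_left (not_not.2 hx)
    exact ⟨a.2 o, (supp hx a.1).2 o⟩
  have key := h1 _ (((IF.const r).mul hf).add hg) (by
    rw [int_add ((BM.const r).mul (hf.bm o)) (hg.bm o), integral_const_mul, h0, m0]; ring)
  simp only [Finset.sum_add_distrib, ← Finset.mul_sum] at key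
  have bf := hf.bm o
  have bg := hg.bm o
  have bk := hg2.bm o
  simp only [← pow_two] at sy
  have e1 : ∫ x, (r * f x o + ∑ w ∈ G.neighborFinset o, f x w) *
      (r * ∑ w ∈ G.neighborFinset o, f x w +
        ∑ v ∈ G.neighborFinset o, ∑ w ∈ G.neighborFinset v, f x w) ∂E.ν =
      2 * r * ∫ x, (∑ w ∈ G.neighborFinset o, f x w) ^ 2 ∂E.ν := by
    rw [integral_congr_ae (g := fun x => r * (f x o * ∑ v ∈ G.neighborFinset o,
        ∑ w ∈ G.neighborFinset v, f x w) + r * (∑ w ∈ G.neighborFinset o, f x w) ^ 2)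
      (z.mono fun x hx => by linear_combination r ^ 2 * hx.1 + hx.2),
      int_add ((BM.const r).mul (bf.mul bk)) ((BM.const r).mul bg.sq), integral_const_mul,
      integral_const_mul, sy]
    ring
  have e2 : ∫ x, (r * f x o + ∑ w ∈ G.neighborFinset o, f x w) ^ 2 ∂E.ν =
      r ^ 2 * ∫ x, f x o ^ 2 ∂E.ν + ∫ x, (∑ w ∈ G.neighborFinset o, f x w) ^ 2 ∂E.ν := by
    rw [integral_congr_ae (g := fun x => r ^ 2 * f x o ^ 2 + (∑ w ∈ G.neighborFinset o, f x w) ^ 2)
      (z.mono fun x hx => by linear_combination 2 * r * hx.1),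
      int_add ((BM.const _).mul bf.sq) bg.sq, integral_const_mul]
  have p1 : 0 ≤ ∫ x, (r * f x o + ∑ w ∈ G.neighborFinset o, f x w) ^ 2 ∂E.ν :=
    integral_nonneg fun x => sq_nonneg _
  have key2 := key.trans (mul_le_mul_of_nonneg_right r1 p1)
  rw [e1, e2] at key2
  refine le_of_mul_le_mul_left ?_ r2
  linarith

end Pool.Agent.MP_93f6c7_pr.K
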