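import Pool.Agent.MP_93f6c7_pr.K.Label

/-! Measure preserving maps for the law of the labels over an environment. -/

set_option autoImplicit false
set_option linter.unusedSectionVars false
open MeasureTheory Function
open scoped Classical

namespace Pool.Agent.MP_93f6c7_pr.K

variable {V : Type} {G : SimpleGraph V} [E : Env G]

lemma comb_mp : MeasurePreserving (fun p : (V → unitInterval) × Y V => comb p.1 p.2)
    (E.ν.prod (nu V)) (muE G) := ⟨meas_comb, rfl⟩

omit E in
lemma meas_base : Measurable (base : Y V → V → unitInterval) := by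
  unfold base; fun_prop

omit E in
lemma base_comb (x : V → unitInterval) (y : Y V) : base (comb x y) = x := by
  funext v; simp [base, comb]

omit E in
lemma base_act (φ : G ≃g G) (y : Y V) : base (act φ y) = fun i => base y (φ i) := rfl

omit E in
lemma act_comb (φ : G ≃g G) (x : V → unitInterval) (y : Y V) :
    act φ (comb x y) = comb (fun i => x (φ i)) (act φ y) := rfl

omit E in
lemma base_reix {j : ℕ → ℕ} (h0 : j 0 = 0) (y : Y V) : base (reix j y) = base y := by
  funext v; simp [base, reix, h0]

/-- A map is measure preserving from `muE` if its composition with `comb` is. -/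
lemma mp_of_comb {W : Type} [MeasurableSpace W] {m : Measure W} {f : Y V → W} (hf : Measurable f)
    (h : MeasurePreserving (fun p : (V → unitInterval) × Y V => f (comb p.1 p.2))
      (E.ν.prod (nu V)) m) : MeasurePreserving f (muE G) m :=
  ⟨hf, by rw [muE, Measure.map_map hf meas_comb]; exact h.map_eq⟩

lemma base_mp : MeasurePreserving (base : Y V → V → unitInterval) (muE G) E.ν := by
  refine mp_of_comb meas_base ?_
  simp only [base_comb]
  exact measurePreserving_fst

lemma actE_mp (φ : G ≃g G) : MeasurePreserving (act φ) (muE G) (muE G) :=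
  mp_of_comb (act_mp φ).measurable (comb_mp.comp ((E.inv φ).prod (act_mp φ)))

lemma act2E_mp (φ : G ≃g G) :
    MeasurePreserving (act2 φ) ((muE G).prod (nu V)) ((muE G).prod (nu V)) :=
  (actE_mp φ).prod (act_mp φ)

lemma reixE_mp {j : ℕ → ℕ} (hj : Injective j) (h0 : j 0 = 0) :
    MeasurePreserving (reix j) (muE G) (muE G) := by
  refine mp_of_comb (meas_reix j) ?_
  have h := (comb_mp (G := G)).comp ((MeasurePreserving.id E.ν).prod (reix_mp (V := V) hj))
  convert h using 1
  funext p i
  have : j i.2 = 0 ↔ i.2 = 0 := ⟨fun e => hj (e.trans h0.symm), fun e => by rw [e, h0]⟩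
  simp [reix, comb, this]

lemma splitE_mp : MeasurePreserving split (muE G) ((muE G).prod (nu V)) := by
  refine mp_of_comb meas_split ?_
  have h1 := (MeasurePreserving.id E.ν).prod (split_mp (V := V))
  have h2 := (measurePreserving_prodAssoc E.ν (nu V) (nu V)).symm
  have h3 := (comb_mp (G := G)).prod (MeasurePreserving.id (nu V))
  convert (h3.comp h2).comp h1 using 1
  funext p
  refine Prod.ext ?_ ?_
  · funext i
    simp [split, reix, comb, MeasurableEquiv.prodAssoc]
  · funext i
    simp [split, reix, comb, MeasurableEquiv.prodAssoc]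

/-- Resampling the labels outside a set that contains level zero. -/
lemma pwE_mp (D : Set (V × ℕ)) (hD : ∀ v, (v, 0) ∈ D) :
    MeasurePreserving (fun p : Y V × Y V => (D.piecewise p.1 p.2 : Y V)) ((muE G).prod (nu V))
      (muE G) := by
  have h1 := (comb_mp (G := G)).prod (MeasurePreserving.id (nu V))
  have h2 := measurePreserving_prodAssoc E.ν (nu V) (nu V)
  have h3 := (MeasurePreserving.id E.ν).prod (pw_mp D)
  have h4 := ((comb_mp (G := G)).comp h3).comp h2
  refine ⟨meas_pw D, ?_⟩
  rw [← h1.map_eq, Measure.map_map (meas_pw D) h1.measurable, ← h4.map_eq]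
  congr 1
  funext p i
  obtain ⟨v, n⟩ := i
  by_cases hn : n = 0
  · subst hn
    simp [comb, Set.piecewise_eq_of_mem _ _ _ (hD v), MeasurableEquiv.prodAssoc]
  · by_cases hi : (v, n) ∈ D
    · simp [comb, hn, Set.piecewise_eq_of_mem _ _ _ hi, MeasurableEquiv.prodAssoc]
    · simp [comb, hn, Set.piecewise_eq_of_notMem _ _ _ hi, MeasurableEquiv.prodAssoc]

end Pool.Agent.MP_93f6c7_pr.K
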