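import Pool.Agent.MP_93f6c7_pr.K.Match

/-! Kempe steps: colouring a random matching, flipping short alternating paths. -/

set_option autoImplicit false
set_option linter.unusedSectionVars false
set_option linter.unusedVariables false
open MeasureTheory Function
open scoped Classical

namespace Pool.Agent.MP_93f6c7_pr.K
namespace Imp

variable {V : Type} {G : SimpleGraph V} {Δ : ℕ}

/-! ### Deterministic facts about balls around ends of short paths -/

section det
variable {f g : V → V} {M : V → Prop} {l : ℕ} {v : V}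

/-- `u` is an end of an alternating path with fewer than `l` edges. -/
def End (f g : V → V) (l : ℕ) (u : V) : Prop :=
  (f u = u ∧ ¬ Free g f l u) ∨ (g u = u ∧ ¬ Free f g l u)

lemma End.symm {u : V} (h : End f g l u) : End g f l u := Or.symm h

lemma End.hole {u : V} (h : End f g l u) : f u = u ∨ g u = u := h.imp And.left And.left

lemma End.not_free {u : V} (h : End f g l u) : ¬ Free f g l u := by
  intro hf
  rcases h with ⟨h1, h2⟩ | ⟨_, h2⟩
  · cases l with
    | zero => exact h2 trivial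
    | succ l => exact hf.1 h1
  · exact h2 hf

lemma ball_closed (hf : Involutive f) (hg : Involutive g) (hM : ∀ u, M u → End f g l u)
    (h : Ball f g l M v) : Ball f g l M (f v) := by
  by_contra hn
  obtain ⟨_, h2, h3⟩ := h.boundary hf hn
  have h4 := h2.rev hg hf
  have h5 := hM _ h3
  rcases alt_cases f g l with e | e
  · rw [e.1, e.2] at h4; exact h5.not_free h4
  · rw [e.1, e.2] at h4; exact h5.symm.not_free h4

lemma ball_iff_left (hf : Involutive f) (hg : Involutive g) (hM : ∀ u, M u → End f g l u)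
    (v : V) : Ball f g l M v ↔ Ball f g l M (f v) :=
  ⟨ball_closed hf hg hM, fun h => by simpa only [hf v] using ball_closed hf hg hM h⟩

lemma ball_iff_right (hf : Involutive f) (hg : Involutive g) (hM : ∀ u, M u → End f g l u)
    (v : V) : Ball f g l M v ↔ Ball f g l M (g v) := by
  rw [ball_comm (f := f), ball_comm (f := f)]
  exact ball_iff_left hg hf (fun u hu => (hM u hu).symm) v

/-- At most three vertices decide whether `v` lies in the ball. -/
lemma exists_three (hf : Involutive f) (hg : Involutive g) (v : V) :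
    ∃ B : Finset V, B.card ≤ 3 ∧
      (∀ w ∈ B, ∃ i, (Free f g i v ∧ w = walk f g i v) ∨ (Free g f i v ∧ w = walk g f i v)) ∧
      ∀ (M : V → Prop) (l : ℕ), (∀ u, M u → f u = u ∨ g u = u) → Ball f g l M v →
        ∃ w ∈ B, M w := by
  obtain ⟨e1, ⟨i1, h1, h1'⟩, H1⟩ := exists_end hf hg v
  obtain ⟨e2, ⟨i2, h2, h2'⟩, H2⟩ := exists_end hg hf v
  refine ⟨{v, e1, e2}, Finset.card_le_three, fun w hw => ?_, fun M l hM hb => ?_⟩
  · simp only [Finset.mem_insert, Finset.mem_singleton] at hw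
    rcases hw with rfl | rfl | rfl
    · exact ⟨0, Or.inl ⟨trivial, rfl⟩⟩
    · exact ⟨i1, Or.inl ⟨h1, h1'⟩⟩
    · exact ⟨i2, Or.inr ⟨h2, h2'⟩⟩
  · obtain ⟨i, _, ⟨a1, a2⟩ | ⟨a1, a2⟩⟩ := hb
    · rcases Nat.eq_zero_or_pos i with rfl | hi
      · exact ⟨v, by simp, a2⟩
      · refine ⟨e1, by simp, ?_⟩
        rw [← H1 i hi a1 (hM _ a2)]; exact a2
    · rcases Nat.eq_zero_or_pos i with rfl | hi
      · exact ⟨v, by simp, a2⟩
      · refine ⟨e2, by simp, ?_⟩
        rw [← H2 i hi a1 (hM _ a2).symm]; exact a2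

end det

variable [MeasurableSpace V] [DiscreteMeasurableSpace V] [Countable V] [G.LocallyFinite] [Env G]

lemma Pr_hole_le (c : FC G Δ) (o : V) (p : Fin Δ) :
    Pr (muE G) (fun y => c.σ y p o = o) ≤ c.hol o :=
  Finset.single_le_sum (f := fun p => Pr (muE G) (fun y => c.σ y p o = o))
    (fun _ _ => Pr_nonneg _) (Finset.mem_univ p)

lemma Pr_hole2_le (c : FC G Δ) (o : V) {p q : Fin Δ} (hpq : p ≠ q) :
    Pr (muE G) (fun y => c.σ y p o = o ∨ c.σ y q o = o) ≤ c.hol o := by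
  refine (Pr_or_le (E₁ := fun y => c.σ y p o = o) (E₂ := fun y => c.σ y q o = o)
    fun _ h => h).trans ?_
  have := Finset.sum_le_sum_of_subset_of_nonneg (f := fun p => Pr (muE G) (fun y => c.σ y p o = o))
    (Finset.subset_univ ({p, q} : Finset (Fin Δ))) (fun _ _ _ => Pr_nonneg _)
  rwa [Finset.sum_pair hpq] at this

lemma int_fst_holes (c : FC G Δ) (o : V) :
    ∫ z : Y V × Y V, holes (c.σ z.1) o ∂((muE G).prod (nu V)) = c.hol o := by
  rw [FC.hol_eq]
  exact int_map (T := Prod.fst) measurePreserving_fst ((IF.holes c.ec).bm o).meas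

/-- Colouring a random matching of uncoloured edges. -/
lemma M1 (h : RT G Δ) (o : V) (c : FC G Δ) (γ : Fin Δ) :
    ∃ c' : FC G Δ, c.Near c' o (c.hol o) ∧
      c'.hol o ≤ c.hol o - (1 / 2 : ℝ) ^ (2 * Δ) * c.Dn o γ γ := by
  let m : Y V × Y V → V → V := fun z v =>
    if Unc G (c.σ z.1) v (mat G z.2 v) then mat G z.2 v else v
  have hs : EC (G := G) act2 (fun z : Y V × Y V => c.σ z.1) := c.ec.fst
  have hmat : EM (G := G) act2 (fun z : Y V × Y V => mat G z.2) := mat_ei.toEM.snd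
  have hm : EM (G := G) act2 m := EM.ite (IP.unc hs hmat) hmat EM.id
  have hu : ∀ z v, m z v ≠ v → Unc G (c.σ z.1) v (m z v) := by
    intro z v hv
    by_cases hh : Unc G (c.σ z.1) v (mat G z.2 v)
    · simp only [m, if_pos hh]; exact hh
    · simp only [m, if_neg hh] at hv; exact absurd rfl hv
  have hi : ∀ z, Involutive (m z) := by
    intro z v
    by_cases hh : Unc G (c.σ z.1) v (mat G z.2 v)
    · have h2 : Unc G (c.σ z.1) (mat G z.2 v) (mat G z.2 (mat G z.2 v)) := by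
        rw [mat_invol G z.2 v]; exact hh.symm (c.proper _)
      simp only [m, if_pos hh, if_pos h2]
      exact mat_invol G z.2 v
    · simp only [m, if_neg hh]
  have hc := hs.colourC γ hm hi hu
  refine ⟨FC.ofEC hc, c.ofEC_near hc o ?_, ?_⟩
  · refine le_trans ?_ (Pr_hole_le c o γ)
    rw [← Pr_fst (ν := nu V) ((IP.fix (c.ec.em γ)).at o)]
    refine Pr_mono fun z ⟨p, hp⟩ => ?_
    rcases colourC_cases γ (m z) (c.σ z.1) p o with e | e
    · exact absurd e hp
    · exact e.2.2.1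
  · rw [FC.ofEC_hol]
    simp only [holes_colourC]
    have hE : IP (G := G) act2 (fun z v => m z v ≠ v ∧ c.σ z.1 γ v = v ∧
        c.σ z.1 γ (m z v) = m z v) :=
      (IP.fix hm).not.and ((IP.fix (hs.em γ)).and ((IP.fix (hs.em γ)).comp hm))
    rw [int_sub ((IF.holes hs).bm o) (BM.ind (hE.at o)), int_fst_holes, ← Pr_eq (hE.at o)]
    have := Pr_prod_ge (μ := muE G) (ν := nu V) (hE.at o) ((IP.dn c.ec γ γ).at o)
      (c := (1 / 2 : ℝ) ^ (2 * Δ)) (fun y hy => by
        obtain ⟨h1, u, h2, h3⟩ := hy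
        refine (Pr_mat h h2.1).trans (Pr_mono fun t ht => ?_)
        have e : m (y, t) o = u := by
          have h4 : Unc G (c.σ y) o (mat G t o) := by rw [ht]; exact h2
          simp only [m, if_pos h4]; exact ht
        simp only [e]
        exact ⟨h2.1.ne', h1, h3⟩)
    unfold FC.Dn
    linarith

/-- Flipping randomly chosen short alternating paths. -/
lemma M2 (h : RT G Δ) (hs : HasSwaps G) (o : V) (c : FC G Δ) {α γ : Fin Δ} (hαγ : α ≠ γ)
    (β x y : Fin Δ) (l : ℕ) :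
    ∃ c' : FC G Δ, c.Near c' o (2 * (l + 1) * c.hol o) ∧ c'.hol o ≤ c.hol o ∧
      c.Sh o α γ β l / 16 ≤ c'.Dn o γ β ∧ c.Dn o x y / 64 ≤ c'.Dn o x y := by
  have hc : EC (G := G) act2 (fun z : Y V × Y V => c.σ z.1) := c.ec.fst
  let M : Y V × Y V → V → Prop := fun z u =>
    (z.2 (u, 0) : ℝ) < 1 / 2 ∧ End (c.σ z.1 α) (c.σ z.1 γ) l u
  have hM : IP (G := G) act2 M :=
    (IP.lab 0 (1 / 2)).snd.and
      (((IP.fix (hc.em α)).and (IP.free (hc.em γ) (hc.em α) l).not).or
        ((IP.fix (hc.em γ)).and (IP.free (hc.em α) (hc.em γ) l).not))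
  let F : Y V × Y V → V → Prop := fun z => Ball (c.σ z.1 α) (c.σ z.1 γ) l (M z)
  have hF : IP (G := G) act2 F := IP.ball hM (hc.em α) (hc.em γ) l
  have hFa : ∀ z v, F z v ↔ F z (c.σ z.1 α v) := fun z v =>
    ball_iff_left ((c.proper _).inv α) ((c.proper _).inv γ) (fun u hu => hu.2) v
  have hFg : ∀ z v, F z v ↔ F z (c.σ z.1 γ v) := fun z v =>
    ball_iff_right ((c.proper _).inv α) ((c.proper _).inv γ) (fun u hu => hu.2) v
  have hc' := hc.flipC hαγ hF
  have keep : ∀ z v p, ¬ F z v → flipC (F z) α γ (c.σ z.1) p v = c.σ z.1 p v :=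
    fun z v p hv => flipC_eq hαγ hv (mt (hFa z v).2 hv) (mt (hFg z v).2 hv) p
  have three : ∀ (y : Y V) (v : V), ∃ B : Finset V, B.card ≤ 3 ∧
      (∀ w, Unc G (c.σ y) v w → w ∉ B) ∧
      ∀ t : Y V, (∀ w ∈ B, ¬ (t (w, 0) : ℝ) < 1 / 2) → ¬ F (y, t) v := by
    intro y v
    have hp := (c.proper y).pair hαγ
    obtain ⟨B, h1, h2, h3⟩ := exists_three hp.inv1 hp.inv2 v
    refine ⟨B, h1, fun w hw hB => ?_, fun t ht hv => ?_⟩
    · obtain ⟨i, ⟨a1, a2⟩ | ⟨a1, a2⟩⟩ := h2 w hB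
      · exact hp.walk_ne h.tree.isAcyclic hw.1 (hw.2 α) a1 a2.symm
      · exact hp.symm.walk_ne h.tree.isAcyclic hw.1 (hw.2 γ) a1 a2.symm
    · obtain ⟨w, hw, hMw⟩ := h3 (M (y, t)) l (fun u hu => hu.2.hole) hv
      exact ht w hw hMw.1
  refine ⟨FC.ofEC hc', c.ofEC_near hc' o ?_, ?_, ?_, ?_⟩
  · have hH : IP (G := G) act (fun y v => c.σ y α v = v ∨ c.σ y γ v = v) :=
      (IP.fix (c.ec.em α)).or (IP.fix (c.ec.em γ))
    let E : ℕ → Y V → Prop := fun i y =>
      (c.σ y α (walk (c.σ y α) (c.σ y γ) i o) = walk (c.σ y α) (c.σ y γ) i o ∨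
        c.σ y γ (walk (c.σ y α) (c.σ y γ) i o) = walk (c.σ y α) (c.σ y γ) i o) ∨
      (c.σ y α (walk (c.σ y γ) (c.σ y α) i o) = walk (c.σ y γ) (c.σ y α) i o ∨
        c.σ y γ (walk (c.σ y γ) (c.σ y α) i o) = walk (c.σ y γ) (c.σ y α) i o)
    have hEm : ∀ i, Measurable (E i) := fun i =>
      ((hH.comp ((c.ec.em α).walk (c.ec.em γ) i)).or
        (hH.comp ((c.ec.em γ).walk (c.ec.em α) i))).at o
    have hE : ∀ i, Pr (muE G) (E i) ≤ 2 * c.hol o := fun i => by
      have e1 := Pr_mtp_walk (μ := muE G) hs actE_mp hH (c.ec.ei α) (c.ec.ei γ) i o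
      have e2 := Pr_mtp_walk (μ := muE G) hs actE_mp hH (c.ec.ei γ) (c.ec.ei α) i o
      have e3 := Pr_hole2_le c o hαγ
      have e4 := Pr_or_le (μ := muE G) (E := E i) fun _ h => h
      linarith
    refine le_trans (Pr_le_sum (s := Finset.range (l + 1)) (F := fun i z => E i z.1)
      fun z ⟨p, hp⟩ => ?_) ?_
    · have hz : F z o := by
        by_contra hn
        exact hp (keep z o p hn)
      obtain ⟨i, hi, ⟨_, a2⟩ | ⟨_, a2⟩⟩ := hz
      · exact ⟨i, Finset.mem_range.2 (by omega), Or.inl a2.2.hole⟩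
      · exact ⟨i, Finset.mem_range.2 (by omega), Or.inr a2.2.hole⟩
    · refine le_trans (Finset.sum_le_sum (g := fun _ => 2 * c.hol o) fun i _ => ?_) ?_
      · rw [Pr_fst (hEm i)]; exact hE i
      · rw [Finset.sum_const, Finset.card_range, nsmul_eq_mul]
        push_cast
        exact le_of_eq (by ring)
  · rw [FC.ofEC_hol, ← int_fst_holes]
    refine int_mono ((IF.holes hc').bm o) ((IF.holes hc).bm o) fun z => ?_
    have := holes_flipC hαγ (F z) (c.σ z.1) o
    rw [ind_neg (p := Bd (F z) (c.σ z.1 α) o) fun hh => hh (hFa z o),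
      ind_neg (p := Bd (F z) (c.σ z.1 γ) o) fun hh => hh (hFg z o)] at this
    linarith
  · rw [FC.ofEC_dn]
    have := Pr_prod_ge (μ := muE G) (ν := nu V) ((IP.dn hc' γ β).at o) ((IP.sh c.ec α γ β l).at o)
      (c := (1 / 2 : ℝ) ^ 4) (fun y hy => by
        obtain ⟨h1, h2, u, h3, h4⟩ := hy
        obtain ⟨B, b1, b2, b3⟩ := three y u
        refine (Pr_coins 0 {o} B ?_ (n := 4) ?_).trans (Pr_mono fun t ht => ?_)
        · simpa using b2 o (h3.symm (c.proper y))
        · rw [Finset.card_singleton]; omega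
        · have hFo : F (y, t) o := Ball.self ⟨ht.1 o (by simp), Or.inl ⟨h1, h2⟩⟩
          refine ⟨?_, u, h3.flipC hαγ _, ?_⟩
          · rw [flipC_right hαγ, flip1_in hFo ((hFa _ o).1 hFo)]; exact h1
          · rw [keep (y, t) u β (b3 t ht.2)]; exact h4)
    unfold FC.Sh
    linarith
  · rw [FC.ofEC_dn]
    have := Pr_prod_ge (μ := muE G) (ν := nu V) ((IP.dn hc' x y).at o) ((IP.dn c.ec x y).at o)
      (c := (1 / 2 : ℝ) ^ 6) (fun s hy => by
        obtain ⟨h1, u, h3, h4⟩ := hy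
        obtain ⟨B, b1, b2, b3⟩ := three s u
        obtain ⟨B', b1', b2', b3'⟩ := three s o
        refine (Pr_coins 0 ∅ (B ∪ B') ?_ (n := 6) ?_).trans (Pr_mono fun t ht => ?_)
        · simp
        · have := Finset.card_union_le B B'
          rw [Finset.card_empty]; omega
        · refine ⟨?_, u, h3.flipC hαγ _, ?_⟩
          · rw [keep (s, t) o x (b3' t fun w hw => ht.2 w (Finset.mem_union_right _ hw))]
            exact h1
          · rw [keep (s, t) u y (b3 t fun w hw => ht.2 w (Finset.mem_union_left _ hw))]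
            exact h4)
    unfold FC.Dn
    linarith

/-- A flip followed by a colouring step. -/
lemma M3 (h : RT G Δ) (hs : HasSwaps G) (o : V) (c : FC G Δ) {α γ : Fin Δ} (hαγ : α ≠ γ)
    (l : ℕ) :
    ∃ c' : FC G Δ, c.Near c' o ((2 * l + 3) * c.hol o) ∧
      c'.hol o ≤ c.hol o - (1 / 2 : ℝ) ^ (2 * Δ) / 16 * c.Sh o α γ γ l := by
  obtain ⟨c1, n1, h1, h2, -⟩ := M2 h hs o c hαγ γ γ γ l
  obtain ⟨c2, n2, h3⟩ := M1 h o c1 γ
  refine ⟨c2, (n1.trans n2).mono (by linarith), ?_⟩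
  have hρ : (0 : ℝ) ≤ (1 / 2 : ℝ) ^ (2 * Δ) := by positivity
  have := mul_le_mul_of_nonneg_left h2 hρ
  linarith

/-- Some pair of colours carries a fixed fraction of the holes. -/
lemma exists_dn (h : RT G Δ) (o : V) (c : FC G Δ) :
    ∃ a b : Fin Δ, c.hol o ≤ (Δ : ℝ) ^ 2 * c.Dn o b a := by
  have hΔ := h.three
  have : Nonempty (Fin Δ × Fin Δ) := ⟨(⟨0, by omega⟩, ⟨0, by omega⟩)⟩
  obtain ⟨⟨b, a⟩, -, hmax⟩ := Finset.exists_max_image (Finset.univ : Finset (Fin Δ × Fin Δ))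
    (fun p => c.Dn o p.1 p.2) Finset.univ_nonempty
  refine ⟨a, b, ?_⟩
  have h1 : ∀ p : Fin Δ, Pr (muE G) (fun y => c.σ y p o = o) ≤ Δ * c.Dn o b a := by
    intro p
    refine le_trans (Pr_le_sum (s := Finset.univ) (F := fun q y => c.σ y p o = o ∧
      ∃ u, Unc G (c.σ y) o u ∧ c.σ y q u = u) fun y hy => ?_) ?_
    · obtain ⟨u, hu⟩ := exists_unc h (c.proper y) hy
      obtain ⟨q, hq⟩ := exists_hole h (c.proper y) (hu.symm (c.proper y))
      exact ⟨q, Finset.mem_univ _, hy, u, hu, hq⟩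
    · refine le_trans (Finset.sum_le_sum (g := fun _ => c.Dn o b a)
        fun q _ => hmax (p, q) (Finset.mem_univ _)) ?_
      simp
  refine le_trans (Finset.sum_le_sum (g := fun _ => Δ * c.Dn o b a) fun p _ => h1 p) ?_
  simp only [Finset.sum_const, Finset.card_univ, Fintype.card_fin, nsmul_eq_mul]
  exact le_of_eq (by ring)

lemma dn_symm (h : RT G Δ) (hs : HasSwaps G) (o : V) (c : FC G Δ) (α β : Fin Δ) :
    c.Dn o α β ≤ Δ * c.Dn o β α := by
  refine le_trans (Pr_le_sum (s := G.neighborFinset o) (F := fun w y => c.σ y β w = w ∧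
    ∃ u, Unc G (c.σ y) w u ∧ c.σ y α u = u) fun y hy => ?_) ?_
  · obtain ⟨h1, u, h2, h3⟩ := hy
    exact ⟨u, by simpa using h2.1, h3, o, h2.symm (c.proper y), h1⟩
  · rw [Finset.sum_congr rfl fun w hw => Pr_nbr (μ := muE G) hs actE_mp (IP.dn c.ec β α)
      (show G.Adj o w by simpa using hw), Finset.sum_const,
      SimpleGraph.card_neighborFinset_eq_degree, h.reg, nsmul_eq_mul]
    rfl

lemma dn_split (o : V) (c : FC G Δ) (a b : Fin Δ) (L : ℕ) :
    c.Dn o b a ≤ c.Sh o b a a L + c.Lg o a b L := by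
  refine Pr_or_le fun y hy => ?_
  by_cases hf : Free (c.σ y a) (c.σ y b) L o
  · exact Or.inr ⟨hy.1, hf, hy.2⟩
  · exact Or.inl ⟨hy.1, hf, hy.2⟩

lemma lg_le (hs : HasSwaps G) (o : V) (c : FC G Δ) (a b : Fin Δ) (L : ℕ) :
    ((L : ℝ) + 1) * c.Lg o a b (2 * L + 1) ≤ 1 := by
  have hE := IP.lg c.ec a b (2 * L + 1)
  have h1 := sum_Pr_le (μ := muE G) (s := Finset.range (L + 1)) (E := fun _ => True)
    (F := fun j y => c.σ y b (back (c.σ y a) (c.σ y b) j o) = back (c.σ y a) (c.σ y b) j o ∧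
      Free (c.σ y a) (c.σ y b) (2 * L + 1) (back (c.σ y a) (c.σ y b) j o) ∧
      ∃ u, Unc G (c.σ y) (back (c.σ y a) (c.σ y b) j o) u ∧ c.σ y a u = u)
    measurable_const (fun j _ => (hE.comp ((c.ec.em a).back (c.ec.em b) j)).at o)
    (fun _ _ _ _ => trivial) (fun y i hi j hj h1 h2 => by
      have hf := (c.proper y).inv a
      have hg := (c.proper y).inv b
      refine (track_unique hf hg h1.1 h2.1 h1.2.1 h2.2.1 ?_ ?_ ?_).2
      · have := Finset.mem_range.1 hi; omega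
      · have := Finset.mem_range.1 hj; omega
      · rw [walk_back hf hg, walk_back hf hg])
  rw [Finset.sum_congr rfl fun j _ => Pr_mtp_back (μ := muE G) hs actE_mp hE (c.ec.ei a)
    (c.ec.ei b) j o, Finset.sum_const, Finset.card_range, nsmul_eq_mul,
    Pr_true fun _ => trivial] at h1
  push_cast at h1
  exact h1

lemma near_one {c c' : FC G Δ} {o : V} {ε : ℝ} (h : c.Near c' o ε) : c.Near c' o 1 := by
  obtain ⟨j, hj, h0, -⟩ := h
  exact ⟨j, hj, h0, Pr_le_one _⟩

end Imp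
end Pool.Agent.MP_93f6c7_pr.K
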