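import Mathlib

/-!
# Abstract Efron-Stein decomposition and the Schur test
-/

set_option autoImplicit false
open scoped Classical

namespace Pool.Agent.MP_93f6c7_pr.K.Gap

open Finset

/-- A commuting family of self-adjoint projections indexed by sets of coordinates. -/
structure Proj (E J : Type) [AddCommGroup E] [Module ℝ E] where
  β : E →ₗ[ℝ] E →ₗ[ℝ] ℝ
  P : Set J → E →ₗ[ℝ] E
  symm : ∀ a b, β a b = β b a
  pos : ∀ a, 0 ≤ β a a
  PP : ∀ T T' a, P T (P T' a) = P (T ∩ T') a
  adj : ∀ T a b, β (P T a) b = β a (P T b)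

variable {E J : Type} [AddCommGroup E] [Module ℝ E] (D : Proj E J)

/-- The bilinear form of the Efron-Stein component. -/
noncomputable def Proj.Q (S : Finset J) (R : Set J) (a b : E) : ℝ :=
  ∑ T ∈ S.powerset, (-1) ^ (S.card + T.card) * D.β (D.P (T ∪ R) a) b

theorem Proj.Q_insert {S : Finset J} {j : J} (hj : j ∉ S) (R : Set J) (a b : E) :
    D.Q (insert j S) R a b = D.Q S (insert j R) a b - D.Q S R a b := by
  simp only [Proj.Q]
  rw [sum_powerset_insert hj, sub_eq_neg_add, ← sum_neg_distrib]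
  congr 1
  · refine sum_congr rfl fun T _ => ?_
    rw [card_insert_of_notMem hj, add_right_comm, pow_succ]; ring
  · refine sum_congr rfl fun T hT => ?_
    have h1 : j ∉ T := fun h => hj (mem_powerset.1 hT h)
    rw [card_insert_of_notMem hj, card_insert_of_notMem h1, coe_insert, Set.insert_union,
      Set.union_insert, show S.card + 1 + (T.card + 1) = S.card + T.card + 2 by ring, pow_add]
    norm_num

theorem Proj.sum_Q (U : Finset J) (R : Set J) (a b : E) :
    ∑ S ∈ U.powerset, D.Q S R a b = D.β (D.P (U ∪ R) a) b := by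
  induction U using Finset.induction_on generalizing R with
  | empty => simp [Proj.Q]
  | insert j U hj ih =>
    rw [sum_powerset_insert hj, sum_congr rfl fun S hS =>
      D.Q_insert (fun h => hj (mem_powerset.1 hS h)) R a b, sum_sub_distrib, ih, ih, coe_insert,
      Set.insert_union, Set.union_insert]
    ring

theorem Proj.P_pos (T : Set J) (a : E) : 0 ≤ D.β (D.P T a) a := by
  have := D.pos (D.P T a)
  rwa [D.adj, D.PP, Set.inter_self, ← D.adj] at this

theorem Proj.P_le (T : Set J) (a : E) : D.β (D.P T a) a ≤ D.β a a := by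
  have := D.pos (a - D.P T a)
  simp only [map_sub, LinearMap.sub_apply] at this
  rw [D.adj T a (D.P T a), D.PP, Set.inter_self, ← D.adj] at this
  linarith

theorem Proj.Q_nonneg (S : Finset J) (R : Set J) (h : ∀ j ∈ S, j ∉ R) (a : E) :
    0 ≤ D.Q S R a a := by
  induction S using Finset.induction_on generalizing R a with
  | empty => simpa [Proj.Q] using D.P_pos R a
  | insert j S hj ih =>
    have h1 := ih (insert j R) (fun i hi hi' => by
      rcases hi' with rfl | hi'
      · exact hj hi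
      · exact h i (mem_insert_of_mem hi) hi') (a - D.P {j}ᶜ a)
    refine h1.trans (le_of_eq ?_)
    rw [D.Q_insert hj]
    simp only [Proj.Q]
    rw [← sum_sub_distrib]
    refine sum_congr rfl fun T hT => ?_
    have h2 : j ∉ T := fun h => hj (mem_powerset.1 hT h)
    have h3 : j ∉ R := h j (mem_insert_self _ _)
    have h4 : ((T : Set J) ∪ insert j R) ∩ {j}ᶜ = (T : Set J) ∪ R := by
      ext i; simp only [Set.mem_inter_iff, Set.mem_union, mem_coe, Set.mem_insert_iff,
        Set.mem_compl_iff, Set.mem_singleton_iff]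
      constructor
      · rintro ⟨h5 | h5 | h5, h6⟩
        exacts [Or.inl h5, absurd h5 h6, Or.inr h5]
      · rintro (h5 | h5)
        · exact ⟨Or.inl h5, fun e => h2 (e ▸ h5)⟩
        · exact ⟨Or.inr (Or.inr h5), fun e => h3 (e ▸ h5)⟩
    simp only [map_sub, LinearMap.sub_apply]
    rw [← D.adj {j}ᶜ, ← D.adj {j}ᶜ, D.PP, D.PP, D.PP, Set.inter_comm {j}ᶜ, h4, Set.inter_comm {j}ᶜ,
      ← h4, Set.inter_assoc, Set.inter_self]
    ring

theorem Proj.Q_expand (S : Finset J) (R : Set J) (a b : E) (x y : ℝ) :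
    D.Q S R (x • a - y • b) (x • a - y • b) =
      x ^ 2 * D.Q S R a a - 2 * x * y * D.Q S R a b + y ^ 2 * D.Q S R b b := by
  simp only [Proj.Q, mul_sum, ← sum_sub_distrib, ← sum_add_distrib]
  refine sum_congr rfl fun T _ => ?_
  simp only [map_sub, map_smul, LinearMap.sub_apply, LinearMap.smul_apply, smul_eq_mul]
  rw [D.symm (D.P _ b) a, ← D.adj]
  ring

theorem Proj.two_Q_le (S : Finset J) (a b : E) {x y : ℝ} (hx : 0 < x) (hxy : 1 ≤ x * y) :
    2 * D.Q S ∅ a b ≤ x * D.Q S ∅ a a + y * D.Q S ∅ b b := by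
  have h1 := D.Q_nonneg S ∅ (by simp) (x • a - (1 : ℝ) • b)
  have h2 := D.Q_nonneg S ∅ (by simp) b
  rw [D.Q_expand] at h1
  refine le_of_mul_le_mul_left ?_ hx
  nlinarith

/-- The proportion of the elements of `S` in `A`. -/
noncomputable def frac (A : Set J) (S : Finset J) : ℝ := (S.filter (· ∈ A)).card / S.card

theorem frac_nonneg (A : Set J) (S : Finset J) : 0 ≤ frac A S := by unfold frac; positivity

theorem frac_le_one (A : Set J) (S : Finset J) : frac A S ≤ 1 :=
  div_le_one_of_le₀ (by exact_mod_cast card_filter_le _ _) (Nat.cast_nonneg _)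

theorem sum_frac_le {W : Type} (N : Finset W) (A : W → Set J)
    (hA : ∀ w ∈ N, ∀ w' ∈ N, ∀ j, j ∈ A w → j ∈ A w' → w = w') (S : Finset J) :
    ∑ w ∈ N, frac (A w) S ≤ 1 := by
  simp only [frac]
  rw [← sum_div]
  refine div_le_one_of_le₀ ?_ (Nat.cast_nonneg _)
  rw [← Nat.cast_sum, ← card_biUnion]
  · exact_mod_cast card_le_card (biUnion_subset.2 fun w _ => filter_subset _ _)
  · intro w hw w' hw' hne
    refine disjoint_left.2 fun j h1 h2 => hne ?_
    exact hA w hw w' hw' j (mem_filter.1 h1).2 (mem_filter.1 h2).2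

theorem frac_map (A : Set J) (σ : J ≃ J) (hσ : ∀ j, σ j ∈ A ↔ j ∉ A) {S : Finset J}
    (hS : S.Nonempty) : frac A (S.map σ.toEmbedding) = 1 - frac A S := by
  have h0 : (0 : ℝ) < S.card := by exact_mod_cast hS.card_pos
  have h1 := card_filter_add_card_filter_not (s := S) (· ∈ A)
  rw [frac, frac, filter_map, card_map, card_map, eq_sub_iff_add_eq, ← add_div,
    div_eq_one_iff_eq h0.ne', ← h1]
  push_cast
  rw [add_comm]
  congr 3
  ext j
  simp [hσ]

theorem Proj.Q_map (σ : J ≃ J) {a f : E}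
    (h : ∀ T : Set J, D.β (D.P T a) a = D.β (D.P (σ '' T) f) f) (S : Finset J) :
    D.Q S ∅ a a = D.Q (S.map σ.toEmbedding) ∅ f f := by
  simp only [Proj.Q, Set.union_empty]
  refine sum_bij (fun T _ => T.map σ.toEmbedding) (fun T hT => ?_) (fun T _ T' _ e => ?_)
    (fun T hT => ?_) fun T _ => ?_
  · exact mem_powerset.2 (map_subset_map.2 (mem_powerset.1 hT))
  · exact map_injective _ e
  · obtain ⟨T', h1, h2⟩ := subset_map_iff.1 (mem_powerset.1 hT)
    exact ⟨T', mem_powerset.2 h1, h2.symm⟩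
  · rw [card_map, card_map, coe_map, h]; rfl

theorem Proj.weighted_le {W : Type} (N : Finset W) (A : W → Set J)
    (hA : ∀ w ∈ N, ∀ w' ∈ N, ∀ j, j ∈ A w → j ∈ A w' → w = w') (U : Finset J) (f : E) :
    ∑ w ∈ N, ∑ S ∈ U.powerset, (2 / 3 + 5 / 6 * frac (A w) S) * D.Q S ∅ f f ≤
      (2 / 3 * N.card + 5 / 6) * D.β f f := by
  rw [sum_comm]
  calc _ ≤ ∑ S ∈ U.powerset, (2 / 3 * N.card + 5 / 6) * D.Q S ∅ f f := by
        refine sum_le_sum fun S _ => ?_
        rw [← sum_mul, sum_add_distrib, ← mul_sum, sum_const, nsmul_eq_mul]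
        refine mul_le_mul_of_nonneg_right ?_ (D.Q_nonneg S ∅ (by simp) f)
        linarith [sum_frac_le N A hA S]
    _ ≤ _ := by
        rw [← mul_sum, D.sum_Q]
        exact mul_le_mul_of_nonneg_left (D.P_le _ f) (by positivity)

theorem Proj.schur {W : Type} (N : Finset W) (A : W → Set J)
    (hA : ∀ w ∈ N, ∀ w' ∈ N, ∀ j, j ∈ A w → j ∈ A w' → w = w') (σ : W → J ≃ J)
    (hσ : ∀ w ∈ N, ∀ j, σ w j ∈ A w ↔ j ∉ A w) (a : W → E) (f g : E)
    (h0 : ∀ w ∈ N, D.P ∅ (a w) = 0)
    (ha : ∀ w ∈ N, ∀ T : Set J, D.β (D.P T (a w)) (a w) = D.β (D.P (σ w '' T) f) f)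
    (U : Finset J) :
    2 * ∑ w ∈ N, D.β (D.P U (a w)) g ≤ (2 / 3 * N.card + 5 / 6) * (D.β f f + D.β g g) := by
  have h1 := D.weighted_le N A hA U g
  have h2 := D.weighted_le N A hA (N.biUnion fun w => U.map (σ w).toEmbedding) f
  rw [mul_add, mul_sum]
  refine le_trans ?_ (add_le_add h2 h1)
  rw [← sum_add_distrib]
  refine sum_le_sum fun w hw => ?_
  have h3 := D.sum_Q U ∅ (a w) g
  rw [Set.union_empty] at h3
  have h4 : ∑ S ∈ U.powerset, (2 / 3 + 5 / 6 * frac (A w) (S.map (σ w).toEmbedding)) *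
      D.Q (S.map (σ w).toEmbedding) ∅ f f ≤
      ∑ S ∈ (N.biUnion fun w => U.map (σ w).toEmbedding).powerset,
        (2 / 3 + 5 / 6 * frac (A w) S) * D.Q S ∅ f f := by
    refine (sum_map U.powerset ⟨fun S : Finset J => S.map (σ w).toEmbedding, map_injective _⟩
      fun S => (2 / 3 + 5 / 6 * frac (A w) S) * D.Q S ∅ f f).symm.trans_le ?_
    refine sum_le_sum_of_subset_of_nonneg (fun S hS => ?_) fun S _ _ =>
      mul_nonneg (by linarith [frac_nonneg (A w) S]) (D.Q_nonneg S ∅ (by simp) f)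
    obtain ⟨S', h5, rfl⟩ := mem_map.1 hS
    exact mem_powerset.2 ((map_subset_map.2 (mem_powerset.1 h5)).trans
      (subset_biUnion_of_mem (fun w => U.map (σ w).toEmbedding) hw))
  rw [← h3, mul_sum]
  refine le_trans ?_ (add_le_add h4 le_rfl)
  rw [← sum_add_distrib]
  refine sum_le_sum fun S _ => ?_
  have h5 := frac_nonneg (A w) S
  have h6 := frac_le_one (A w) S
  rw [← D.Q_map (σ w) (ha w hw)]
  rcases S.eq_empty_or_nonempty with rfl | hS
  · have := D.Q_nonneg ∅ ∅ (by simp) g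
    have e : ∀ b, D.Q ∅ ∅ (a w) b = 0 := fun b => by simp [Proj.Q, h0 w hw]
    rw [e, e, mul_zero, mul_zero, zero_add]
    positivity
  · rw [frac_map _ _ (hσ w hw) hS]
    exact D.two_Q_le S _ _ (by linarith) (by nlinarith)

end Pool.Agent.MP_93f6c7_pr.K.Gap
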