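import Pool.Agent.MP_93f6c7_pr.K.EnvMP
import Pool.Agent.MP_93f6c7_pr.K.GapA

/-!
# Spectral gap for independent labels over an environment on a regular tree
-/

set_option autoImplicit false
set_option linter.unusedSectionVars false
open MeasureTheory Filter Topology
open scoped Classical

namespace Pool.Agent.MP_93f6c7_pr.K

namespace GapEX

open Gap

variable {V : Type}

/-- Bounded measurable functions of the labels. -/
def BS (V : Type) : Submodule ℝ (Y V → ℝ) where
  carrier := {f | BM f}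
  add_mem' := fun hf hg => BM.add hf hg
  zero_mem' := BM.const 0
  smul_mem' := fun c _ hf => BM.mul (BM.const c) hf

theorem bm (f : BS V) : BM f.1 := f.2

/-- The labels of level zero. -/
def L0 (V : Type) : Set (V × ℕ) := {i | i.2 = 0}

/-- Labels from `y` on `T` and from `y'` elsewhere. -/
noncomputable def pw (T : Set (V × ℕ)) (y y' : Y V) : Y V := T.piecewise y y'

theorem pw_apply (T : Set (V × ℕ)) (y y' : Y V) (i : V × ℕ) :
    pw T y y' i = if i ∈ T then y i else y' i := rfl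

theorem pw_pw (T T' : Set (V × ℕ)) (y y' y'' : Y V) :
    pw T' (pw T y y') y'' = pw (T ∩ T') y (pw T' y' y'') := by
  ext i
  by_cases h : i ∈ T <;> by_cases h' : i ∈ T' <;> simp [pw_apply, h, h']

theorem pw_same (T : Set (V × ℕ)) (y y' y'' : Y V) : pw T (pw T y y') y'' = pw T y y'' := by
  ext i
  by_cases h : i ∈ T <;> simp [pw_apply, h]

theorem pw_zero (y y' : Y V) : pw (∅ ∪ L0 V) y y' = comb (base y) y' := by
  funext i
  obtain ⟨v, n⟩ := i
  by_cases h : n = 0
  · subst h
    simp [pw_apply, L0, comb, base]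
  · simp [pw_apply, L0, comb, h]

theorem bm_pw {f : Y V → ℝ} (hf : BM f) (T : Set (V × ℕ)) :
    BM fun z : Y V × Y V => f (pw T z.1 z.2) := hf.comp (meas_pw T)

theorem comp_pw {f : Y V → ℝ} (hf : BM f) (T : Set (V × ℕ)) (y : Y V) :
    BM fun y' => f (pw T y y') := (bm_pw hf T).left y

theorem integral_pw (T : Set (V × ℕ)) {f : Y V → ℝ} (hf : BM f) :
    ∫ y, ∫ y', f (pw T y y') ∂(nu V) ∂(nu V) = ∫ y, f y ∂(nu V) :=
  (int_prod (bm_pw hf T)).symm.trans (int_map (pw_mp T) hf.meas)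

theorem abs_P_le {f : Y V → ℝ} {B : ℝ} (h : ∀ y, |f y| ≤ B) (T : Set (V × ℕ)) (y : Y V) :
    |∫ y', f (pw T y y') ∂(nu V)| ≤ B := by
  simpa using norm_integral_le_of_norm_le_const (μ := nu V)
    (f := fun y' => f (pw T y y')) (C := B) (Eventually.of_forall fun _ => h _)

/-- Averaging over the coordinates outside `T` and level zero. -/
noncomputable def PT (T : Set (V × ℕ)) : BS V →ₗ[ℝ] BS V where
  toFun f := ⟨fun y => ∫ y', f.1 (pw (T ∪ L0 V) y y') ∂(nu V), (bm_pw (bm f) _).integral (nu V)⟩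
  map_add' f g := Subtype.ext (funext fun y =>
    int_add (comp_pw (bm f) _ y) (comp_pw (bm g) _ y))
  map_smul' c _ := Subtype.ext (funext fun _ => integral_const_mul c _)

theorem PT_apply (T : Set (V × ℕ)) (f : BS V) (y : Y V) :
    (PT T f).1 y = ∫ y', f.1 (pw (T ∪ L0 V) y y') ∂(nu V) := rfl

theorem PT_PT (T T' : Set (V × ℕ)) (a : BS V) : PT T (PT T' a) = PT (T ∩ T') a :=
  Subtype.ext (funext fun y => by
    simp only [PT_apply]
    rw [← integral_pw (T' ∪ L0 V) (comp_pw (bm a) (T ∩ T' ∪ L0 V) y)]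
    simp only [pw_pw, Set.inter_union_distrib_right])

variable {G : SimpleGraph V}

theorem PT_act (φ : G ≃g G) {a f : BS V} (h : ∀ y, a.1 y = f.1 (act φ y)) (T : Set (V × ℕ))
    (y : Y V) : (PT T a).1 y =
      (PT ((φ.toEquiv.prodCongr (Equiv.refl ℕ)).symm '' T) f).1 (act φ y) := by
  rw [PT_apply, PT_apply, ← int_map (act_mp φ) (comp_pw (bm f) _ (act φ y)).meas]
  congr 1
  ext y'
  rw [h, Equiv.image_eq_preimage_symm]
  rfl

theorem dist_iso (hG : G.Connected) (φ : G ≃g G) (u v : V) : G.dist (φ u) (φ v) = G.dist u v := by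
  have key : ∀ (ψ : G ≃g G) (u v : V), G.dist (ψ u) (ψ v) ≤ G.dist u v := fun ψ u v => by
    obtain ⟨p, hp⟩ := hG.exists_walk_length_eq_dist u v
    simpa [hp] using SimpleGraph.dist_le (p.map ψ.toHom)
  refine le_antisymm (key φ u v) ?_
  simpa using key φ.symm (φ u) (φ v)

theorem eq_penultimate (hG : G.IsTree) {v o w : V} {q : G.Walk v o} (hq : q.IsPath)
    (hw : G.Adj o w) (h : G.dist v w < G.dist v o) : w = q.penultimate := by
  obtain ⟨p, hp, hp'⟩ := hG.connected.exists_path_of_dist v w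
  refine hG.isAcyclic.eq_penultimate_of_adj_end hq hw
    (hG.isAcyclic.mem_support_of_ne_mem_support_of_adj_of_isPath hq hp hw fun ho => ?_)
  have h1 := SimpleGraph.dist_le (p.takeUntil o ho)
  have h2 := p.length_takeUntil_le_length ho
  omega

variable [E : Env G]

theorem integral_pwE (T : Set (V × ℕ)) {f : Y V → ℝ} (hf : BM f) :
    ∫ y, ∫ y', f (pw (T ∪ L0 V) y y') ∂(nu V) ∂(muE G) = ∫ y, f y ∂(muE G) :=
  (int_prod (bm_pw hf _)).symm.trans (int_map (pwE_mp (T ∪ L0 V) fun _ => Or.inr rfl) hf.meas)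

/-- The inner product. -/
noncomputable def ip (G : SimpleGraph V) [Env G] : BS V →ₗ[ℝ] BS V →ₗ[ℝ] ℝ :=
  LinearMap.mk₂ ℝ (fun f g => ∫ y, f.1 y * g.1 y ∂(muE G))
    (fun f f' g => by
      rw [← int_add ((bm f).mul (bm g)) ((bm f').mul (bm g))]
      simp [add_mul])
    (fun c f g => by simp [mul_assoc, integral_const_mul])
    (fun f g g' => by
      rw [← int_add ((bm f).mul (bm g)) ((bm f).mul (bm g'))]
      simp [mul_add])
    (fun c f g => by simp [mul_left_comm _ c, integral_const_mul])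

theorem ip_apply (f g : BS V) : ip G f g = ∫ y, f.1 y * g.1 y ∂(muE G) := rfl

theorem ip_symm (f g : BS V) : ip G f g = ip G g f := by simp only [ip_apply, mul_comm]

theorem ip_pos (f : BS V) : 0 ≤ ip G f f := integral_nonneg fun _ => mul_self_nonneg _

theorem ip_PT (T : Set (V × ℕ)) (f g : BS V) : ip G (PT T f) g = ip G (PT T f) (PT T g) := by
  rw [ip_apply, ip_apply, ← integral_pwE T ((bm (PT T f)).mul (bm g))]
  refine integral_congr_ae (Eventually.of_forall fun y => ?_)
  simp only [PT_apply, pw_same, integral_const_mul]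

theorem ip_adj (T : Set (V × ℕ)) (a b : BS V) : ip G (PT T a) b = ip G a (PT T b) := by
  rw [ip_PT, ip_symm a, ip_PT T b a, ip_symm]

/-- The projections. -/
noncomputable def D (G : SimpleGraph V) [Env G] : Proj (BS V) (V × ℕ) where
  β := ip G
  P := PT
  symm := ip_symm
  pos := ip_pos
  PP := PT_PT
  adj := ip_adj

theorem pyth (u : BS V) :
    ip G u u = ip G (u - PT ∅ u) (u - PT ∅ u) + ip G (PT ∅ u) (PT ∅ u) := by
  simp only [map_sub, LinearMap.sub_apply]
  rw [ip_symm u (PT ∅ u), ← ip_PT]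
  ring

theorem abs_ip_le {a : BS V} {B : ℝ} (h : ∀ y, |a.1 y| ≤ B) (x : BS V) :
    |ip G a x| ≤ B * ∫ y, ‖x.1 y‖ ∂(muE G) := by
  rw [← integral_const_mul, ip_apply, ← Real.norm_eq_abs]
  refine norm_integral_le_of_norm_le ((bm x).integrable.norm.const_mul B)
    (Eventually.of_forall fun y => ?_)
  rw [norm_mul]
  exact mul_le_mul_of_nonneg_right (h y) (norm_nonneg _)

theorem tendsto_ip [Countable V] (a g : BS V) :
    Tendsto (fun U : Finset (V × ℕ) => ip G (PT U a) g) atTop (𝓝 (ip G a g)) := by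
  obtain ⟨B, hB⟩ := (bm a).bdd
  have hB0 : 0 ≤ B := (abs_nonneg _).trans (hB fun _ => 0)
  have key : ∀ c : BS V, Continuous c.1 →
      Tendsto (fun U : Finset (V × ℕ) => ip G a (PT U c)) atTop (𝓝 (ip G a c)) := by
    intro c hc
    obtain ⟨C, hC⟩ := (bm c).bdd
    refine tendsto_integral_filter_of_dominated_convergence (fun _ => B * C)
      (Eventually.of_forall fun U => ((bm a).mul (bm (PT U c))).meas.aestronglyMeasurable)
      (Eventually.of_forall fun U => Eventually.of_forall fun y => ?_) (integrable_const _)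
      (Eventually.of_forall fun y => Tendsto.const_mul _ ?_)
    · rw [norm_mul]
      exact mul_le_mul (hB y) (abs_P_le hC _ y) (norm_nonneg _) hB0
    · have h1 := tendsto_integral_filter_of_dominated_convergence (μ := nu V) (l := atTop)
        (F := fun (U : Finset (V × ℕ)) y' => c.1 (pw (U ∪ L0 V) y y'))
        (f := fun _ => c.1 y) (fun _ => C)
        (Eventually.of_forall fun U => (comp_pw (bm c) _ y).meas.aestronglyMeasurable)
        (Eventually.of_forall fun U => Eventually.of_forall fun y' => hC _) (integrable_const _)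
        (Eventually.of_forall fun y' => (hc.tendsto y).comp (tendsto_pi_nhds.2 fun i =>
          tendsto_const_nhds.congr' (by
            filter_upwards [eventually_ge_atTop {i}] with U hU
            have : i ∈ (U : Set (V × ℕ)) ∪ L0 V := Or.inl (hU (Finset.mem_singleton_self i))
            rw [pw_apply, if_pos this])))
      simpa [PT_apply] using h1
  refine Metric.tendsto_nhds.2 fun ε hε => ?_
  obtain ⟨c, hc, -⟩ := ((bm g).integrable (μ := muE G)).exists_boundedContinuous_integral_sub_le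
    (ε := ε / (3 * (B + 1))) (by positivity)
  let c' : BS V := ⟨c, c.continuous.measurable, ‖c‖, fun y => c.norm_coe_le_norm y⟩
  have h1 : B * ∫ y, ‖(g - c').1 y‖ ∂(muE G) ≤ ε / 3 := by
    refine (mul_le_mul_of_nonneg_left hc hB0).trans ?_
    rw [mul_div_assoc', div_le_div_iff₀ (by positivity) (by positivity)]
    nlinarith
  filter_upwards [Metric.tendsto_nhds.1 (key c' c.continuous) (ε / 3) (by positivity)] with U hU
  have h2 := abs_le.1 ((abs_ip_le hB (g - c')).trans h1)
  have h3 := abs_le.1 ((abs_ip_le (a := PT U a) (abs_P_le hB _) (g - c')).trans h1)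
  have h4 : ip G (PT U a) c' = ip G a (PT U c') := ip_adj _ _ _
  rw [map_sub] at h2 h3
  rw [Real.dist_eq, abs_lt] at hU ⊢
  constructor <;> linarith [hU.1, hU.2, h2.1, h2.2, h3.1, h3.2]

theorem ip_self_act (φ : G ≃g G) {a f : BS V} (h : ∀ y, a.1 y = f.1 (act φ y)) :
    ip G a a = ip G f f := by
  simp only [ip_apply, h]
  exact int_map (actE_mp φ) ((bm f).mul (bm f)).meas

theorem ip_act (φ : G ≃g G) {a f : BS V} (h : ∀ y, a.1 y = f.1 (act φ y)) (T : Set (V × ℕ)) :
    ip G (PT T a) a = ip G (PT ((φ.toEquiv.prodCongr (Equiv.refl ℕ)).symm '' T) f) f := by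
  rw [ip_apply, ip_apply, ← int_map (actE_mp φ) ((bm (PT _ f)).mul (bm f)).meas]
  congr 1
  ext y
  rw [h, PT_act φ h]

theorem sum_sub_sq (N : Finset V) (a : V → BS V) (f g : BS V)
    (h : ∀ w ∈ N, ip G (a w) (a w) = ip G f f) :
    ∑ w ∈ N, ip G (a w - g) (a w - g) =
      N.card * (ip G f f + ip G g g) - 2 * ∑ w ∈ N, ip G (a w) g := by
  have e : ∀ w ∈ N, ip G (a w - g) (a w - g) = ip G f f + ip G g g - 2 * ip G (a w) g :=
    fun w hw => by
      simp only [map_sub, LinearMap.sub_apply]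
      rw [h w hw, ip_symm g (a w)]
      ring
  rw [Finset.sum_congr rfl e, Finset.sum_sub_distrib, Finset.sum_const, ← Finset.mul_sum,
    nsmul_eq_mul]

variable [G.LocallyFinite] {Δ : ℕ}

/-- The gap on the part orthogonal to the functions of level zero. -/
theorem gap_top [Countable V] (h : RT G Δ) (o : V) (φ : V → G ≃g G)
    (hφ : ∀ w, G.Adj o w → φ w o = w ∧ φ w w = o) (a : V → BS V) (g : BS V)
    (ha : ∀ w ∈ G.neighborFinset o, ∀ y, (a w).1 y = (a o).1 (act (φ w) y))
    (h0 : ∀ w, PT ∅ (a w) = 0) :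
    ip G (a o) (a o) ≤ 6 * ∑ w ∈ G.neighborFinset o, ip G (a w - g) (a w - g) := by
  have key := fun U => (D G).schur (G.neighborFinset o)
    (fun w => {j : V × ℕ | G.dist j.1 w < G.dist j.1 o}) (fun w hw w' hw' j h1 h2 => by
      obtain ⟨q, hq, -⟩ := h.tree.connected.exists_path_of_dist j.1 o
      rw [eq_penultimate h.tree hq (by simpa using hw) h1,
        eq_penultimate h.tree hq (by simpa using hw') h2])
    (fun w => ((φ w).toEquiv.prodCongr (Equiv.refl ℕ)).symm) (fun w hw j => by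
      have hw' : G.Adj o w := by simpa using hw
      have h1 := dist_iso h.tree.connected (φ w) ((φ w).symm j.1) w
      have h2 := dist_iso h.tree.connected (φ w) ((φ w).symm j.1) o
      have h3 := h.tree.dist_ne_of_adj j.1 hw'
      rw [RelIso.apply_symm_apply, (hφ w hw').2] at h1
      rw [RelIso.apply_symm_apply, (hφ w hw').1] at h2
      change G.dist ((φ w).symm j.1) w < G.dist ((φ w).symm j.1) o ↔
        ¬ G.dist j.1 w < G.dist j.1 o
      omega) a (a o) g (fun w _ => h0 w) (fun w hw T => ip_act (φ w) (ha w hw) T) U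
  have lim := le_of_tendsto' ((tendsto_finsetSum (G.neighborFinset o)
    fun w _ => tendsto_ip (G := G) (a w) g).const_mul 2) key
  rw [sum_sub_sq _ a (a o) g fun w hw => ip_self_act (φ w) (ha w hw)]
  rw [SimpleGraph.card_neighborFinset_eq_degree, h.reg] at lim ⊢
  have p1 : 0 ≤ ip G (a o) (a o) := ip_pos _
  have p2 : 0 ≤ ip G g g := ip_pos _
  have p3 : (3 : ℝ) ≤ Δ := by exact_mod_cast h.three
  change 2 * ∑ w ∈ G.neighborFinset o, ip G (a w) g ≤
    (2 / 3 * Δ + 5 / 6) * (ip G (a o) (a o) + ip G g g) at lim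
  nlinarith

/-- The gap on the functions of level zero. -/
theorem gap_base (h : RT G Δ) (o : V) {ρ : ℝ} (b : V → BS V) (c : BS V)
    (hb : ∀ w ∈ G.neighborFinset o, ip G (b w) (b w) = ip G (b o) (b o))
    (hS : ip G (∑ w ∈ G.neighborFinset o, b w) (∑ w ∈ G.neighborFinset o, b w) ≤
      ρ ^ 2 * ip G (b o) (b o)) :
    ((Δ : ℝ) ^ 2 - ρ ^ 2) * ip G (b o) (b o) ≤
      Δ * ∑ w ∈ G.neighborFinset o, ip G (b w - c) (b w - c) := by
  rw [sum_sub_sq _ b (b o) c hb, SimpleGraph.card_neighborFinset_eq_degree, h.reg]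
  have e : ∑ w ∈ G.neighborFinset o, ip G (b w) c = ip G (∑ w ∈ G.neighborFinset o, b w) c := by
    rw [map_sum, LinearMap.sum_apply]
  rw [e]
  generalize ∑ w ∈ G.neighborFinset o, b w = S at hS ⊢
  have p := ip_pos (G := G) ((Δ : ℝ) • c - S)
  simp only [map_sub, map_smul, LinearMap.sub_apply, LinearMap.smul_apply, smul_eq_mul] at p
  rw [ip_symm c S] at p
  nlinarith

/-- The adjacency bound of the environment, for the conditional expectations. -/
theorem base_bound {o : V} {ρ : ℝ} (hb : BaseGap G o ρ) (F : V → BS V) {B : ℝ}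
    (hB : ∀ w y, |(F w).1 y| ≤ B)
    (heq : ∀ (φ : G ≃g G) y v, (F v).1 (act φ y) = (F (φ v)).1 y)
    (h0 : ∫ y, (F o).1 y ∂(muE G) = 0) :
    ip G (∑ w ∈ G.neighborFinset o, PT ∅ (F w)) (∑ w ∈ G.neighborFinset o, PT ∅ (F w)) ≤
      ρ ^ 2 * ip G (PT ∅ (F o)) (PT ∅ (F o)) := by
  let k : (V → unitInterval) → V → ℝ := fun x w => ∫ y', (F w).1 (comb x y') ∂(nu V)
  have hk : ∀ w, BM fun x => k x w := fun w => ((bm (F w)).comp meas_comb).integral (nu V)
  have e : ∀ w y, (PT ∅ (F w)).1 y = k (base y) w := fun w y => by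
    simp only [PT_apply, pw_zero, k]
  have h1 := hb k B (fun v => (hk v).meas) (fun x v => by
      simpa using norm_integral_le_of_norm_le_const (μ := nu V)
        (f := fun y' => (F v).1 (comb x y')) (C := B) (Eventually.of_forall fun _ => hB _ _))
    (fun φ x v => by
      simp only [k, ← heq, act_comb]
      exact (int_map (act_mp φ)
        (((bm (F v)).comp meas_comb).left fun i => x (φ i)).meas).symm)
    (by
      rw [← int_map (base_mp (G := G)) (hk o).meas, ← h0, ← integral_pwE ∅ (bm (F o))]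
      simp only [pw_zero, k])
  rw [← int_map (base_mp (G := G)) (BM.sum fun w _ => hk w).sq.meas,
    ← int_map (base_mp (G := G)) (hk o).sq.meas] at h1
  rw [ip_apply, ip_apply]
  simp only [Submodule.coe_sum, Finset.sum_apply, e, ← sq]
  exact h1

end GapEX

variable {V : Type} [MeasurableSpace V] [DiscreteMeasurableSpace V] [Countable V]
  {G : SimpleGraph V} [G.LocallyFinite] {Δ : ℕ} [E : Env G]

open GapEX in
theorem hasGapE (h : RT G Δ) (hs : HasSwaps G) (o : V) {ρ : ℝ} (hρ0 : 0 ≤ ρ) (hρ : ρ < Δ)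
    (hb : BaseGap G o ρ) : ∃ Γ : ℝ, (Δ : ℝ) ≤ Γ ∧ HasGap G o Γ := by
  have hΔ : (0 : ℝ) ≤ Δ := Nat.cast_nonneg _
  have hd : 0 < (Δ : ℝ) ^ 2 - ρ ^ 2 := by nlinarith
  have hq : 0 ≤ (Δ : ℝ) / ((Δ : ℝ) ^ 2 - ρ ^ 2) := div_nonneg hΔ hd.le
  refine ⟨Δ + 6 + Δ / ((Δ : ℝ) ^ 2 - ρ ^ 2), by linarith, ?_⟩
  intro H g B hH hg hHB hgB heq
  set m := ∫ x, H x o ∂(muE G) with hm
  have hbd : ∀ x : ℝ, |x| ≤ B → |x - m| ≤ B + |m| := fun x hx =>
    (abs_sub _ _).trans (add_le_add hx le_rfl)
  let F : V → BS V := fun w =>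
    ⟨fun y => H y w - m, (hH w).sub_const m, _, fun y => hbd _ (hHB y w)⟩
  let g' : BS V := ⟨fun y => g y - m, hg.sub_const m, _, fun y => hbd _ (hgB y)⟩
  have hφ : ∀ w, ∃ φ : G ≃g G, G.Adj o w → φ o = w ∧ φ w = o := fun w => by
    by_cases hw : G.Adj o w
    · exact (hs o w hw).imp fun _ h _ => h
    · exact ⟨SimpleGraph.Iso.refl, fun h => absurd h hw⟩
  choose φ hφ using hφ
  have hF : ∀ w ∈ G.neighborFinset o, ∀ y, (F w).1 y = (F o).1 (act (φ w) y) := fun w hw y => by
    change H y w - m = H (act (φ w) y) o - m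
    rw [heq, (hφ w (by simpa using hw)).1]
  have hP : ∀ w ∈ G.neighborFinset o, ∀ y,
      (PT ∅ (F w)).1 y = (PT ∅ (F o)).1 (act (φ w) y) := fun w hw y => by
    rw [PT_act (φ w) (hF w hw), Set.image_empty]
  have h0 : ∫ y, (F o).1 y ∂(muE G) = 0 := by
    change ∫ y, H y o - m ∂(muE G) = 0
    rw [int_sub ⟨hH o, B, fun y => hHB y o⟩ (BM.const m), int_const, sub_self]
  have k1 := gap_top h o φ hφ (fun w => F w - PT ∅ (F w)) (g' - PT ∅ g')
    (fun w hw y => by
      change (F w).1 y - (PT ∅ (F w)).1 y = (F o).1 _ - (PT ∅ (F o)).1 _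
      rw [hF w hw, hP w hw])
    (fun w => by rw [map_sub, PT_PT, Set.inter_self, sub_self])
  have k2 := gap_base h o (fun w => PT ∅ (F w)) (PT ∅ g')
    (fun w hw => ip_self_act (φ w) (hP w hw))
    (base_bound hb F (fun w y => hbd _ (hHB y w))
      (fun ψ y v => by change H _ _ - m = H _ _ - m; rw [heq]) h0)
  have e1 : ∫ y, (H y o - m) ^ 2 ∂(muE G) = ip G (F o) (F o) := by simp only [ip_apply, sq, F]
  have e2 : ∀ w ∈ G.neighborFinset o, ∫ y, (H y w - g y) ^ 2 ∂(muE G) =
      ip G (F w - PT ∅ (F w) - (g' - PT ∅ g')) (F w - PT ∅ (F w) - (g' - PT ∅ g')) +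
        ip G (PT ∅ (F w) - PT ∅ g') (PT ∅ (F w) - PT ∅ g') := fun w _ => by
    have e4 : ∫ y, (H y w - g y) ^ 2 ∂(muE G) = ip G (F w - g') (F w - g') := by
      rw [ip_apply]
      congr 1
      ext y
      change _ = (H y w - m - (g y - m)) * (H y w - m - (g y - m))
      ring
    rw [e4, pyth, map_sub (PT ∅), sub_sub_sub_comm]
  rw [e1, Finset.sum_congr rfl e2, Finset.sum_add_distrib, pyth]
  have p1 := Finset.sum_nonneg (s := G.neighborFinset o) fun w _ =>
    ip_pos (G := G) (F w - PT ∅ (F w) - (g' - PT ∅ g'))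
  have p2 := Finset.sum_nonneg (s := G.neighborFinset o) fun w _ =>
    ip_pos (G := G) (PT ∅ (F w) - PT ∅ g')
  rw [mul_comm, ← le_div_iff₀ hd, mul_div_right_comm] at k2
  nlinarith [mul_nonneg hq p1, mul_nonneg hΔ p1, mul_nonneg hΔ p2]

end Pool.Agent.MP_93f6c7_pr.K
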