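import Pool.Agent.MP_93f6c7_pr.K.DefsS
import Pool.Agent.MP_93f6c7_pr.K.GapE

/-!
# Spectral gap with sides for independent labels over an environment
-/

set_option autoImplicit false
set_option linter.unusedSectionVars false
open MeasureTheory Filter Topology
open scoped Classical

namespace Pool.Agent.MP_93f6c7_pr.K

variable {V : Type} [MeasurableSpace V] [DiscreteMeasurableSpace V] [Countable V]
  {G : SimpleGraph V} [G.LocallyFinite] {Δ : ℕ} [E : Env G]

namespace GapESX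

open GapEX

/-- The adjacency bound of the environment, for the conditional expectations. -/
theorem base_boundS [S : Sides G] {o : V} {ρ : ℝ} (hb : BaseGapS G o ρ) (s : Bool)
    (F : V → BS V) {B : ℝ} (hB : ∀ w y, |(F w).1 y| ≤ B)
    (heq : ∀ (φ : G ≃g G) y v, (F v).1 (act φ y) = (F (φ v)).1 y)
    (hz : ∀ y v, ¬ Sd G s y v → (F v).1 y = 0) (h0 : ∫ y, (F o).1 y ∂(muE G) = 0) :
    ip G (∑ w ∈ G.neighborFinset o, PT ∅ (F w)) (∑ w ∈ G.neighborFinset o, PT ∅ (F w)) ≤
      ρ ^ 2 * ip G (PT ∅ (F o)) (PT ∅ (F o)) := by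
  let k : (V → unitInterval) → V → ℝ := fun x w => ∫ y', (F w).1 (comb x y') ∂(nu V)
  have hk : ∀ w, BM fun x => k x w := fun w => ((bm (F w)).comp meas_comb).integral (nu V)
  have e : ∀ w y, (PT ∅ (F w)).1 y = k (base y) w := fun w y => by
    simp only [PT_apply, pw_zero, k]
  have h1 := hb s k ⟨measurable_pi_lambda _ fun v => (hk v).meas, ⟨B, fun x v => by
      simpa using norm_integral_le_of_norm_le_const (μ := nu V)
        (f := fun y' => (F v).1 (comb x y')) (C := B) (Eventually.of_forall fun _ => hB _ _)⟩,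
    fun φ x v => by
      simp only [k, ← heq, act_comb]
      exact (int_map (act_mp φ)
        (((bm (F v)).comp meas_comb).left fun i => x (φ i)).meas).symm⟩
    (fun x v hx => by
      have : ∀ y', (F v).1 (comb x y') = 0 := fun y' => hz _ v (by rwa [Sd, base_comb])
      simp only [k, this, integral_zero])
    (by
      rw [← int_map (base_mp (G := G)) (hk o).meas, ← h0, ← integral_pwE ∅ (bm (F o))]
      simp only [pw_zero, k])
  rw [← int_map (base_mp (G := G)) (BM.sum fun w _ => hk w).sq.meas,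
    ← int_map (base_mp (G := G)) (hk o).sq.meas] at h1
  rw [ip_apply, ip_apply]
  simp only [Submodule.coe_sum, Finset.sum_apply, e, ← sq]
  exact h1

/-- The mean on an event that carries the function. -/
theorem mean {Z : Type} [MeasurableSpace Z] (μ : Measure Z) [IsProbabilityMeasure μ]
    {f : Z → ℝ} {A : Z → Prop} (hf : BM f) (hA : Measurable A) (h0 : ∀ z, 0 ≤ f z)
    (hz : ∀ z, ¬ A z → f z = 0) :
    ∃ m : ℝ, ∫ z, f z ∂μ ≤ m ∧ ∫ z, f z - m * ind (A z) ∂μ = 0 := by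
  have e : ∀ m : ℝ, ∫ z, f z - m * ind (A z) ∂μ = ∫ z, f z ∂μ - m * Pr μ A := fun m => by
    rw [int_sub hf ((BM.const m).mul (BM.ind hA)), integral_const_mul, Pr_eq hA]
  have hI : 0 ≤ ∫ z, f z ∂μ := integral_nonneg h0
  rcases (Pr_nonneg (μ := μ) A).eq_or_lt with hP | hP
  · obtain ⟨B, hB⟩ := hf.bdd
    have h1 : ∫ z, f z - B * ind (A z) ∂μ ≤ 0 := integral_nonpos fun z => by
      by_cases h : A z
      · simpa [ind_pos h] using (le_abs_self _).trans (hB z)
      · simp [ind_neg h, hz z h]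
    rw [e, ← hP] at h1
    exact ⟨0, by linarith, by rw [e]; linarith⟩
  · refine ⟨(∫ z, f z ∂μ) / Pr μ A, ?_, by rw [e, div_mul_cancel₀ _ hP.ne', sub_self]⟩
    rw [le_div_iff₀ hP]
    exact mul_le_of_le_one_right hI (Pr_le_one A)

end GapESX

open GapEX GapESX in
theorem hasGapES [S : Sides G] (h : RT G Δ) (hs : HasSwaps G) (o : V) {ρ : ℝ} (hρ0 : 0 ≤ ρ)
    (hρ : ρ < Δ) (hb : BaseGapS G o ρ) : ∃ Γ : ℝ, (Δ : ℝ) ≤ Γ ∧ HasGapS G o Γ := by
  have hΔ : (0 : ℝ) ≤ Δ := Nat.cast_nonneg _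
  have hd : 0 < (Δ : ℝ) ^ 2 - ρ ^ 2 := by nlinarith
  have hq : 0 ≤ (Δ : ℝ) / ((Δ : ℝ) ^ 2 - ρ ^ 2) := div_nonneg hΔ hd.le
  refine ⟨Δ + 6 + Δ / ((Δ : ℝ) ^ 2 - ρ ^ 2), by linarith, ?_⟩
  intro s H hH hH0 hHz
  obtain ⟨m, hm, h0⟩ := mean (muE G) (hH.bm o) ((ip_Sd (G := G) s).at o) (fun y => hH0 y o)
    fun y => hHz y o
  refine ⟨m, hm, fun g hg => ?_⟩
  have hI : IF (G := G) act fun y w => H y w - m * ind (Sd G s y w) :=
    hH.sub ((IF.const m).mul (ip_Sd s).ind)
  obtain ⟨B, hB⟩ := hI.bdd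
  let F : V → BS V := fun w => ⟨fun y => H y w - m * ind (Sd G s y w), hI.bm w⟩
  let g' : BS V := ⟨fun y => ind (Sd G (!s) y o) * (g y - m),
    (BM.ind ((ip_Sd (G := G) (!s)).at o)).mul (hg.sub (BM.const m))⟩
  have hz : ∀ y v, ¬ Sd G s y v → (F v).1 y = 0 := fun y v hv => by
    change H y v - m * ind (Sd G s y v) = 0
    rw [hHz y v hv, ind_neg hv, mul_zero, sub_zero]
  have hφ : ∀ w, ∃ φ : G ≃g G, G.Adj o w → φ o = w ∧ φ w = o := fun w => by
    by_cases hw : G.Adj o w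
    · exact (hs o w hw).imp fun _ h _ => h
    · exact ⟨SimpleGraph.Iso.refl, fun h => absurd h hw⟩
  choose φ hφ using hφ
  have hF : ∀ w ∈ G.neighborFinset o, ∀ y, (F w).1 y = (F o).1 (act (φ w) y) := fun w hw y => by
    have := hI.inv (φ w) y o
    rw [(hφ w (by simpa using hw)).1] at this
    exact this.symm
  have hP : ∀ w ∈ G.neighborFinset o, ∀ y,
      (PT ∅ (F w)).1 y = (PT ∅ (F o)).1 (act (φ w) y) := fun w hw y => by
    rw [PT_act (φ w) (hF w hw), Set.image_empty]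
  have k1 := gap_top h o φ hφ (fun w => F w - PT ∅ (F w)) (g' - PT ∅ g')
    (fun w hw y => by
      change (F w).1 y - (PT ∅ (F w)).1 y = (F o).1 _ - (PT ∅ (F o)).1 _
      rw [hF w hw, hP w hw])
    (fun w => by rw [map_sub, PT_PT, Set.inter_self, sub_self])
  have k2 := gap_base h o (fun w => PT ∅ (F w)) (PT ∅ g')
    (fun w hw => ip_self_act (φ w) (hP w hw))
    (base_boundS hb s F (fun w y => hB y w) (fun ψ y v => hI.inv ψ y v) hz h0)
  have e1 : ∫ y, ind (Sd G s y o) * (H y o - m) ^ 2 ∂(muE G) = ip G (F o) (F o) := by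
    rw [ip_apply]
    congr 1
    ext y
    by_cases hy : Sd G s y o
    · simp only [F, ind_pos hy]
      ring
    · rw [hz y o hy, ind_neg hy, zero_mul, zero_mul]
  have e2 : ∀ w ∈ G.neighborFinset o,
      ip G (F w - PT ∅ (F w) - (g' - PT ∅ g')) (F w - PT ∅ (F w) - (g' - PT ∅ g')) +
        ip G (PT ∅ (F w) - PT ∅ g') (PT ∅ (F w) - PT ∅ g') ≤
      ∫ y, (H y w - g y) ^ 2 ∂(muE G) := fun w hw => by
    have hw' : G.Adj o w := by simpa using hw
    have e4 : ip G (F w - g') (F w - g') ≤ ∫ y, (H y w - g y) ^ 2 ∂(muE G) := by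
      rw [ip_apply]
      refine int_mono ((bm _).mul (bm _)) ((hH.bm w).sub hg).sq fun y => ?_
      change ((F w).1 y - ind (Sd G (!s) y o) * (g y - m)) *
        ((F w).1 y - ind (Sd G (!s) y o) * (g y - m)) ≤ _
      by_cases hy : Sd G (!s) y o
      · simp only [F, ind_pos hy, ind_pos (hy.adj' hw')]
        exact le_of_eq (by ring)
      · rw [hz y w fun h' => hy (h'.adj hw'.symm), ind_neg hy, zero_mul, sub_zero, zero_mul]
        exact sq_nonneg _
    rwa [pyth, map_sub (PT ∅), sub_sub_sub_comm] at e4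
  have e3 := Finset.sum_le_sum e2
  rw [Finset.sum_add_distrib] at e3
  refine le_trans ?_ (mul_le_mul_of_nonneg_left e3 (by linarith))
  rw [e1, pyth]
  have p1 := Finset.sum_nonneg (s := G.neighborFinset o) fun w _ =>
    ip_pos (G := G) (F w - PT ∅ (F w) - (g' - PT ∅ g'))
  have p2 := Finset.sum_nonneg (s := G.neighborFinset o) fun w _ =>
    ip_pos (G := G) (PT ∅ (F w) - PT ∅ g')
  rw [mul_comm, ← le_div_iff₀ hd, mul_div_right_comm] at k2
  nlinarith [mul_nonneg hq p1, mul_nonneg hΔ p1, mul_nonneg hΔ p2]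

end Pool.Agent.MP_93f6c7_pr.K
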