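import Pool.Agent.MP_93f6c7_pr.K.ImproveA

/-! The improvement step from the main probabilistic lemma. -/

set_option autoImplicit false
set_option linter.unusedSectionVars false
set_option linter.unusedVariables false
open MeasureTheory Function
open scoped Classical

namespace Pool.Agent.MP_93f6c7_pr.K
namespace Imp

variable {V : Type} {G : SimpleGraph V} {Δ : ℕ}
variable [MeasurableSpace V] [DiscreteMeasurableSpace V] [Countable V] [G.LocallyFinite] [Env G]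

lemma exists_third (h : 3 ≤ Δ) (a b : Fin Δ) : ∃ γ : Fin Δ, γ ≠ a ∧ γ ≠ b := by
  by_contra hn
  push Not at hn
  have hsub : (Finset.univ : Finset (Fin Δ)) ⊆ {a, b} := fun x _ => by
    by_cases hx : x = a
    · simp [hx]
    · simp [hn x hx]
  have h1 := Finset.card_le_card hsub
  have h2 : ({a, b} : Finset (Fin Δ)).card ≤ 2 := Finset.card_le_two
  rw [Finset.card_univ, Fintype.card_fin] at h1
  omega

/-- The unconditional improvement, with no control of the cost. -/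
lemma first (h : RT G Δ) (hs : HasSwaps G) (o : V) {δ : ℝ} (hδ : 0 < δ)
    (hδΔ : δ * (Δ : ℝ) ^ 2 = 1 / 2) (c : FC G Δ) :
    ∃ c' : FC G Δ, c.Near c' o 1 ∧
      c'.hol o ≤ c.hol o - (1 / 2 : ℝ) ^ (2 * Δ) / 16 * (δ * c.hol o) := by
  obtain ⟨a, b, hab⟩ := exists_dn h o c
  have hρ : (0 : ℝ) ≤ (1 / 2 : ℝ) ^ (2 * Δ) := by positivity
  have h0 := c.hol_nonneg o
  have hD0 : 0 ≤ c.Dn o b a := Pr_nonneg _
  have hD : δ * c.hol o ≤ c.Dn o b a / 2 := by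
    have := mul_le_mul_of_nonneg_left hab hδ.le
    rw [← mul_assoc, hδΔ] at this
    linarith
  rcases hD0.eq_or_lt with hz | hpos
  · refine ⟨c, near_one (FC.Near.refl c o), ?_⟩
    have h1 : δ * c.hol o = 0 := le_antisymm (by linarith) (by positivity)
    rw [h1]; linarith
  by_cases e : b = a
  · subst e
    obtain ⟨c1, n1, h1⟩ := M1 h o c b
    refine ⟨c1, near_one n1, h1.trans ?_⟩
    have := mul_le_mul_of_nonneg_left (show δ * c.hol o / 16 ≤ c.Dn o b b by linarith) hρ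
    linarith
  · obtain ⟨L, hL⟩ := exists_nat_gt (2 / c.Dn o b a)
    have h1 := lg_le hs o c a b L
    have h2 := dn_split o c a b (2 * L + 1)
    have h3 : c.Lg o a b (2 * L + 1) ≤ c.Dn o b a / 2 := by
      rw [div_lt_iff₀ hpos] at hL
      by_contra hn
      push Not at hn
      have : ((L : ℝ) + 1) * (c.Dn o b a / 2) ≤ ((L : ℝ) + 1) * c.Lg o a b (2 * L + 1) :=
        mul_le_mul_of_nonneg_left hn.le (by positivity)
      linarith
    obtain ⟨c1, n1, h4⟩ := M3 h hs o c e (2 * L + 1)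
    refine ⟨c1, near_one n1, h4.trans ?_⟩
    have := mul_le_mul_of_nonneg_left
      (show δ * c.hol o ≤ c.Sh o b a a (2 * L + 1) by linarith) (show 0 ≤ _ / 16 by positivity :
        (0 : ℝ) ≤ (1 / 2 : ℝ) ^ (2 * Δ) / 16)
    linarith

/-- The conclusion of the main lemma for fixed parameters, with error `t`. -/
def RunAt (G : SimpleGraph V) [Env G] (Δ : ℕ) (o : V) (δ κ t e : ℝ) : Prop :=
  ∃ L l : ℕ, (L : ℝ) * e ≤ t ∧ (l : ℝ) * e ≤ t ∧
    ∀ (c : FC G Δ) (a b γ α β : Fin Δ), a ≠ b → γ ≠ a → γ ≠ b → (α = a ∨ α = b) →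
      c.hol o ≤ e → δ * e ≤ c.Lg o a b L → δ * e ≤ c.Dn o α β →
      ∃ c' : FC G Δ, c.Near c' o t ∧ c'.hol o ≤ c.hol o + t * e ∧
        κ * e ≤ c'.Sh o α γ β l ∧ c.Dn o b a / 2 ≤ c'.Dn o b a

lemma RunAt.mono {o : V} {δ κ t t' e : ℝ} (h : RunAt G Δ o δ κ t e) (he : 0 ≤ e) (ht : t ≤ t') :
    RunAt G Δ o δ κ t' e := by
  obtain ⟨L, l, h1, h2, h3⟩ := h
  refine ⟨L, l, h1.trans ht, h2.trans ht, fun c a b γ α β a1 a2 a3 a4 a5 a6 a7 => ?_⟩
  obtain ⟨c', b1, b2, b3, b4⟩ := h3 c a b γ α β a1 a2 a3 a4 a5 a6 a7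
  have := mul_le_mul_of_nonneg_right ht he
  exact ⟨c', b1.mono ht, by linarith, b3, b4⟩

lemma cost3 {L : ℕ} {x e t : ℝ} (hx0 : 0 ≤ x) (hx : x ≤ e) (hL : (L : ℝ) * e ≤ t) (he : e ≤ t) :
    (2 * (L : ℝ) + 3) * x ≤ 5 * t := by
  have := mul_le_mul_of_nonneg_left hx (show (0 : ℝ) ≤ 2 * (L : ℝ) + 3 by positivity)
  linarith

lemma cost2 {L : ℕ} {x e t : ℝ} (hx0 : 0 ≤ x) (hx : x ≤ e) (hL : (L : ℝ) * e ≤ t) (he : e ≤ t) :
    2 * ((L : ℝ) + 1) * x ≤ 4 * t := by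
  have := mul_le_mul_of_nonneg_left hx (show (0 : ℝ) ≤ 2 * ((L : ℝ) + 1) by positivity)
  linarith

/-- The cheap improvement. -/
lemma second (h : RT G Δ) (hs : HasSwaps G) (o : V) {δ δ₂ κ₁ κ₂ g t e : ℝ} (hδ : 0 < δ)
    (hδΔ : δ * (Δ : ℝ) ^ 2 = 1 / 2) (he : 0 < e) (het : e ≤ t) (ht : t ≤ 1 / 4)
    (h21 : δ₂ * (16 * Δ) ≤ κ₁) (h22 : δ₂ ≤ δ / 256) (hg0 : 0 ≤ g) (hg1 : g ≤ δ / 256)
    (hg2 : g ≤ κ₂) (R1 : RunAt G Δ o (δ / 2) κ₁ t e) (R2 : RunAt G Δ o δ₂ κ₂ t e)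
    (c : FC G Δ) (hc : e = 2 * c.hol o) :
    ∃ c' : FC G Δ, c.Near c' o (11 * t) ∧
      c'.hol o ≤ c.hol o + 2 * (t * e) - (1 / 2 : ℝ) ^ (2 * Δ) / 16 * (g * e) := by
  obtain ⟨a, b, hab⟩ := exists_dn h o c
  have hρ : (0 : ℝ) ≤ (1 / 2 : ℝ) ^ (2 * Δ) := by positivity
  have hρ' : (0 : ℝ) ≤ (1 / 2 : ℝ) ^ (2 * Δ) / 16 := by positivity
  have hΔ : (0 : ℝ) < Δ := by have := h.three; positivity
  have h0 := c.hol_nonneg o
  have ht0 : 0 ≤ t := by linarith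
  have hte : 0 ≤ t * e := by positivity
  have hte' : t * e ≤ e / 4 := by nlinarith
  have hδe : 0 ≤ δ * e := by positivity
  have hD : δ * e ≤ c.Dn o b a := by
    have := mul_le_mul_of_nonneg_left hab hδ.le
    rw [← mul_assoc, hδΔ] at this
    rw [hc]
    linarith
  have hge : g * e ≤ δ * e / 256 := by
    have := mul_le_mul_of_nonneg_right hg1 he.le
    linarith
  by_cases hba : b = a
  · subst hba
    obtain ⟨c1, n1, h1⟩ := M1 h o c b
    refine ⟨c1, n1.mono (by linarith), h1.trans ?_⟩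
    have := mul_le_mul_of_nonneg_left (show g * e / 16 ≤ c.Dn o b b by linarith) hρ
    linarith
  obtain ⟨L1, l1, a1, a2, R1⟩ := R1
  obtain ⟨L2, l2, b1, b2, R2⟩ := R2
  have hsp := dn_split o c a b L1
  by_cases hS : δ * e / 2 ≤ c.Sh o b a a L1
  · obtain ⟨c1, n1, h1⟩ := M3 h hs o c hba L1
    have := cost3 h0 (by linarith) a1 het
    refine ⟨c1, n1.mono (by linarith), h1.trans ?_⟩
    have := mul_le_mul_of_nonneg_left (show g * e ≤ c.Sh o b a a L1 by linarith) hρ'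
    linarith
  push Not at hS
  obtain ⟨γ, hγa, hγb⟩ := exists_third h.three a b
  obtain ⟨c1, n1, h1, s1, d1⟩ := R1 c a b γ b a (Ne.symm hba) hγa hγb (Or.inr rfl) (by linarith)
    (by linarith) (by linarith)
  have h10 := c1.hol_nonneg o
  obtain ⟨c2, n2, h2, s2, d2⟩ := M2 h hs o c1 hγb.symm a b a l1
  have h20 := c2.hol_nonneg o
  have k2 := cost2 h10 (by linarith) a2 het
  have hsp2 := dn_split o c2 a b L2
  by_cases hS2 : δ * e / 256 ≤ c2.Sh o b a a L2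
  · obtain ⟨c3, n3, h3⟩ := M3 h hs o c2 hba L2
    have := cost3 h20 (by linarith) b1 het
    refine ⟨c3, ((n1.trans n2).trans n3).mono (by linarith), h3.trans ?_⟩
    have := mul_le_mul_of_nonneg_left (show g * e ≤ c2.Sh o b a a L2 by linarith) hρ'
    linarith
  push Not at hS2
  have hδ2 : δ₂ * e ≤ δ * e / 256 := by
    have := mul_le_mul_of_nonneg_right h22 he.le
    linarith
  have hsym : δ₂ * e ≤ c2.Dn o a γ := by
    have e1 := dn_symm h hs o c2 γ a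
    have e2 := mul_le_mul_of_nonneg_right h21 he.le
    refine le_of_mul_le_mul_left ?_ hΔ
    linarith
  obtain ⟨c3, n3, h3, s3, -⟩ := R2 c2 a b γ a γ (Ne.symm hba) hγa hγb (Or.inl rfl) (by linarith)
    (by linarith) hsym
  have h30 := c3.hol_nonneg o
  obtain ⟨c4, n4, h4⟩ := M3 h hs o c3 hγa.symm l2
  have k4 := cost3 h30 (by linarith) b2 het
  refine ⟨c4, (((n1.trans n2).trans n3).trans n4).mono (by linarith), h4.trans ?_⟩
  have e3 := mul_le_mul_of_nonneg_right hg2 he.le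
  have := mul_le_mul_of_nonneg_left (show g * e ≤ c3.Sh o a γ γ l2 by linarith) hρ'
  linarith

end Imp

open _root_.Pool.Agent.MP_93f6c7_pr.K.Imp in
theorem improve_of_run {V : Type} [MeasurableSpace V] [DiscreteMeasurableSpace V] [Countable V]
    {G : SimpleGraph V} [G.LocallyFinite] [Env G] {Δ : ℕ} (h : RT G Δ) (hs : HasSwaps G) (o : V)
    (hrun : RunStmt G Δ o) : ImproveStmt G Δ o := by
  have hΔ : (0 : ℝ) < Δ := by have := h.three; positivity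
  obtain ⟨δ, hδ, hδΔ⟩ : ∃ δ : ℝ, 0 < δ ∧ δ * (Δ : ℝ) ^ 2 = 1 / 2 :=
    ⟨1 / (2 * (Δ : ℝ) ^ 2), by positivity, by field_simp⟩
  obtain ⟨κ₁, hκ₁, C₁, N₁, R1⟩ := hrun (δ / 2) (by positivity)
  obtain ⟨δ₂, hδ₂, h21, h22⟩ : ∃ δ₂ : ℝ, 0 < δ₂ ∧ δ₂ * (16 * Δ) ≤ κ₁ ∧ δ₂ ≤ δ / 256 :=
    ⟨min (κ₁ / (16 * Δ)) (δ / 256), by positivity,
      (le_div_iff₀ (by positivity)).1 (min_le_left _ _), min_le_right _ _⟩
  obtain ⟨κ₂, hκ₂, C₂, N₂, R2⟩ := hrun δ₂ hδ₂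
  obtain ⟨g, hg, hg1, hg2⟩ : ∃ g : ℝ, 0 < g ∧ g ≤ δ / 256 ∧ g ≤ κ₂ :=
    ⟨min (δ / 256) κ₂, by positivity, min_le_left _ _, min_le_right _ _⟩
  obtain ⟨ρ, hρ, hρ'⟩ : ∃ ρ : ℝ, 0 < ρ ∧ ρ = (1 / 2 : ℝ) ^ (2 * Δ) / 16 :=
    ⟨_, by positivity, rfl⟩
  refine ⟨ρ * g, by positivity, fun c => ?_, ?_⟩
  · obtain ⟨c', n1, h1⟩ := first h hs o hδ hδΔ c
    refine ⟨c', n1, h1.trans ?_⟩
    rw [← hρ']
    have h0 := c.hol_nonneg o
    have := mul_le_mul_of_nonneg_left (mul_le_mul_of_nonneg_right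
      (show g ≤ δ by linarith) h0) hρ.le
    linarith
  obtain ⟨K, hK1, hK2, hK3⟩ : ∃ K : ℝ, C₁ ≤ K ∧ C₂ ≤ K ∧ 1 ≤ K :=
    ⟨max (max C₁ C₂) 1, (le_max_left _ _).trans (le_max_left _ _),
      (le_max_right _ _).trans (le_max_left _ _), le_max_right _ _⟩
  obtain ⟨N₃, hN₃⟩ := exists_nat_ge (max (4 * K) (4 * K / (ρ * g)))
  refine ⟨11 * K, max (max N₁ N₂) N₃, fun N hN c hc => ?_⟩
  have hN1 : N₁ ≤ N := ((le_max_left _ _).trans (le_max_left _ _)).trans hN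
  have hN2 : N₂ ≤ N := ((le_max_right _ _).trans (le_max_left _ _)).trans hN
  have hN3 : (N₃ : ℝ) ≤ N := by exact_mod_cast (le_max_right _ _).trans hN
  have hNa : 4 * K ≤ N := ((le_max_left _ _).trans hN₃).trans hN3
  have hNb : 4 * K / (ρ * g) ≤ N := ((le_max_right _ _).trans hN₃).trans hN3
  have hN0 : (0 : ℝ) < N := by linarith
  have h0 := c.hol_nonneg o
  rcases h0.eq_or_lt with hz | hpos
  · refine ⟨c, (FC.Near.refl c o).mono (by positivity), ?_⟩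
    rw [← hz]; simp
  have he8 : 2 * c.hol o ≤ 1 / (N : ℝ) ^ 8 := by
    have e1 : 2 * (1 / (N : ℝ) ^ 9) ≤ 1 / (N : ℝ) ^ 8 := by
      rw [mul_one_div, div_le_div_iff₀ (by positivity) (by positivity), pow_succ _ 8]
      have : (0 : ℝ) < (N : ℝ) ^ 8 := by positivity
      nlinarith
    linarith
  have he1 : 2 * c.hol o ≤ K / N := by
    refine he8.trans ?_
    have e1 : (N : ℝ) ≤ (N : ℝ) ^ 8 := le_self_pow₀ (by linarith) (by norm_num)
    exact div_le_div₀ (by linarith) hK3 hN0 e1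
  have ht : K / N ≤ 1 / 4 := by
    rw [div_le_iff₀ hN0]; linarith
  have ht2 : K / N ≤ ρ * g / 4 := by
    rw [div_le_iff₀ (by positivity)] at hNb
    rw [div_le_iff₀ hN0]; linarith
  have R1' : RunAt G Δ o (δ / 2) κ₁ (C₁ / N) (2 * c.hol o) :=
    R1 N hN1 _ (by linarith) he8
  have R2' : RunAt G Δ o δ₂ κ₂ (C₂ / N) (2 * c.hol o) :=
    R2 N hN2 _ (by linarith) he8
  obtain ⟨c', n1, h1⟩ := second h hs o hδ hδΔ (by linarith) he1 ht h21 h22 hg.le hg1 hg2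
    (R1'.mono (by linarith) (div_le_div_of_nonneg_right hK1 hN0.le))
    (R2'.mono (by linarith) (div_le_div_of_nonneg_right hK2 hN0.le)) c rfl
  refine ⟨c', n1.mono (le_of_eq (by ring)), h1.trans ?_⟩
  rw [← hρ']
  have := mul_le_mul_of_nonneg_right ht2 h0
  linarith

end Pool.Agent.MP_93f6c7_pr.K
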