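import Pool.Agent.MP_93f6c7_pr.K.DefsS
import Pool.Agent.MP_93f6c7_pr.K.Improve

/-! The improvement step from the main probabilistic lemma with sides. -/

set_option autoImplicit false
set_option linter.unusedSectionVars false
set_option linter.unusedVariables false
open MeasureTheory Function
open scoped Classical

namespace Pool.Agent.MP_93f6c7_pr.K

variable {V : Type} [MeasurableSpace V] [DiscreteMeasurableSpace V] [Countable V]
  {G : SimpleGraph V} [G.LocallyFinite] {Δ : ℕ} [E : Env G]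

namespace ImproveSX
open _root_.Pool.Agent.MP_93f6c7_pr.K.Imp

lemma Pr_cut {Z : Type} [MeasurableSpace Z] {μ : Measure Z} [IsProbabilityMeasure μ]
    {A B : Z → Prop} (hA : Measurable A) (hB : Measurable B) :
    Pr μ A = Pr μ (fun z => A z ∧ B z) + Pr μ (fun z => A z ∧ ¬ B z) := by
  rw [Pr_eq hA, Pr_eq (hA.and hB), Pr_eq (hA.and hB.not),
    ← int_add (BM.ind (hA.and hB)) (BM.ind (hA.and hB.not))]
  congr 1
  funext z
  rw [ind_and, ind_and, ind_not]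
  ring

variable [Sides G]

lemma hole_le (h : RT G Δ) (o : V) (c : FC G Δ) (s : Bool) (p : Fin Δ) :
    ∃ q, Pr (muE G) (fun y => Sd G s y o ∧ c.σ y p o = o) ≤ Δ * c.DnS o s p q := by
  obtain ⟨q, -, hmax⟩ := Finset.exists_max_image (Finset.univ : Finset (Fin Δ))
    (fun q => c.DnS o s p q) ⟨p, Finset.mem_univ _⟩
  refine ⟨q, le_trans (Pr_le_sum (s := Finset.univ) (F := fun q y => Sd G s y o ∧ c.σ y p o = o ∧
    ∃ u, Unc G (c.σ y) o u ∧ c.σ y q u = u) fun y hy => ?_) ?_⟩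
  · obtain ⟨u, hu⟩ := exists_unc h (c.proper y) hy.2
    obtain ⟨q, hq⟩ := exists_hole h (c.proper y) (hu.symm (c.proper y))
    exact ⟨q, Finset.mem_univ _, hy.1, hy.2, u, hu, hq⟩
  · refine le_trans (Finset.sum_le_sum (g := fun _ => c.DnS o s p q)
      fun q' _ => hmax q' (Finset.mem_univ _)) ?_
    simp

/-- Some side and pair of colours carry a fixed fraction of the holes. -/
lemma exists_dnS (h : RT G Δ) (o : V) (c : FC G Δ) :
    ∃ (s : Bool) (a b : Fin Δ), c.hol o ≤ 2 * (Δ : ℝ) ^ 2 * c.DnS o s b a := by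
  have hΔ := h.three
  have : Nonempty (Fin Δ) := ⟨⟨0, by omega⟩⟩
  obtain ⟨⟨s, b, a⟩, -, hmax⟩ := Finset.exists_max_image
    (Finset.univ : Finset (Bool × Fin Δ × Fin Δ)) (fun p => c.DnS o p.1 p.2.1 p.2.2)
    Finset.univ_nonempty
  refine ⟨s, a, b, ?_⟩
  have h0 : ∀ r p, Pr (muE G) (fun y => Sd G r y o ∧ c.σ y p o = o) ≤ Δ * c.DnS o s b a :=
    fun r p => (hole_le h o c r p).elim fun q hq => hq.trans
      (mul_le_mul_of_nonneg_left (hmax (r, p, q) (Finset.mem_univ _)) (Nat.cast_nonneg _))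
  have h1 : ∀ p : Fin Δ, Pr (muE G) (fun y => c.σ y p o = o) ≤ 2 * (Δ * c.DnS o s b a) := by
    intro p
    have := Pr_or_le (μ := muE G) (E := fun y => c.σ y p o = o)
      (E₁ := fun y => Sd G true y o ∧ c.σ y p o = o)
      (E₂ := fun y => Sd G false y o ∧ c.σ y p o = o)
      fun y hy => (Sd_cover y o).imp (⟨·, hy⟩) (⟨·, hy⟩)
    linarith [h0 true p, h0 false p]
  refine le_trans (Finset.sum_le_sum (g := fun _ => 2 * (Δ * c.DnS o s b a)) fun p _ => h1 p) ?_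
  simp only [Finset.sum_const, Finset.card_univ, Fintype.card_fin, nsmul_eq_mul]
  exact le_of_eq (by ring)

/-- A colour is missing equally often on both sides. -/
lemma balance (h : RT G Δ) (hs : HasSwaps G) (o : V) (c : FC G Δ) (s : Bool) (b : Fin Δ) :
    Pr (muE G) (fun y => Sd G s y o ∧ c.σ y b o = o) =
      Pr (muE G) (fun y => Sd G (!s) y o ∧ c.σ y b o = o) := by
  obtain ⟨w, hw⟩ : ∃ w, G.Adj o w := (G.degree_pos_iff_exists_adj o).1 (by
    have := h.three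
    rw [h.reg]
    omega)
  have hb := IP.fix (c.ec.em b)
  have e1 : Pr (muE G) (fun y => Sd G s y o) = Pr (muE G) (fun y => Sd G (!s) y o) := by
    rw [← Pr_nbr (μ := muE G) hs actE_mp (ip_Sd (!s)) hw]
    exact Pr_congr fun y => ⟨fun k => k.adj hw, fun k => k.adj' hw.symm⟩
  have e2 : Pr (muE G) (fun y => Sd G s y o ∧ ¬ c.σ y b o = o) =
      Pr (muE G) (fun y => Sd G (!s) y o ∧ ¬ c.σ y b o = o) := by
    rw [← Pr_mtp (μ := muE G) hs actE_mp ((ip_Sd (!s)).and hb.not) (c.ec.ei b) o]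
    refine Pr_congr fun y => ?_
    rw [(c.proper y).inv b o, eq_comm (a := o)]
    exact and_congr_left fun k => ⟨fun j => j.adj ((c.proper y).adj b o k),
      fun j => j.adj' ((c.proper y).adj b o k).symm⟩
  have e3 := Pr_cut (μ := muE G) ((ip_Sd (G := G) s).at o) (hb.at o)
  have e4 := Pr_cut (μ := muE G) ((ip_Sd (G := G) (!s)).at o) (hb.at o)
  linarith

lemma exists_other (h : RT G Δ) (hs : HasSwaps G) (o : V) (c : FC G Δ) (s : Bool) (a b : Fin Δ) :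
    ∃ β, c.DnS o s b a ≤ Δ * c.DnS o (!s) b β :=
  (hole_le h o c (!s) b).imp fun β k =>
    le_trans (Pr_mono fun _ j => ⟨j.1, j.2.1⟩) ((balance h hs o c s b).trans_le k)

lemma dn_symmS (h : RT G Δ) (hs : HasSwaps G) (o : V) (c : FC G Δ) (r : Bool) (α β : Fin Δ) :
    c.DnS o (!r) α β ≤ Δ * c.DnS o r β α := by
  refine le_trans (Pr_le_sum (s := G.neighborFinset o) (F := fun w y => Sd G r y w ∧
    c.σ y β w = w ∧ ∃ u, Unc G (c.σ y) w u ∧ c.σ y α u = u) fun y hy => ?_) ?_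
  · obtain ⟨h0, h1, u, h2, h3⟩ := hy
    exact ⟨u, by simpa using h2.1, h0.adj' h2.1, h3, o, h2.symm (c.proper y), h1⟩
  · rw [Finset.sum_congr rfl fun w hw => Pr_nbr (μ := muE G) hs actE_mp
      ((ip_Sd r).and (IP.dn c.ec β α)) (show G.Adj o w by simpa using hw), Finset.sum_const,
      SimpleGraph.card_neighborFinset_eq_degree, h.reg, nsmul_eq_mul]
    rfl

lemma dn_splitS (o : V) (c : FC G Δ) (s : Bool) (a b : Fin Δ) (L : ℕ) :
    c.DnS o s b a ≤ c.Sh o b a a L + c.LgS o s a b L := by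
  refine Pr_or_le fun y hy => ?_
  by_cases hf : Free (c.σ y a) (c.σ y b) L o
  · exact Or.inr ⟨hy.1, hy.2.1, hf, hy.2.2⟩
  · exact Or.inl ⟨hy.2.1, hf, hy.2.2⟩

/-- Flipping randomly chosen short alternating paths. -/
lemma M2S (h : RT G Δ) (hs : HasSwaps G) (o : V) (c : FC G Δ) {α γ : Fin Δ} (hαγ : α ≠ γ)
    (β x y : Fin Δ) (r s : Bool) (l : ℕ) :
    ∃ c' : FC G Δ, c.Near c' o (2 * (l + 1) * c.hol o) ∧ c'.hol o ≤ c.hol o ∧
      c.ShS o r α γ β l / 16 ≤ c'.DnS o r γ β ∧ c.DnS o s x y / 64 ≤ c'.DnS o s x y := by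
  have hc : EC (G := G) act2 (fun z : Y V × Y V => c.σ z.1) := c.ec.fst
  let M : Y V × Y V → V → Prop := fun z u =>
    (z.2 (u, 0) : ℝ) < 1 / 2 ∧ End (c.σ z.1 α) (c.σ z.1 γ) l u
  have hM : IP (G := G) act2 M :=
    (IP.lab 0 (1 / 2)).snd.and
      (((IP.fix (hc.em α)).and (IP.free (hc.em γ) (hc.em α) l).not).or
        ((IP.fix (hc.em γ)).and (IP.free (hc.em α) (hc.em γ) l).not))
  let F : Y V × Y V → V → Prop := fun z => Ball (c.σ z.1 α) (c.σ z.1 γ) l (M z)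
  have hF : IP (G := G) act2 F := IP.ball hM (hc.em α) (hc.em γ) l
  have hFa : ∀ z v, F z v ↔ F z (c.σ z.1 α v) := fun z v =>
    ball_iff_left ((c.proper _).inv α) ((c.proper _).inv γ) (fun u hu => hu.2) v
  have hFg : ∀ z v, F z v ↔ F z (c.σ z.1 γ v) := fun z v =>
    ball_iff_right ((c.proper _).inv α) ((c.proper _).inv γ) (fun u hu => hu.2) v
  have hc' := hc.flipC hαγ hF
  have keep : ∀ z v p, ¬ F z v → flipC (F z) α γ (c.σ z.1) p v = c.σ z.1 p v :=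
    fun z v p hv => flipC_eq hαγ hv (mt (hFa z v).2 hv) (mt (hFg z v).2 hv) p
  have three : ∀ (y : Y V) (v : V), ∃ B : Finset V, B.card ≤ 3 ∧
      (∀ w, Unc G (c.σ y) v w → w ∉ B) ∧
      ∀ t : Y V, (∀ w ∈ B, ¬ (t (w, 0) : ℝ) < 1 / 2) → ¬ F (y, t) v := by
    intro y v
    have hp := (c.proper y).pair hαγ
    obtain ⟨B, h1, h2, h3⟩ := exists_three hp.inv1 hp.inv2 v
    refine ⟨B, h1, fun w hw hB => ?_, fun t ht hv => ?_⟩
    · obtain ⟨i, ⟨a1, a2⟩ | ⟨a1, a2⟩⟩ := h2 w hB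
      · exact hp.walk_ne h.tree.isAcyclic hw.1 (hw.2 α) a1 a2.symm
      · exact hp.symm.walk_ne h.tree.isAcyclic hw.1 (hw.2 γ) a1 a2.symm
    · obtain ⟨w, hw, hMw⟩ := h3 (M (y, t)) l (fun u hu => hu.2.hole) hv
      exact ht w hw hMw.1
  refine ⟨FC.ofEC hc', c.ofEC_near hc' o ?_, ?_, ?_, ?_⟩
  · have hH : IP (G := G) act (fun y v => c.σ y α v = v ∨ c.σ y γ v = v) :=
      (IP.fix (c.ec.em α)).or (IP.fix (c.ec.em γ))
    let E : ℕ → Y V → Prop := fun i y =>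
      (c.σ y α (walk (c.σ y α) (c.σ y γ) i o) = walk (c.σ y α) (c.σ y γ) i o ∨
        c.σ y γ (walk (c.σ y α) (c.σ y γ) i o) = walk (c.σ y α) (c.σ y γ) i o) ∨
      (c.σ y α (walk (c.σ y γ) (c.σ y α) i o) = walk (c.σ y γ) (c.σ y α) i o ∨
        c.σ y γ (walk (c.σ y γ) (c.σ y α) i o) = walk (c.σ y γ) (c.σ y α) i o)
    have hEm : ∀ i, Measurable (E i) := fun i =>
      ((hH.comp ((c.ec.em α).walk (c.ec.em γ) i)).or
        (hH.comp ((c.ec.em γ).walk (c.ec.em α) i))).at o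
    have hE : ∀ i, Pr (muE G) (E i) ≤ 2 * c.hol o := fun i => by
      have e1 := Pr_mtp_walk (μ := muE G) hs actE_mp hH (c.ec.ei α) (c.ec.ei γ) i o
      have e2 := Pr_mtp_walk (μ := muE G) hs actE_mp hH (c.ec.ei γ) (c.ec.ei α) i o
      have e3 := Pr_hole2_le c o hαγ
      have e4 := Pr_or_le (μ := muE G) (E := E i) fun _ h => h
      linarith
    refine le_trans (Pr_le_sum (s := Finset.range (l + 1)) (F := fun i z => E i z.1)
      fun z ⟨p, hp⟩ => ?_) ?_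
    · have hz : F z o := by
        by_contra hn
        exact hp (keep z o p hn)
      obtain ⟨i, hi, ⟨_, a2⟩ | ⟨_, a2⟩⟩ := hz
      · exact ⟨i, Finset.mem_range.2 (by omega), Or.inl a2.2.hole⟩
      · exact ⟨i, Finset.mem_range.2 (by omega), Or.inr a2.2.hole⟩
    · refine le_trans (Finset.sum_le_sum (g := fun _ => 2 * c.hol o) fun i _ => ?_) ?_
      · rw [Pr_fst (hEm i)]; exact hE i
      · rw [Finset.sum_const, Finset.card_range, nsmul_eq_mul]
        push_cast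
        exact le_of_eq (by ring)
  · rw [FC.ofEC_hol, ← int_fst_holes]
    refine int_mono ((IF.holes hc').bm o) ((IF.holes hc).bm o) fun z => ?_
    have := holes_flipC hαγ (F z) (c.σ z.1) o
    rw [ind_neg (p := Bd (F z) (c.σ z.1 α) o) fun hh => hh (hFa z o),
      ind_neg (p := Bd (F z) (c.σ z.1 γ) o) fun hh => hh (hFg z o)] at this
    linarith
  · rw [FC.ofEC_dnS]
    have := Pr_prod_ge (μ := muE G) (ν := nu V) (((ip_Sd r).fst.and (IP.dn hc' γ β)).at o)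
      (((ip_Sd r).and (IP.sh c.ec α γ β l)).at o)
      (c := (1 / 2 : ℝ) ^ 4) (fun y hy => by
        obtain ⟨h0, h1, h2, u, h3, h4⟩ := hy
        obtain ⟨B, b1, b2, b3⟩ := three y u
        refine (Pr_coins 0 {o} B ?_ (n := 4) ?_).trans (Pr_mono fun t ht => ?_)
        · simpa using b2 o (h3.symm (c.proper y))
        · rw [Finset.card_singleton]; omega
        · have hFo : F (y, t) o := Ball.self ⟨ht.1 o (by simp), Or.inl ⟨h1, h2⟩⟩
          refine ⟨h0, ?_, u, h3.flipC hαγ _, ?_⟩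
          · rw [flipC_right hαγ, flip1_in hFo ((hFa _ o).1 hFo)]; exact h1
          · rw [keep (y, t) u β (b3 t ht.2)]; exact h4)
    unfold FC.ShS
    linarith
  · rw [FC.ofEC_dnS]
    have := Pr_prod_ge (μ := muE G) (ν := nu V) (((ip_Sd s).fst.and (IP.dn hc' x y)).at o)
      (((ip_Sd s).and (IP.dn c.ec x y)).at o)
      (c := (1 / 2 : ℝ) ^ 6) (fun s hy => by
        obtain ⟨h0, h1, u, h3, h4⟩ := hy
        obtain ⟨B, b1, b2, b3⟩ := three s u
        obtain ⟨B', b1', b2', b3'⟩ := three s o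
        refine (Pr_coins 0 ∅ (B ∪ B') ?_ (n := 6) ?_).trans (Pr_mono fun t ht => ?_)
        · simp
        · have := Finset.card_union_le B B'
          rw [Finset.card_empty]; omega
        · refine ⟨h0, ?_, u, h3.flipC hαγ _, ?_⟩
          · rw [keep (s, t) o x (b3' t fun w hw => ht.2 w (Finset.mem_union_right _ hw))]
            exact h1
          · rw [keep (s, t) u y (b3 t fun w hw => ht.2 w (Finset.mem_union_left _ hw))]
            exact h4)
    unfold FC.DnS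
    linarith

/-- The conclusion of the main lemma for fixed parameters, with error `t`. -/
def RunAtS (G : SimpleGraph V) [Env G] [Sides G] (Δ : ℕ) (o : V) (δ κ t e : ℝ) : Prop :=
  ∃ L l : ℕ, (L : ℝ) * e ≤ t ∧ (l : ℝ) * e ≤ t ∧
    ∀ (c : FC G Δ) (a b γ α β : Fin Δ) (s r : Bool), a ≠ b → γ ≠ a → γ ≠ b →
      ((α = a ∧ r = s) ∨ (α = b ∧ r = !s)) →
      c.hol o ≤ e → δ * e ≤ c.LgS o s a b L → δ * e ≤ c.DnS o r α β →
      ∃ c' : FC G Δ, c.Near c' o t ∧ c'.hol o ≤ c.hol o + t * e ∧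
        κ * e ≤ c'.ShS o r α γ β l ∧ c.DnS o s b a / 2 ≤ c'.DnS o s b a

lemma RunAtS.mono {o : V} {δ κ t t' e : ℝ} (h : RunAtS G Δ o δ κ t e) (he : 0 ≤ e)
    (ht : t ≤ t') : RunAtS G Δ o δ κ t' e := by
  obtain ⟨L, l, h1, h2, h3⟩ := h
  refine ⟨L, l, h1.trans ht, h2.trans ht, fun c a b γ α β s r a1 a2 a3 a4 a5 a6 a7 => ?_⟩
  obtain ⟨c', b1, b2, b3, b4⟩ := h3 c a b γ α β s r a1 a2 a3 a4 a5 a6 a7
  have := mul_le_mul_of_nonneg_right ht he
  exact ⟨c', b1.mono ht, by linarith, b3, b4⟩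

/-- The cheap improvement. -/
lemma secondS (h : RT G Δ) (hs : HasSwaps G) (o : V) {δ δ₁ δ₂ κ₁ κ₂ g t e : ℝ} (hδ : 0 < δ)
    (hδΔ : δ * (2 * (Δ : ℝ) ^ 2) = 1 / 2) (h11 : δ₁ * (2 * Δ) = δ) (h12 : δ₁ ≤ δ / 2)
    (hg3 : g ≤ δ₁) (hg4 : g ≤ κ₁) (he : 0 < e) (het : e ≤ t) (ht : t ≤ 1 / 4)
    (h21 : δ₂ * (16 * Δ) ≤ κ₁) (h22 : δ₂ ≤ δ / 256) (hg0 : 0 ≤ g) (hg1 : g ≤ δ / 256)
    (hg2 : g ≤ κ₂) (R1 : RunAtS G Δ o δ₁ κ₁ t e) (R2 : RunAtS G Δ o δ₂ κ₂ t e)
    (c : FC G Δ) (hc : e = 2 * c.hol o) :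
    ∃ c' : FC G Δ, c.Near c' o (11 * t) ∧
      c'.hol o ≤ c.hol o + 2 * (t * e) - (1 / 2 : ℝ) ^ (2 * Δ) / 16 * (g * e) := by
  obtain ⟨s, a, b, hab⟩ := exists_dnS h o c
  have hρ : (0 : ℝ) ≤ (1 / 2 : ℝ) ^ (2 * Δ) := by positivity
  have hρ' : (0 : ℝ) ≤ (1 / 2 : ℝ) ^ (2 * Δ) / 16 := by positivity
  have hΔ : (0 : ℝ) < Δ := by have := h.three; positivity
  have h0 := c.hol_nonneg o
  have ht0 : 0 ≤ t := by linarith
  have hte : 0 ≤ t * e := by positivity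
  have hte' : t * e ≤ e / 4 := by nlinarith
  have hδe : 0 ≤ δ * e := by positivity
  have hD : δ * e ≤ c.DnS o s b a := by
    have := mul_le_mul_of_nonneg_left hab hδ.le
    rw [← mul_assoc, hδΔ] at this
    rw [hc]
    linarith
  have hge : g * e ≤ δ * e / 256 := by
    have := mul_le_mul_of_nonneg_right hg1 he.le
    linarith
  by_cases hba : b = a
  · subst hba
    obtain ⟨c1, n1, h1⟩ := M1 h o c b
    refine ⟨c1, n1.mono (by linarith), h1.trans ?_⟩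
    have := c.dnS_le o s b b
    have := mul_le_mul_of_nonneg_left (show g * e / 16 ≤ c.Dn o b b by linarith) hρ
    linarith
  obtain ⟨L1, l1, a1, a2, R1⟩ := R1
  obtain ⟨L2, l2, b1, b2, R2⟩ := R2
  have hsp := dn_splitS o c s a b L1
  by_cases hS : δ * e / 2 ≤ c.Sh o b a a L1
  · obtain ⟨c1, n1, h1⟩ := M3 h hs o c hba L1
    have := cost3 h0 (by linarith) a1 het
    refine ⟨c1, n1.mono (by linarith), h1.trans ?_⟩
    have := mul_le_mul_of_nonneg_left (show g * e ≤ c.Sh o b a a L1 by linarith) hρ'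
    linarith
  push Not at hS
  obtain ⟨β, hβ⟩ := exists_other h hs o c s a b
  have hg0e : 0 ≤ g * e := by positivity
  have hg3e := mul_le_mul_of_nonneg_right hg3 he.le
  have hg4e := mul_le_mul_of_nonneg_right hg4 he.le
  have h12e := mul_le_mul_of_nonneg_right h12 he.le
  have hβ' : δ₁ * e ≤ c.DnS o (!s) b β := by
    refine le_of_mul_le_mul_left ?_ hΔ
    have : δ₁ * (2 * Δ) * e = δ * e := by rw [h11]
    linarith
  by_cases hβb : β = b
  · subst hβb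
    obtain ⟨c1, n1, h1⟩ := M1 h o c β
    refine ⟨c1, n1.mono (by linarith), h1.trans ?_⟩
    have := c.dnS_le o (!s) β β
    have := mul_le_mul_of_nonneg_left (show g * e / 16 ≤ c.Dn o β β by linarith) hρ
    linarith
  by_cases hβa : β ≠ a
  · obtain ⟨c1, n1, h1, s1, -⟩ := R1 c a b β b β s (!s) (Ne.symm hba) hβa hβb (Or.inr ⟨rfl, rfl⟩)
      (by linarith) (by linarith) hβ'
    have h10 := c1.hol_nonneg o
    obtain ⟨c2, n2, h2⟩ := M3 h hs o c1 (Ne.symm hβb) l1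
    have := cost3 h10 (by linarith) a2 het
    refine ⟨c2, (n1.trans n2).mono (by linarith), h2.trans ?_⟩
    have := c1.shS_le o (!s) b β β l1
    have := mul_le_mul_of_nonneg_left (show g * e ≤ c1.Sh o b β β l1 by linarith) hρ'
    linarith
  obtain rfl : a = β := (not_not.1 hβa).symm
  obtain ⟨γ, hγa, hγb⟩ := exists_third h.three a b
  obtain ⟨c1, n1, h1, s1, d1⟩ := R1 c a b γ b a s (!s) (Ne.symm hba) hγa hγb (Or.inr ⟨rfl, rfl⟩)
    (by linarith) (by linarith) hβ'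
  have h10 := c1.hol_nonneg o
  obtain ⟨c2, n2, h2, s2, d2⟩ := M2S h hs o c1 hγb.symm a b a (!s) s l1
  have h20 := c2.hol_nonneg o
  have k2 := cost2 h10 (by linarith) a2 het
  have hsp2 := dn_splitS o c2 s a b L2
  by_cases hS2 : δ * e / 256 ≤ c2.Sh o b a a L2
  · obtain ⟨c3, n3, h3⟩ := M3 h hs o c2 hba L2
    have := cost3 h20 (by linarith) b1 het
    refine ⟨c3, ((n1.trans n2).trans n3).mono (by linarith), h3.trans ?_⟩
    have := mul_le_mul_of_nonneg_left (show g * e ≤ c2.Sh o b a a L2 by linarith) hρ'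
    linarith
  push Not at hS2
  have hδ2 : δ₂ * e ≤ δ * e / 256 := by
    have := mul_le_mul_of_nonneg_right h22 he.le
    linarith
  have hsym : δ₂ * e ≤ c2.DnS o s a γ := by
    have e1 := dn_symmS h hs o c2 s γ a
    have e2 := mul_le_mul_of_nonneg_right h21 he.le
    refine le_of_mul_le_mul_left ?_ hΔ
    linarith
  obtain ⟨c3, n3, h3, s3, -⟩ := R2 c2 a b γ a γ s s (Ne.symm hba) hγa hγb (Or.inl ⟨rfl, rfl⟩)
    (by linarith) (by linarith) hsym
  have h30 := c3.hol_nonneg o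
  obtain ⟨c4, n4, h4⟩ := M3 h hs o c3 hγa.symm l2
  have k4 := cost3 h30 (by linarith) b2 het
  refine ⟨c4, (((n1.trans n2).trans n3).trans n4).mono (by linarith), h4.trans ?_⟩
  have e3 := mul_le_mul_of_nonneg_right hg2 he.le
  have e4 := c3.shS_le o s a γ γ l2
  have := mul_le_mul_of_nonneg_left (show g * e ≤ c3.Sh o a γ γ l2 by linarith) hρ'
  linarith

end ImproveSX

open _root_.Pool.Agent.MP_93f6c7_pr.K.Imp ImproveSX in
theorem improve_of_runS [Sides G] (h : RT G Δ) (hs : HasSwaps G) (o : V)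
    (hrun : RunStmtS G Δ o) : ImproveStmt G Δ o := by
  have hΔ : (0 : ℝ) < Δ := by have := h.three; positivity
  obtain ⟨δ, hδ, hδΔ⟩ : ∃ δ : ℝ, 0 < δ ∧ δ * (2 * (Δ : ℝ) ^ 2) = 1 / 2 :=
    ⟨1 / (2 * (2 * (Δ : ℝ) ^ 2)), by positivity, by field_simp⟩
  obtain ⟨δ₁, hδ₁, h11, h12⟩ : ∃ δ₁ : ℝ, 0 < δ₁ ∧ δ₁ * (2 * Δ) = δ ∧ δ₁ ≤ δ / 2 := by
    have h3 : (3 : ℝ) ≤ Δ := by exact_mod_cast h.three
    exact ⟨δ / (2 * Δ), by positivity, by field_simp,
      div_le_div_of_nonneg_left hδ.le two_pos (by linarith)⟩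
  obtain ⟨κ₁, hκ₁, C₁, N₁, R1⟩ := hrun δ₁ hδ₁
  obtain ⟨δ₂, hδ₂, h21, h22⟩ : ∃ δ₂ : ℝ, 0 < δ₂ ∧ δ₂ * (16 * Δ) ≤ κ₁ ∧ δ₂ ≤ δ / 256 :=
    ⟨min (κ₁ / (16 * Δ)) (δ / 256), by positivity,
      (le_div_iff₀ (by positivity)).1 (min_le_left _ _), min_le_right _ _⟩
  obtain ⟨κ₂, hκ₂, C₂, N₂, R2⟩ := hrun δ₂ hδ₂
  obtain ⟨g, hg, hg1, hg2, hg3, hg4⟩ :
      ∃ g : ℝ, 0 < g ∧ g ≤ δ / 256 ∧ g ≤ κ₂ ∧ g ≤ δ₁ ∧ g ≤ κ₁ :=
    ⟨min (min (δ / 256) κ₂) (min δ₁ κ₁), by positivity,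
      (min_le_left _ _).trans (min_le_left _ _), (min_le_left _ _).trans (min_le_right _ _),
      (min_le_right _ _).trans (min_le_left _ _), (min_le_right _ _).trans (min_le_right _ _)⟩
  obtain ⟨ρ, hρ, hρ'⟩ : ∃ ρ : ℝ, 0 < ρ ∧ ρ = (1 / 2 : ℝ) ^ (2 * Δ) / 16 :=
    ⟨_, by positivity, rfl⟩
  refine ⟨ρ * g, by positivity, fun c => ?_, ?_⟩
  · obtain ⟨c', n1, h1⟩ := first h hs o (δ := 2 * δ) (by positivity) (by linarith) c
    refine ⟨c', n1, h1.trans ?_⟩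
    rw [← hρ']
    have h0 := c.hol_nonneg o
    have := mul_le_mul_of_nonneg_left (mul_le_mul_of_nonneg_right
      (show g ≤ 2 * δ by linarith) h0) hρ.le
    linarith
  obtain ⟨K, hK1, hK2, hK3⟩ : ∃ K : ℝ, C₁ ≤ K ∧ C₂ ≤ K ∧ 1 ≤ K :=
    ⟨max (max C₁ C₂) 1, (le_max_left _ _).trans (le_max_left _ _),
      (le_max_right _ _).trans (le_max_left _ _), le_max_right _ _⟩
  obtain ⟨N₃, hN₃⟩ := exists_nat_ge (max (4 * K) (4 * K / (ρ * g)))
  refine ⟨11 * K, max (max N₁ N₂) N₃, fun N hN c hc => ?_⟩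
  have hN1 : N₁ ≤ N := ((le_max_left _ _).trans (le_max_left _ _)).trans hN
  have hN2 : N₂ ≤ N := ((le_max_right _ _).trans (le_max_left _ _)).trans hN
  have hN3 : (N₃ : ℝ) ≤ N := by exact_mod_cast (le_max_right _ _).trans hN
  have hNa : 4 * K ≤ N := ((le_max_left _ _).trans hN₃).trans hN3
  have hNb : 4 * K / (ρ * g) ≤ N := ((le_max_right _ _).trans hN₃).trans hN3
  have hN0 : (0 : ℝ) < N := by linarith
  have h0 := c.hol_nonneg o
  rcases h0.eq_or_lt with hz | hpos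
  · refine ⟨c, (FC.Near.refl c o).mono (by positivity), ?_⟩
    rw [← hz]; simp
  have he8 : 2 * c.hol o ≤ 1 / (N : ℝ) ^ 8 := by
    have e1 : 2 * (1 / (N : ℝ) ^ 9) ≤ 1 / (N : ℝ) ^ 8 := by
      rw [mul_one_div, div_le_div_iff₀ (by positivity) (by positivity), pow_succ _ 8]
      have : (0 : ℝ) < (N : ℝ) ^ 8 := by positivity
      nlinarith
    linarith
  have he1 : 2 * c.hol o ≤ K / N := by
    refine he8.trans ?_
    have e1 : (N : ℝ) ≤ (N : ℝ) ^ 8 := le_self_pow₀ (by linarith) (by norm_num)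
    exact div_le_div₀ (by linarith) hK3 hN0 e1
  have ht : K / N ≤ 1 / 4 := by
    rw [div_le_iff₀ hN0]; linarith
  have ht2 : K / N ≤ ρ * g / 4 := by
    rw [div_le_iff₀ (by positivity)] at hNb
    rw [div_le_iff₀ hN0]; linarith
  have R1' : RunAtS G Δ o δ₁ κ₁ (C₁ / N) (2 * c.hol o) :=
    R1 N hN1 _ (by linarith) he8
  have R2' : RunAtS G Δ o δ₂ κ₂ (C₂ / N) (2 * c.hol o) :=
    R2 N hN2 _ (by linarith) he8
  obtain ⟨c', n1, h1⟩ := secondS h hs o hδ hδΔ h11 h12 hg3 hg4 (by linarith) he1 ht h21 h22 hg.le hg1 hg2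
    (R1'.mono (by linarith) (div_le_div_of_nonneg_right hK1 hN0.le))
    (R2'.mono (by linarith) (div_le_div_of_nonneg_right hK2 hN0.le)) c rfl
  refine ⟨c', n1.mono (le_of_eq (by ring)), h1.trans ?_⟩
  rw [← hρ']
  have := mul_le_mul_of_nonneg_right ht2 h0
  linarith

end Pool.Agent.MP_93f6c7_pr.K
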