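import Pool.Agent.MP_93f6c7_pr.K.L2A

/-! Square estimates for the occupation density of the killed chain. -/

set_option autoImplicit false
set_option linter.unusedSectionVars false
set_option linter.unusedVariables false
open MeasureTheory Function
open scoped Classical

namespace Pool.Agent.MP_93f6c7_pr.K
namespace L2

variable {V : Type} [MeasurableSpace V] [DiscreteMeasurableSpace V] [Countable V]
  {G : SimpleGraph V} [G.LocallyFinite] [Env G] {Δ : ℕ}
  {τ : Y V × Y V → V → V} {P : Y V × Y V → V → Prop} {H : Y V → V → ℝ}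
  {A C : Y V × Y V → V → V} {Wn Act : Y V × Y V → V → Prop} {ΩA ΩB : Y V → V → Set (V × ℕ)}

lemma ker_sq (hs : HasSwaps G) (hτ : EI (G := G) act2 τ) (hP : IP (G := G) act2 P)
    (hH : IF (G := G) act H) (o : V) :
    ∫ z, Ker τ P H z o ^ 2 ∂((muE G).prod (nu V)) ≤ ∫ x, H x o ^ 2 ∂(muE G) -
      ∫ x, H x o ^ 2 * Pr (nu V) (fun y => τ (x, y) o = o) ∂(muE G) := by
  have e : ∀ z, Ker τ P H z o ^ 2 = Ker τ P (fun x v => H x v ^ 2) z o := fun z => by
    unfold Ker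
    rw [mul_pow, pow_two (ind _), ind_mul_self]
  simp only [e]
  rw [int_prod ((if_ker hτ hP hH.sq).bm o)]
  exact mass_le hs hτ hP hH.sq (fun _ _ => sq_nonneg _) o ((IP.fix hτ.toEM).at o)
    (fun z h hn => hn.1 h)

/-- value after an `A` step from the root -/
noncomputable def UU (A : Y V × Y V → V → V) (Wn : Y V × Y V → V → Prop) (H : Y V → V → ℝ)
    (o : V) (z : Y V × Y V) : ℝ := Ker A (fun z v => ¬ Wn z v) H z o

/-- value after a `C` step from the root -/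
noncomputable def WW (C : Y V × Y V → V → V) (H : Y V → V → ℝ) (o : V) (z : Y V × Y V) : ℝ :=
  Ker C (fun _ _ => True) H z o

lemma bm_UU (M : Markov G A C Wn Act ΩA ΩB) (hH : IF (G := G) act H) (o : V) :
    BM (UU A Wn H o) := (if_ker M.eiA M.ipW.not hH).bm o

lemma bm_WW (M : Markov G A C Wn Act ΩA ΩB) (hH : IF (G := G) act H) (o : V) :
    BM (WW C H o) := (if_ker M.eiC (IP.const True) hH).bm o

lemma cross (hs : HasSwaps G) (M : Markov G A C Wn Act ΩA ΩB) (hH : IF (G := G) act H) (o : V) :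
    ∫ x, H x o * Cop C (Aop A Wn H) x o ∂(muE G) =
      ∫ z, UU A Wn H o z * WW C H o z ∂((muE G).prod (nu V)) := by
  have hA := if_op M.eiA M.ipW.not hH
  refine (adjoint hs M.eiC (IP.const True) hA hH o).trans ?_
  refine (int_prod ((bm_WW M hH o).mul ((hA.bm o).comp measurable_fst))).trans ?_
  rw [int_prod ((bm_UU M hH o).mul (bm_WW M hH o))]
  congr 1
  funext x
  have dU : DependsOn (fun y => UU A Wn H o (x, y)) (ΩA x o) := by
    intro y y' hy
    have e2 : A (x, y) o = A (x, y') o := M.depA x _ hy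
    have e3 : Wn (x, y) (A (x, y) o) = Wn (x, y') (A (x, y') o) := M.depW' x _ hy
    simp only [UU, Ker]
    rw [e3, e2]
  have dW : DependsOn (fun y => WW C H o (x, y)) (ΩB x o) := by
    intro y y' hy
    have e2 : C (x, y) o = C (x, y') o := M.depC x _ hy
    simp only [WW, Ker]
    rw [e2]
  rw [int_indep ((bm_UU M hH o).left x) ((bm_WW M hH o).left x) dU dW (M.disj x o)]
  simp only
  rw [integral_mul_const, mul_comm]
  rfl

/-- conditional mean square difference -/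
noncomputable def e1 (A C : Y V × Y V → V → V) (Wn : Y V × Y V → V → Prop) (H : Y V → V → ℝ)
    (o : V) (x : Y V) : ℝ := ∫ y, (UU A Wn H o (x, y) - WW C H o (x, y)) ^ 2 ∂(nu V)

/-- killing term -/
noncomputable def e2 (A C : Y V × Y V → V → V) (H : Y V → V → ℝ) (o : V) (x : Y V) : ℝ :=
  H x o ^ 2 * Pr (nu V) (fun y => A (x, y) o = o) + H x o ^ 2 * Pr (nu V) (fun y => C (x, y) o = o)

lemma bm_e1 (M : Markov G A C Wn Act ΩA ΩB) (hH : IF (G := G) act H) (o : V) :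
    BM (e1 A C Wn H o) := (((bm_UU M hH o).sub (bm_WW M hH o)).sq).integral (nu V)

lemma bm_e2 (M : Markov G A C Wn Act ΩA ΩB) (hH : IF (G := G) act H) (o : V) :
    BM (e2 A C H o) :=
  ((hH.bm o).sq.mul ((IF.Pr (IP.fix M.eiA.toEM)).bm o)).add
    ((hH.bm o).sq.mul ((IF.Pr (IP.fix M.eiC.toEM)).bm o))

lemma e1_nonneg (o : V) (x : Y V) : 0 ≤ e1 A C Wn H o x := integral_nonneg fun _ => sq_nonneg _

lemma e2_nonneg (o : V) (x : Y V) : 0 ≤ e2 A C H o x :=
  add_nonneg (mul_nonneg (sq_nonneg _) (Pr_nonneg _)) (mul_nonneg (sq_nonneg _) (Pr_nonneg _))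

lemma energy (hs : HasSwaps G) (M : Markov G A C Wn Act ΩA ΩB) (hH : IF (G := G) act H) (o : V) :
    ∫ x, e1 A C Wn H o x ∂(muE G) + ∫ x, e2 A C H o x ∂(muE G) ≤
      2 * (∫ x, H x o ^ 2 ∂(muE G) - ∫ x, H x o * Cop C (Aop A Wn H) x o ∂(muE G)) := by
  have bU := bm_UU M hH o
  have bW := bm_WW M hH o
  have h1 : ∫ x, e1 A C Wn H o x ∂(muE G) =
      ∫ z, UU A Wn H o z ^ 2 ∂((muE G).prod (nu V)) + ∫ z, WW C H o z ^ 2 ∂((muE G).prod (nu V)) -
        2 * ∫ z, UU A Wn H o z * WW C H o z ∂((muE G).prod (nu V)) := by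
    refine (int_prod ((bU.sub bW).sq)).symm.trans ?_
    rw [← integral_const_mul, ← int_add bU.sq bW.sq,
      ← int_sub (bU.sq.add bW.sq) ((BM.const 2).mul (bU.mul bW))]
    congr 1
    funext z
    ring
  have h2 : ∫ x, e2 A C H o x ∂(muE G) =
      ∫ x, H x o ^ 2 * Pr (nu V) (fun y => A (x, y) o = o) ∂(muE G) +
      ∫ x, H x o ^ 2 * Pr (nu V) (fun y => C (x, y) o = o) ∂(muE G) :=
    int_add ((hH.bm o).sq.mul ((IF.Pr (IP.fix M.eiA.toEM)).bm o))
      ((hH.bm o).sq.mul ((IF.Pr (IP.fix M.eiC.toEM)).bm o))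
  have h3 : ∫ z, UU A Wn H o z ^ 2 ∂((muE G).prod (nu V)) ≤ _ := ker_sq hs M.eiA M.ipW.not hH o
  have h4 : ∫ z, WW C H o z ^ 2 ∂((muE G).prod (nu V)) ≤ _ :=
    ker_sq hs M.eiC (IP.const True) hH o
  rw [cross hs M hH o, h1, h2]
  linarith

lemma pair_le (M : Markov G A C Wn Act ΩA ΩB) (hH : IF (G := G) act H) (o : V) (x : Y V)
    {q : ℝ} (hq : 0 < q) {s s' : V}
    (h1 : q ≤ Pr (nu V) (fun y => A (x, y) o = s ∧ (s ≠ o → ¬ Wn (x, y) s)))
    (h2 : q ≤ Pr (nu V) (fun y => C (x, y) o = s')) :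
    q ^ 2 * (ind (s ≠ o) * H x s - ind (s' ≠ o) * H x s') ^ 2 ≤ e1 A C Wn H o x := by
  have m1 : Measurable fun y => A (x, y) o = s ∧ (s ≠ o → ¬ Wn (x, y) s) :=
    (meas_eq ((meas_at M.eiA.meas o).comp measurable_prodMk_left) measurable_const).and
      (measurable_const.imp ((M.ipW.at s).comp measurable_prodMk_left).not)
  have m2 : Measurable fun y => C (x, y) o = s' :=
    meas_eq ((meas_at M.eiC.meas o).comp measurable_prodMk_left) measurable_const
  have d1 : DependsOn (fun y => A (x, y) o = s ∧ (s ≠ o → ¬ Wn (x, y) s)) (ΩA x o) := by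
    refine dep_of_imp fun y y' hy h => ?_
    have e2 : A (x, y) o = A (x, y') o := M.depA x _ hy
    have e3 : Wn (x, y) (A (x, y) o) = Wn (x, y') (A (x, y') o) := M.depW' x _ hy
    rw [← e2, h.1] at e3
    exact ⟨e2 ▸ h.1, fun hso => e3 ▸ h.2 hso⟩
  have d2 : DependsOn (fun y => C (x, y) o = s') (ΩB x o) := by
    refine dep_of_imp fun y y' hy h => ?_
    have e2 : C (x, y) o = C (x, y') o := M.depC x _ hy
    exact e2 ▸ h
  have h3 := Pr_indep m1 m2 d1 d2 (M.disj x o)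
  have h4 : q ^ 2 ≤ Pr (nu V) (fun y => (A (x, y) o = s ∧ (s ≠ o → ¬ Wn (x, y) s)) ∧
      C (x, y) o = s') := by
    rw [h3, pow_two]
    exact mul_le_mul h1 h2 hq.le (Pr_nonneg _)
  refine (mul_le_mul_of_nonneg_right h4 (sq_nonneg _)).trans ?_
  rw [Pr_eq (m1.and m2), ← integral_mul_const]
  refine int_mono ((BM.ind (m1.and m2)).mul (BM.const _))
    ((((bm_UU M hH o).sub (bm_WW M hH o)).sq).left x) fun y => ?_
  by_cases h : (A (x, y) o = s ∧ (s ≠ o → ¬ Wn (x, y) s)) ∧ C (x, y) o = s'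
  · rw [ind_pos h, one_mul]
    simp only [UU, WW, Ker]
    rw [h.1.1, h.2, ind_congr (show (s ≠ o ∧ ¬ Wn (x, y) s) ↔ s ≠ o from
      ⟨fun hh => hh.1, fun hh => ⟨hh, h.1.2 hh⟩⟩),
      ind_congr (show (s' ≠ o ∧ True) ↔ s' ≠ o from and_iff_left trivial)]
  · rw [ind_neg h, zero_mul]
    exact sq_nonneg _

lemma gap_bound (h : RT G Δ) (hs : HasSwaps G) (o : V) {Γ : ℝ} (hΓ : 0 ≤ Γ) (hgap : HasGap G o Γ)
    {σ : Y V → Fin Δ → V → V} (hσ : EC (G := G) act σ) (M : Markov G A C Wn Act ΩA ΩB)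
    (hH : IF (G := G) act H) {a b γ : Fin Δ} (hγa : γ ≠ a) (hγb : γ ≠ b) {q : ℝ} (hq : 0 < q)
    (hA : ∀ x p, p = a ∨ p = b → q ≤ Pr (nu V) (fun y => A (x, y) o = σ x p o ∧
      (σ x p o ≠ o → ¬ Wn (x, y) (σ x p o))))
    (hC : ∀ x p, p ≠ a → p ≠ b → q ≤ Pr (nu V) (fun y => C (x, y) o = σ x p o)) :
    q ^ 2 * ∫ x, (H x o - ∫ x', H x' o ∂(muE G)) ^ 2 ∂(muE G) ≤
      8 * Γ * Δ * (∫ x, e1 A C Wn H o x ∂(muE G) + ∫ x, e2 A C H o x ∂(muE G)) := by
  have hq1 : q ≤ 1 := (hA (fun _ => 0) a (Or.inl rfl)).trans (Pr_le_one _)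
  set Hp : Fin Δ → Y V → ℝ := fun p x => ind (σ x p o ≠ o) * H x (σ x p o) with hHp
  have bHp : ∀ p, BM (Hp p) := fun p =>
    (((IP.fix (hσ.em p)).not.ind).mul (hH.comp (hσ.em p))).bm o
  have k1 : ∀ x p p', p = a ∨ p = b → p' ≠ a → p' ≠ b →
      q ^ 2 * (Hp p x - Hp p' x) ^ 2 ≤ e1 A C Wn H o x := fun x p p' hp ha hb =>
    pair_le M hH o x hq (hA x p hp) (hC x p' ha hb)
  have k2 : ∀ x p, q ^ 2 * (Hp p x - Hp γ x) ^ 2 ≤ 4 * e1 A C Wn H o x := by
    intro x p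
    have n := e1_nonneg (A := A) (C := C) (Wn := Wn) (H := H) o x
    by_cases hp : p = a ∨ p = b
    · have := k1 x p γ hp hγa hγb
      linarith
    · push Not at hp
      have a1 := k1 x a p (Or.inl rfl) hp.1 hp.2
      have a2 := k1 x a γ (Or.inl rfl) hγa hγb
      have a3 : (Hp p x - Hp γ x) ^ 2 ≤ 2 * (Hp a x - Hp p x) ^ 2 + 2 * (Hp a x - Hp γ x) ^ 2 := by
        nlinarith [sq_nonneg (Hp a x - Hp p x + (Hp a x - Hp γ x))]
      have a4 := mul_le_mul_of_nonneg_left a3 (sq_nonneg q)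
      linarith
  have hole : IF (G := G) act (fun x v => ind (∃ p, σ x p v = v) * H x v ^ 2) :=
    ((IP.exists fun p => IP.fix (hσ.em p)).ind).mul hH.sq
  have k3 : ∀ x, q * (ind (∃ p, σ x p o = o) * H x o ^ 2) ≤ e2 A C H o x := by
    intro x
    by_cases hh : ∃ p, σ x p o = o
    · rw [ind_pos hh, one_mul]
      obtain ⟨p, hp⟩ := hh
      unfold e2
      have n0 := sq_nonneg (H x o)
      have n1 : 0 ≤ Pr (nu V) (fun y => A (x, y) o = o) := Pr_nonneg _
      have n2 : 0 ≤ Pr (nu V) (fun y => C (x, y) o = o) := Pr_nonneg _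
      by_cases hab : p = a ∨ p = b
      · have : q ≤ Pr (nu V) (fun y => A (x, y) o = o) :=
          (hA x p hab).trans (Pr_mono fun y hy => hy.1.trans hp)
        nlinarith
      · push Not at hab
        have : q ≤ Pr (nu V) (fun y => C (x, y) o = o) :=
          (hC x p hab.1 hab.2).trans (Pr_mono fun y hy => hy.trans hp)
        nlinarith
    · rw [ind_neg hh, zero_mul, mul_zero]
      exact e2_nonneg o x
  have k4 : ∀ w, G.Adj o w → ∀ x, q ^ 2 * (H x w - Hp γ x) ^ 2 ≤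
      8 * e1 A C Wn H o x + 2 * q * (q * (ind (∃ p, σ x p w = w) * H x w ^ 2)) := by
    intro w hw x
    have n := e1_nonneg (A := A) (C := C) (Wn := Wn) (H := H) o x
    have n2 : 0 ≤ 2 * q * (q * (ind (∃ p, σ x p w = w) * H x w ^ 2)) := by
      have := ind_nonneg (∃ p, σ x p w = w)
      positivity
    by_cases hc : ∃ p, σ x p o = w
    · obtain ⟨p, hp⟩ := hc
      have e : Hp p x = H x w := by
        simp only [hHp]
        rw [hp, ind_pos hw.ne', one_mul]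
      have := k2 x p
      rw [e] at this
      linarith
    · push Not at hc
      have hu : Unc G (σ x) o w := ⟨hw, hc⟩
      obtain ⟨p0, hp0⟩ := exists_hole h (hσ.proper x) hu
      have hw' := exists_hole h (hσ.proper x) (hu.symm (hσ.proper x))
      have e : Hp p0 x = 0 := by
        simp only [hHp]
        rw [ind_neg (fun hh => hh hp0), zero_mul]
      have a1 := k2 x p0
      rw [e] at a1
      rw [ind_pos hw', one_mul]
      have a3 : (H x w - Hp γ x) ^ 2 ≤ 2 * H x w ^ 2 + 2 * (0 - Hp γ x) ^ 2 := by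
        nlinarith [sq_nonneg (H x w + Hp γ x)]
      have a4 := mul_le_mul_of_nonneg_left a3 (sq_nonneg q)
      nlinarith
  have E1 : 0 ≤ ∫ x, e1 A C Wn H o x ∂(muE G) := integral_nonneg fun x => e1_nonneg o x
  have E2 : 0 ≤ ∫ x, e2 A C H o x ∂(muE G) := integral_nonneg fun x => e2_nonneg o x
  have k5 : ∀ w ∈ G.neighborFinset o, q ^ 2 * ∫ x, (H x w - Hp γ x) ^ 2 ∂(muE G) ≤
      8 * (∫ x, e1 A C Wn H o x ∂(muE G) + ∫ x, e2 A C H o x ∂(muE G)) := by
    intro w hw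
    have hw' : G.Adj o w := by simpa using hw
    have a1 := int_mono (μ := muE G) ((BM.const (q ^ 2)).mul ((hH.bm w).sub (bHp γ)).sq)
      (((BM.const 8).mul (bm_e1 M hH o)).add
        ((BM.const (2 * q)).mul ((BM.const q).mul (hole.bm w)))) (k4 w hw')
    rw [int_add ((BM.const 8).mul (bm_e1 M hH o))
      ((BM.const (2 * q)).mul ((BM.const q).mul (hole.bm w)))] at a1
    simp only [integral_const_mul] at a1
    rw [int_nbr hs actE_mp hole hw'] at a1
    have a2 := int_mono (μ := muE G) ((BM.const q).mul (hole.bm o)) (bm_e2 M hH o) k3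
    simp only [integral_const_mul] at a2
    have a3 := mul_le_mul_of_nonneg_left a2 (show 0 ≤ 2 * q by positivity)
    nlinarith
  obtain ⟨B, hB⟩ := hH.bdd
  have g1 := hgap H (Hp γ) B (fun v => meas_at hH.meas v) (bHp γ).meas hB (fun x => by
    simp only [hHp]
    rw [abs_mul]
    have := hB x (σ x γ o)
    have h1 := abs_ind_le (σ x γ o ≠ o)
    have h2 := abs_nonneg (H x (σ x γ o))
    nlinarith) hH.inv
  have g2 := Finset.sum_le_card_nsmul _ _ _ k5
  rw [← Finset.mul_sum, SimpleGraph.card_neighborFinset_eq_degree, h.reg, nsmul_eq_mul] at g2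
  have g3 := mul_le_mul_of_nonneg_left g1 (sq_nonneg q)
  have g4 := mul_le_mul_of_nonneg_left g2 hΓ
  nlinarith

end L2

open L2 in
theorem l2Stmt {V : Type} [MeasurableSpace V] [DiscreteMeasurableSpace V] [Countable V]
    {G : SimpleGraph V} [G.LocallyFinite] [Env G] {Δ : ℕ} (h : RT G Δ) (hs : HasSwaps G) (o : V)
    {Γ : ℝ} (hΓ : (Δ : ℝ) ≤ Γ) (hgap : HasGap G o Γ) : L2Stmt G Δ o Γ := by
  intro σ A C Wn Act ΩA ΩB hσ M a b γ hγa hγb q hq hA hC ps hps m f hb s2 g0 hf hhb hs2 hg0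
  refine ⟨?_, hf ▸ claim2 hs M o m, hhb ▸ claim3 hs M o m⟩
  have hH := M.if_occ m
  set H := occ A C Wn Act m with hHdef
  have hΔ : (3 : ℝ) ≤ Δ := by exact_mod_cast h.three
  have hΓ0 : 0 < Γ := by linarith
  have hg : 0 < g0 := by rw [hg0]; positivity
  have hps0 : 0 ≤ ps := (Pr_nonneg _).trans (hps (fun _ => 0) o)
  have hb0 : 0 ≤ hb := hhb ▸ integral_nonneg fun x => occ_nonneg m x o
  have b0 := (if_hh M 0).bm o
  have bH := hH.bm o
  have bK := (if_op M.eiC (IP.const True) (if_op M.eiA M.ipW.not hH)).bm o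
  have h0le : ∀ x, hh A C Wn Act 0 x o ≤ ps := fun x => by
    rw [hh_zero M]
    exact op_le M.eiC (IP.const True) (IF.Pr M.ipAct) hps0 hps x o
  have m0 : ∫ x, hh A C Wn Act 0 x o ∂(muE G) ≤ f := hf ▸ mass_zero hs M o
  have gb := gap_bound h hs o hΓ0.le hgap hσ M hH hγa hγb hq hA hC
  have en := energy hs M hH o
  rw [← hhb, ← hs2] at gb
  set D := ∫ x, H x o ^ 2 ∂(muE G) - ∫ x, H x o * Cop C (Aop A Wn H) x o ∂(muE G) with hD
  have E1 : 0 ≤ ∫ x, e1 A C Wn H o x ∂(muE G) := integral_nonneg fun x => e1_nonneg o x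
  have E2 : 0 ≤ ∫ x, e2 A C H o x ∂(muE G) := integral_nonneg fun x => e2_nonneg o x
  have d1 : g0 * s2 ≤ D := by
    rw [hg0, div_mul_eq_mul_div, div_le_iff₀ (by positivity)]
    have a1 : 8 * Γ * (Δ : ℝ) * (∫ x, e1 A C Wn H o x ∂(muE G) + ∫ x, e2 A C H o x ∂(muE G)) ≤
        8 * Γ * (Δ : ℝ) * (2 * D) := by gcongr
    have a2 : 0 ≤ D := by linarith
    have a3 : 16 * Γ * (Δ : ℝ) ≤ 200 * Γ ^ 2 := by nlinarith
    nlinarith
  have d2 : D ≤ g0 / 2 * s2 + (ps / (2 * g0) + hb) * ∫ x, hh A C Wn Act 0 x o ∂(muE G) := by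
    rw [hD, ← int_sub bH.sq (bH.mul bK), hs2, ← integral_const_mul, ← integral_const_mul,
      ← int_add ((BM.const _).mul (bH.sub (BM.const _)).sq) ((BM.const _).mul b0)]
    refine int_mono (bH.sq.sub (bH.mul bK))
      (((BM.const _).mul (bH.sub (BM.const _)).sq).add ((BM.const _).mul b0)) fun x => ?_
    have a1 := occ_sub M m x o
    have a2 : 0 ≤ H x o := occ_nonneg m x o
    have a3 := hh_nonneg (A := A) (C := C) (Wn := Wn) (Act := Act) 0 x o
    have a4 := h0le x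
    set u := hh A C Wn Act 0 x o
    have a5 : H x o ^ 2 - H x o * Cop C (Aop A Wn H) x o ≤ H x o * u := by
      have := mul_le_mul_of_nonneg_left a1 a2
      nlinarith
    have a6 : (H x o - hb) * u ≤ g0 / 2 * (H x o - hb) ^ 2 + u ^ 2 / (2 * g0) := by
      have e : g0 / 2 * (H x o - hb) ^ 2 + u ^ 2 / (2 * g0) - (H x o - hb) * u =
          (g0 * (H x o - hb) - u) ^ 2 / (2 * g0) := by field_simp; ring
      have : 0 ≤ (g0 * (H x o - hb) - u) ^ 2 / (2 * g0) := by positivity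
      linarith
    have a7 : u ^ 2 / (2 * g0) ≤ ps / (2 * g0) * u := by
      rw [div_mul_eq_mul_div]
      gcongr
      nlinarith
    nlinarith
  have d3 : (ps / (2 * g0) + hb) * ∫ x, hh A C Wn Act 0 x o ∂(muE G) ≤
      (ps / (2 * g0) + hb) * f := by gcongr
  have e : ps * f / g0 = 2 * (ps / (2 * g0) * f) := by field_simp
  rw [e]
  nlinarith

end Pool.Agent.MP_93f6c7_pr.K
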