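import Pool.Agent.MP_93f6c7_pr.K.DefsS
import Pool.Agent.MP_93f6c7_pr.K.L2

/-! The square estimates for the occupation density, with sides. -/

set_option autoImplicit false
set_option linter.unusedSectionVars false
set_option linter.unusedVariables false
open MeasureTheory Function
open scoped Classical

namespace Pool.Agent.MP_93f6c7_pr.K

variable {V : Type} [MeasurableSpace V] [DiscreteMeasurableSpace V] [Countable V]
  {G : SimpleGraph V} [G.LocallyFinite] {Δ : ℕ} [E : Env G]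

namespace L2SX

open L2

variable {H : Y V → V → ℝ}
  {A C : Y V × Y V → V → V} {Wn Act : Y V × Y V → V → Prop} {ΩA ΩB : Y V → V → Set (V × ℕ)}

lemma arr_side [Sides G] (M : Markov G A C Wn Act ΩA ΩB) {r : Bool}
    (hr : ∀ z v, Act z v → Sd G r z.1 v) (z : Y V × Y V) (t : ℕ) (v : V)
    (h : Arr (A z) (C z) (Wn z) (Act z) t v) : Sd G (!r) z.1 v := by
  induction t generalizing v with
  | zero => exact (hr z _ h.2).adj (M.eiC.adj z v h.1).symm
  | succ t ih =>
    obtain ⟨h1, h2, -, h4⟩ := h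
    exact ((ih _ h4).adj' (M.eiA.adj z _ h2).symm).adj (M.eiC.adj z v h1).symm

lemma hh_off [Sides G] (M : Markov G A C Wn Act ΩA ΩB) {r : Bool}
    (hr : ∀ z v, Act z v → Sd G r z.1 v) (t : ℕ) {x : Y V} {v : V} (h : ¬ Sd G (!r) x v) :
    hh A C Wn Act t x v = 0 :=
  Pr_false fun y hy => h (arr_side M hr (x, y) t v hy)

lemma gap_boundS (h : RT G Δ) (hs : HasSwaps G) (o : V) {Γ s2 : ℝ} (hΓ : 0 ≤ Γ)
    (hgap : ∀ g : Y V → ℝ, BM g →
      s2 ≤ Γ * ∑ w ∈ G.neighborFinset o, ∫ y, (H y w - g y) ^ 2 ∂(muE G))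
    {σ : Y V → Fin Δ → V → V} (hσ : EC (G := G) act σ) (M : Markov G A C Wn Act ΩA ΩB)
    (hH : IF (G := G) act H) {a b γ : Fin Δ} (hγa : γ ≠ a) (hγb : γ ≠ b) {q : ℝ} (hq : 0 < q)
    (hA : ∀ x p, p = a ∨ p = b → q ≤ Pr (nu V) (fun y => A (x, y) o = σ x p o ∧
      (σ x p o ≠ o → ¬ Wn (x, y) (σ x p o))))
    (hC : ∀ x p, p ≠ a → p ≠ b → q ≤ Pr (nu V) (fun y => C (x, y) o = σ x p o)) :
    q ^ 2 * s2 ≤
      8 * Γ * Δ * (∫ x, e1 A C Wn H o x ∂(muE G) + ∫ x, e2 A C H o x ∂(muE G)) := by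
  have hq1 : q ≤ 1 := (hA (fun _ => 0) a (Or.inl rfl)).trans (Pr_le_one _)
  set Hp : Fin Δ → Y V → ℝ := fun p x => ind (σ x p o ≠ o) * H x (σ x p o) with hHp
  have bHp : ∀ p, BM (Hp p) := fun p =>
    (((IP.fix (hσ.em p)).not.ind).mul (hH.comp (hσ.em p))).bm o
  have k1 : ∀ x p p', p = a ∨ p = b → p' ≠ a → p' ≠ b →
      q ^ 2 * (Hp p x - Hp p' x) ^ 2 ≤ e1 A C Wn H o x := fun x p p' hp ha hb =>
    pair_le M hH o x hq (hA x p hp) (hC x p' ha hb)
  have k2 : ∀ x p, q ^ 2 * (Hp p x - Hp γ x) ^ 2 ≤ 4 * e1 A C Wn H o x := by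
    intro x p
    have n := e1_nonneg (A := A) (C := C) (Wn := Wn) (H := H) o x
    by_cases hp : p = a ∨ p = b
    · have := k1 x p γ hp hγa hγb
      linarith
    · push Not at hp
      have a1 := k1 x a p (Or.inl rfl) hp.1 hp.2
      have a2 := k1 x a γ (Or.inl rfl) hγa hγb
      have a3 : (Hp p x - Hp γ x) ^ 2 ≤ 2 * (Hp a x - Hp p x) ^ 2 + 2 * (Hp a x - Hp γ x) ^ 2 := by
        nlinarith [sq_nonneg (Hp a x - Hp p x + (Hp a x - Hp γ x))]
      have a4 := mul_le_mul_of_nonneg_left a3 (sq_nonneg q)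
      linarith
  have hole : IF (G := G) act (fun x v => ind (∃ p, σ x p v = v) * H x v ^ 2) :=
    ((IP.exists fun p => IP.fix (hσ.em p)).ind).mul hH.sq
  have k3 : ∀ x, q * (ind (∃ p, σ x p o = o) * H x o ^ 2) ≤ e2 A C H o x := by
    intro x
    by_cases hh : ∃ p, σ x p o = o
    · rw [ind_pos hh, one_mul]
      obtain ⟨p, hp⟩ := hh
      unfold e2
      have n0 := sq_nonneg (H x o)
      have n1 : 0 ≤ Pr (nu V) (fun y => A (x, y) o = o) := Pr_nonneg _
      have n2 : 0 ≤ Pr (nu V) (fun y => C (x, y) o = o) := Pr_nonneg _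
      by_cases hab : p = a ∨ p = b
      · have : q ≤ Pr (nu V) (fun y => A (x, y) o = o) :=
          (hA x p hab).trans (Pr_mono fun y hy => hy.1.trans hp)
        nlinarith
      · push Not at hab
        have : q ≤ Pr (nu V) (fun y => C (x, y) o = o) :=
          (hC x p hab.1 hab.2).trans (Pr_mono fun y hy => hy.trans hp)
        nlinarith
    · rw [ind_neg hh, zero_mul, mul_zero]
      exact e2_nonneg o x
  have k4 : ∀ w, G.Adj o w → ∀ x, q ^ 2 * (H x w - Hp γ x) ^ 2 ≤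
      8 * e1 A C Wn H o x + 2 * q * (q * (ind (∃ p, σ x p w = w) * H x w ^ 2)) := by
    intro w hw x
    have n := e1_nonneg (A := A) (C := C) (Wn := Wn) (H := H) o x
    have n2 : 0 ≤ 2 * q * (q * (ind (∃ p, σ x p w = w) * H x w ^ 2)) := by
      have := ind_nonneg (∃ p, σ x p w = w)
      positivity
    by_cases hc : ∃ p, σ x p o = w
    · obtain ⟨p, hp⟩ := hc
      have e : Hp p x = H x w := by
        simp only [hHp]
        rw [hp, ind_pos hw.ne', one_mul]
      have := k2 x p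
      rw [e] at this
      linarith
    · push Not at hc
      have hu : Unc G (σ x) o w := ⟨hw, hc⟩
      obtain ⟨p0, hp0⟩ := exists_hole h (hσ.proper x) hu
      have hw' := exists_hole h (hσ.proper x) (hu.symm (hσ.proper x))
      have e : Hp p0 x = 0 := by
        simp only [hHp]
        rw [ind_neg (fun hh => hh hp0), zero_mul]
      have a1 := k2 x p0
      rw [e] at a1
      rw [ind_pos hw', one_mul]
      have a3 : (H x w - Hp γ x) ^ 2 ≤ 2 * H x w ^ 2 + 2 * (0 - Hp γ x) ^ 2 := by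
        nlinarith [sq_nonneg (H x w + Hp γ x)]
      have a4 := mul_le_mul_of_nonneg_left a3 (sq_nonneg q)
      nlinarith
  have E1 : 0 ≤ ∫ x, e1 A C Wn H o x ∂(muE G) := integral_nonneg fun x => e1_nonneg o x
  have E2 : 0 ≤ ∫ x, e2 A C H o x ∂(muE G) := integral_nonneg fun x => e2_nonneg o x
  have k5 : ∀ w ∈ G.neighborFinset o, q ^ 2 * ∫ x, (H x w - Hp γ x) ^ 2 ∂(muE G) ≤
      8 * (∫ x, e1 A C Wn H o x ∂(muE G) + ∫ x, e2 A C H o x ∂(muE G)) := by
    intro w hw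
    have hw' : G.Adj o w := by simpa using hw
    have a1 := int_mono (μ := muE G) ((BM.const (q ^ 2)).mul ((hH.bm w).sub (bHp γ)).sq)
      (((BM.const 8).mul (bm_e1 M hH o)).add
        ((BM.const (2 * q)).mul ((BM.const q).mul (hole.bm w)))) (k4 w hw')
    rw [int_add ((BM.const 8).mul (bm_e1 M hH o))
      ((BM.const (2 * q)).mul ((BM.const q).mul (hole.bm w)))] at a1
    simp only [integral_const_mul] at a1
    rw [int_nbr hs actE_mp hole hw'] at a1
    have a2 := int_mono (μ := muE G) ((BM.const q).mul (hole.bm o)) (bm_e2 M hH o) k3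
    simp only [integral_const_mul] at a2
    have a3 := mul_le_mul_of_nonneg_left a2 (show 0 ≤ 2 * q by positivity)
    nlinarith
  have g1 := hgap (Hp γ) (bHp γ)
  have g2 := Finset.sum_le_card_nsmul _ _ _ k5
  rw [← Finset.mul_sum, SimpleGraph.card_neighborFinset_eq_degree, h.reg, nsmul_eq_mul] at g2
  have g3 := mul_le_mul_of_nonneg_left g1 (sq_nonneg q)
  have g4 := mul_le_mul_of_nonneg_left g2 hΓ
  nlinarith

end L2SX

open L2 L2SX in
theorem l2StmtS [Sides G] (h : RT G Δ) (hs : HasSwaps G) (o : V) {Γ : ℝ} (hΓ : (Δ : ℝ) ≤ Γ)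
    (hgap : HasGapS G o Γ) : L2StmtS G Δ o Γ := by
  intro σ A C Wn Act ΩA ΩB hσ M a b γ hγa hγb q hq hA hC ps hps r hr m f g0 hf hg0
  have hoff : ∀ x v, ¬ Sd G (!r) x v → occ A C Wn Act m x v = 0 := fun x v hv =>
    Finset.sum_eq_zero fun t _ => hh_off M hr t hv
  obtain ⟨hb, hhb, hgap'⟩ := hgap (!r) _ (M.if_occ m) (occ_nonneg m) hoff
  have hb0 : 0 ≤ hb := (integral_nonneg fun x => occ_nonneg m x o).trans hhb
  refine ⟨hoff, hb, hb0, ?_, hf ▸ claim2 hs M o m, (claim3 hs M o m).trans hhb⟩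
  have bS : BM fun x => ind (Sd G (!r) x o) := BM.ind ((ip_Sd (!r)).at o)
  have hH := M.if_occ m
  set H := occ A C Wn Act m with hHdef
  have hΔ : (3 : ℝ) ≤ Δ := by exact_mod_cast h.three
  have hΓ0 : 0 < Γ := by linarith
  have hg : 0 < g0 := by rw [hg0]; positivity
  have hps0 : 0 ≤ ps := (Pr_nonneg _).trans (hps (fun _ => 0) o)
  have b0 := (if_hh M 0).bm o
  have bH := hH.bm o
  have bK := (if_op M.eiC (IP.const True) (if_op M.eiA M.ipW.not hH)).bm o
  have h0le : ∀ x, hh A C Wn Act 0 x o ≤ ps := fun x => by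
    rw [hh_zero M]
    exact op_le M.eiC (IP.const True) (IF.Pr M.ipAct) hps0 hps x o
  have m0 : ∫ x, hh A C Wn Act 0 x o ∂(muE G) ≤ f := hf ▸ mass_zero hs M o
  have gb := gap_boundS h hs o hΓ0.le hgap' hσ M hH hγa hγb hq hA hC
  have en := energy hs M hH o
  set s2 := ∫ x, ind (Sd G (!r) x o) * (H x o - hb) ^ 2 ∂(muE G) with hs2
  set D := ∫ x, H x o ^ 2 ∂(muE G) - ∫ x, H x o * Cop C (Aop A Wn H) x o ∂(muE G) with hD
  have E1 : 0 ≤ ∫ x, e1 A C Wn H o x ∂(muE G) := integral_nonneg fun x => e1_nonneg o x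
  have E2 : 0 ≤ ∫ x, e2 A C H o x ∂(muE G) := integral_nonneg fun x => e2_nonneg o x
  have d1 : g0 * s2 ≤ D := by
    rw [hg0, div_mul_eq_mul_div, div_le_iff₀ (by positivity)]
    have a1 : 8 * Γ * (Δ : ℝ) * (∫ x, e1 A C Wn H o x ∂(muE G) + ∫ x, e2 A C H o x ∂(muE G)) ≤
        8 * Γ * (Δ : ℝ) * (2 * D) := by gcongr
    have a2 : 0 ≤ D := by linarith
    have a3 : 16 * Γ * (Δ : ℝ) ≤ 200 * Γ ^ 2 := by nlinarith
    nlinarith
  have d2 : D ≤ g0 / 2 * s2 + (ps / (2 * g0) + hb) * ∫ x, hh A C Wn Act 0 x o ∂(muE G) := by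
    rw [hD, ← int_sub bH.sq (bH.mul bK), hs2, ← integral_const_mul, ← integral_const_mul,
      ← int_add ((BM.const _).mul (bS.mul (bH.sub (BM.const _)).sq)) ((BM.const _).mul b0)]
    refine int_mono (bH.sq.sub (bH.mul bK))
      (((BM.const _).mul (bS.mul (bH.sub (BM.const _)).sq)).add ((BM.const _).mul b0)) fun x => ?_
    by_cases hx : ¬ Sd G (!r) x o
    · rw [ind_neg hx, hoff x o hx, hh_off M hr 0 hx]
      simp
    rw [ind_pos (not_not.1 hx), one_mul]
    have a1 := occ_sub M m x o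
    have a2 : 0 ≤ H x o := occ_nonneg m x o
    have a3 := hh_nonneg (A := A) (C := C) (Wn := Wn) (Act := Act) 0 x o
    have a4 := h0le x
    set u := hh A C Wn Act 0 x o
    have a5 : H x o ^ 2 - H x o * Cop C (Aop A Wn H) x o ≤ H x o * u := by
      have := mul_le_mul_of_nonneg_left a1 a2
      nlinarith
    have a6 : (H x o - hb) * u ≤ g0 / 2 * (H x o - hb) ^ 2 + u ^ 2 / (2 * g0) := by
      have e : g0 / 2 * (H x o - hb) ^ 2 + u ^ 2 / (2 * g0) - (H x o - hb) * u =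
          (g0 * (H x o - hb) - u) ^ 2 / (2 * g0) := by field_simp; ring
      have : 0 ≤ (g0 * (H x o - hb) - u) ^ 2 / (2 * g0) := by positivity
      linarith
    have a7 : u ^ 2 / (2 * g0) ≤ ps / (2 * g0) * u := by
      rw [div_mul_eq_mul_div]
      gcongr
      nlinarith
    nlinarith
  have d3 : (ps / (2 * g0) + hb) * ∫ x, hh A C Wn Act 0 x o ∂(muE G) ≤
      (ps / (2 * g0) + hb) * f := by gcongr
  have e : ps * f / g0 = 2 * (ps / (2 * g0) * f) := by field_simp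
  rw [e]
  nlinarith

end Pool.Agent.MP_93f6c7_pr.K
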