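import Pool.Agent.MP_93f6c7_pr.K.Meas

/-! Independence and mass transport on the label space. -/

set_option autoImplicit false
set_option linter.unusedSectionVars false
open MeasureTheory Function
open scoped Classical

namespace Pool.Agent.MP_93f6c7_pr.K

variable {V : Type}

lemma meas_pw (D : Set (V × ℕ)) : Measurable fun p : Y V × Y V => (D.piecewise p.1 p.2 : Y V) := by
  refine measurable_pi_lambda _ fun i => ?_
  by_cases h : i ∈ D
  · simp only [Set.piecewise_eq_of_mem _ _ _ h]; fun_prop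
  · simp only [Set.piecewise_eq_of_notMem _ _ _ h]; fun_prop

lemma pw_mp (D : Set (V × ℕ)) :
    MeasurePreserving (fun p : Y V × Y V => (D.piecewise p.1 p.2 : Y V)) ((nu V).prod (nu V))
      (nu V) := by
  refine ⟨meas_pw D, ?_⟩
  unfold nu
  refine Measure.eq_infinitePi _ fun s t ht => ?_
  rw [Measure.map_apply (meas_pw D) (MeasurableSet.pi s.countable_toSet fun i _ => ht i)]
  have : (fun p : Y V × Y V => (D.piecewise p.1 p.2 : Y V)) ⁻¹' (Set.pi s t) =
      (Set.pi (s.filter (· ∈ D)) t) ×ˢ (Set.pi (s.filter (· ∉ D)) t) := by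
    ext p
    simp only [Set.mem_preimage, Set.mem_pi, Finset.mem_coe, Set.mem_prod, Finset.mem_filter]
    constructor
    · intro h
      refine ⟨fun i hi => ?_, fun i hi => ?_⟩
      · have := h i hi.1
        rwa [Set.piecewise_eq_of_mem _ _ _ hi.2] at this
      · have := h i hi.1
        rwa [Set.piecewise_eq_of_notMem _ _ _ hi.2] at this
    · intro h i hi
      by_cases hD : i ∈ D
      · rw [Set.piecewise_eq_of_mem _ _ _ hD]; exact h.1 i ⟨hi, hD⟩
      · rw [Set.piecewise_eq_of_notMem _ _ _ hD]; exact h.2 i ⟨hi, hD⟩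
  rw [this, Measure.prod_prod, Measure.infinitePi_pi _ fun i _ => ht i,
    Measure.infinitePi_pi _ fun i _ => ht i, Finset.prod_filter_mul_prod_filter_not]

/-- Freezing lemma. -/
lemma int_freeze {Φ : Y V × Y V → ℝ} (h : BM Φ) (D : Set (V × ℕ))
    (h1 : ∀ y', DependsOn (fun y => Φ (y, y')) D)
    (h2 : ∀ y, DependsOn (fun y' => Φ (y, y')) Dᶜ) :
    ∫ y, Φ (y, y) ∂(nu V) = ∫ y, ∫ y', Φ (y, y') ∂(nu V) ∂(nu V) := by
  have hm : Measurable fun y : Y V => Φ (y, y) := h.meas.comp (measurable_id.prodMk measurable_id)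
  rw [← int_map (pw_mp D) hm, ← int_prod h]
  congr 1; funext p
  have e1 := h1 (D.piecewise p.1 p.2) (x := D.piecewise p.1 p.2) (y := p.1)
    fun i hi => Set.piecewise_eq_of_mem _ _ _ hi
  have e2 := @h2 p.1 (D.piecewise p.1 p.2) p.2
    fun i hi => Set.piecewise_eq_of_notMem _ _ _ hi
  exact e1.trans e2

lemma Pr_freeze {E : Y V × Y V → Prop} (h : Measurable E) (D : Set (V × ℕ))
    (h1 : ∀ y', DependsOn (fun y => E (y, y')) D)
    (h2 : ∀ y, DependsOn (fun y' => E (y, y')) Dᶜ) :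
    Pr (nu V) (fun y => E (y, y)) = Pr ((nu V).prod (nu V)) E := by
  rw [Pr_eq (E := fun y => E (y, y)) (h.comp (measurable_id.prodMk measurable_id)), Pr_eq h,
    int_prod (BM.ind h)]
  exact int_freeze (BM.ind h) D (fun y' _ _ hh => congrArg ind (h1 y' hh))
    (fun y' _ _ hh => congrArg ind (h2 y' hh))

lemma int_indep {f g : Y V → ℝ} (hf : BM f) (hg : BM g) {D D' : Set (V × ℕ)}
    (h1 : DependsOn f D) (h2 : DependsOn g D') (hD : Disjoint D D') :
    ∫ y, f y * g y ∂(nu V) = (∫ y, f y ∂(nu V)) * ∫ y, g y ∂(nu V) := by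
  have := int_freeze (Φ := fun p => f p.1 * g p.2)
    ((hf.comp measurable_fst).mul (hg.comp measurable_snd)) D
    (fun y' _ _ hh => by simp only [h1 hh])
    (fun y' _ _ hh => by
      simp only [h2 fun i hi => hh i (fun hD' => Set.disjoint_left.1 hD hD' hi)])
  simp only at this
  rw [this]
  simp only [integral_const_mul, integral_mul_const]

lemma Pr_indep {E F : Y V → Prop} (hE : Measurable E) (hF : Measurable F) {D D' : Set (V × ℕ)}
    (h1 : DependsOn E D) (h2 : DependsOn F D') (hD : Disjoint D D') :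
    Pr (nu V) (fun y => E y ∧ F y) = Pr (nu V) E * Pr (nu V) F := by
  rw [Pr_eq (hE.and hF), Pr_eq hE, Pr_eq hF]
  simp only [ind_and]
  exact int_indep (BM.ind hE) (BM.ind hF) (fun _ _ hh => congrArg ind (h1 hh))
    (fun _ _ hh => congrArg ind (h2 hh)) hD

lemma dep_of_imp {E : Y V → Prop} {D : Set (V × ℕ)}
    (h : ∀ y y' : Y V, (∀ i ∈ D, y i = y' i) → E y → E y') : DependsOn E D :=
  fun y y' hh => propext ⟨h y y' hh, h y' y fun i hi => (hh i hi).symm⟩

lemma comp_inj_mp {ι : V × ℕ → V × ℕ} (hι : Injective ι) :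
    MeasurePreserving (fun (y : Y V) (i : V × ℕ) => y (ι i)) (nu V) (nu V) :=
  ⟨by fun_prop, Measure.map_infinitePi_infinitePi_of_inj hι⟩

lemma reix_mp {j : ℕ → ℕ} (hj : Injective j) : MeasurePreserving (reix j) (nu V) (nu V) :=
  comp_inj_mp (ι := fun i => (i.1, j i.2)) fun a b h => by
    simp only [Prod.mk.injEq] at h
    exact Prod.ext h.1 (hj h.2)

lemma meas_reix (j : ℕ → ℕ) : Measurable (reix j : Y V → Y V) := by
  unfold reix; fun_prop

lemma act_mp {G : SimpleGraph V} (φ : G ≃g G) : MeasurePreserving (act φ) (nu V) (nu V) :=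
  comp_inj_mp (ι := fun i => (φ i.1, i.2)) fun a b h => by
    simp only [Prod.mk.injEq] at h
    exact Prod.ext (φ.injective h.1) h.2

/-- Splitting the labels into even and odd ones. -/
def split (y : Y V) : Y V × Y V := (reix (fun k => 2 * k) y, reix (fun k => 2 * k + 1) y)

lemma meas_split : Measurable (split : Y V → Y V × Y V) := (meas_reix _).prodMk (meas_reix _)

lemma split_mp : MeasurePreserving split (nu V) ((nu V).prod (nu V)) := by
  have h1 : Injective fun k : ℕ => 2 * k := fun a b h => by simpa using h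
  have h2 : Injective fun k : ℕ => 2 * k + 1 := fun a b h => by simpa using h
  have h := (reix_mp (V := V) h1).prod (reix_mp (V := V) h2)
  obtain ⟨D, hD⟩ : ∃ D : Set (V × ℕ), ∀ i, i ∈ D ↔ i.2 % 2 = 0 :=
    ⟨{i | i.2 % 2 = 0}, fun _ => Iff.rfl⟩
  have e : Prod.map (reix fun k => 2 * k) (reix fun k => 2 * k + 1) =
      split ∘ (fun p : Y V × Y V => (D.piecewise p.1 p.2 : Y V)) := by
    funext p
    refine Prod.ext ?_ ?_
    · funext i
      exact (Set.piecewise_eq_of_mem D p.1 p.2 (i := (i.1, 2 * i.2)) (by simp [hD])).symm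
    · funext i
      exact (Set.piecewise_eq_of_notMem D p.1 p.2 (i := (i.1, 2 * i.2 + 1)) (by simp [hD])).symm
  refine ⟨meas_split, ?_⟩
  conv_lhs => rw [← (pw_mp D).map_eq]
  rw [Measure.map_map meas_split (meas_pw D)]
  exact (congrArg (fun T => Measure.map T _) e.symm).trans h.map_eq

/-- The diagonal action on pairs of labels. -/
def act2 {G : SimpleGraph V} (φ : G ≃g G) (p : Y V × Y V) : Y V × Y V := (act φ p.1, act φ p.2)

lemma act2_mp {G : SimpleGraph V} (φ : G ≃g G) :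
    MeasurePreserving (act2 φ) ((nu V).prod (nu V)) ((nu V).prod (nu V)) :=
  (act_mp φ).prod (act_mp φ)

lemma split_act {G : SimpleGraph V} (φ : G ≃g G) (y : Y V) :
    split (act φ y) = act2 φ (split y) := rfl

/-! ### Probabilities of elementary events -/

lemma meas_lab (i : V × ℕ) : Measurable fun y : Y V => (y i : ℝ) := by fun_prop

lemma Pr_lab (i : V × ℕ) {E : unitInterval → Prop} (hE : Measurable E) :
    Pr (nu V) (fun y => E (y i)) = Pr volume E :=
  Pr_map (measurePreserving_eval_infinitePi (fun _ : V × ℕ => (volume : Measure unitInterval)) i) hE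

lemma Pr_Ico {s t : ℝ} (hs : 0 ≤ s) (hst : s ≤ t) (ht : t ≤ 1) :
    Pr (volume : Measure unitInterval) (fun u => s ≤ (u : ℝ) ∧ (u : ℝ) < t) = t - s := by
  have : {u : unitInterval | s ≤ (u : ℝ) ∧ (u : ℝ) < t} =
      Set.Ico (⟨s, hs, hst.trans ht⟩ : unitInterval) ⟨t, hs.trans hst, ht⟩ := by
    ext u; simp [Set.mem_Ico, ← Subtype.coe_le_coe, ← Subtype.coe_lt_coe]
  unfold Pr
  rw [this, Measure.real, unitInterval.volume_Ico, ENNReal.toReal_ofReal (by simpa using hst)]

lemma Pr_lab_Ico (i : V × ℕ) {s t : ℝ} (hs : 0 ≤ s) (hst : s ≤ t) (ht : t ≤ 1) :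
    Pr (nu V) (fun y => s ≤ (y i : ℝ) ∧ (y i : ℝ) < t) = t - s := by
  rw [← Pr_Ico hs hst ht]
  exact Pr_lab i (E := fun u => s ≤ (u : ℝ) ∧ (u : ℝ) < t)
    (measurableSet_setOfPred.1 (measurable_subtype_coe measurableSet_Ico))

lemma Pr_lab_lt (i : V × ℕ) {t : ℝ} (h0 : 0 ≤ t) (ht : t ≤ 1) :
    Pr (nu V) (fun y => (y i : ℝ) < t) = t := by
  have := Pr_lab_Ico i le_rfl h0 ht
  rw [sub_zero] at this
  exact (Pr_congr fun y => by simp [(y i).2.1]).trans this

lemma meas_lab_lt (i : V × ℕ) (t : ℝ) : Measurable fun y : Y V => (y i : ℝ) < t :=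
  measurableSet_setOfPred.1 (measurableSet_lt (meas_lab i) measurable_const)

/-- Product formula for events depending on distinct single labels. -/
lemma Pr_box (s : Finset (V × ℕ)) (E : V × ℕ → unitInterval → Prop)
    (hE : ∀ i, Measurable (E i)) :
    Pr (nu V) (fun y => ∀ i ∈ s, E i (y i)) = ∏ i ∈ s, Pr volume (E i) := by
  unfold Pr nu
  have : {y : Y V | ∀ i ∈ s, E i (y i)} = Set.pi s (fun i => {u | E i u}) := by
    ext y; simp
  rw [this, Measure.real, Measure.infinitePi_pi _ fun i _ => measurableSet_setOfPred.2 (hE i),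
    ENNReal.toReal_prod]
  rfl

lemma Pr_unit_lt {t : ℝ} (h0 : 0 ≤ t) (ht : t ≤ 1) :
    Pr (volume : Measure unitInterval) (fun u => (u : ℝ) < t) = t := by
  have := Pr_Ico le_rfl h0 ht
  rw [sub_zero] at this
  exact (Pr_congr fun u => by simp [u.2.1]).trans this

lemma meas_unit_lt (t : ℝ) : Measurable fun u : unitInterval => (u : ℝ) < t :=
  measurableSet_setOfPred.1 (measurableSet_lt measurable_subtype_coe measurable_const)

/-- Fair coins at the vertices of `A` show heads and those of `B` show tails. -/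
lemma Pr_coins (k : ℕ) (A B : Finset V) (hAB : Disjoint A B) {n : ℕ} (hn : A.card + B.card ≤ n) :
    (1 / 2 : ℝ) ^ n ≤ Pr (nu V) (fun y => (∀ v ∈ A, (y (v, k) : ℝ) < 1 / 2) ∧
      ∀ v ∈ B, ¬ (y (v, k) : ℝ) < 1 / 2) := by
  let s : Finset (V × ℕ) := (A ∪ B).image fun v => (v, k)
  let E : V × ℕ → unitInterval → Prop := fun i u => (i.1 ∈ A ↔ (u : ℝ) < 1 / 2)
  have hE : ∀ i, Measurable (E i) := fun i => measurable_const.iff (meas_unit_lt _)
  have h1 := Pr_box s E hE
  have h2 : ∀ i, Pr volume (E i) = 1 / 2 := by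
    intro i
    by_cases hi : i.1 ∈ A
    · exact (Pr_congr fun u => by simp [E, hi]).trans
        (Pr_unit_lt (t := 1 / 2) (by norm_num) (by norm_num))
    · have := Pr_not (μ := volume) (meas_unit_lt (1 / 2))
      rw [Pr_unit_lt (t := 1 / 2) (by norm_num) (by norm_num)] at this
      exact ((Pr_congr fun u => by simp [E, hi]).trans this).trans (by norm_num)
  simp only [h2, Finset.prod_const] at h1
  have hc : s.card ≤ n :=
    Finset.card_image_le.trans ((Finset.card_union_le _ _).trans hn)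
  refine le_trans (pow_le_pow_of_le_one (by norm_num) (by norm_num) hc) ?_
  rw [← h1]
  refine Pr_mono fun y hy => ⟨fun v hv => ?_, fun v hv => ?_⟩
  · exact (hy (v, k) (Finset.mem_image_of_mem _ (Finset.mem_union_left _ hv))).1 hv
  · intro h
    exact Finset.disjoint_left.1 hAB
      ((hy (v, k) (Finset.mem_image_of_mem _ (Finset.mem_union_right _ hv))).2 h) hv

/-! ### Mass transport -/

section mtp
variable [MeasurableSpace V] [DiscreteMeasurableSpace V] [Countable V]
  {G : SimpleGraph V} [G.LocallyFinite]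
  {Z : Type} [MeasurableSpace Z] {μ : Measure Z} [IsProbabilityMeasure μ]
  {a : (G ≃g G) → Z → Z}

/-- Bounded measurable invariant function of a point and a vertex. -/
structure IF (a : (G ≃g G) → Z → Z) (f : Z → V → ℝ) : Prop where
  meas : Measurable f
  bdd : ∃ B, ∀ z v, |f z v| ≤ B
  inv : ∀ φ z v, f (a φ z) v = f z (φ v)

/-- Measurable invariant predicate of a point and a vertex. -/
structure IP (a : (G ≃g G) → Z → Z) (E : Z → V → Prop) : Prop where
  meas : Measurable E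
  inv : ∀ φ z v, E (a φ z) v ↔ E z (φ v)

/-- Measurable equivariant map of the vertices. -/
structure EM (a : (G ≃g G) → Z → Z) (τ : Z → V → V) : Prop where
  meas : Measurable τ
  eqv : ∀ (φ : G ≃g G) z v, φ (τ (a φ z) v) = τ z (φ v)

/-- Measurable equivariant matching. -/
structure EI (a : (G ≃g G) → Z → Z) (τ : Z → V → V) : Prop extends EM a τ where
  inv : ∀ z, Involutive (τ z)
  adj : ∀ z v, τ z v ≠ v → G.Adj v (τ z v)

lemma EM.loc {τ : Z → V → V} (h : EM a τ) (φ : G ≃g G) (z : Z) :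
    Loc φ Set.univ (τ (a φ z)) (τ z) := ⟨fun _ _ => trivial, fun v _ => h.eqv φ z v⟩

lemma IF.bm {f : Z → V → ℝ} (h : IF a f) (v : V) : BM fun z => f z v := by
  obtain ⟨B, hB⟩ := h.bdd
  exact ⟨meas_at h.meas v, B, fun z => hB z v⟩

lemma IF.bm' {f : Z → V → ℝ} (h : IF a f) {τ : Z → V} (hτ : Measurable τ) :
    BM fun z => f z (τ z) := by
  obtain ⟨B, hB⟩ := h.bdd
  exact ⟨meas_app h.meas hτ, B, fun z => hB z _⟩

lemma IP.at {E : Z → V → Prop} (h : IP a E) (v : V) : Measurable fun z => E z v :=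
  meas_at h.meas v

lemma IP.ind {E : Z → V → Prop} (h : IP a E) : IF a (fun z v => ind (E z v)) :=
  ⟨measurable_pi_lambda _ fun v => meas_ind (h.at v), ⟨1, fun _ _ => abs_ind_le _⟩,
    fun φ z v => ind_congr (h.inv φ z v)⟩

lemma IP.and {E F : Z → V → Prop} (h : IP a E) (h' : IP a F) :
    IP a (fun z v => E z v ∧ F z v) :=
  ⟨measurable_pi_lambda _ fun v => (h.at v).and (h'.at v),
    fun φ z v => and_congr (h.inv φ z v) (h'.inv φ z v)⟩

lemma IP.or {E F : Z → V → Prop} (h : IP a E) (h' : IP a F) :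
    IP a (fun z v => E z v ∨ F z v) :=
  ⟨measurable_pi_lambda _ fun v => (h.at v).or (h'.at v),
    fun φ z v => or_congr (h.inv φ z v) (h'.inv φ z v)⟩

lemma IP.not {E : Z → V → Prop} (h : IP a E) : IP a (fun z v => ¬ E z v) :=
  ⟨measurable_pi_lambda _ fun v => (h.at v).not, fun φ z v => not_congr (h.inv φ z v)⟩

lemma IP.const (p : Prop) : IP a (fun _ _ => p) := ⟨measurable_const, fun _ _ _ => Iff.rfl⟩

lemma IP.exists {ι : Type} [Countable ι] {E : ι → Z → V → Prop} (h : ∀ i, IP a (E i)) :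
    IP a (fun z v => ∃ i, E i z v) :=
  ⟨measurable_pi_lambda _ fun v => Measurable.exists fun i => (h i).at v,
    fun φ z v => exists_congr fun i => (h i).inv φ z v⟩

lemma IP.forall {ι : Type} [Countable ι] {E : ι → Z → V → Prop} (h : ∀ i, IP a (E i)) :
    IP a (fun z v => ∀ i, E i z v) :=
  ⟨measurable_pi_lambda _ fun v => Measurable.forall fun i => (h i).at v,
    fun φ z v => forall_congr' fun i => (h i).inv φ z v⟩

lemma IP.comp {E : Z → V → Prop} (h : IP a E) {τ : Z → V → V} (hτ : EM a τ) :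
    IP a (fun z v => E z (τ z v)) :=
  ⟨measurable_pi_lambda _ fun v => meas_app h.meas (meas_at hτ.meas v),
    fun φ z v => by rw [h.inv, hτ.eqv]⟩

lemma IP.eq {τ τ' : Z → V → V} (hτ : EM a τ) (hτ' : EM a τ') :
    IP a (fun z v => τ z v = τ' z v) :=
  ⟨measurable_pi_lambda _ fun v => meas_eq (meas_at hτ.meas v) (meas_at hτ'.meas v),
    fun φ z v => by rw [← hτ.eqv, ← hτ'.eqv, φ.injective.eq_iff]⟩

lemma EM.id : EM a (fun _ v => v) := ⟨measurable_const, fun _ _ _ => rfl⟩

lemma IP.fix {τ : Z → V → V} (hτ : EM a τ) : IP a (fun z v => τ z v = v) := IP.eq hτ EM.id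

lemma EM.comp {τ τ' : Z → V → V} (h : EM a τ) (h' : EM a τ') :
    EM a (fun z v => τ z (τ' z v)) :=
  ⟨measurable_pi_lambda _ fun v => meas_app h.meas (meas_at h'.meas v),
    fun φ z v => by rw [h.eqv, h'.eqv]⟩

lemma EM.alt {τ τ' : Z → V → V} (h : EM a τ) (h' : EM a τ') (n : ℕ) :
    EM a (fun z => alt (τ z) (τ' z) n) := by
  induction n generalizing τ τ' with
  | zero => exact h
  | succ n ih => exact ih h' h

lemma EI.alt {τ τ' : Z → V → V} (h : EI a τ) (h' : EI a τ') (n : ℕ) :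
    EI a (fun z => alt (τ z) (τ' z) n) := by
  induction n generalizing τ τ' with
  | zero => exact h
  | succ n ih => exact ih h' h

lemma EM.walk {τ τ' : Z → V → V} (h : EM a τ) (h' : EM a τ') (n : ℕ) :
    EM a (fun z => walk (τ z) (τ' z) n) := by
  induction n generalizing τ τ' with
  | zero => exact EM.id
  | succ n ih => exact (ih h' h).comp h

lemma EM.back {τ τ' : Z → V → V} (h : EM a τ) (h' : EM a τ') (n : ℕ) :
    EM a (fun z => back (τ z) (τ' z) n) := (h'.alt h n).walk (h.alt h' n) n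

lemma IP.free {τ τ' : Z → V → V} (h : EM a τ) (h' : EM a τ') (n : ℕ) :
    IP a (fun z => Free (τ z) (τ' z) n) := by
  induction n generalizing τ τ' with
  | zero => exact IP.const True
  | succ n ih => exact (IP.fix h).not.and ((ih h' h).comp h)

lemma EM.ite {E : Z → V → Prop} (hE : IP a E) {τ τ' : Z → V → V} (h : EM a τ) (h' : EM a τ')
    [∀ z v, Decidable (E z v)] : EM a (fun z v => if E z v then τ z v else τ' z v) := by
  refine ⟨measurable_pi_lambda _ fun v => meas_ite (hE.at v) (meas_at h.meas v)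
    (meas_at h'.meas v), fun φ z v => ?_⟩
  by_cases hz : E z (φ v)
  · rw [if_pos hz, if_pos ((hE.inv φ z v).2 hz), h.eqv]
  · rw [if_neg hz, if_neg (mt (hE.inv φ z v).1 hz), h'.eqv]

lemma IF.comp {f : Z → V → ℝ} (h : IF a f) {τ : Z → V → V} (hτ : EM a τ) :
    IF a (fun z v => f z (τ z v)) := by
  obtain ⟨B, hB⟩ := h.bdd
  exact ⟨measurable_pi_lambda _ fun v => meas_app h.meas (meas_at hτ.meas v),
    ⟨B, fun z v => hB _ _⟩, fun φ z v => by rw [h.inv, hτ.eqv]⟩

lemma IF.const (c : ℝ) : IF a (fun _ _ => c) :=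
  ⟨measurable_const, ⟨|c|, fun _ _ => le_rfl⟩, fun _ _ _ => rfl⟩

lemma IF.mul {f g : Z → V → ℝ} (h : IF a f) (h' : IF a g) :
    IF a (fun z v => f z v * g z v) := by
  obtain ⟨A, hA⟩ := h.bdd; obtain ⟨B, hB⟩ := h'.bdd
  refine ⟨measurable_pi_lambda _ fun v => (meas_at h.meas v).mul (meas_at h'.meas v),
    ⟨A * B, fun z v => ?_⟩, fun φ z v => by rw [h.inv, h'.inv]⟩
  rw [abs_mul]
  exact mul_le_mul (hA z v) (hB z v) (abs_nonneg _) ((abs_nonneg _).trans (hA z v))

lemma IF.add {f g : Z → V → ℝ} (h : IF a f) (h' : IF a g) :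
    IF a (fun z v => f z v + g z v) := by
  obtain ⟨A, hA⟩ := h.bdd; obtain ⟨B, hB⟩ := h'.bdd
  exact ⟨measurable_pi_lambda _ fun v => (meas_at h.meas v).add (meas_at h'.meas v),
    ⟨A + B, fun z v => (abs_add_le _ _).trans (add_le_add (hA z v) (hB z v))⟩,
    fun φ z v => by rw [h.inv, h'.inv]⟩

lemma IF.sub {f g : Z → V → ℝ} (h : IF a f) (h' : IF a g) :
    IF a (fun z v => f z v - g z v) := by
  obtain ⟨A, hA⟩ := h.bdd; obtain ⟨B, hB⟩ := h'.bdd
  exact ⟨measurable_pi_lambda _ fun v => (meas_at h.meas v).sub (meas_at h'.meas v),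
    ⟨A + B, fun z v => (abs_sub _ _).trans (add_le_add (hA z v) (hB z v))⟩,
    fun φ z v => by rw [h.inv, h'.inv]⟩

lemma IF.sq {f : Z → V → ℝ} (h : IF a f) : IF a (fun z v => f z v ^ 2) := by
  simpa only [pow_two] using h.mul h

lemma IF.sum {ι : Type} {s : Finset ι} {f : ι → Z → V → ℝ} (hf : ∀ i ∈ s, IF a (f i)) :
    IF a (fun z v => ∑ i ∈ s, f i z v) := by
  induction s using Finset.induction_on with
  | empty => simpa using IF.const (a := a) 0
  | insert i s hi ih =>
    simp only [Finset.sum_insert hi]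
    exact (hf i (by simp)).add (ih fun j hj => hf j (by simp [hj]))

lemma int_nbr (hs : HasSwaps G) (ha : ∀ φ, MeasurePreserving (a φ) μ μ) {f : Z → V → ℝ}
    (hf : IF a f) {o w : V} (h : G.Adj o w) : ∫ z, f z w ∂μ = ∫ z, f z o ∂μ := by
  obtain ⟨φ, h1, _⟩ := hs o w h
  rw [← int_map (ha φ) (meas_at hf.meas o)]
  simp only [hf.inv, h1]

lemma Pr_nbr (hs : HasSwaps G) (ha : ∀ φ, MeasurePreserving (a φ) μ μ) {E : Z → V → Prop}
    (hE : IP a E) {o w : V} (h : G.Adj o w) : Pr μ (fun z => E z w) = Pr μ (fun z => E z o) := by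
  rw [Pr_eq (hE.at w), Pr_eq (hE.at o)]
  exact int_nbr hs ha hE.ind h

/-- Mass transport along an equivariant matching. -/
lemma int_mtp (hs : HasSwaps G) (ha : ∀ φ, MeasurePreserving (a φ) μ μ) {f : Z → V → ℝ}
    (hf : IF a f) {τ : Z → V → V} (hτ : EI a τ) (o : V) :
    ∫ z, f z (τ z o) ∂μ = ∫ z, f z o ∂μ := by
  let s : Finset V := insert o (G.neighborFinset o)
  have hmem : ∀ z, τ z o ∈ s := fun z => by
    by_cases h : τ z o = o
    · simp [s, h]
    · simp [s, hτ.adj z o h]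
  have hm : ∀ v w, Measurable fun z => τ z v = w := fun v w =>
    meas_eq (meas_at hτ.meas v) measurable_const
  have e1 : ∀ z, f z (τ z o) = ∑ w ∈ s, ind (τ z o = w) * f z w := fun z => by
    rw [Finset.sum_eq_single (τ z o), ind_pos rfl, one_mul]
    · intro w _ hw; rw [ind_neg (Ne.symm hw), zero_mul]
    · intro h; exact absurd (hmem z) h
  have e2 : ∀ z, f z o = ∑ w ∈ s, ind (τ z o = w) * f z o := fun z => by
    rw [Finset.sum_eq_single (τ z o), ind_pos rfl, one_mul]
    · intro w _ hw; rw [ind_neg (Ne.symm hw), zero_mul]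
    · intro h; exact absurd (hmem z) h
  rw [integral_congr_ae (Filter.Eventually.of_forall e1),
    integral_congr_ae (Filter.Eventually.of_forall e2),
    int_sum fun w _ => (BM.ind (hm o w)).mul (hf.bm w),
    int_sum fun w _ => (BM.ind (hm o w)).mul (hf.bm o)]
  refine Finset.sum_congr rfl fun w hw => ?_
  rcases Finset.mem_insert.1 hw with rfl | hw
  · rfl
  · obtain ⟨φ, h1, h2⟩ := hs o w (by simpa using hw)
    rw [← int_map (ha φ) ((BM.ind (hm o w)).mul (hf.bm w)).meas]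
    congr 1; funext z
    rw [hf.inv, h2]
    congr 1
    refine ind_congr ?_
    rw [← φ.injective.eq_iff, hτ.eqv, h1, h2]
    constructor
    · intro h; rw [← h, hτ.inv]
    · intro h; rw [← h, hτ.inv]

lemma int_mtp_walk (hs : HasSwaps G) (ha : ∀ φ, MeasurePreserving (a φ) μ μ) {f : Z → V → ℝ}
    (hf : IF a f) {τ τ' : Z → V → V} (hτ : EI a τ) (hτ' : EI a τ') (n : ℕ) (o : V) :
    ∫ z, f z (walk (τ z) (τ' z) n o) ∂μ = ∫ z, f z o ∂μ := by
  induction n generalizing τ τ' with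
  | zero => rfl
  | succ n ih =>
    rw [← ih hτ' hτ]
    exact int_mtp hs ha (hf.comp (hτ'.toEM.walk hτ.toEM n)) hτ o

lemma int_mtp_back (hs : HasSwaps G) (ha : ∀ φ, MeasurePreserving (a φ) μ μ) {f : Z → V → ℝ}
    (hf : IF a f) {τ τ' : Z → V → V} (hτ : EI a τ) (hτ' : EI a τ') (n : ℕ) (o : V) :
    ∫ z, f z (back (τ z) (τ' z) n o) ∂μ = ∫ z, f z o ∂μ :=
  int_mtp_walk hs ha hf (hτ'.alt hτ n) (hτ.alt hτ' n) n o

lemma Pr_mtp (hs : HasSwaps G) (ha : ∀ φ, MeasurePreserving (a φ) μ μ) {E : Z → V → Prop}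
    (hE : IP a E) {τ : Z → V → V} (hτ : EI a τ) (o : V) :
    Pr μ (fun z => E z (τ z o)) = Pr μ (fun z => E z o) := by
  rw [Pr_eq ((hE.comp hτ.toEM).at o), Pr_eq (hE.at o)]
  exact int_mtp hs ha hE.ind hτ o

lemma Pr_mtp_walk (hs : HasSwaps G) (ha : ∀ φ, MeasurePreserving (a φ) μ μ) {E : Z → V → Prop}
    (hE : IP a E) {τ τ' : Z → V → V} (hτ : EI a τ) (hτ' : EI a τ') (n : ℕ) (o : V) :
    Pr μ (fun z => E z (walk (τ z) (τ' z) n o)) = Pr μ (fun z => E z o) := by
  rw [Pr_eq ((hE.comp (hτ.toEM.walk hτ'.toEM n)).at o), Pr_eq (hE.at o)]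
  exact int_mtp_walk hs ha hE.ind hτ hτ' n o

lemma Pr_mtp_back (hs : HasSwaps G) (ha : ∀ φ, MeasurePreserving (a φ) μ μ) {E : Z → V → Prop}
    (hE : IP a E) {τ τ' : Z → V → V} (hτ : EI a τ) (hτ' : EI a τ') (n : ℕ) (o : V) :
    Pr μ (fun z => E z (back (τ z) (τ' z) n o)) = Pr μ (fun z => E z o) :=
  Pr_mtp_walk hs ha hE (hτ'.alt hτ n) (hτ.alt hτ' n) n o

end mtp

end Pool.Agent.MP_93f6c7_pr.K
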