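import Pool.Agent.MP_93f6c7_pr.K.Flip

/-! Every colouring is close to a local one. -/

set_option autoImplicit false
set_option linter.unusedSectionVars false
set_option linter.unusedVariables false
open MeasureTheory Function Filter Topology
open scoped Classical

namespace Pool.Agent.MP_93f6c7_pr.K

variable {V : Type} [MeasurableSpace V] [DiscreteMeasurableSpace V] [Countable V]
  {G : SimpleGraph V} [G.LocallyFinite] {Δ : ℕ}

namespace LocalX

theorem dist_iso (hG : G.Connected) (φ : G ≃g G) (u v : V) : G.dist (φ u) (φ v) = G.dist u v := by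
  have key : ∀ (ψ : G ≃g G) (u v : V), G.dist (ψ u) (ψ v) ≤ G.dist u v := fun ψ u v => by
    obtain ⟨p, hp⟩ := hG.exists_walk_length_eq_dist u v
    simpa [hp] using SimpleGraph.dist_le (p.map ψ.toHom)
  refine le_antisymm (key φ u v) ?_
  simpa using key φ.symm (φ u) (φ v)

/-- Level zero and the labels within distance `k` of `v`. -/
def TT (G : SimpleGraph V) (k : ℕ) (v : V) : Set (V × ℕ) := {i | i.2 = 0 ∨ G.dist v i.1 ≤ k}

/-- The conditional probability that `v` is joined to `w` in colour `p` exceeds one half. -/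
def Cand (c : FC G Δ) (k : ℕ) (y : Y V) (p : Fin Δ) (v w : V) : Prop :=
  1 / 2 < Pr (nu V) (fun y' => c.σ ((TT G k v).piecewise y y') p v = w)

/-- Both ends choose each other. -/
def Sl (c : FC G Δ) (k : ℕ) (y : Y V) (p : Fin Δ) (v w : V) : Prop :=
  w ≠ v ∧ Cand c k y p v w ∧ Cand c k y p w v

/-- The local colouring. -/
noncomputable def sg (c : FC G Δ) (k : ℕ) (y : Y V) (p : Fin Δ) (v : V) : V :=
  if h : ∃ w, Sl c k y p v w then h.choose else v

variable {c : FC G Δ} {k : ℕ} {y : Y V} {p q : Fin Δ} {v w w' : V}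

theorem meas_ev (c : FC G Δ) (D : Set (V × ℕ)) (p : Fin Δ) (v w : V) :
    Measurable fun z : Y V × Y V => c.σ (D.piecewise z.1 z.2) p v = w :=
  meas_eq (meas_at (meas_at (c.meas.comp (meas_pw D)) p) v) measurable_const

theorem Cand.meet (h : Cand c k y p v w) (h' : Cand c k y q v w') :
    ∃ z, c.σ z p v = w ∧ c.σ z q v = w' := by
  by_contra hn
  have h1 := Pr_not (μ := nu V) ((meas_ev c (TT G k v) p v w).comp (measurable_prodMk_left (x := y)))
  have h2 := Pr_mono (μ := nu V) (E := fun y' => c.σ ((TT G k v).piecewise y y') q v = w')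
    (E' := fun y' => ¬ c.σ ((TT G k v).piecewise y y') p v = w) fun y' a b => hn ⟨_, b, a⟩
  have h3 : Pr (nu V) (fun y' => ¬ c.σ ((TT G k v).piecewise y y') p v = w) =
      1 - Pr (nu V) (fun y' => c.σ ((TT G k v).piecewise y y') p v = w) := h1
  unfold Cand at h h'
  linarith

theorem Cand.unique (h : Cand c k y p v w) (h' : Cand c k y p v w') : w = w' := by
  obtain ⟨z, a, b⟩ := h.meet h'
  exact a.symm.trans b

theorem Sl.adj (h : Sl c k y p v w) : G.Adj v w := by
  obtain ⟨z, a, -⟩ := h.2.1.meet h.2.1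
  exact a ▸ (c.proper z).adj p v (a ▸ h.1)

theorem Sl.symm (h : Sl c k y p v w) : Sl c k y p w v := ⟨h.1.symm, h.2.2, h.2.1⟩

theorem Sl.sg_eq (h : Sl c k y p v w) : sg c k y p v = w := by
  have hex : ∃ w, Sl c k y p v w := ⟨w, h⟩
  rw [sg, dif_pos hex]
  exact hex.choose_spec.2.1.unique h.2.1

theorem sg_cases (c : FC G Δ) (k : ℕ) (y : Y V) (p : Fin Δ) (v : V) :
    Sl c k y p v (sg c k y p v) ∨ (sg c k y p v = v ∧ ∀ w, ¬ Sl c k y p v w) := by
  by_cases h : ∃ w, Sl c k y p v w
  · obtain ⟨w, hw⟩ := h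
    left; rw [hw.sg_eq]; exact hw
  · right; exact ⟨by rw [sg, dif_neg h], fun w hw => h ⟨w, hw⟩⟩

theorem sl_of_ne (h : sg c k y p v ≠ v) : Sl c k y p v (sg c k y p v) :=
  (sg_cases c k y p v).resolve_right fun h' => h h'.1

theorem sg_proper (c : FC G Δ) (k : ℕ) (y : Y V) : Proper G (sg c k y) := by
  refine ⟨fun p v => ?_, fun p v h => (sl_of_ne h).adj, fun p q v hpq h e => ?_⟩
  · rcases sg_cases c k y p v with h | h
    · exact h.symm.sg_eq
    · rw [h.1, h.1]
  · obtain ⟨z, a, b⟩ := (sl_of_ne h).2.1.meet (sl_of_ne (p := q) (e ▸ h)).2.1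
    exact (c.proper z).disj p q v hpq (a ▸ h) (a.trans (e.trans b.symm))

theorem meas_cand (c : FC G Δ) (k : ℕ) (p : Fin Δ) (v w : V) :
    Measurable fun y => Cand c k y p v w :=
  measurableSet_setOfPred.1
    (measurableSet_lt measurable_const (BM.Pr (meas_ev c (TT G k v) p v w) (nu V)).meas)

theorem meas_sl (c : FC G Δ) (k : ℕ) (p : Fin Δ) (v w : V) :
    Measurable fun y => Sl c k y p v w :=
  measurable_const.and ((meas_cand c k p v w).and (meas_cand c k p w v))

theorem meas_sg (c : FC G Δ) (k : ℕ) : Measurable (sg c k) := by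
  refine measurable_pi_lambda _ fun p => measurable_pi_lambda _ fun v =>
    measurable_to_countable' fun w => ?_
  have : (fun y => sg c k y p v) ⁻¹' {w} =
      {y | Sl c k y p v w ∨ (v = w ∧ ∀ w', ¬ Sl c k y p v w')} := by
    ext y
    simp only [Set.mem_preimage, Set.mem_singleton_iff, Set.mem_ofPred_eq]
    constructor
    · rintro rfl
      rcases sg_cases c k y p v with h | h
      · exact Or.inl h
      · exact Or.inr ⟨h.1.symm, h.2⟩
    · rintro (h | ⟨rfl, h⟩)
      · exact h.sg_eq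
      · rcases sg_cases c k y p v with h' | h'
        · exact absurd h' (h _)
        · exact h'.1
  rw [this]
  exact measurableSet_setOfPred.2 ((meas_sl c k p v w).or (measurable_const.and
    (Measurable.forall fun w' => (meas_sl c k p v w').not)))

theorem pw_act (hG : G.Connected) (φ : G ≃g G) (k : ℕ) (v : V) (y y' : Y V) :
    (TT G k v).piecewise (act φ y) (act φ y') = act φ ((TT G k (φ v)).piecewise y y') := by
  funext i
  have e : (φ i.1, i.2) ∈ TT G k (φ v) ↔ i ∈ TT G k v := by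
    change (i.2 = 0 ∨ G.dist (φ v) (φ i.1) ≤ k) ↔ (i.2 = 0 ∨ G.dist v i.1 ≤ k)
    rw [dist_iso hG]
  by_cases h : i ∈ TT G k v
  · rw [Set.piecewise_eq_of_mem _ _ _ h, act, act, Set.piecewise_eq_of_mem _ _ _ (e.2 h)]
  · rw [Set.piecewise_eq_of_notMem _ _ _ h, act, act,
      Set.piecewise_eq_of_notMem _ _ _ fun a => h (e.1 a)]

theorem cand_act (hG : G.Connected) (φ : G ≃g G) :
    Cand c k (act φ y) p v w ↔ Cand c k y p (φ v) (φ w) := by
  have h1 : Pr (nu V) (fun y' => c.σ ((TT G k v).piecewise (act φ y) (act φ y')) p v = w) =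
      Pr (nu V) (fun y' => c.σ ((TT G k v).piecewise (act φ y) y') p v = w) :=
    Pr_map (act_mp φ) (E := fun y' => c.σ ((TT G k v).piecewise (act φ y) y') p v = w)
      ((meas_ev c (TT G k v) p v w).comp (measurable_prodMk_left (x := act φ y)))
  unfold Cand
  rw [← h1, Pr_congr (E' := fun y' => c.σ ((TT G k (φ v)).piecewise y y') p (φ v) = φ w)]
  intro y'
  rw [pw_act hG, ← c.eqv]
  exact φ.injective.eq_iff.symm

theorem sl_act (hG : G.Connected) (φ : G ≃g G) :
    Sl c k (act φ y) p v w ↔ Sl c k y p (φ v) (φ w) := by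
  unfold Sl
  rw [cand_act hG, cand_act hG, φ.injective.ne_iff]

theorem sg_eqv (hG : G.Connected) (φ : G ≃g G) (y : Y V) (p : Fin Δ) (v : V) :
    φ (sg c k (act φ y) p v) = sg c k y p (φ v) := by
  rcases sg_cases c k (act φ y) p v with h | h
  · exact ((sl_act hG φ).1 h).sg_eq.symm
  · rw [h.1]
    rcases sg_cases c k y p (φ v) with h' | h'
    · obtain ⟨w, hw⟩ := φ.surjective (sg c k y p (φ v))
      rw [← hw] at h'
      exact absurd ((sl_act hG φ).2 h') (h.2 w)
    · exact h'.1.symm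

theorem pw_loc (hG : G.Connected) {y' : Y V} (hb : base y = base y')
    (hl : ∀ u n, G.dist v u ≤ k + 1 → y (u, n) = y' (u, n)) (hw : G.dist v w ≤ 1) (z : Y V) :
    (TT G k w).piecewise y z = (TT G k w).piecewise y' z := by
  funext i
  by_cases h : i ∈ TT G k w
  · rw [Set.piecewise_eq_of_mem _ _ _ h, Set.piecewise_eq_of_mem _ _ _ h]
    obtain ⟨u, n⟩ := i
    rcases h with h | h
    · obtain rfl : n = 0 := h
      exact congrFun hb u
    · have h1 : G.dist w u ≤ k := h
      have h2 := hG.dist_triangle (u := v) (v := w) (w := u)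
      exact hl u n (by omega)
  · rw [Set.piecewise_eq_of_notMem _ _ _ h, Set.piecewise_eq_of_notMem _ _ _ h]

theorem Sl.loc (hG : G.Connected) {y' : Y V} (hb : base y = base y')
    (hl : ∀ u n, G.dist v u ≤ k + 1 → y (u, n) = y' (u, n)) (h : Sl c k y p v w) :
    Sl c k y' p v w := by
  have h1 := h.2.1
  have h2 := h.2.2
  unfold Cand at h1 h2
  simp only [pw_loc hG hb hl (w := v) (by simp)] at h1
  simp only [pw_loc hG hb hl (SimpleGraph.dist_eq_one_iff_adj.2 h.adj).le] at h2
  exact ⟨h.1, h1, h2⟩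

end LocalX

open LocalX

variable [E : Env G]

theorem localStmt (h : RT G Δ) (o : V) (hc : ConvStmt G) : LocalStmt G Δ o := by
  intro c ε hε
  have hG := h.tree.connected
  let bad : ℕ → Fin Δ → V → V → Y V → Prop := fun k p v w y => c.σ y p v = w ∧
    Pr (nu V) (fun y' => c.σ ((TT G k v).piecewise y y') p v = w) ≤ 1 / 2
  have h1 : ∀ p v w, Tendsto (fun k => Pr (muE G) (bad k p v w)) atTop (𝓝 0) := fun p v w =>
    hc (fun y => c.σ y p v = w) (meas_eq (meas_at (meas_at c.meas p) v) measurable_const)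
      (fun k => TT G k v) (fun k u => Or.inl rfl)
      fun i => (eventually_ge_atTop (G.dist v i.1)).mono fun k hk => Or.inr hk
  have h2 := tendsto_finsetSum (Finset.univ ×ˢ insert o (G.neighborFinset o))
    fun (i : Fin Δ × V) _ => (h1 i.1 o i.2).add (h1 i.1 i.2 o)
  rw [add_zero, Finset.sum_const_zero] at h2
  obtain ⟨k, hk⟩ := (h2.eventually (gt_mem_nhds hε)).exists
  refine ⟨k + 1, ⟨sg c k, meas_sg c k, sg_proper c k, sg_eqv hG⟩, fun y y' v hb hl p => ?_,
    le_trans ?_ hk.le⟩
  · change sg c k y p v = sg c k y' p v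
    rcases sg_cases c k y p v with a | a
    · exact (a.loc hG hb hl).sg_eq.symm
    · rcases sg_cases c k y' p v with b | b
      · exact absurd (b.loc hG hb.symm fun u n e => (hl u n e).symm) (a.2 _)
      · rw [a.1, b.1]
  · refine (Pr_le_sum (F := fun (i : Fin Δ × V) y => bad k i.1 o i.2 y ∨ bad k i.1 i.2 o y)
      fun y ⟨p, hp⟩ => ?_).trans (Finset.sum_le_sum fun i _ => Pr_or_le fun _ a => a)
    change sg c k y p o ≠ c.σ y p o at hp
    by_cases e : c.σ y p o = o
    · refine ⟨(p, o), by simp, Or.inl ⟨e, le_of_not_gt fun a => ?_⟩⟩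
      rw [e] at hp
      exact hp ((sl_of_ne hp).2.1.unique a)
    · refine ⟨(p, c.σ y p o), by simp [(c.proper y).adj p o e], ?_⟩
      by_contra hn
      rw [not_or] at hn
      refine hp (Sl.sg_eq ⟨e, lt_of_not_ge fun a => hn.1 ⟨rfl, a⟩,
        lt_of_not_ge fun a => hn.2 ⟨(c.proper y).inv p o, a⟩⟩)

end Pool.Agent.MP_93f6c7_pr.K
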