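import Pool.Agent.MP_93f6c7_pr.K.Flip

/-! Replacing the extra labels of a local colouring by a function of the labels of level zero. -/

set_option autoImplicit false
set_option linter.unusedSectionVars false
open MeasureTheory Function Filter
open scoped Classical

namespace Pool.Agent.MP_93f6c7_pr.K

namespace SubstX

/-- The cell of width `1 / k` that contains `s`. -/
noncomputable def lam (k : ℕ) (s : unitInterval) : ℕ := ⌊(k : ℝ) * s⌋₊

lemma meas_lam (k : ℕ) : Measurable (lam k) :=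
  Nat.measurable_floor.comp (measurable_subtype_coe.const_mul _)

lemma lam_ne {a b : unitInterval} (h : a ≠ b) : ∀ᶠ k in atTop, lam k a ≠ lam k b := by
  have h0 : 0 < |(a : ℝ) - b| := abs_pos.2 (sub_ne_zero.2 fun e => h (Subtype.ext e))
  filter_upwards [(tendsto_natCast_atTop_atTop.atTop_mul_const h0).eventually_ge_atTop 1]
    with k hk e
  have a1 := Nat.floor_le (mul_nonneg (Nat.cast_nonneg k) a.2.1 : 0 ≤ (k : ℝ) * a)
  have a2 := Nat.lt_floor_add_one ((k : ℝ) * a)
  have b1 := Nat.floor_le (mul_nonneg (Nat.cast_nonneg k) b.2.1 : 0 ≤ (k : ℝ) * b)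
  have b2 := Nat.lt_floor_add_one ((k : ℝ) * b)
  rw [show ⌊(k : ℝ) * a⌋₊ = ⌊(k : ℝ) * b⌋₊ from e] at a1 a2
  rw [← abs_of_nonneg (Nat.cast_nonneg k : (0 : ℝ) ≤ k), ← abs_mul, mul_sub] at hk
  exact absurd hk (not_le.2 (abs_lt.2 ⟨by linarith, by linarith⟩))

variable {V : Type}

lemma ball_fin {G : SimpleGraph V} [G.LocallyFinite] (hc : G.Connected) (o : V) (R : ℕ) :
    {u | G.dist o u ≤ R}.Finite := by
  induction R with
  | zero =>
    exact (Set.finite_singleton o).subset fun u hu =>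
      (hc.dist_eq_zero_iff.1 (Nat.le_zero.1 hu)).symm
  | succ R ih =>
    refine ((Set.finite_singleton o).union
      (ih.biUnion fun v _ => (G.neighborSet v).toFinite)).subset fun u hu => ?_
    obtain ⟨p, hp⟩ := hc.exists_walk_length_eq_dist u o
    cases p with
    | nil => exact Or.inl rfl
    | cons a q =>
      refine Or.inr (Set.mem_biUnion (?_ : G.dist o _ ≤ R) a.symm)
      have h1 := SimpleGraph.dist_le q
      have h2 : G.dist o u ≤ R + 1 := hu
      rw [SimpleGraph.Walk.length_cons, SimpleGraph.dist_comm] at hp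
      rw [SimpleGraph.dist_comm]
      omega

/-- Level zero is kept, the other labels are read off `ω` at the cell of the label of level zero. -/
noncomputable def sub (k : ℕ) (ω : Y (ℕ ⊕ V)) (y : Y V) : Y V :=
  fun i => if i.2 = 0 then y i else ω (Sum.inl (lam k (y (i.1, 0))), i.2)

lemma meas_sub (k : ℕ) : Measurable fun z : Y V × Y (ℕ ⊕ V) => sub k z.2 z.1 := by
  refine measurable_pi_lambda _ fun i => ?_
  by_cases h : i.2 = 0 <;> simp only [sub, h, if_true, if_false]
  · fun_prop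
  · exact meas_app (f := fun (z : Y V × Y (ℕ ⊕ V)) n => z.2 (Sum.inl n, i.2)) (by fun_prop)
      ((meas_lam k).comp (by fun_prop))

lemma base_sub (k : ℕ) (ω : Y (ℕ ⊕ V)) (y : Y V) : base (sub k ω y) = base y := by
  funext v; simp [base, sub]

lemma sub_congr (k : ℕ) (ω : Y (ℕ ⊕ V)) {y y' : Y V} (h : base y = base y') :
    sub k ω y = sub k ω y' := by
  funext ⟨v, n⟩
  have e : y (v, 0) = y' (v, 0) := congrFun h v
  by_cases hn : n = 0 <;> simp [sub, hn, e]

/-- Two vertices of `B` have labels in the same cell. -/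
def Bad (B : Set V) (k : ℕ) (y : Y V) : Prop :=
  ∃ u v, (u ∈ B ∧ v ∈ B ∧ u ≠ v) ∧ lam k (y (u, 0)) = lam k (y (v, 0))

lemma meas_Bad [Countable V] (B : Set V) (k : ℕ) : Measurable (Bad B k) :=
  Measurable.exists fun _ => Measurable.exists fun _ => measurable_const.and
    (meas_eq ((meas_lam k).comp (measurable_pi_apply _))
      ((meas_lam k).comp (measurable_pi_apply _)))

lemma bad_lim [Countable V] {G : SimpleGraph V} [E : Env G] {B : Set V} (hB : B.Finite)
    (hinj : ∀ u v : V, u ≠ v → ∀ᵐ x ∂E.ν, x u ≠ x v) :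
    Tendsto (fun k => ∫ y, ind (Bad B k y) ∂(muE G)) atTop (nhds 0) := by
  have h1 : ∀ᵐ x ∂E.ν, ∀ u v, u ≠ v → x u ≠ x v :=
    ae_all_iff.2 fun u => ae_all_iff.2 fun v => by
      by_cases e : u = v
      · exact Eventually.of_forall fun _ h => absurd e h
      · exact (hinj u v e).mono fun _ h _ => h
  have := tendsto_integral_of_dominated_convergence (μ := muE G) (f := fun _ => (0 : ℝ))
    (F := fun k y => ind (Bad B k y)) (fun _ => 1)
    (fun k => (meas_ind (meas_Bad B k)).aestronglyMeasurable) (integrable_const _)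
    (fun k => Eventually.of_forall fun y => abs_ind_le _)
    ((base_mp.quasiMeasurePreserving.ae h1).mono fun y hy => by
      refine tendsto_const_nhds.congr' ?_
      have : ∀ᶠ k in atTop, ∀ u ∈ B, ∀ v ∈ B, u ≠ v → lam k (y (u, 0)) ≠ lam k (y (v, 0)) :=
        (eventually_all_finite hB).2 fun u _ => (eventually_all_finite hB).2 fun v _ => by
          by_cases e : u = v
          · exact Eventually.of_forall fun _ h => absurd e h
          · exact (lam_ne (hy u v e)).mono fun _ h _ => h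
      exact this.mono fun k hk => (ind_neg fun ⟨u, v, a, b⟩ => hk u a.1 v a.2.1 a.2.2 b).symm)
  simpa using this

/-- The indices of level zero. -/
def L0 (V : Type) : Set (V × ℕ) := {i | i.2 = 0}

lemma good {B : Set V} {k : ℕ} {y : Y V} (hy : ¬ Bad B k y) {F : Y V → ℝ} (hF : Measurable F)
    (hL : ∀ z z' : Y V, base z = base z' → (∀ u ∈ B, ∀ n, z (u, n) = z' (u, n)) → F z = F z') :
    ∫ ω, F (sub k ω y) ∂(nu (ℕ ⊕ V)) =
      ∫ y', F ((L0 V).piecewise y y') ∂(nu V) := by
  let ι : V × ℕ → (ℕ ⊕ V) × ℕ := fun i =>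
    (if i.1 ∈ B then Sum.inl (lam k (y (i.1, 0))) else Sum.inr i.1, i.2)
  have hι : Injective ι := fun a b e => by
    obtain ⟨e1, e2⟩ := Prod.mk.inj e
    refine Prod.ext ?_ e2
    by_cases ha : a.1 ∈ B <;> by_cases hb : b.1 ∈ B <;>
      simp only [ha, hb, if_true, if_false, Sum.inl.injEq, Sum.inr.injEq, reduceCtorEq] at e1
    · exact not_not.1 fun n => hy ⟨_, _, ⟨ha, hb, n⟩, e1⟩
    · exact e1
  have mp : MeasurePreserving (fun (ω : Y (ℕ ⊕ V)) (i : V × ℕ) => ω (ι i)) (nu _) (nu V) :=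
    ⟨by fun_prop, Measure.map_infinitePi_infinitePi_of_inj hι⟩
  rw [← int_map mp (f := fun y' => F ((L0 V).piecewise y y'))
    (hF.comp ((meas_pw _).comp measurable_prodMk_left))]
  refine integral_congr_ae (Eventually.of_forall fun ω => hL _ _ ?_ fun u hu n => ?_)
  · funext v
    simp [base, sub, L0]
  · by_cases hn : n = 0 <;> simp [sub, hn, ι, hu, L0]

end SubstX

open SubstX

variable {V : Type} [MeasurableSpace V] [DiscreteMeasurableSpace V] [Countable V]
  {G : SimpleGraph V} [G.LocallyFinite] {Δ : ℕ} [E : Env G]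

theorem substStmt (h : RT G Δ) (o : V) (hinj : ∀ u v : V, u ≠ v → ∀ᵐ x ∂E.ν, x u ≠ x v) :
    SubstStmt G Δ o := by
  intro c c' R hc hc' t ε ht hε
  have bm : ∀ d : FC G Δ, BM (fun y => holes (d.σ y) o) ∧
      BM fun y => t * ind (∃ p, d.σ y p o ≠ c.σ y p o) := fun d =>
    ⟨(IF.holes d.ec).bm o, (BM.const t).mul (BM.ind ((IP.changed c.ec d.ec).at o))⟩
  have val : ∀ d : FC G Δ, d.hol o + t * c.chg d o =
      ∫ y, holes (d.σ y) o + t * ind (∃ p, d.σ y p o ≠ c.σ y p o) ∂(muE G) := fun d => by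
    rw [int_add (bm d).1 (bm d).2, integral_const_mul, d.hol_eq, FC.chg,
      Pr_eq ((IP.changed c.ec d.ec).at o)]
  obtain ⟨F, hFd⟩ : ∃ F : Y V → ℝ, F = fun y =>
    holes (c'.σ y) o + t * ind (∃ p, c'.σ y p o ≠ c.σ y p o) := ⟨_, rfl⟩
  have hF : BM F := hFd ▸ (bm c').1.add (bm c').2
  have F0 : ∀ y, 0 ≤ F y := fun y =>
    hFd ▸ add_nonneg (holes_nonneg _ _) (mul_nonneg ht (ind_nonneg _))
  obtain ⟨M, hM⟩ := hF.bdd
  have hL : ∀ z z' : Y V, base z = base z' →
      (∀ u ∈ {u | G.dist o u ≤ R}, ∀ n, z (u, n) = z' (u, n)) → F z = F z' := fun z z' a b => by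
    simp only [hFd, holes, hc' z z' o a fun u n hu => b u hu n, hc z z' a]
  obtain ⟨k, hk⟩ := (((bad_lim (ball_fin h.tree.connected o R) hinj).const_mul M).eventually
    (gt_mem_nhds (by simpa using hε))).exists
  have hΦ : BM fun z : Y V × Y (ℕ ⊕ V) => F (sub k z.2 z.1) := hF.comp (meas_sub k)
  have hΨ : BM fun z : Y V × Y V => F ((L0 V).piecewise z.1 z.2) :=
    hF.comp (meas_pw _)
  have hb := (BM.const M).mul (BM.ind (meas_Bad {u | G.dist o u ≤ R} k))
  have key : ∫ z, F (sub k z.2 z.1) ∂((muE G).prod (nu (ℕ ⊕ V))) ≤ ∫ y, F y ∂(muE G) + ε := by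
    rw [int_prod hΦ, ← int_map (pwE_mp (L0 V) fun _ => rfl) hF.meas, int_prod hΨ]
    refine (int_mono (hΦ.integral _) ((hΨ.integral (nu V)).add hb) fun y => ?_).trans ?_
    · by_cases hy : Bad {u | G.dist o u ≤ R} k y
      · rw [ind_pos hy, mul_one]
        refine le_add_of_nonneg_of_le (integral_nonneg fun _ => F0 _) ?_
        exact (int_mono (hΦ.left y) (BM.const M) fun _ => (le_abs_self _).trans (hM _)).trans_eq
          (int_const M)
      · rw [ind_neg hy, mul_zero, add_zero]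
        exact (good hy hF.meas hL).le
    · rw [int_add (hΨ.integral (nu V)) hb, integral_const_mul]
      exact add_le_add le_rfl hk.le
  rw [integral_prod_symm _ hΦ.integrable] at key
  obtain ⟨ω, hω⟩ := exists_le_integral
    (hΦ.integrable (μ := (muE G).prod (nu (ℕ ⊕ V)))).integral_prod_right
  let d : FC G Δ :=
    { σ := fun y => c'.σ (sub k ω y)
      meas := c'.meas.comp ((meas_sub k).comp measurable_prodMk_right)
      proper := fun _ => c'.proper _
      eqv := fun φ y p v => c'.eqv φ (sub k ω y) p v }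
  refine ⟨d, fun y y' e => congrArg c'.σ (sub_congr k ω e), ?_⟩
  rw [val, val, ← hFd]
  refine le_trans (le_of_eq ?_) (hω.trans key)
  refine integral_congr_ae (Eventually.of_forall fun y => ?_)
  simp only [hFd, hc _ _ (base_sub k ω y)]
  rfl

end Pool.Agent.MP_93f6c7_pr.K
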