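import Pool.Agent.MP_93f6c7_pr.K.RunS
import Pool.Agent.MP_93f6c7_pr.K.L2S
import Pool.Agent.MP_93f6c7_pr.K.FlipProb
import Pool.Agent.MP_93f6c7_pr.K.ImproveS
import Pool.Agent.MP_93f6c7_pr.K.Swap
import Pool.Agent.MP_93f6c7_pr.K.GapES
import Pool.Agent.MP_93f6c7_pr.K.Conv
import Pool.Agent.MP_93f6c7_pr.K.Local
import Pool.Agent.MP_93f6c7_pr.K.Subst
import Pool.Agent.MP_93f6c7_pr.K.BaseImp
import Pool.Agent.MP_93f6c7_pr.K.FinalE
import Pool.Agent.MP_93f6c7_pr.K.Dich1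
import Pool.Agent.MP_93f6c7_pr.K.Dich2
import Pool.Agent.MP_93f6c7_pr.K.Dich3
import Pool.Agent.MP_93f6c7_pr.K.Dich4

/-! Assembly: an environment with a one-sided spectral gap has a measurable proper edge
colouring. -/

set_option autoImplicit false
open MeasureTheory

namespace Pool.Agent.MP_93f6c7_pr.K

theorem mainS {V : Type} [MeasurableSpace V] [DiscreteMeasurableSpace V] [Countable V]
    {G : SimpleGraph V} [G.LocallyFinite] {Δ : ℕ} [E : Env G] (h : RT G Δ) (o : V)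
    (hinj : ∀ u v : V, u ≠ v → ∀ᵐ x ∂E.ν, x u ≠ x v) {ρ : ℝ} (hρ : ρ < Δ)
    (h1 : OneGap G o ρ) :
    ∃ F : (V → unitInterval) → (Sym2 V → Fin Δ), Measurable F ∧
      (∀ (φ : G ≃g G) (x : V → unitInterval) (e : Sym2 V),
        F (fun i : V => x (φ i)) e = F x (Sym2.map φ e)) ∧
      ∀ᵐ x ∂E.ν, ∀ u v w : V, G.Adj u v → G.Adj u w → v ≠ w → F x s(u, v) ≠ F x s(u, w) := by
  have hs := hasSwaps h
  obtain ⟨S, ρ', h0, h2, hb⟩ : ∃ (S : Sides G) (ρ' : ℝ), 0 ≤ ρ' ∧ ρ' < Δ ∧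
      BaseGapS G (S := S) o ρ' := by
    by_cases hl : LowGap G o
    · exact sides_of_low h hs o hρ h1 hl
    · exact sides_of_bip h hs o hρ h1 (exactBip h hs o hρ h1 (approxBip h hs o hρ h1 hl))
  obtain ⟨Γ, hΓ, hgap⟩ := hasGapES h hs o h0 h2 hb
  exact finalE h hs o (baseImprove o
    (improve_of_runS h hs o (runStmtS h hs o hΓ (flipStmt h hs o) (l2StmtS h hs o hΓ hgap)))
    (localStmt h o convStmt) (substStmt h o hinj))

end Pool.Agent.MP_93f6c7_pr.K
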