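import Pool.Agent.MP_93f6c7_pr.K.Match

/-! Definitions for the main probabilistic lemma: random flips and the killed chain. -/

set_option autoImplicit false
set_option linter.unusedSectionVars false
set_option linter.unusedVariables false
open MeasureTheory Function
open scoped Classical

namespace Pool.Agent.MP_93f6c7_pr.K

variable {V : Type} {G : SimpleGraph V} {Δ : ℕ}

/-- Marked vertices: probability `θ` in general, `q` at the ends of alternating paths. -/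
def Mk (f g : V → V) (θ q : ℝ) (k : ℕ) (y : Y V) (u : V) : Prop :=
  (y (u, k) : ℝ) < θ ∨ ((f u = u ∨ g u = u) ∧ (y (u, k) : ℝ) < q)

/-- The random set in which two colours are exchanged. -/
def RF (f g : V → V) (θ q : ℝ) (R k : ℕ) (y : Y V) : V → Prop := Ball f g R (Mk f g θ q k y)

/-- Successive random exchanges of the colour `γ` with the colours of a list. -/
noncomputable def seqF (γ : Fin Δ) (θ q : ℝ) (R : ℕ) (y : Y V) :
    List (Fin Δ) → (Fin Δ → V → V) → (Fin Δ → V → V)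
  | [], σ => σ
  | x :: l, σ => seqF γ θ q R y l (flipC (RF (σ γ) (σ x) θ q R (3 + x.val) y) γ x σ)

/-- The alternating path traced backwards from `z` (first a `C` step) survives `t` rounds and
ends at an active vertex. -/
def Arr (A C : V → V) (Wn Act : V → Prop) : ℕ → V → Prop
  | 0, z => C z ≠ z ∧ Act (C z)
  | t + 1, z => C z ≠ z ∧ A (C z) ≠ C z ∧ ¬ Wn (A (C z)) ∧ Arr A C Wn Act t (A (C z))

/-- Conditional expected number of arrivals at a vertex. -/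
noncomputable def occ (A C : Y V × Y V → V → V) (Wn Act : Y V × Y V → V → Prop) (m : ℕ)
    (x : Y V) (v : V) : ℝ :=
  ∑ t ∈ Finset.range m,
    Pr (nu V) (fun y => Arr (A (x, y)) (C (x, y)) (Wn (x, y)) (Act (x, y)) t v)

variable [MeasurableSpace V] [DiscreteMeasurableSpace V] [Countable V] [G.LocallyFinite]

/-- The independence structure that makes the alternating path a Markov chain. -/
structure Markov (G : SimpleGraph V) (A C : Y V × Y V → V → V) (Wn Act : Y V × Y V → V → Prop)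
    (ΩA ΩB : Y V → V → Set (V × ℕ)) : Prop where
  eiA : EI (G := G) act2 A
  eiC : EI (G := G) act2 C
  ipW : IP (G := G) act2 Wn
  ipAct : IP (G := G) act2 Act
  disj : ∀ x v, Disjoint (ΩA x v) (ΩB x v)
  depC : ∀ x v, DependsOn (fun y => C (x, y) v) (ΩB x v)
  depA : ∀ x v, DependsOn (fun y => A (x, y) v) (ΩA x v)
  depW : ∀ x v, DependsOn (fun y => Wn (x, y) v) (ΩA x v)
  depW' : ∀ x v, DependsOn (fun y => Wn (x, y) (A (x, y) v)) (ΩA x v)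
  depAct : ∀ x v, DependsOn (fun y => Act (x, y) v) (ΩA x v)
  nestC : ∀ x y v, C (x, y) v ≠ v → ΩA x (C (x, y) v) ⊆ ΩB x v
  nestA : ∀ x y v, A (x, y) v ≠ v → ΩB x (A (x, y) v) ⊆ ΩA x v

section
variable {Z : Type} [MeasurableSpace Z] {T : (G ≃g G) → Z → Z}

lemma IP.arr {A C : Z → V → V} {Wn Act : Z → V → Prop} (hA : EM T A) (hC : EM T C)
    (hW : IP T Wn) (hAct : IP T Act) (t : ℕ) :
    IP T (fun z => Arr (A z) (C z) (Wn z) (Act z) t) := by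
  induction t with
  | zero => exact (IP.fix hC).not.and (hAct.comp hC)
  | succ t ih =>
    exact (IP.fix hC).not.and (((IP.fix hA).not.comp hC).and
      ((hW.comp (hA.comp hC)).not.and (ih.comp (hA.comp hC))))

lemma IP.rf {f g : Z → V → V} (hf : EM T f) (hg : EM T g) {y : Z → Y V} (hy : Measurable y)
    (he : ∀ φ z, y (T φ z) = act φ (y z)) (θ q : ℝ) (R k : ℕ) :
    IP T (fun z => RF (f z) (g z) θ q R k (y z)) :=
  IP.ball (((IP.lab k θ).pull hy he).or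
    (((IP.fix hf).or (IP.fix hg)).and ((IP.lab k q).pull hy he))) hf hg R

lemma EC.seqF {γ : Fin Δ} {s : Z → Fin Δ → V → V} (h : EC T s) {y : Z → Y V} (hy : Measurable y)
    (he : ∀ φ z, y (T φ z) = act φ (y z)) (θ q : ℝ) (R : ℕ) {l : List (Fin Δ)} (hl : γ ∉ l) :
    EC T (fun z => seqF γ θ q R (y z) l (s z)) := by
  induction l generalizing s with
  | nil => exact h
  | cons x l ih =>
    simp only [List.mem_cons, not_or] at hl
    exact ih (h.flipC hl.1 (IP.rf (h.em γ) (h.em x) hy he θ q R _)) hl.2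

end

lemma Loc.rf {f g : V → V} {D : Set V} {f' g' : V → V} (hf : Loc id D f' f) (hg : Loc id D g' g)
    {θ q : ℝ} {k : ℕ} {y y' : Y V} (hy : ∀ v ∈ D, y' (v, k) = y (v, k)) (R : ℕ) {v : V}
    (hv : v ∈ D) : RF f' g' θ q R k y' v ↔ RF f g θ q R k y v :=
  Loc.ball injective_id hf hg (fun u hu => by
    unfold Mk
    rw [hf.fix_iff injective_id hu, hg.fix_iff injective_id hu, hy u hu]
    rfl) R hv

variable {A C : Y V × Y V → V → V} {Wn Act : Y V × Y V → V → Prop}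
  {ΩA ΩB : Y V → V → Set (V × ℕ)}

lemma Markov.ip_arr (M : Markov G A C Wn Act ΩA ΩB) (t : ℕ) :
    IP (G := G) act2 (fun z => Arr (A z) (C z) (Wn z) (Act z) t) :=
  IP.arr M.eiA.toEM M.eiC.toEM M.ipW M.ipAct t

lemma Markov.arr_dep (M : Markov G A C Wn Act ΩA ΩB) (x : Y V) (t : ℕ) (v : V) :
    DependsOn (fun y => Arr (A (x, y)) (C (x, y)) (Wn (x, y)) (Act (x, y)) t v) (ΩB x v) := by
  induction t generalizing v with
  | zero =>
    refine dep_of_imp fun y y' hh h => ?_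
    have e : C (x, y) v = C (x, y') v := M.depC x v hh
    refine ⟨e ▸ h.1, ?_⟩
    have e2 : Act (x, y) (C (x, y) v) = Act (x, y') (C (x, y) v) :=
      M.depAct x _ fun i hi => hh i (M.nestC x y v h.1 hi)
    rw [← e, ← e2]; exact h.2
  | succ t ih =>
    refine dep_of_imp fun y y' hh h => ?_
    obtain ⟨h1, h2, h3, h4⟩ := h
    have e : C (x, y) v = C (x, y') v := M.depC x v hh
    have hA : ∀ i ∈ ΩA x (C (x, y) v), y i = y' i := fun i hi => hh i (M.nestC x y v h1 hi)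
    have e2 : A (x, y) (C (x, y) v) = A (x, y') (C (x, y) v) := M.depA x _ hA
    have e3 : Wn (x, y) (A (x, y) (C (x, y) v)) = Wn (x, y') (A (x, y') (C (x, y) v)) :=
      M.depW' x _ hA
    have e4 := ih (A (x, y) (C (x, y) v)) fun i hi => hA i (M.nestA x y _ h2 hi)
    refine ⟨e ▸ h1, ?_, ?_, ?_⟩
    · rw [← e, ← e2]; exact h2
    · rw [← e, ← e3]; exact h3
    · rw [← e, ← e2]; exact e4.mp h4

/-- Statement of the `L²` estimates for the occupation density of the killed chain. -/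
def L2Stmt (G : SimpleGraph V) [G.LocallyFinite] [Env G] (Δ : ℕ) (o : V) (Γ : ℝ) : Prop :=
  ∀ (σ : Y V → Fin Δ → V → V) (A C : Y V × Y V → V → V) (Wn Act : Y V × Y V → V → Prop)
    (ΩA ΩB : Y V → V → Set (V × ℕ)), EC (G := G) act σ → Markov G A C Wn Act ΩA ΩB →
    ∀ (a b γ : Fin Δ), γ ≠ a → γ ≠ b → ∀ q : ℝ, 0 < q →
    (∀ x p, p = a ∨ p = b → q ≤ Pr (nu V) (fun y => A (x, y) o = σ x p o ∧
      (σ x p o ≠ o → ¬ Wn (x, y) (σ x p o)))) →
    (∀ x p, p ≠ a → p ≠ b → q ≤ Pr (nu V) (fun y => C (x, y) o = σ x p o)) →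
    ∀ ps : ℝ, (∀ x v, Pr (nu V) (fun y => Act (x, y) v) ≤ ps) → ∀ (m : ℕ) (f hb s2 g0 : ℝ),
    f = Pr ((muE G).prod (nu V)) (fun z => Act z o) →
    hb = ∫ x, occ A C Wn Act m x o ∂(muE G) →
    s2 = ∫ x, (occ A C Wn Act m x o - hb) ^ 2 ∂(muE G) →
    g0 = q ^ 2 / (200 * Γ ^ 2) →
    g0 * s2 ≤ 2 * hb * f + ps * f / g0 ∧
    ∫ x, occ A C Wn Act m x o * Pr (nu V) (fun y => Wn (x, y) o) ∂(muE G) ≤ f ∧
    (m : ℝ) * Pr ((muE G).prod (nu V)) (fun z => Arr (A z) (C z) (Wn z) (Act z) m o) ≤ hb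

lemma IF.Pr {E : Y V × Y V → V → Prop} (h : IP (G := G) act2 E) :
    IF (G := G) act (fun x v => Pr (nu V) (fun y => E (x, y) v)) := by
  refine ⟨measurable_pi_lambda _ fun v => (BM.Pr (h.at v) (nu V)).meas,
    ⟨1, fun x v => ?_⟩, fun φ x v => ?_⟩
  · rw [abs_of_nonneg (Pr_nonneg _)]; exact Pr_le_one _
  · rw [← Pr_map (act_mp φ) (E := fun y => E (act φ x, y) v)
      ((h.at v).comp measurable_prodMk_left)]
    exact Pr_congr fun y => h.inv φ (x, y) v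

lemma Markov.if_occ (M : Markov G A C Wn Act ΩA ΩB) (m : ℕ) :
    IF (G := G) act (occ A C Wn Act m) :=
  IF.sum fun t _ => IF.Pr (M.ip_arr t)

lemma occ_nonneg (m : ℕ) (x : Y V) (v : V) : 0 ≤ occ A C Wn Act m x v :=
  Finset.sum_nonneg fun _ _ => Pr_nonneg _

/-- Statement of the estimates on random flips. -/
structure FlipStmt (G : SimpleGraph V) [Env G] (Δ : ℕ) (o : V) : Prop where
  rf_le : ∀ (f g : V → V), Pair G f g → ∀ θ q : ℝ, 0 ≤ θ → θ ≤ 1 → 0 ≤ q → q ≤ 1 →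
    ∀ (R k : ℕ) (v : V), Pr (nu V) (fun y => RF f g θ q R k y v) ≤ 2 * (R + 1) * θ + 3 * q
  rf_ge : ∀ (f g : V → V), Pair G f g → ∀ θ q : ℝ, 0 ≤ θ → q ≤ 1 → ∀ R : ℕ, 1 ≤ R → θ * R = q →
    ∀ (k : ℕ) (v : V), q / 2 ≤ Pr (nu V) (fun y => RF f g θ q R k y v ∧ RF f g θ q R k y (f v)) ∧
      q / 2 ≤ Pr (nu V) (fun y => RF f g θ q R k y v ∧ RF f g θ q R k y (g v))
  rf_bd : ∀ c : FC G Δ, ∀ a b : Fin Δ, a ≠ b → ∀ θ q : ℝ, 0 ≤ θ → θ ≤ 1 → 0 ≤ q → q ≤ 1 →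
    ∀ (R k : ℕ) (p : Fin Δ), p = a ∨ p = b →
    Pr ((muE G).prod (nu V))
      (fun z => Bd (RF (c.σ z.1 a) (c.σ z.1 b) θ q R k z.2) (c.σ z.1 p) o) ≤
      2 * θ + 2 * q * c.hol o
  seq_unc : ∀ (γ : Fin Δ) (θ q : ℝ) (R : ℕ) (y : Y V) (l : List (Fin Δ)) (σ : Fin Δ → V → V),
    γ ∉ l → ∀ v w, Unc G σ v w → Unc G (seqF γ θ q R y l σ) v w
  seq_other : ∀ (γ : Fin Δ) (θ q : ℝ) (R : ℕ) (y : Y V) (l : List (Fin Δ)) (σ : Fin Δ → V → V)
    (p : Fin Δ), p ≠ γ → p ∉ l → seqF γ θ q R y l σ p = σ p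
  seq_cases : ∀ (γ : Fin Δ) (θ q : ℝ) (R : ℕ) (y : Y V) (l : List (Fin Δ)) (σ : Fin Δ → V → V),
    γ ∉ l → ∀ v, seqF γ θ q R y l σ γ v = v ∨ ∃ p ∈ γ :: l, seqF γ θ q R y l σ γ v = σ p v
  seq_loc : ∀ (γ : Fin Δ) (θ q : ℝ) (R : ℕ) (y y' : Y V) (l : List (Fin Δ))
    (σ σ' : Fin Δ → V → V) (D : Set V), γ ∉ l → (∀ p ∈ γ :: l, Loc id D (σ' p) (σ p)) →
    (∀ v ∈ D, ∀ k, 3 ≤ k → y' (v, k) = y (v, k)) →
    ∀ p ∈ γ :: l, Loc id D (seqF γ θ q R y' l σ' p) (seqF γ θ q R y l σ p)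
  seq_change : ∀ (γ : Fin Δ) (θ q : ℝ), 0 ≤ θ → q ≤ 1 → ∀ R : ℕ, 1 ≤ R → θ * R = q →
    ∀ (l : List (Fin Δ)), γ ∉ l → l.Nodup → ∀ σ : Fin Δ → V → V, Proper G σ → ∀ v,
    Pr (nu V) (fun y => ∃ p, seqF γ θ q R y l σ p v ≠ σ p v) ≤ 21 * q * l.length
  seq_ge : ∀ (γ : Fin Δ) (θ q : ℝ), 0 ≤ θ → q ≤ 1 → ∀ R : ℕ, 1 ≤ R → θ * R = q →
    ∀ (l : List (Fin Δ)), γ ∉ l → l.Nodup → 42 * q * l.length ≤ 1 →
    ∀ σ : Fin Δ → V → V, Proper G σ → ∀ v, ∀ p ∈ γ :: l,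
    q / 4 ≤ Pr (nu V) (fun y => seqF γ θ q R y l σ γ v = σ p v)
  seq_holes : ∀ c : FC G Δ, ∀ (γ : Fin Δ) (θ q e : ℝ), 0 ≤ θ → 0 ≤ q → q ≤ 1 → θ ≤ q * e →
    θ ≤ 1 → c.hol o ≤ e → ∀ (R : ℕ) (l : List (Fin Δ)), γ ∉ l → l.Nodup →
    8 * q * l.length ≤ 1 →
    ∫ z, holes (seqF γ θ q R z.2 l (c.σ z.1)) o ∂((muE G).prod (nu V)) ≤
      c.hol o + 16 * q * l.length * e

end Pool.Agent.MP_93f6c7_pr.K
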