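import Pool.Agent.MP_93f6c7_pr.K.RunDefs

/-! Shifting uncoloured edges along long alternating paths: deterministic part. -/

set_option autoImplicit false
set_option linter.unusedSectionVars false
set_option linter.unusedVariables false
open MeasureTheory Function
open scoped Classical

namespace Pool.Agent.MP_93f6c7_pr.K

variable {V : Type} {G : SimpleGraph V} {Δ : ℕ}

/-- Sources: `v` misses `b`, starts a long `a b` path and is matched to a vertex missing `a`. -/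
def Src (σ : Fin Δ → V → V) (a b : Fin Δ) (L : ℕ) (mu : V → V) (v : V) : Prop :=
  mu v ≠ v ∧ σ b v = v ∧ σ a (mu v) = mu v ∧ Free (σ a) (σ b) (2 * L + 1) v

/-- The initial segments of the live tracks. -/
def PP (f g : V → V) (L : ℕ) (Lv : V → Prop) (κ : V → ℕ) (z : V) : Prop :=
  ∃ j, j ≤ L ∧ Lv (back f g j z) ∧ j < κ (back f g j z)

/-- The matching restricted to live sources. -/
noncomputable def muL (mu : V → V) (Lv : V → Prop) (v : V) : V :=
  if Lv v ∨ Lv (mu v) then mu v else v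

/-- Exchange `a` and `b` on `F` and shift the live sources to the positions `κ`. -/
noncomputable def shiftC (a b : Fin Δ) (L : ℕ) (mu : V → V) (Lv F : V → Prop) (κ : V → ℕ)
    (σ τ : Fin Δ → V → V) : Fin Δ → V → V :=
  colourC a (muL mu Lv) (flipC (fun z => F z ∨ PP (σ a) (σ b) L Lv κ z) a b τ)

/-- Hypotheses under which the shift is well behaved. -/
structure ShiftOK (G : SimpleGraph V) (σ : Fin Δ → V → V) (a b : Fin Δ) (L : ℕ) (mu : V → V)
    (Lv F : V → Prop) : Prop where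
  proper : Proper G σ
  ab : a ≠ b
  inv : Involutive mu
  unc : ∀ v, mu v ≠ v → Unc G σ v (mu v)
  src : ∀ v, Lv v → Src σ a b L mu v
  nF : ∀ v, Lv v → ∀ j, j ≤ L → ¬ F (walk (σ a) (σ b) j v)
  nF' : ∀ v, Lv v → ¬ F (mu v)

/-- `τ` is a proper colouring with the same colour classes `a`, `b` and no new coloured edges. -/
structure Compat (G : SimpleGraph V) (σ τ : Fin Δ → V → V) (a b : Fin Δ) : Prop where
  proper : Proper G τ
  ea : τ a = σ a
  eb : τ b = σ b
  unc : ∀ v w, Unc G σ v w → Unc G τ v w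

variable {σ τ : Fin Δ → V → V} {a b α p : Fin Δ} {L : ℕ} {mu : V → V} {Lv F : V → Prop}
  {κ κ' : V → ℕ} {v z : V} {j : ℕ}

lemma Compat.refl (h : Proper G σ) : Compat G σ σ a b := ⟨h, rfl, rfl, fun _ _ h => h⟩

lemma src_unique (hσ : Proper G σ) {v' : V} {j' : ℕ} (hv : Src σ a b L mu v)
    (hv' : Src σ a b L mu v') (hj : j ≤ L) (hj' : j' ≤ L)
    (he : walk (σ a) (σ b) j v = walk (σ a) (σ b) j' v') : v = v' ∧ j = j' :=
  track_unique (hσ.inv a) (hσ.inv b) hv.2.1 hv'.2.1 hv.2.2.2 hv'.2.2.2 hj hj' he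

lemma src_back_unique (hσ : Proper G σ) {j' : ℕ} (hv : Src σ a b L mu (back (σ a) (σ b) j z))
    (hv' : Src σ a b L mu (back (σ a) (σ b) j' z)) (hj : j ≤ L) (hj' : j' ≤ L) : j = j' :=
  (src_unique hσ hv hv' hj hj' (by rw [walk_back (hσ.inv a) (hσ.inv b),
    walk_back (hσ.inv a) (hσ.inv b)])).2

lemma Src.ne_a (hv : Src σ a b L mu v) : σ a v ≠ v := hv.2.2.2.1

lemma ShiftOK.pp_iff (h : ShiftOK G σ a b L mu Lv F) (hv : Lv v) (hj : j ≤ L) :
    PP (σ a) (σ b) L Lv κ (walk (σ a) (σ b) j v) ↔ j < κ v := by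
  constructor
  · rintro ⟨j', h1, h2, h3⟩
    obtain ⟨e1, e2⟩ := src_unique h.proper (h.src _ hv) (h.src _ h2) hj h1
      (by rw [walk_back (h.proper.inv a) (h.proper.inv b)])
    rw [← e1, ← e2] at h3
    exact h3
  · intro hlt
    exact ⟨j, hj, by rwa [back_walk (h.proper.inv a) (h.proper.inv b)],
      by rwa [back_walk (h.proper.inv a) (h.proper.inv b)]⟩

lemma ShiftOK.pp_elim (h : ShiftOK G σ a b L mu Lv F) (hz : PP (σ a) (σ b) L Lv κ z) :
    ∃ v j, Lv v ∧ j ≤ L ∧ j < κ v ∧ z = walk (σ a) (σ b) j v := by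
  obtain ⟨j, h1, h2, h3⟩ := hz
  exact ⟨_, j, h2, h1, h3, (walk_back (h.proper.inv a) (h.proper.inv b) _ _).symm⟩

lemma src_interior (hσ : Proper G σ) (hv : Src σ a b L mu v) (hj : j ≤ L) (h1 : 1 ≤ j) :
    σ a (walk (σ a) (σ b) j v) ≠ walk (σ a) (σ b) j v ∧
      σ b (walk (σ a) (σ b) j v) ≠ walk (σ a) (σ b) j v :=
  (hv.2.2.2.mono (show j + 1 ≤ 2 * L + 1 by omega)).not_end (hσ.inv a) (hσ.inv b) h1

lemma ShiftOK.not_pp_a (h : ShiftOK G σ a b L mu Lv F) (hz : σ a z = z) :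
    ¬ PP (σ a) (σ b) L Lv κ z := by
  intro hp
  obtain ⟨v, j, h1, h2, _, rfl⟩ := h.pp_elim hp
  rcases Nat.eq_zero_or_pos j with rfl | hj
  · exact (h.src v h1).ne_a hz
  · exact (src_interior h.proper (h.src v h1) h2 hj).1 hz

lemma ShiftOK.pp_b (h : ShiftOK G σ a b L mu Lv F) (hz : σ b z = z)
    (hp : PP (σ a) (σ b) L Lv κ z) : Lv z := by
  obtain ⟨v, j, h1, h2, _, rfl⟩ := h.pp_elim hp
  rcases Nat.eq_zero_or_pos j with rfl | hj
  · exact h1
  · exact absurd hz (src_interior h.proper (h.src v h1) h2 hj).2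

lemma muL_invol (h : Involutive mu) (Lv : V → Prop) : Involutive (muL mu Lv) := by
  intro v
  unfold muL
  by_cases hv : Lv v ∨ Lv (mu v)
  · rw [if_pos hv, h v, if_pos hv.symm]
  · rw [if_neg hv, if_neg hv]

lemma muL_fix (h1 : ¬ Lv v) (h2 : ¬ Lv (mu v)) : muL mu Lv v = v := if_neg (by tauto)

lemma muL_ne (h : muL mu Lv v ≠ v) : (Lv v ∨ Lv (mu v)) ∧ muL mu Lv v = mu v := by
  by_cases hv : Lv v ∨ Lv (mu v)
  · exact ⟨hv, if_pos hv⟩
  · exact absurd (if_neg hv) h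

lemma ShiftOK.muL_unc (h : ShiftOK G σ a b L mu Lv F) (hv : muL mu Lv v ≠ v) :
    Unc G σ v (muL mu Lv v) := by
  have := (muL_ne hv).2
  rw [this] at hv ⊢
  exact h.unc v hv

lemma ShiftOK.shift_proper (h : ShiftOK G σ a b L mu Lv F) (hτ : Compat G σ τ a b) :
    Proper G (shiftC a b L mu Lv F κ σ τ) :=
  (hτ.proper.flipC h.ab _).colourC a (muL_invol h.inv Lv)
    fun v hv => (hτ.unc _ _ (h.muL_unc hv)).flipC h.ab _

lemma shift_other (ha : p ≠ a) (hb : p ≠ b) : shiftC a b L mu Lv F κ σ τ p = τ p := by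
  rw [shiftC, colourC_other ha, flipC_other ha hb]

lemma shift_congr (hab : a ≠ b) (ea : τ a = σ a) (eb : τ b = σ b) (hp : p = a ∨ p = b) :
    shiftC a b L mu Lv F κ σ τ p = shiftC a b L mu Lv F κ σ σ p := by
  rcases hp with rfl | rfl
  · simp only [shiftC, colourC_self, flipC_left, ea, eb]
  · simp only [shiftC, colourC_other hab.symm, flipC_right hab, ea, eb]

/-- Both ends of a live matching edge miss `a` after the flip. -/
lemma ShiftOK.live_holes (h : ShiftOK G σ a b L mu Lv F) (hτ : Compat G σ τ a b)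
    (hκ : ∀ v, Lv v → 1 ≤ κ v) (hv : Lv v) :
    flipC (fun z => F z ∨ PP (σ a) (σ b) L Lv κ z) a b τ a v = v ∧
    flipC (fun z => F z ∨ PP (σ a) (σ b) L Lv κ z) a b τ a (mu v) = mu v := by
  have hs := h.src v hv
  have hp : PP (σ a) (σ b) L Lv κ v := (h.pp_iff (j := 0) hv (Nat.zero_le _)).2 (hκ v hv)
  constructor
  · rw [flipC_left, hτ.ea, hτ.eb, flip1_in (F := fun z => F z ∨ PP (σ a) (σ b) L Lv κ z)
      (Or.inr hp) (by rw [hs.2.1]; exact Or.inr hp), hs.2.1]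
  · refine flipC_hole h.ab ?_ (by rw [hτ.ea]; exact hs.2.2.1)
    rintro (hF | hP)
    · exact h.nF' v hv hF
    · exact h.not_pp_a hs.2.2.1 hP

lemma ShiftOK.col_cond (h : ShiftOK G σ a b L mu Lv F) (hτ : Compat G σ τ a b)
    (hκ : ∀ v, Lv v → 1 ≤ κ v) (hz : Lv z ∨ Lv (mu z)) :
    muL mu Lv z ≠ z ∧ flipC (fun z => F z ∨ PP (σ a) (σ b) L Lv κ z) a b τ a z = z ∧
      flipC (fun z => F z ∨ PP (σ a) (σ b) L Lv κ z) a b τ a (muL mu Lv z) = muL mu Lv z := by
  have e : muL mu Lv z = mu z := if_pos hz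
  rw [e]
  rcases hz with hz | hz
  · exact ⟨(h.src z hz).1, h.live_holes hτ hκ hz⟩
  · have := h.live_holes hτ hκ hz
    have h1 := (h.src _ hz).1
    rw [h.inv] at this h1
    exact ⟨h1.symm, this.2, this.1⟩

lemma nbr_trk (hσ : Proper G σ) (hp : p = a ∨ p = b) (v : V) (j : ℕ) :
    σ p (walk (σ a) (σ b) (j + 1) v) = walk (σ a) (σ b) (j + 2) v ∨
      σ p (walk (σ a) (σ b) (j + 1) v) = walk (σ a) (σ b) j v := by
  have e1 := walk_succ' (σ a) (σ b) (j + 1) v
  have e2 : alt (σ a) (σ b) j (walk (σ a) (σ b) (j + 1) v) = walk (σ a) (σ b) j v := by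
    rw [walk_succ', alt_invol (hσ.inv a) (hσ.inv b) j]
  rw [alt_succ] at e1
  rcases alt_cases (σ a) (σ b) j with e | e <;> rw [e.2] at e1 <;> rw [e.1] at e2 <;>
    rcases hp with rfl | rfl
  · exact Or.inr e2
  · exact Or.inl e1.symm
  · exact Or.inl e1.symm
  · exact Or.inr e2

/-- `z` is the vertex number `j` of a live track, close to the position `k`. -/
def Zone (f g : V → V) (L W : ℕ) (Lv : V → Prop) (k : V → ℕ) (z : V) (j : ℕ) : Prop :=
  j ≤ L ∧ Lv (back f g j z) ∧ k (back f g j z) ≤ j + 1 ∧ j ≤ k (back f g j z) + W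

lemma ShiftOK.pp_congr (h : ShiftOK G σ a b L mu Lv F) {W : ℕ}
    (hκ : ∀ v, Lv v → 2 ≤ κ v ∧ κ v + W ≤ L) (hκ' : ∀ v, Lv v → κ v ≤ κ' v ∧ κ' v ≤ κ v + W)
    (hz : ∀ j, Zone (σ a) (σ b) L W Lv κ z j →
      κ' (back (σ a) (σ b) j z) = κ (back (σ a) (σ b) j z))
    {w : V} (hw : w = z ∨ w = σ a z ∨ w = σ b z) :
    PP (σ a) (σ b) L Lv κ' w ↔ PP (σ a) (σ b) L Lv κ w := by
  constructor
  · intro hp
    obtain ⟨v, j, h1, h2, h3, rfl⟩ := h.pp_elim hp
    rw [h.pp_iff h1 h2]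
    by_contra hn
    have k1 := hκ v h1
    have k2 := hκ' v h1
    have key : ∀ j', z = walk (σ a) (σ b) j' v → j ≤ j' + 1 → j' ≤ j + 1 → False := by
      intro j' e i1 i2
      have eb : back (σ a) (σ b) j' z = v := by
        rw [e, back_walk (h.proper.inv a) (h.proper.inv b)]
      have := hz j' ⟨by omega, by rwa [eb], by rw [eb]; omega, by rw [eb]; omega⟩
      rw [eb] at this
      omega
    obtain ⟨j, rfl⟩ : ∃ i, j = i + 1 := ⟨j - 1, by omega⟩
    rcases hw with hw | hw | hw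
    · exact key (j + 1) hw.symm (by omega) (by omega)
    · have e : z = σ a (walk (σ a) (σ b) (j + 1) v) := by rw [hw, h.proper.inv a]
      rcases nbr_trk h.proper (Or.inl rfl) v j with e' | e'
      · exact key (j + 2) (e.trans e') (by omega) (by omega)
      · exact key j (e.trans e') (by omega) (by omega)
    · have e : z = σ b (walk (σ a) (σ b) (j + 1) v) := by rw [hw, h.proper.inv b]
      rcases nbr_trk h.proper (Or.inr rfl) v j with e' | e'
      · exact key (j + 2) (e.trans e') (by omega) (by omega)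
      · exact key j (e.trans e') (by omega) (by omega)
  · rintro ⟨j, h1, h2, h3⟩
    exact ⟨j, h1, h2, h3.trans_le (hκ' _ h2).1⟩

/-- Moving other sources does not change the colours `a`, `b` at `z`. -/
lemma ShiftOK.shift_eq (h : ShiftOK G σ a b L mu Lv F) (hτ : Compat G σ τ a b) {W : ℕ}
    (hκ : ∀ v, Lv v → 2 ≤ κ v ∧ κ v + W ≤ L) (hκ' : ∀ v, Lv v → κ v ≤ κ' v ∧ κ' v ≤ κ v + W)
    (hz : ∀ j, Zone (σ a) (σ b) L W Lv κ z j →
      κ' (back (σ a) (σ b) j z) = κ (back (σ a) (σ b) j z)) (hp : p = a ∨ p = b) :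
    shiftC a b L mu Lv F κ' σ τ p z = shiftC a b L mu Lv F κ σ τ p z := by
  have e0 := h.pp_congr hκ hκ' hz (Or.inl rfl)
  have ea := h.pp_congr hκ hκ' hz (Or.inr (Or.inl rfl))
  have eb := h.pp_congr hκ hκ' hz (Or.inr (Or.inr rfl))
  have hfl : ∀ p, p = a ∨ p = b →
      flipC (fun z => F z ∨ PP (σ a) (σ b) L Lv κ' z) a b τ p z =
        flipC (fun z => F z ∨ PP (σ a) (σ b) L Lv κ z) a b τ p z := by
    rintro p (rfl | rfl)
    · simp only [flipC_left, flip1, hτ.ea, hτ.eb, e0, ea, eb]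
    · simp only [flipC_right h.ab, flip1, hτ.ea, hτ.eb, e0, ea, eb]
  by_cases hm : Lv z ∨ Lv (mu z)
  · rcases hp with rfl | rfl
    · have c1 := h.col_cond (κ := κ) hτ (fun v hv => by have := hκ v hv; omega) hm
      have c2 := h.col_cond (κ := κ') hτ
        (fun v hv => by have := hκ v hv; have := hκ' v hv; omega) hm
      rw [shiftC, shiftC, colourC_self, colourC_self, col1_pos c1.1 c1.2.1 c1.2.2,
        col1_pos c2.1 c2.2.1 c2.2.2]
    · rw [shiftC, shiftC, colourC_other h.ab.symm, colourC_other h.ab.symm]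
      exact hfl _ (Or.inr rfl)
  · have e : muL mu Lv z = z := if_neg hm
    rw [shiftC, shiftC, colourC_fix e, colourC_fix e]
    exact hfl p hp

lemma ShiftOK.muL_interior (h : ShiftOK G σ a b L mu Lv F) (ha : σ a z ≠ z) (hb : σ b z ≠ z) :
    muL mu Lv z = z := by
  refine muL_fix (fun hz => hb (h.src z hz).2.1) fun hz => ha ?_
  have := (h.src _ hz).2.2.1
  rwa [h.inv] at this

/-- The vertex at the new position misses the colour of the uncoloured edge. -/
lemma ShiftOK.shift_hole (h : ShiftOK G σ a b L mu Lv F) (hτ : Compat G σ τ a b) (hv : Lv v)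
    (h1 : 1 ≤ κ v) (hL : κ v ≤ L) (hα : alt b a (κ v) = α) :
    shiftC a b L mu Lv F κ σ τ α (walk (σ a) (σ b) (κ v) v) = walk (σ a) (σ b) (κ v) v := by
  have hi := src_interior h.proper (h.src v hv) hL h1
  rw [shiftC, colourC_fix (h.muL_interior hi.1 hi.2)]
  obtain ⟨j, hj⟩ : ∃ j, κ v = j + 1 := ⟨κ v - 1, by omega⟩
  have hn : ¬ (F (walk (σ a) (σ b) (κ v) v) ∨ PP (σ a) (σ b) L Lv κ (walk (σ a) (σ b) (κ v) v)) := by
    rintro (hF | hP)
    · exact h.nF v hv _ hL hF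
    · exact lt_irrefl _ ((h.pp_iff hv hL).1 hP)
  have hback : σ α (walk (σ a) (σ b) (κ v) v) = walk (σ a) (σ b) j v := by
    rw [← hα, alt_map σ, hj, alt_succ, walk_succ', alt_invol (h.proper.inv a) (h.proper.inv b) j]
  have hp : F (σ α (walk (σ a) (σ b) (κ v) v)) ∨
      PP (σ a) (σ b) L Lv κ (σ α (walk (σ a) (σ b) (κ v) v)) := by
    rw [hback]
    exact Or.inr ((h.pp_iff hv (by omega)).2 (by omega))
  rcases alt_cases b a (κ v) with e | e
  · rw [e.1] at hα; subst hα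
    rw [flipC_right h.ab, hτ.ea, hτ.eb]
    exact flip1_out' (F := fun z => F z ∨ PP (σ a) (σ b) L Lv κ z) hn hp
  · rw [e.1] at hα; subst hα
    rw [flipC_left, hτ.ea, hτ.eb]
    exact flip1_out' (F := fun z => F z ∨ PP (σ a) (σ b) L Lv κ z) hn hp

/-- The `p` edge at `z` leaves the initial segments. -/
def Out (f g : V → V) (L : ℕ) (Lv : V → Prop) (κ : V → ℕ) (s : V → V) (z : V) : Prop :=
  PP f g L Lv κ z ∧ ¬ PP f g L Lv κ (s z)

lemma ShiftOK.out_elim (h : ShiftOK G σ a b L mu Lv F) (hκ : ∀ v, Lv v → κ v ≤ L)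
    (hp : p = a ∨ p = b) (hz : Out (σ a) (σ b) L Lv κ (σ p) z) :
    ∃ j, j ≤ L ∧ Lv (back (σ a) (σ b) j z) ∧ κ (back (σ a) (σ b) j z) = j + 1 ∧
      alt a b j = p := by
  obtain ⟨v, j, h1, h2, h3, rfl⟩ := h.pp_elim hz.1
  have hk := hκ v h1
  refine ⟨j, h2, ?_⟩
  rw [back_walk (h.proper.inv a) (h.proper.inv b)]
  have hfw : σ (alt a b j) (walk (σ a) (σ b) j v) = walk (σ a) (σ b) (j + 1) v := by
    rw [walk_succ', alt_map σ]
  by_cases hc : alt a b j = p
  · refine ⟨h1, ?_, hc⟩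
    have := hz.2
    rw [← hc, hfw, h.pp_iff h1 (by omega)] at this
    omega
  · exfalso
    have hc' : alt b a j = p := by
      rcases alt_cases a b j with e | e <;> rcases hp with rfl | rfl <;> simp_all
    apply hz.2
    cases j with
    | zero =>
      rw [← hc', alt_zero, walk_zero, (h.src v h1).2.1]
      exact hz.1
    | succ j =>
      rw [← hc', alt_map σ, alt_succ, walk_succ', alt_invol (h.proper.inv a) (h.proper.inv b) j,
        h.pp_iff h1 (by omega)]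
      omega

lemma bd_or_le (F F' : V → Prop) (s : V → V) (z : V) :
    ind (Bd (fun z => F z ∨ F' z) s z) ≤ ind (Bd F s z) + ind (Bd F' s z) :=
  (ind_mono (by unfold Bd; tauto)).trans (ind_or_le _ _)

lemma bd_pp_le {f g s : V → V} (hs : Involutive s) (z : V) :
    ind (Bd (PP f g L Lv κ) s z) ≤ ind (Out f g L Lv κ s z) + ind (Out f g L Lv κ s (s z)) :=
  (ind_mono (by unfold Bd Out; rw [hs]; tauto)).trans (ind_or_le _ _)

lemma ShiftOK.holes_shift (h : ShiftOK G σ a b L mu Lv F) (hτ : Compat G σ τ a b)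
    (hκ : ∀ v, Lv v → 1 ≤ κ v) (z : V) :
    holes (shiftC a b L mu Lv F κ σ τ) z ≤ holes τ z + ind (Bd F (σ a) z) + ind (Bd F (σ b) z) +
      (ind (Out (σ a) (σ b) L Lv κ (σ a) z) + ind (Out (σ a) (σ b) L Lv κ (σ a) (σ a z))) +
      (ind (Out (σ a) (σ b) L Lv κ (σ b) z) + ind (Out (σ a) (σ b) L Lv κ (σ b) (σ b z))) -
      (ind (Lv z) + ind (Lv (mu z))) := by
  rw [shiftC, holes_colourC]
  have h1 := holes_flipC h.ab (fun z => F z ∨ PP (σ a) (σ b) L Lv κ z) τ z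
  rw [hτ.ea, hτ.eb] at h1
  have h2 := bd_or_le F (PP (σ a) (σ b) L Lv κ) (σ a) z
  have h3 := bd_or_le F (PP (σ a) (σ b) L Lv κ) (σ b) z
  have h4 := bd_pp_le (f := σ a) (g := σ b) (L := L) (Lv := Lv) (κ := κ) (h.proper.inv a) z
  have h5 := bd_pp_le (f := σ a) (g := σ b) (L := L) (Lv := Lv) (κ := κ) (h.proper.inv b) z
  have h6 : ind (Lv z) + ind (Lv (mu z)) ≤ ind (muL mu Lv z ≠ z ∧
      flipC (fun z => F z ∨ PP (σ a) (σ b) L Lv κ z) a b τ a z = z ∧
      flipC (fun z => F z ∨ PP (σ a) (σ b) L Lv κ z) a b τ a (muL mu Lv z) = muL mu Lv z) := by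
    by_cases l1 : Lv z
    · have l2 : ¬ Lv (mu z) := fun l2 => by
        have := (h.src _ l2).2.2.1
        rw [h.inv] at this
        exact (h.src z l1).ne_a this
      rw [ind_pos l1, ind_neg l2, ind_pos (h.col_cond hτ hκ (Or.inl l1))]; norm_num
    · by_cases l2 : Lv (mu z)
      · rw [ind_neg l1, ind_pos l2, ind_pos (h.col_cond hτ hκ (Or.inr l2))]; norm_num
      · rw [ind_neg l1, ind_neg l2, add_zero]; exact ind_nonneg _
  linarith

lemma ShiftOK.shift_same (h : ShiftOK G σ a b L mu Lv F) (hτ : Compat G σ τ a b)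
    (h0 : ¬ (F z ∨ PP (σ a) (σ b) L Lv κ z)) (ha : ¬ (F (σ a z) ∨ PP (σ a) (σ b) L Lv κ (σ a z)))
    (hb : ¬ (F (σ b z) ∨ PP (σ a) (σ b) L Lv κ (σ b z))) (l1 : ¬ Lv z) (l2 : ¬ Lv (mu z))
    (p : Fin Δ) : shiftC a b L mu Lv F κ σ τ p z = τ p z := by
  rw [shiftC, colourC_fix (muL_fix l1 l2)]
  exact flipC_eq (F := fun z => F z ∨ PP (σ a) (σ b) L Lv κ z) h.ab h0 (by rwa [hτ.ea])
    (by rwa [hτ.eb]) p

lemma ShiftOK.shift_keep (h : ShiftOK G σ a b L mu Lv F) (hτ : Compat G σ τ a b) (hF : ¬ F z)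
    (l1 : ¬ Lv z) (l2 : ¬ Lv (mu z)) (hp : τ p z = z) : shiftC a b L mu Lv F κ σ τ p z = z := by
  rw [shiftC, colourC_fix (muL_fix l1 l2)]
  by_cases ha : p = a
  · subst ha
    refine flipC_hole h.ab ?_ hp
    rintro (h1 | h1)
    · exact hF h1
    · exact h.not_pp_a (by rwa [hτ.ea] at hp) h1
  by_cases hb : p = b
  · subst hb
    refine flipC_hole h.ab ?_ hp
    rintro (h1 | h1)
    · exact hF h1
    · exact l1 (h.pp_b (by rwa [hτ.eb] at hp) h1)
  · rw [flipC_other ha hb, hp]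

lemma ShiftOK.shift_unc (h : ShiftOK G σ a b L mu Lv F) (hτ : Compat G σ τ a b) {w : V}
    (l1 : ¬ Lv z) (l2 : ¬ Lv (mu z)) (hu : Unc G σ z w) :
    Unc G (shiftC a b L mu Lv F κ σ τ) z w :=
  ((hτ.unc _ _ hu).flipC h.ab _).colourC (by rw [muL_fix l1 l2]; exact hu.1.ne) a

/-- Inside `F` the colours are exchanged. -/
lemma ShiftOK.shift_flip (h : ShiftOK G σ a b L mu Lv F) (hα : α = a ∨ α = b)
    (hp : p = a ∨ p = b) (hne : p ≠ α) (h1 : F z) (h2 : F (σ p z)) :
    shiftC a b L mu Lv F κ σ σ α z = σ p z := by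
  have l1 : ¬ Lv z := fun l => h.nF z l 0 (Nat.zero_le _) h1
  have l2 : ¬ Lv (mu z) := fun l => h.nF' _ l (by rwa [h.inv])
  rw [shiftC, colourC_fix (muL_fix l1 l2)]
  rcases hα with rfl | rfl <;> rcases hp with rfl | rfl
  · exact absurd rfl hne
  · rw [flipC_left]
    exact flip1_in (F := fun z => F z ∨ PP (σ α) (σ p) L Lv κ z) (Or.inl h1) (Or.inl h2)
  · rw [flipC_right h.ab]
    exact flip1_in (F := fun z => F z ∨ PP (σ p) (σ α) L Lv κ z) (Or.inl h1) (Or.inl h2)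
  · exact absurd rfl hne

/-- Away from `F` and the live tracks the colour `α` is unchanged. -/
lemma ShiftOK.shift_stay (h : ShiftOK G σ a b L mu Lv F) (hα : α = a ∨ α = b)
    (h0 : ¬ (F z ∨ PP (σ a) (σ b) L Lv κ z)) (h1 : ¬ (F (σ α z) ∨ PP (σ a) (σ b) L Lv κ (σ α z)))
    (l1 : ¬ Lv z) (l2 : ¬ Lv (mu z)) : shiftC a b L mu Lv F κ σ σ α z = σ α z := by
  rw [shiftC, colourC_fix (muL_fix l1 l2)]
  rcases hα with rfl | rfl
  · rw [flipC_left]
    exact flip1_out (F := fun z => F z ∨ PP (σ α) (σ b) L Lv κ z) h0 h1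
  · rw [flipC_right h.ab]
    exact flip1_out (F := fun z => F z ∨ PP (σ a) (σ α) L Lv κ z) h0 h1

/-- The new edges of colour `a` or `b` are old `a b` edges or matching edges. -/
lemma ShiftOK.shift_cases (h : ShiftOK G σ a b L mu Lv F) (hα : α = a ∨ α = b) (z : V) :
    shiftC a b L mu Lv F κ σ σ α z = z ∨ shiftC a b L mu Lv F κ σ σ α z = σ a z ∨
      shiftC a b L mu Lv F κ σ σ α z = σ b z ∨ shiftC a b L mu Lv F κ σ σ α z = mu z := by
  rw [shiftC]
  rcases colourC_cases a (muL mu Lv) (flipC (fun z => F z ∨ PP (σ a) (σ b) L Lv κ z) a b σ) α z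
    with e | e
  · rw [e]
    rcases flipC_cases h.ab (fun z => F z ∨ PP (σ a) (σ b) L Lv κ z) σ α z with e' | e'
    · exact Or.inl e'
    · rw [e']
      rcases hα with rfl | rfl <;> split_ifs <;> simp
  · rw [e.2.2.2.2, (muL_ne e.2.1).2]
    simp

/-! ### The alternating path of an active vertex -/

/-- The smallest number with a property, or a default value. -/
noncomputable def pick (Gd : ℕ → Prop) (d : ℕ) : ℕ := if h : ∃ j, Gd j then Nat.find h else d

lemma pick_cases (Gd : ℕ → Prop) (d : ℕ) : Gd (pick Gd d) ∨ (pick Gd d = d ∧ ∀ j, ¬ Gd j) := by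
  by_cases h : ∃ j, Gd j
  · left; rw [pick, dif_pos h]; exact Nat.find_spec h
  · right; exact ⟨by rw [pick, dif_neg h], fun j hj => h ⟨j, hj⟩⟩

lemma lt_pick (Gd : ℕ → Prop) (d j : ℕ) :
    j < pick Gd d ↔ (∀ i, i ≤ j → ¬ Gd i) ∧ ((∃ i, Gd i) ∨ j < d) := by
  by_cases h : ∃ j, Gd j
  · rw [pick, dif_pos h, Nat.lt_find_iff]; tauto
  · rw [pick, dif_neg h]
    exact ⟨fun hj => ⟨fun i _ hi => h ⟨i, hi⟩, Or.inr hj⟩, fun hj => hj.2.resolve_left h⟩

/-- Window vertices of the right parity. -/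
def Win (σ : Fin Δ → V → V) (a b α : Fin Δ) (L W : ℕ) (Lv : V → Prop) (k : V → ℕ) (z : V) :
    Prop :=
  ∃ j, j ≤ L ∧ Lv (back (σ a) (σ b) j z) ∧ k (back (σ a) (σ b) j z) < j ∧
    j ≤ k (back (σ a) (σ b) j z) + W ∧ alt b a j = α

/-- The final positions. -/
noncomputable def newPos (σ : Fin Δ → V → V) (a b α : Fin Δ) (W : ℕ) (k : V → ℕ)
    (Hit : V → Prop) (v : V) : ℕ :=
  pick (fun j => k v < j ∧ j ≤ k v + W ∧ alt b a j = α ∧ Hit (walk (σ a) (σ b) j v)) (k v)

/-- Another vertex in the same zone is hit. -/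
def Bad (f g : V → V) (L W : ℕ) (Lv : V → Prop) (k : V → ℕ) (Hit : V → Prop) (z : V) : Prop :=
  ∃ j, Zone f g L W Lv k z j ∧ ∃ j', j' ≠ j ∧ k (back f g j z) ≤ j' + 1 ∧
    j' ≤ k (back f g j z) + W ∧ Hit (walk f g j' (back f g j z))

lemma newPos_range {W : ℕ} {k : V → ℕ} {Hit : V → Prop} (v : V) :
    k v ≤ newPos σ a b α W k Hit v ∧ newPos σ a b α W k Hit v ≤ k v + W := by
  rcases pick_cases (fun j => k v < j ∧ j ≤ k v + W ∧ alt b a j = α ∧
    Hit (walk (σ a) (σ b) j v)) (k v) with h | h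
  · exact ⟨h.1.le, h.2.1⟩
  · rw [newPos, h.1]; omega

lemma walk_two (C A : V → V) (t : ℕ) (r : V) :
    walk C A (2 * (t + 1) + 1) r = C (A (walk C A (2 * t + 1) r)) := by
  have e : 2 * (t + 1) + 1 = (2 * t + 1) + 1 + 1 := by ring
  rw [e, walk_succ', walk_succ', alt_odd]
  have : 2 * t + 1 + 1 = 2 * (t + 1) := by ring
  rw [this, alt_even]

lemma free_two (C A : V → V) (t : ℕ) (r : V) :
    Free C A (2 * (t + 1) + 1) r ↔ Free C A (2 * t + 1) r ∧
      A (walk C A (2 * t + 1) r) ≠ walk C A (2 * t + 1) r ∧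
      C (A (walk C A (2 * t + 1) r)) ≠ A (walk C A (2 * t + 1) r) := by
  have e : 2 * (t + 1) + 1 = (2 * t + 1) + 1 + 1 := by ring
  rw [e, free_succ', free_succ', walk_succ' C A (2 * t + 1), alt_odd, and_assoc]
  have : 2 * t + 1 + 1 = 2 * (t + 1) := by ring
  rw [this, alt_even]

/-- If the path of an active vertex meets no conflict and is long in the final colouring, then it
survives in the intermediate colouring. -/
lemma ShiftOK.survive (h : ShiftOK G σ a b L mu Lv F) (hτ : Compat G σ τ a b) {W m : ℕ}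
    {k : V → ℕ} (hk : ∀ v, Lv v → 2 ≤ k v ∧ k v + W ≤ L) (hα : α = a ∨ α = b) {γ : Fin Δ}
    (hγa : γ ≠ a) (hγb : γ ≠ b) {Act : V → Prop} {A : V → V} {Hit : V → Prop}
    (hA : A = shiftC a b L mu Lv F k σ σ α)
    (hHit : ∀ z, Hit z ↔ ∃ t, t < m ∧ Arr A (τ γ) (Win σ a b α L W Lv k) Act t z)
    {r : V} (hr : Act r)
    (hnc : ∀ t, t < m → Arr A (τ γ) (Win σ a b α L W Lv k) Act t (walk (τ γ) A (2 * t + 1) r) →
      ¬ Bad (σ a) (σ b) L W Lv k Hit (walk (τ γ) A (2 * t + 1) r))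
    {t : ℕ} (ht : t ≤ m)
    (hfree : Free (shiftC a b L mu Lv F (newPos σ a b α W k Hit) σ τ γ)
      (shiftC a b L mu Lv F (newPos σ a b α W k Hit) σ τ α) (2 * t + 1) r) :
    Arr A (τ γ) (Win σ a b α L W Lv k) Act t (walk (τ γ) A (2 * t + 1) r) := by
  rw [shift_other hγa hγb] at hfree
  have hC := hτ.proper.inv γ
  have hAi : Involutive A := by
    rw [hA]; exact (h.shift_proper (Compat.refl h.proper)).inv α
  set A' := shiftC a b L mu Lv F (newPos σ a b α W k Hit) σ τ α with hA'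
  suffices H : Arr A (τ γ) (Win σ a b α L W Lv k) Act t (walk (τ γ) A (2 * t + 1) r) ∧
      walk (τ γ) A' (2 * t + 1) r = walk (τ γ) A (2 * t + 1) r from H.1
  induction t with
  | zero =>
    refine ⟨⟨?_, ?_⟩, rfl⟩
    · show τ γ (τ γ r) ≠ τ γ r
      rw [hC]; exact hfree.1.symm
    · show Act (τ γ (τ γ r))
      rw [hC]; exact hr
  | succ t ih =>
    rw [free_two] at hfree
    obtain ⟨i1, i2⟩ := ih (by omega) hfree.1
    rw [i2] at hfree
    set z := walk (τ γ) A (2 * t + 1) r with hz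
    have hb := hnc t (by omega) i1
    have hhit : Hit z := (hHit z).2 ⟨t, by omega, i1⟩
    have hw : ¬ Win σ a b α L W Lv k z := by
      rintro ⟨j, w1, w2, w3, w4, w5⟩
      set v := back (σ a) (σ b) j z with hv
      have ez : walk (σ a) (σ b) j v = z := walk_back (h.proper.inv a) (h.proper.inv b) _ _
      have hj : newPos σ a b α W k Hit v = j := by
        rcases pick_cases (fun j => k v < j ∧ j ≤ k v + W ∧ alt b a j = α ∧
          Hit (walk (σ a) (σ b) j v)) (k v) with g | g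
        · by_contra hne
          exact hb ⟨j, ⟨w1, w2, by rw [← hv]; omega, w4⟩, _, hne,
            by have := g.1; rw [← hv]; unfold newPos; omega, g.2.1, g.2.2.2⟩
        · exact absurd ⟨w3, w4, w5, by rwa [ez]⟩ (g.2 j)
      have := h.shift_hole (κ := newPos σ a b α W k Hit) (α := α) (v := v) hτ w2 (by omega) (by omega)
        (by rw [hj]; exact w5)
      rw [hj, ez] at this
      exact hfree.2.1 this
    have hAA : A' z = A z := by
      rw [hA', hA, ← shift_congr h.ab hτ.ea hτ.eb hα]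
      refine h.shift_eq hτ hk (fun v _ => newPos_range v) (fun j hj => ?_) hα
      set v := back (σ a) (σ b) j z with hv
      have ez : walk (σ a) (σ b) j v = z := walk_back (h.proper.inv a) (h.proper.inv b) _ _
      rcases pick_cases (fun j => k v < j ∧ j ≤ k v + W ∧ alt b a j = α ∧
        Hit (walk (σ a) (σ b) j v)) (k v) with g | g
      · exfalso
        by_cases hne : newPos σ a b α W k Hit v = j
        · unfold newPos at hne
          rw [hne] at g
          exact hw ⟨j, hj.1, hj.2.1, g.1, g.2.1, g.2.2.1⟩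
        · exact hb ⟨j, hj, _, hne, by have := g.1; rw [← hv]; unfold newPos; omega, g.2.1,
            g.2.2.2⟩
      · exact g.1
    rw [hAA] at hfree
    rw [walk_two, walk_two, i2, hAA]
    refine ⟨⟨?_, ?_, ?_, ?_⟩, rfl⟩
    · rw [hC]; exact hfree.2.2.symm
    · rw [hC, hAi]; exact hfree.2.1.symm
    · rw [hC, hAi]; exact hw
    · rw [hC, hAi]; exact i1

end Pool.Agent.MP_93f6c7_pr.K
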