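import Pool.Agent.MP_93f6c7_pr.K.Defs

/-! Half trees and non-backtracking sequences in acyclic graphs. -/

set_option autoImplicit false
open scoped Classical

namespace Pool.Agent.MP_93f6c7_pr.K

variable {V : Type} {G : SimpleGraph V}

/-- `v` is reached from `z` by a walk avoiding `w`. -/
inductive Avoid (G : SimpleGraph V) (w z : V) : V → Prop
  | refl : z ≠ w → Avoid G w z z
  | step {v v' : V} : Avoid G w z v → G.Adj v v' → v' ≠ w → Avoid G w z v'

lemma Avoid.ne {w z v : V} (h : Avoid G w z v) : v ≠ w := by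
  cases h with
  | refl h => exact h
  | step _ _ h => exact h

lemma Avoid.exists_walk {w z v : V} (h : Avoid G w z v) :
    ∃ p : G.Walk z v, w ∉ p.support := by
  induction h with
  | refl h => exact ⟨SimpleGraph.Walk.nil, by simpa using h.symm⟩
  | step _ hadj hne ih =>
    obtain ⟨p, hp⟩ := ih
    refine ⟨p.concat hadj, ?_⟩
    simp [hp, hne.symm]

lemma Avoid.unique (hG : G.IsAcyclic) {w z z' v : V} (h : Avoid G w z v) (h' : Avoid G w z' v)
    (a : G.Adj w z) (a' : G.Adj w z') : z = z' := by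
  by_contra hne
  obtain ⟨p, hp⟩ := h.exists_walk
  obtain ⟨p', hp'⟩ := h'.exists_walk
  have hq : w ∉ (p.append p'.reverse).support := by
    simp [hp, hp']
  let q := (p.append p'.reverse).toPath
  have hq2 : w ∉ q.1.support := fun hh => hq (SimpleGraph.Walk.support_toPath_subset_support _ hh)
  let r : G.Walk z z' := SimpleGraph.Walk.cons a.symm (SimpleGraph.Walk.cons a' SimpleGraph.Walk.nil)
  have hr : r.IsPath := by
    simp [r, SimpleGraph.Walk.isPath_def, a.ne', a'.ne, hne]
  have : q = ⟨r, hr⟩ := (hG.subsingleton_path _ _).elim _ _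
  apply hq2
  rw [this]
  simp [r]

lemma Avoid.nest (hG : G.IsAcyclic) {w z z' v : V} (a : G.Adj w z) (a' : G.Adj z z')
    (hne : z' ≠ w) (h : Avoid G z z' v) : Avoid G w z v := by
  induction h with
  | refl _ => exact (Avoid.refl a.ne').step a' hne
  | step hv hadj hne' ih =>
    refine ih.step hadj ?_
    rintro rfl
    exact hne ((hv.step hadj hne').unique hG (Avoid.refl a.ne) a' a.symm)

lemma nb_avoid (hG : G.IsAcyclic) (s : ℕ → V) (n : ℕ) (h1 : ∀ i < n, G.Adj (s i) (s (i + 1)))
    (h2 : ∀ i, i + 2 ≤ n → s (i + 2) ≠ s i) :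
    ∀ d i, i + 1 + d ≤ n → Avoid G (s i) (s (i + 1)) (s (i + 1 + d)) := by
  intro d
  induction d with
  | zero => intro i hi; exact Avoid.refl (h1 i (by omega)).ne'
  | succ d ih =>
    intro i hi
    have := ih (i + 1) (by omega)
    have e : i + 1 + (d + 1) = i + 1 + 1 + d := by omega
    rw [e]
    exact Avoid.nest hG (h1 i (by omega)) (h1 (i + 1) (by omega)) (h2 i (by omega)) this

lemma nb_ne (hG : G.IsAcyclic) (s : ℕ → V) (n : ℕ) (h1 : ∀ i < n, G.Adj (s i) (s (i + 1)))
    (h2 : ∀ i, i + 2 ≤ n → s (i + 2) ≠ s i) {i j : ℕ} (hij : i < j) (hj : j ≤ n) :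
    s j ≠ s i := by
  have := nb_avoid hG s n h1 h2 (j - i - 1) i (by omega)
  have e : i + 1 + (j - i - 1) = j := by omega
  rw [e] at this
  exact this.ne

/-- The vertices behind the neighbours `z` of `w` with `P z`. -/
def Side (G : SimpleGraph V) (w : V) (P : V → Prop) (v : V) : Prop :=
  ∃ z, G.Adj w z ∧ P z ∧ Avoid G w z v

lemma Side.ne {w v : V} {P : V → Prop} (h : Side G w P v) : v ≠ w := by
  obtain ⟨z, _, _, h⟩ := h
  exact h.ne

lemma Side.base {w z : V} {P : V → Prop} (a : G.Adj w z) (hP : P z) : Side G w P z :=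
  ⟨z, a, hP, Avoid.refl a.ne'⟩

lemma Side.step {w v v' : V} {P : V → Prop} (h : Side G w P v) (a : G.Adj v v') (hne : v' ≠ w) :
    Side G w P v' := by
  obtain ⟨z, h1, h2, h⟩ := h
  exact ⟨z, h1, h2, h.step a hne⟩

lemma Side.disj (hG : G.IsAcyclic) {w v : V} {P Q : V → Prop} (hPQ : ∀ z, P z → ¬ Q z)
    (h : Side G w P v) (h' : Side G w Q v) : False := by
  obtain ⟨z, h1, h2, h⟩ := h
  obtain ⟨z', h1', h2', h'⟩ := h'
  have := h.unique hG h' h1 h1'
  subst this
  exact hPQ _ h2 h2'

/-- If a vertex of a side is adjacent to the centre, it is one of the selected neighbours. -/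
lemma Side.of_adj (hG : G.IsAcyclic) {w v : V} {P : V → Prop} (h : Side G w P v)
    (a : G.Adj w v) : P v := by
  obtain ⟨z, h1, h2, h⟩ := h
  have := h.unique hG (Avoid.refl a.ne') h1 a
  subst this
  exact h2

lemma Side.subset {o z v : V} {P Q : V → Prop} (hz : Side G o P z) (ho : ¬ Side G z Q o)
    (h : Side G z Q v) : Side G o P v := by
  obtain ⟨w, h1, h2, h⟩ := h
  induction h with
  | refl _ =>
    refine hz.step h1 ?_
    rintro rfl
    exact ho (Side.base h1 h2)
  | step hv hadj hne ih =>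
    refine ih.step hadj ?_
    rintro rfl
    exact ho ⟨w, h1, h2, hv.step hadj hne⟩

end Pool.Agent.MP_93f6c7_pr.K
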