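import Pool.Agent.MP_93f6c7_pr.K.Tree

/-! Alternating walks of two involutions. -/

set_option autoImplicit false
open Function
open scoped Classical

namespace Pool.Agent.MP_93f6c7_pr.K

variable {V : Type} {G : SimpleGraph V}

/-- `a, b, a, b, ...` -/
def alt {α : Type} (a b : α) : ℕ → α
  | 0 => a
  | n + 1 => alt b a n

@[simp] lemma alt_zero {α : Type} (a b : α) : alt a b 0 = a := rfl
lemma alt_succ {α : Type} (a b : α) (n : ℕ) : alt a b (n + 1) = alt b a n := rfl

lemma alt_cases {α : Type} (a b : α) (n : ℕ) :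
    (alt a b n = a ∧ alt b a n = b) ∨ (alt a b n = b ∧ alt b a n = a) := by
  induction n generalizing a b with
  | zero => simp
  | succ n ih => simp only [alt_succ]; rcases ih a b with h | h <;> tauto

lemma alt_map {α β : Type} (F : α → β) (a b : α) (n : ℕ) :
    F (alt a b n) = alt (F a) (F b) n := by
  induction n generalizing a b with
  | zero => rfl
  | succ n ih => exact ih b a

lemma alt_add {α : Type} (a b : α) (m n : ℕ) :
    alt a b (m + n) = alt (alt a b m) (alt b a m) n := by
  induction m generalizing a b with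
  | zero => simp
  | succ m ih =>
    have : m + 1 + n = (m + n) + 1 := by omega
    rw [this, alt_succ, alt_succ, alt_succ, ih]

lemma alt_even {α : Type} (a b : α) (n : ℕ) : alt a b (2 * n) = a := by
  induction n with
  | zero => rfl
  | succ n ih => exact ih

lemma alt_odd {α : Type} (a b : α) (n : ℕ) : alt a b (2 * n + 1) = b := alt_even b a n

lemma alt_parity {α : Type} (a b : α) (m n : ℕ) :
    (alt a b m = alt a b n ∧ alt b a m = alt b a n ∧ (m + n) % 2 = 0) ∨
    (alt a b m = alt b a n ∧ alt b a m = alt a b n ∧ (m + n) % 2 = 1) := by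
  rcases Nat.even_or_odd' m with ⟨m, rfl | rfl⟩ <;> rcases Nat.even_or_odd' n with ⟨n, rfl | rfl⟩ <;>
    simp only [alt_even, alt_odd, true_and] <;> omega

variable {f g : V → V}

@[simp] lemma walk_zero (f g : V → V) (v : V) : walk f g 0 v = v := rfl
lemma walk_succ (f g : V → V) (n : ℕ) (v : V) : walk f g (n + 1) v = walk g f n (f v) := rfl
@[simp] lemma free_zero (f g : V → V) (v : V) : Free f g 0 v := trivial
lemma free_succ (f g : V → V) (n : ℕ) (v : V) :
    Free f g (n + 1) v ↔ f v ≠ v ∧ Free g f n (f v) := Iff.rfl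

lemma walk_succ' (f g : V → V) (n : ℕ) (v : V) :
    walk f g (n + 1) v = alt f g n (walk f g n v) := by
  induction n generalizing f g v with
  | zero => rfl
  | succ n ih => rw [walk_succ, ih, alt_succ, walk_succ]

lemma free_succ' (f g : V → V) (n : ℕ) (v : V) :
    Free f g (n + 1) v ↔ Free f g n v ∧ alt f g n (walk f g n v) ≠ walk f g n v := by
  induction n generalizing f g v with
  | zero => simp [free_succ]
  | succ n ih => rw [free_succ, ih, free_succ, alt_succ, walk_succ, and_assoc]

lemma Free.mono {m n : ℕ} {v : V} (h : Free f g n v) (hmn : m ≤ n) : Free f g m v := by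
  induction hmn with
  | refl => exact h
  | step _ ih => exact ih ((free_succ' _ _ _ _).1 h).1

lemma Free.step {n i : ℕ} {v : V} (h : Free f g n v) (hi : i < n) :
    alt f g i (walk f g i v) ≠ walk f g i v :=
  ((free_succ' _ _ _ _).1 (h.mono hi)).2

lemma walk_add (f g : V → V) (m n : ℕ) (v : V) :
    walk f g (m + n) v = walk (alt f g m) (alt g f m) n (walk f g m v) := by
  induction m generalizing f g v with
  | zero => simp
  | succ m ih =>
    have : m + 1 + n = (m + n) + 1 := by omega
    rw [this, walk_succ, ih, alt_succ, alt_succ, walk_succ]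

lemma free_add (f g : V → V) (m n : ℕ) (v : V) :
    Free f g (m + n) v ↔ Free f g m v ∧ Free (alt f g m) (alt g f m) n (walk f g m v) := by
  induction m generalizing f g v with
  | zero => simp
  | succ m ih =>
    have : m + 1 + n = (m + n) + 1 := by omega
    rw [this, free_succ, ih, alt_succ, alt_succ, walk_succ, free_succ, and_assoc]

/-- The inverse of `walk f g n`. -/
def back (f g : V → V) (n : ℕ) : V → V := walk (alt g f n) (alt f g n) n

@[simp] lemma back_zero (f g : V → V) (v : V) : back f g 0 v = v := rfl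
lemma back_succ (f g : V → V) (n : ℕ) (v : V) :
    back f g (n + 1) v = back f g n (alt f g n v) := rfl

lemma alt_invol (hf : Involutive f) (hg : Involutive g) (n : ℕ) : Involutive (alt f g n) := by
  rcases alt_cases f g n with h | h <;> rw [h.1] <;> assumption

lemma back_walk (hf : Involutive f) (hg : Involutive g) (n : ℕ) (v : V) :
    back f g n (walk f g n v) = v := by
  induction n with
  | zero => rfl
  | succ n ih => rw [back_succ, walk_succ', alt_invol hf hg n, ih]

lemma walk_back (hf : Involutive f) (hg : Involutive g) (n : ℕ) (v : V) :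
    walk f g n (back f g n v) = v := by
  induction n generalizing v with
  | zero => rfl
  | succ n ih => rw [back_succ, walk_succ', ih, alt_invol hf hg n]

lemma walk_eq_iff (hf : Involutive f) (hg : Involutive g) (n : ℕ) (v z : V) :
    walk f g n v = z ↔ v = back f g n z :=
  ⟨fun h => by rw [← h, back_walk hf hg], fun h => by rw [h, walk_back hf hg]⟩

lemma walk_rev (hf : Involutive f) (hg : Involutive g) {n i : ℕ} (hi : i ≤ n) (v : V) :
    walk (alt g f n) (alt f g n) i (walk f g n v) = walk f g (n - i) v := by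
  induction i generalizing n with
  | zero => rfl
  | succ i ih =>
    obtain ⟨n, rfl⟩ : ∃ m, n = m + 1 := ⟨n - 1, by omega⟩
    rw [walk_succ, alt_succ, alt_succ, walk_succ', alt_invol hf hg n, ih (by omega)]
    congr 1; omega

lemma Free.rev (hf : Involutive f) (hg : Involutive g) {n : ℕ} {v : V} (h : Free f g n v) :
    Free (alt g f n) (alt f g n) n (walk f g n v) := by
  induction n with
  | zero => trivial
  | succ n ih =>
    rw [free_succ'] at h
    rw [free_succ, alt_succ, alt_succ, walk_succ', alt_invol hf hg n]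
    exact ⟨h.2.symm, ih h.1⟩

/-- The backward step at an interior point of a free walk moves. -/
lemma Free.back_step (hf : Involutive f) (hg : Involutive g) {n : ℕ} {v : V}
    (h : Free f g (n + 1) v) :
    alt g f (n + 1) (walk f g (n + 1) v) = walk f g n v ∧
      walk f g n v ≠ walk f g (n + 1) v := by
  rw [free_succ'] at h
  rw [alt_succ, walk_succ', alt_invol hf hg n]
  exact ⟨rfl, h.2.symm⟩

lemma Free.not_end (hf : Involutive f) (hg : Involutive g) {n : ℕ} {v : V}
    (h : Free f g (n + 1) v) (hn : 1 ≤ n) :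
    f (walk f g n v) ≠ walk f g n v ∧ g (walk f g n v) ≠ walk f g n v := by
  obtain ⟨n, rfl⟩ : ∃ m, n = m + 1 := ⟨n - 1, by omega⟩
  have h1 := h.step (Nat.lt_succ_self _)
  have h2 := (h.mono (Nat.le_succ _)).back_step hf hg
  have h3 : alt g f (n + 1) (walk f g (n + 1) v) ≠ walk f g (n + 1) v := by
    rw [h2.1]; exact h2.2
  rcases alt_cases f g (n + 1) with h | h
  · rw [h.1] at h1; rw [h.2] at h3; exact ⟨h1, h3⟩
  · rw [h.1] at h1; rw [h.2] at h3; exact ⟨h3, h1⟩

/-- Initial segments of long alternating paths are disjoint. -/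
lemma track_unique (hf : Involutive f) (hg : Involutive g) {L j j' : ℕ} {v v' : V}
    (h : g v = v) (h' : g v' = v') (hv : Free f g (2 * L + 1) v) (hv' : Free f g (2 * L + 1) v')
    (hj : j ≤ L) (hj' : j' ≤ L) (he : walk f g j v = walk f g j' v') : v = v' ∧ j = j' := by
  wlog hle : j' ≤ j generalizing j j' v v'
  · obtain ⟨h1, h2⟩ := this h' h hv' hv hj' hj he.symm (by omega)
    exact ⟨h1.symm, h2.symm⟩
  have hb : back f g j' (walk f g j v) = v' := by rw [he, back_walk hf hg]
  rcases alt_parity f g j j' with ⟨h1, h2, _⟩ | ⟨h1, h2, h3⟩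
  · have := walk_rev hf hg hle v
    rw [h1, h2] at this
    have e : walk f g (j - j') v = v' := by rw [← this]; exact hb
    by_cases hjj : j = j'
    · subst hjj; simpa using e
    · have := ((hv.mono (show j - j' + 1 ≤ 2 * L + 1 by omega)).not_end hf hg (by omega)).2
      rw [e] at this
      exact absurd h' this
  · have := walk_add f g j j' v
    rw [h1, h2] at this
    have e : walk f g (j + j') v = v' := by rw [this]; exact hb
    have := ((hv.mono (show j + j' + 1 ≤ 2 * L + 1 by omega)).not_end hf hg (by omega)).2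
    rw [e] at this
    exact absurd h' this

/-- A free walk contains at most one end after its start. -/
lemma exists_end (hf : Involutive f) (hg : Involutive g) (z : V) :
    ∃ e, (∃ i, Free f g i z ∧ e = walk f g i z) ∧ ∀ i, 1 ≤ i → Free f g i z →
      (f (walk f g i z) = walk f g i z ∨ g (walk f g i z) = walk f g i z) → walk f g i z = e := by
  by_cases h : ∃ i, 1 ≤ i ∧ Free f g i z ∧
      (f (walk f g i z) = walk f g i z ∨ g (walk f g i z) = walk f g i z)
  · obtain ⟨i₀, h1, h2, h3⟩ := h
    refine ⟨walk f g i₀ z, ⟨i₀, h2, rfl⟩, fun i hi hfi he => ?_⟩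
    rcases lt_trichotomy i i₀ with hlt | heq | hlt
    · have := (h2.mono (show i + 1 ≤ i₀ by omega)).not_end hf hg hi
      tauto
    · rw [heq]
    · have := (hfi.mono (show i₀ + 1 ≤ i by omega)).not_end hf hg h1
      tauto
  · exact ⟨z, ⟨0, trivial, rfl⟩, fun i hi hfi he => absurd ⟨i, hi, hfi, he⟩ h⟩

/-- Two edge-disjoint matchings of `G`. -/
structure Pair (G : SimpleGraph V) (f g : V → V) : Prop where
  inv1 : Involutive f
  inv2 : Involutive g
  adj1 : ∀ v, f v ≠ v → G.Adj v (f v)
  adj2 : ∀ v, g v ≠ v → G.Adj v (g v)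
  disj : ∀ v, f v ≠ v → f v ≠ g v

lemma Pair.symm (h : Pair G f g) : Pair G g f :=
  ⟨h.inv2, h.inv1, h.adj2, h.adj1, fun v hv he => h.disj v (by rw [← he]; exact hv) he.symm⟩

lemma Pair.alt (h : Pair G f g) (n : ℕ) : Pair G (alt f g n) (alt g f n) := by
  rcases alt_cases f g n with e | e <;> rw [e.1, e.2]
  · exact h
  · exact h.symm

lemma Proper.pair {Δ : ℕ} {σ : Fin Δ → V → V} (h : Proper G σ) {a b : Fin Δ} (hab : a ≠ b) :
    Pair G (σ a) (σ b) :=
  ⟨h.inv a, h.inv b, h.adj a, h.adj b, fun v => h.disj a b v hab⟩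

lemma Pair.walk_adj (h : Pair G f g) {n i : ℕ} {v : V} (hv : Free f g n v) (hi : i < n) :
    G.Adj (walk f g i v) (walk f g (i + 1) v) := by
  rw [walk_succ']
  exact (h.alt i).adj1 _ (hv.step hi)

lemma Pair.walk_nb (h : Pair G f g) {n i : ℕ} {v : V} (hv : Free f g n v) (hi : i + 2 ≤ n) :
    walk f g (i + 2) v ≠ walk f g i v := by
  have h1 := hv.step (show i + 1 < n by omega)
  have h2 := (hv.mono (show i + 1 ≤ n by omega)).back_step h.inv1 h.inv2
  rw [walk_succ', ← h2.1]
  exact (h.alt (i + 1)).disj _ h1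

lemma Pair.walk_inj (hG : G.IsAcyclic) (h : Pair G f g) {n i j : ℕ} {v : V} (hv : Free f g n v)
    (hij : i < j) (hj : j ≤ n) : walk f g j v ≠ walk f g i v :=
  nb_ne hG (fun i => walk f g i v) n (fun _ hi => h.walk_adj hv hi)
    (fun _ hi => h.walk_nb hv hi) hij hj

lemma Pair.walk_ne (hG : G.IsAcyclic) (h : Pair G f g) {i : ℕ} {u v : V} (a : G.Adj u v)
    (h1 : f u ≠ v) (hv : Free f g i u) : walk f g i u ≠ v := by
  let s : ℕ → V := fun k => Nat.casesOn k v (fun k => walk f g k u)
  have := nb_ne hG s (i + 1) ?_ ?_ (Nat.succ_pos i) le_rfl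
  · exact this
  · intro k hk
    cases k with
    | zero => exact a.symm
    | succ k => exact h.walk_adj hv (by omega)
  · intro k hk
    cases k with
    | zero => exact h1
    | succ k => exact h.walk_nb hv (by omega)

/-! ### Transport along an injective map on a closed set -/

/-- `φ` transports `f'` to `f` on the set `D`, which is closed under `f'`. -/
structure Loc (φ : V → V) (D : Set V) (f' f : V → V) : Prop where
  mem : ∀ v ∈ D, f' v ∈ D
  eq : ∀ v ∈ D, φ (f' v) = f (φ v)

variable {φ : V → V} {D : Set V} {f' g' : V → V}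

lemma Loc.walk (hf : Loc φ D f' f) (hg : Loc φ D g' g) (n : ℕ) :
    Loc φ D (walk f' g' n) (walk f g n) := by
  induction n generalizing f g f' g' with
  | zero => exact ⟨fun v hv => hv, fun v _ => rfl⟩
  | succ n ih =>
    refine ⟨fun v hv => (ih hg hf).mem _ (hf.mem v hv), fun v hv => ?_⟩
    rw [walk_succ, walk_succ, (ih hg hf).eq _ (hf.mem v hv), hf.eq v hv]

lemma Loc.alt (hf : Loc φ D f' f) (hg : Loc φ D g' g) (n : ℕ) :
    Loc φ D (alt f' g' n) (alt f g n) := by
  induction n generalizing f g f' g' with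
  | zero => exact hf
  | succ n ih => exact ih hg hf

lemma Loc.back (hf : Loc φ D f' f) (hg : Loc φ D g' g) (n : ℕ) :
    Loc φ D (back f' g' n) (back f g n) :=
  (hg.alt hf n).walk (hf.alt hg n) n

lemma Loc.fix_iff (hφ : Injective φ) (hf : Loc φ D f' f) {v : V} (hv : v ∈ D) :
    f' v = v ↔ f (φ v) = φ v := by
  rw [← hf.eq v hv, hφ.eq_iff]

lemma Loc.free (hφ : Injective φ) (hf : Loc φ D f' f) (hg : Loc φ D g' g) (n : ℕ) {v : V}
    (hv : v ∈ D) : Free f' g' n v ↔ Free f g n (φ v) := by
  induction n generalizing f g f' g' v with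
  | zero => simp
  | succ n ih =>
    rw [free_succ, free_succ, ih hg hf (hf.mem v hv), hf.eq v hv, Ne, Ne, hf.fix_iff hφ hv]

end Pool.Agent.MP_93f6c7_pr.K
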